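import Pool.Agent.Lib.MP_b6f35e_al.ZK.Defs
import Pool.Agent.Lib.MP_b6f35e_al.WH.Spec

/-!
# Specification of the modules of ZK: `K_{-1}(ℤ[G])` (MP_b6f35e_al)

Goal (`SpecFinal`): for every group `G` the kernel of `colim K_{-1}(ℤ[H]) → K_{-1}(ℤ[G])`
(`H` finite) is torsion.  Plan: /team-store/MP_b6f35e_al_ZK_PLAN_h28.md
-/

set_option autoImplicit false

noncomputable section

namespace Pool.Agent.Lib.MPb6f35e.ZK

open Pool.Agent.Lib.MPb6f35e.WH (FinSub conjHom K1)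

universe u v w w'

/-! ### module KA: `K_0` by idempotent matrices indexed by any finite type -/

/-- The class in `K_0(A)` of an idempotent matrix indexed by any finite type. -/
def K0.clsF {A : Type u} [Ring A] {ι : Type w} [Fintype ι] (e : Matrix ι ι A)
    (h : e * e = e) : K0 A :=
  K0.cls (Matrix.reindex (Fintype.equivFin ι) (Fintype.equivFin ι) e) (by
    rw [Matrix.reindex_apply, Matrix.submatrix_mul_equiv, h])

/-- Equivalence of idempotents: `e = a b`, `f = b a`. -/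
def Eqv {A : Type u} [Ring A] {ι : Type w} {κ : Type w'} [Fintype ι] [Fintype κ]
    (e : Matrix ι ι A) (f : Matrix κ κ A) : Prop :=
  ∃ (a : Matrix ι κ A) (b : Matrix κ ι A), a * b = e ∧ b * a = f

/-- `λ(t) ↦ λ(1)`, as an endomorphism of `A[t, t⁻¹]` -/
def c1 (A : Type u) [Ring A] : Lau A →+* Lau A :=
  AddMonoidAlgebra.mapDomainRingHom A (0 : ℤ →+ ℤ)

/-- The class of the free module of rank one. -/
def K0.one (A : Type u) [Ring A] : K0 A := K0.cls (1 : Matrix (Fin 1) (Fin 1) A) (mul_one 1)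

/-- KA: (a) classes, equivalence, sums; (b) `[1 - e]`; (c) naturality; (d) stable
equivalence; (e) every element is `[e] - m [1]`; (f) constants vanish in `K_{-1}`. -/
structure SpecKA : Prop where
  cls : ∀ (A : Type u) [Ring A] (n : ℕ) (e : Matrix (Fin n) (Fin n) A) (h : e * e = e),
    K0.clsF e h = K0.cls e h
  eqv : ∀ (A : Type u) [Ring A] (ι : Type w) (κ : Type w') [Fintype ι] [Fintype κ]
    (e : Matrix ι ι A) (f : Matrix κ κ A) (he : e * e = e) (hf : f * f = f), Eqv e f →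
    K0.clsF e he = K0.clsF f hf
  sum : ∀ (A : Type u) [Ring A] (ι : Type w) (κ : Type w') [Fintype ι] [Fintype κ]
    (e : Matrix ι ι A) (f : Matrix κ κ A) (he : e * e = e) (hf : f * f = f)
    (hg : Matrix.fromBlocks e 0 0 f * Matrix.fromBlocks e 0 0 f = Matrix.fromBlocks e 0 0 f),
    K0.clsF (Matrix.fromBlocks e 0 0 f) hg = K0.clsF e he + K0.clsF f hf
  one : ∀ (A : Type u) [Ring A] (ι : Type w) [Fintype ι] [DecidableEq ι],
    K0.clsF (1 : Matrix ι ι A) (mul_one 1) = Fintype.card ι • K0.one A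
  compl : ∀ (A : Type u) [Ring A] (ι : Type w) [Fintype ι] [DecidableEq ι] (e : Matrix ι ι A)
    (he : e * e = e) (hf : (1 - e) * (1 - e) = 1 - e),
    K0.clsF e he + K0.clsF (1 - e) hf = Fintype.card ι • K0.one A
  map : ∀ (A B : Type u) [Ring A] [Ring B] (f : A →+* B) (ι : Type w) [Fintype ι]
    (e : Matrix ι ι A) (he : e * e = e),
    K0.map f (K0.clsF e he) = K0.clsF (e.map f) (map_idem f he)
  stable : ∀ (A : Type u) [Ring A] (ι : Type w) (κ : Type w') [Fintype ι] [Fintype κ]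
    (e : Matrix ι ι A) (f : Matrix κ κ A) (he : e * e = e) (hf : f * f = f)
    (_ : K0.clsF e he = K0.clsF f hf), ∃ k : ℕ,
      Eqv (Matrix.fromBlocks e 0 0 (1 : Matrix (Fin k) (Fin k) A))
        (Matrix.fromBlocks f 0 0 (1 : Matrix (Fin k) (Fin k) A))
  rep : ∀ (A : Type u) [Ring A] (x : K0 A), ∃ (n m : ℕ) (e : Matrix (Fin n) (Fin n) A)
    (he : e * e = e), x = K0.cls e he - m • K0.one A
  const : ∀ (A : Type u) [Ring A] (ι : Type w) [Fintype ι] (e : Matrix ι ι (Lau A))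
    (he : e * e = e), Km1.mk A (K0.clsF (e.map (c1 A)) (map_idem (c1 A) he)) = 0

/-! ### module MIL: the boundary map of a Milnor square -/

/-- The maps of a square `A → A₁ → A₀`, `A → A₂ → A₀`. -/
structure SqMaps (A A₁ A₂ A₀ : Type u) [Ring A] [Ring A₁] [Ring A₂] [Ring A₀] where
  i₁ : A →+* A₁
  i₂ : A →+* A₂
  j₁ : A₁ →+* A₀
  j₂ : A₂ →+* A₀

/-- The square is commutative, cartesian, and elementary matrices `E` over `A₀` satisfy
`E X = W₁ X W₂` (`W_i` invertible over `A_i`). -/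
structure IsSq {A A₁ A₂ A₀ : Type u} [Ring A] [Ring A₁] [Ring A₂] [Ring A₀]
    (m : SqMaps A A₁ A₂ A₀) : Prop where
  comm : ∀ a, m.j₁ (m.i₁ a) = m.j₂ (m.i₂ a)
  pull : ∀ (a₁ : A₁) (a₂ : A₂), m.j₁ a₁ = m.j₂ a₂ → ∃ a, m.i₁ a = a₁ ∧ m.i₂ a = a₂
  inj : ∀ a : A, m.i₁ a = 0 → m.i₂ a = 0 → a = 0
  upper : ∀ (r s : ℕ) (y : Matrix (Fin r) (Fin s) A₀)
    (X : (Matrix (Fin r ⊕ Fin s) (Fin r ⊕ Fin s) A₀)ˣ),
    ∃ (W₁ : (Matrix (Fin r ⊕ Fin s) (Fin r ⊕ Fin s) A₁)ˣ)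
      (W₂ : (Matrix (Fin r ⊕ Fin s) (Fin r ⊕ Fin s) A₂)ˣ),
      Matrix.fromBlocks 1 y 0 1 * X.val = W₁.val.map m.j₁ * X.val * W₂.val.map m.j₂
  lower : ∀ (r s : ℕ) (y : Matrix (Fin s) (Fin r) A₀)
    (X : (Matrix (Fin r ⊕ Fin s) (Fin r ⊕ Fin s) A₀)ˣ),
    ∃ (W₁ : (Matrix (Fin r ⊕ Fin s) (Fin r ⊕ Fin s) A₁)ˣ)
      (W₂ : (Matrix (Fin r ⊕ Fin s) (Fin r ⊕ Fin s) A₂)ˣ),
      Matrix.fromBlocks 1 0 y 1 * X.val = W₁.val.map m.j₁ * X.val * W₂.val.map m.j₂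

/-- `e` over `A` is glued along `U` over `A₀`. -/
def Gl {A A₁ A₂ A₀ : Type u} [Ring A] [Ring A₁] [Ring A₂] [Ring A₀] (m : SqMaps A A₁ A₂ A₀)
    {ι : Type w} {κ : Type w'} [Fintype ι] [Fintype κ] [DecidableEq κ]
    (e : Matrix ι ι A) (U : Matrix κ κ A₀) : Prop :=
  ∃ (a₁ : Matrix ι κ A₁) (b₁ : Matrix κ ι A₁) (a₂ : Matrix ι κ A₂) (b₂ : Matrix κ ι A₂),
    a₁ * b₁ = e.map m.i₁ ∧ b₁ * a₁ = 1 ∧ a₂ * b₂ = e.map m.i₂ ∧ b₂ * a₂ = 1 ∧
      b₁.map m.j₁ * a₂.map m.j₂ = U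

/-- `d` is the boundary map `K_1(A₀) → K_0(A)` of the square. -/
def IsBd {A A₁ A₂ A₀ : Type u} [Ring A] [Ring A₁] [Ring A₂] [Ring A₀] (m : SqMaps A A₁ A₂ A₀)
    (d : K1 A₀ →+ K0 A) : Prop :=
  ∀ (r n : ℕ) (e : Matrix (Fin r) (Fin r) A) (he : e * e = e)
    (U : (Matrix (Fin n) (Fin n) A₀)ˣ), Gl m e (U : Matrix (Fin n) (Fin n) A₀) →
    d (K1.cls U) = K0.cls e he - n • K0.one A

/-- A morphism of squares. -/
structure SqHom {A A₁ A₂ A₀ B B₁ B₂ B₀ : Type u} [Ring A] [Ring A₁] [Ring A₂] [Ring A₀]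
    [Ring B] [Ring B₁] [Ring B₂] [Ring B₀] (m : SqMaps A A₁ A₂ A₀) (m' : SqMaps B B₁ B₂ B₀) where
  f : A →+* B
  f₁ : A₁ →+* B₁
  f₂ : A₂ →+* B₂
  f₀ : A₀ →+* B₀
  c₁ : ∀ a, m'.i₁ (f a) = f₁ (m.i₁ a)
  c₂ : ∀ a, m'.i₂ (f a) = f₂ (m.i₂ a)
  d₁ : ∀ a, m'.j₁ (f₁ a) = f₀ (m.j₁ a)
  d₂ : ∀ a, m'.j₂ (f₂ a) = f₀ (m.j₂ a)

/-- MIL: existence of glued idempotents, of the boundary map, exactness, naturality. -/
structure SpecMIL : Prop where
  ex : ∀ (A A₁ A₂ A₀ : Type u) [Ring A] [Ring A₁] [Ring A₂] [Ring A₀] (m : SqMaps A A₁ A₂ A₀)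
    (_ : IsSq m) (n : ℕ) (U : (Matrix (Fin n) (Fin n) A₀)ˣ),
    ∃ (r : ℕ) (e : Matrix (Fin r) (Fin r) A), e * e = e ∧
      Gl m e (U : Matrix (Fin n) (Fin n) A₀)
  bd : ∀ (A A₁ A₂ A₀ : Type u) [Ring A] [Ring A₁] [Ring A₂] [Ring A₀] (m : SqMaps A A₁ A₂ A₀)
    (_ : IsSq m), ∃ d : K1 A₀ →+ K0 A, IsBd m d
  van₁ : ∀ (A A₁ A₂ A₀ : Type u) [Ring A] [Ring A₁] [Ring A₂] [Ring A₀]
    (m : SqMaps A A₁ A₂ A₀) (_ : IsSq m) (d : K1 A₀ →+ K0 A) (_ : IsBd m d) (y : K1 A₁),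
    d (K1.map m.j₁ y) = 0
  van₂ : ∀ (A A₁ A₂ A₀ : Type u) [Ring A] [Ring A₁] [Ring A₂] [Ring A₀]
    (m : SqMaps A A₁ A₂ A₀) (_ : IsSq m) (d : K1 A₀ →+ K0 A) (_ : IsBd m d) (y : K1 A₂),
    d (K1.map m.j₂ y) = 0
  nat : ∀ (A A₁ A₂ A₀ B B₁ B₂ B₀ : Type u) [Ring A] [Ring A₁] [Ring A₂] [Ring A₀]
    [Ring B] [Ring B₁] [Ring B₂] [Ring B₀] (m : SqMaps A A₁ A₂ A₀) (m' : SqMaps B B₁ B₂ B₀)
    (_ : IsSq m) (_ : IsSq m') (F : SqHom m m') (d : K1 A₀ →+ K0 A) (d' : K1 B₀ →+ K0 B)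
    (_ : IsBd m d) (_ : IsBd m' d') (y : K1 A₀), d' (K1.map F.f₀ y) = K0.map F.f (d y)

/-! ### module PAD: the arithmetic square of a finite set `S` of primes -/

/-- `ℤ[1/p, p ∈ S]` -/
def Zs (S : Finset Nat.Primes) : Subring ℚ where
  carrier := {q | ∃ N : ℕ, N ≠ 0 ∧ (∀ p : Nat.Primes, (p : ℕ) ∣ N → p ∈ S) ∧
    ∃ z : ℤ, (N : ℚ) * q = z}
  one_mem' := ⟨1, one_ne_zero, fun p hp => absurd (Nat.dvd_one.1 hp) p.2.ne_one, 1, by simp⟩
  zero_mem' := ⟨1, one_ne_zero, fun p hp => absurd (Nat.dvd_one.1 hp) p.2.ne_one, 0, by simp⟩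
  mul_mem' := by
    rintro a b ⟨N, hN, hp, z, hz⟩ ⟨N', hN', hp', z', hz'⟩
    refine ⟨N * N', mul_ne_zero hN hN', fun p h => ?_, z * z', ?_⟩
    · rcases (Nat.Prime.dvd_mul p.2).1 h with h | h
      · exact hp p h
      · exact hp' p h
    · push_cast
      rw [← hz, ← hz']
      ring
  add_mem' := by
    rintro a b ⟨N, hN, hp, z, hz⟩ ⟨N', hN', hp', z', hz'⟩
    refine ⟨N * N', mul_ne_zero hN hN', fun p h => ?_, N' * z + N * z', ?_⟩
    · rcases (Nat.Prime.dvd_mul p.2).1 h with h | h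
      · exact hp p h
      · exact hp' p h
    · push_cast
      rw [← hz, ← hz']
      ring
  neg_mem' := by
    rintro a ⟨N, hN, hp, z, hz⟩
    exact ⟨N, hN, hp, -z, by push_cast; rw [← hz]; ring⟩

instance (p : Nat.Primes) : Fact (Nat.Prime (p : ℕ)) := ⟨p.2⟩

/-- `∏_{p ∈ S} ℤ_p` -/
abbrev Zp (S : Finset Nat.Primes) : Type := ∀ p : S, ℤ_[((p : Nat.Primes) : ℕ)]

/-- `∏_{p ∈ S} ℚ_p` -/
abbrev Qp (S : Finset Nat.Primes) : Type := ∀ p : S, ℚ_[((p : Nat.Primes) : ℕ)]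

/-- `ℤ[1/S] → ∏ ℚ_p` -/
def zsQp (S : Finset Nat.Primes) : Zs S →+* Qp S :=
  (algebraMap ℚ (Qp S)).comp (Zs S).subtype

/-- `∏ ℤ_p → ∏ ℚ_p` -/
def zpQp (S : Finset Nat.Primes) : Zp S →+* Qp S :=
  RingHom.pi fun p => (algebraMap ℤ_[((p : Nat.Primes) : ℕ)] ℚ_[((p : Nat.Primes) : ℕ)]).comp
    (Pi.evalRingHom _ p)

/-- coefficient change on `k[G][t, t⁻¹]` -/
def cMap {k k' : Type w} [CommRing k] [CommRing k'] (G : Type u) [Group G] (f : k →+* k') :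
    Lau (MonoidAlgebra k G) →+* Lau (MonoidAlgebra k' G) :=
  lauMap (MonoidAlgebra.mapRingHom G f)

/-- group change on `k[G][t, t⁻¹]` -/
def gMap (k : Type w) [CommRing k] {G : Type u} {G' : Type u} [Group G] [Group G']
    (φ : G →* G') : Lau (MonoidAlgebra k G) →+* Lau (MonoidAlgebra k G') :=
  lauMap (MonoidAlgebra.mapDomainRingHom k φ)

/-- The arithmetic square of `G` and `S`. -/
def padSq (S : Finset Nat.Primes) (G : Type u) [Group G] :
    SqMaps (Lau (MonoidAlgebra ℤ G)) (Lau (MonoidAlgebra (Zs S) G))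
      (Lau (MonoidAlgebra (Zp S) G)) (Lau (MonoidAlgebra (Qp S) G)) where
  i₁ := cMap G (Int.castRingHom (Zs S))
  i₂ := cMap G (Int.castRingHom (Zp S))
  j₁ := cMap G (zsQp S)
  j₂ := cMap G (zpQp S)

/-- PAD -/
def SpecPAD : Prop := ∀ (S : Finset Nat.Primes) (G : Type u) [Group G], IsSq (padSq S G)

/-! ### module TOE: Toeplitz operators -/

/-- The derivation `t d/dt` of `A[t, t⁻¹]`. -/
def del (A : Type u) [Ring A] : Lau A →+ Lau A :=
  (Finsupp.liftAddHom (fun j : ℤ =>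
    (AddMonoidAlgebra.singleAddHom j).comp (zsmulAddGroupHom (α := A) j))).comp
    AddMonoidAlgebra.coeffAddEquiv.toAddMonoidHom

/-- `τ` of the constant coefficient. -/
def t0 {A : Type u} [Ring A] {V : Type v} [AddCommGroup V] (τ : A →+ V) : Lau A →+ V :=
  (τ.comp (Finsupp.applyAddHom (0 : ℤ))).comp AddMonoidAlgebra.coeffAddEquiv.toAddMonoidHom

/-- TOE: if `c c' = 1` and `c' c = 1 ⊕ q₁(t) ⊕ q₂(t⁻¹)`, there is an idempotent matrix `E` over
`A` with `τ(tr E) = s τ(1) - τ_0(tr(c' δ(c)))` for some `s`. -/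
def SpecTOE : Prop :=
  ∀ (A : Type u) [Ring A] (V : Type v) [AddCommGroup V] (τ : A →+ V)
    (_ : ∀ a b, τ (a * b) = τ (b * a)) (R m r₁ r₂ : ℕ)
    (q₁ : Matrix (Fin r₁) (Fin r₁) (Pol A)) (q₂ : Matrix (Fin r₂) (Fin r₂) (Pol A))
    (_ : q₁ * q₁ = q₁) (_ : q₂ * q₂ = q₂)
    (c : Matrix (Fin R) (Fin m ⊕ (Fin r₁ ⊕ Fin r₂)) (Lau A))
    (c' : Matrix (Fin m ⊕ (Fin r₁ ⊕ Fin r₂)) (Fin R) (Lau A)) (_ : c * c' = 1)
    (_ : c' * c = Matrix.fromBlocks 1 0 0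
      (Matrix.fromBlocks (q₁.map (posHom A)) 0 0 (q₂.map (negHom A)))),
    ∃ (N s : ℕ) (E : Matrix (Fin N) (Fin N) A), E * E = E ∧
      τ E.trace = s • τ 1 - t0 τ (c' * c.map (del A)).trace

/-! ### module RNK: ranks of idempotents over `ℤ_p[G]` -/

open Classical in
/-- Sum of the coefficients on the conjugacy class of `x`. -/
def rk (k : Type w) [CommRing k] {G : Type u} [Group G] (x : G) : MonoidAlgebra k G →+ k :=
  (Finsupp.liftAddHom (fun g : G => if IsConj x g then AddMonoidHom.id k else 0)).comp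
    MonoidAlgebra.coeffAddEquiv.toAddMonoidHom

/-- RNK -/
structure SpecRNK : Prop where
  trace : ∀ (k : Type w) [CommRing k] (G : Type u) [Group G] (x : G) (a b : MonoidAlgebra k G),
    rk k x (a * b) = rk k x (b * a)
  van : ∀ (p : ℕ) [Fact p.Prime] (G : Type u) [Group G] (x : G) (_ : IsOfFinOrder x)
    (_ : p ∣ orderOf x) (n : ℕ) (E : Matrix (Fin n) (Fin n) (MonoidAlgebra ℤ_[p] G))
    (_ : E * E = E), rk ℤ_[p] x E.trace = 0

/-! ### module DL: the logarithmic derivative `K_1(A[t, t⁻¹]) → V` -/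

/-- `s` is `U ↦ τ_0(tr(U⁻¹ δ(U)))`. -/
def IsDL {A : Type u} [Ring A] {V : Type v} [AddCommGroup V] (τ : A →+ V)
    (s : K1 (Lau A) →+ V) : Prop :=
  ∀ (n : ℕ) (U : (Matrix (Fin n) (Fin n) (Lau A))ˣ), s (K1.cls U) =
    t0 τ (((U⁻¹ : (Matrix (Fin n) (Fin n) (Lau A))ˣ) : Matrix (Fin n) (Fin n) (Lau A)) *
      (U : Matrix (Fin n) (Fin n) (Lau A)).map (del A)).trace

/-- The unit `f t + (1 - f)`, `f` idempotent. -/
def btU {B : Type u} [Ring B] (f : B) (hf : f * f = f) : (Lau B)ˣ where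
  val := AddMonoidAlgebra.single 1 f + AddMonoidAlgebra.single 0 (1 - f)
  inv := AddMonoidAlgebra.single (-1) f + AddMonoidAlgebra.single 0 (1 - f)
  val_inv := by
    simp only [mul_add, add_mul, AddMonoidAlgebra.single_mul_single, hf, mul_sub, sub_mul, mul_one,
      one_mul, sub_self, AddMonoidAlgebra.single_zero, add_zero, zero_add]
    rw [AddMonoidAlgebra.one_def, sub_zero]
    simp
  inv_val := by
    simp only [mul_add, add_mul, AddMonoidAlgebra.single_mul_single, hf, mul_sub, sub_mul, mul_one,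
      one_mul, sub_self, AddMonoidAlgebra.single_zero, add_zero, zero_add]
    rw [AddMonoidAlgebra.one_def, sub_zero]
    simp

/-- DL: the homomorphism exists, is natural in `τ`, and has the value `τ(f)` on `f t + (1 - f)`. -/
structure SpecDL : Prop where
  ex : ∀ (A : Type u) [Ring A] (V : Type v) [AddCommGroup V] (τ : A →+ V)
    (_ : ∀ a b, τ (a * b) = τ (b * a)), ∃ s : K1 (Lau A) →+ V, IsDL τ s
  bt : ∀ (A : Type u) [Ring A] (V : Type v) [AddCommGroup V] (τ : A →+ V)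
    (_ : ∀ a b, τ (a * b) = τ (b * a)) (s : K1 (Lau A) →+ V) (_ : IsDL τ s)
    (f : A) (hf : f * f = f), s (K1.unit (btU f hf)) = τ f

/-! ### module DET: detection -/

/-- DET: if the boundary of `y ∈ K_1(∏ ℚ_p[G][t, t⁻¹])` is torsion in `K_{-1}(ℤ[G])`, then for `x`
of finite order the numbers `s_x(y)_p`, `p ∣ ord x`, are one rational number. -/
def SpecDET : Prop :=
  ∀ (S : Finset Nat.Primes) (G : Type u) [Group G]
    (d : K1 (Lau (MonoidAlgebra (Qp S) G)) →+ K0 (Lau (MonoidAlgebra ℤ G)))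
    (_ : IsBd (padSq S G) d) (y : K1 (Lau (MonoidAlgebra (Qp S) G)))
    (_ : IsOfFinAddOrder (Km1.mk (MonoidAlgebra ℤ G) (d y))) (x : G) (_ : IsOfFinOrder x)
    (s : K1 (Lau (MonoidAlgebra (Qp S) G)) →+ Qp S) (_ : IsDL (rk (Qp S) x) s),
    ∃ q : ℚ, ∀ p : S, ((p : Nat.Primes) : ℕ) ∣ orderOf x → s y p = (q : ℚ_[((p : Nat.Primes) : ℕ)])

/-! ### module FIN: finite rings -/

/-- FIN: over a finite ring `B` every idempotent matrix over `B[t, t⁻¹]` is conjugate to its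
value at `t = 1`. -/
def SpecFIN : Prop :=
  ∀ (B : Type u) [Ring B] [Finite B] (n : ℕ) (e : Matrix (Fin n) (Fin n) (Lau B))
    (_ : e * e = e), ∃ g : (Matrix (Fin n) (Fin n) (Lau B))ˣ,
      e * (g : Matrix (Fin n) (Fin n) (Lau B)) = (g : Matrix (Fin n) (Fin n) (Lau B)) * e.map (c1 B)

/-! ### module DED: Dedekind domains, maximal orders of group algebras of abelian groups -/

/-- DED: `[e(t)] = [e(1)]` in `K_0(O[t, t⁻¹])`, `O` a Dedekind domain. -/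
def SpecDED : Prop :=
  ∀ (O : Type u) [CommRing O] [IsDedekindDomain O] (n : ℕ)
    (e : Matrix (Fin n) (Fin n) (Lau O)) (he : e * e = e),
    K0.cls e he = K0.cls (e.map (c1 O)) (map_idem (c1 O) he)

/-- ORD: the maximal order of `ℚ[C]`, `C` finite commutative. -/
def SpecORD : Prop :=
  ∀ (C : Type u) [CommGroup C] [Finite C], ∃ M : Subring (MonoidAlgebra ℚ C),
    (∀ a : MonoidAlgebra ℤ C, MonoidAlgebra.mapRingHom C (Int.castRingHom ℚ) a ∈ M) ∧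
    (∀ b ∈ M, ∃ a : MonoidAlgebra ℤ C,
      MonoidAlgebra.mapRingHom C (Int.castRingHom ℚ) a = Nat.card C • b) ∧
    ∀ (n : ℕ) (e : Matrix (Fin n) (Fin n) (Lau M)) (he : e * e = e),
      K0.cls e he = K0.cls (e.map (c1 M)) (map_idem (c1 M) he)

/-! ### module K1F: `K_1(B[t, t⁻¹])`, `B` finite commutative, up to torsion -/

/-- K1F -/
def SpecK1F : Prop :=
  ∀ (B : Type u) [CommRing B] [Finite B] (x : K1 (Lau B)), ∃ (m : ℕ) (_ : 0 < m) (a : ℕ)
    (ε : Fin a → ℤ) (f : Fin a → B) (hf : ∀ j, f j * f j = f j),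
    m • x = ∑ j, ε j • K1.unit (btU (f j) (hf j))

/-! ### module GEN: `K_{-1}(ℤ[C])`, `C` finite commutative, is generated up to torsion by
boundaries of `f t + (1 - f)`, `f` idempotent in `∏ ℚ_p[C]` -/

/-- The inclusion `ℤ[C] → M`. -/
def alphaM {C : Type u} [CommGroup C] (M : Subring (MonoidAlgebra ℚ C))
    (h : ∀ a : MonoidAlgebra ℤ C, MonoidAlgebra.mapRingHom C (Int.castRingHom ℚ) a ∈ M) :
    MonoidAlgebra ℤ C →+* M :=
  (MonoidAlgebra.mapRingHom C (Int.castRingHom ℚ)).codRestrict M h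

/-- The ideal `|C| M` of `M`. -/
def conI {C : Type u} [CommGroup C] (M : Subring (MonoidAlgebra ℚ C)) : Ideal M :=
  Ideal.span {(Nat.card C : M)}

/-- The conductor square `ℤ[C] → M`, `ℤ[C]/|C|M → M/|C|M`, with `t`. -/
def conSq {C : Type u} [CommGroup C] (M : Subring (MonoidAlgebra ℚ C))
    (h : ∀ a : MonoidAlgebra ℤ C, MonoidAlgebra.mapRingHom C (Int.castRingHom ℚ) a ∈ M) :
    SqMaps (Lau (MonoidAlgebra ℤ C)) (Lau M)
      (Lau (MonoidAlgebra ℤ C ⧸ (conI M).comap (alphaM M h))) (Lau (M ⧸ conI M)) where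
  i₁ := lauMap (alphaM M h)
  i₂ := lauMap (Ideal.Quotient.mk _)
  j₁ := lauMap (Ideal.Quotient.mk _)
  j₂ := lauMap (Ideal.quotientMap (conI M) (alphaM M h) le_rfl)

/-- LNK: an idempotent of `M/|C|M` lifts to one of `∏ ℚ_p[C]` with the same boundary. -/
def SpecLNK : Prop :=
  ∀ (C : Type u) [CommGroup C] [Finite C] (M : Subring (MonoidAlgebra ℚ C))
    (h : ∀ a : MonoidAlgebra ℤ C, MonoidAlgebra.mapRingHom C (Int.castRingHom ℚ) a ∈ M)
    (_ : ∀ b ∈ M, ∃ a : MonoidAlgebra ℤ C,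
      MonoidAlgebra.mapRingHom C (Int.castRingHom ℚ) a = Nat.card C • b)
    (S : Finset Nat.Primes) (_ : ∀ p : Nat.Primes, (p : ℕ) ∣ Nat.card C → p ∈ S)
    (d : K1 (Lau (MonoidAlgebra (Qp S) C)) →+ K0 (Lau (MonoidAlgebra ℤ C)))
    (_ : IsBd (padSq S C) d) (d' : K1 (Lau (M ⧸ conI M)) →+ K0 (Lau (MonoidAlgebra ℤ C)))
    (_ : IsBd (conSq M h) d') (f : M ⧸ conI M) (hf : f * f = f),
    ∃ (f' : MonoidAlgebra (Qp S) C) (hf' : f' * f' = f'),
      d' (K1.unit (btU f hf)) = d (K1.unit (btU f' hf'))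

/-- GEN -/
def SpecGEN : Prop :=
  ∀ (C : Type u) [CommGroup C] [Finite C] (S : Finset Nat.Primes)
    (_ : ∀ p : Nat.Primes, (p : ℕ) ∣ Nat.card C → p ∈ S)
    (d : K1 (Lau (MonoidAlgebra (Qp S) C)) →+ K0 (Lau (MonoidAlgebra ℤ C)))
    (_ : IsBd (padSq S C) d) (x : Km1 (MonoidAlgebra ℤ C)),
    ∃ (m : ℕ) (_ : 0 < m) (a : ℕ) (ε : Fin a → ℤ) (f : Fin a → MonoidAlgebra (Qp S) C)
      (hf : ∀ j, f j * f j = f j),
      m • x = ∑ j, ε j • Km1.mk (MonoidAlgebra ℤ C) (d (K1.unit (btU (f j) (hf j))))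

/-! ### module ART: Artin reduction -/

/-- ART: `K_{-1}(ℤ[H])` is generated up to torsion by the images of `K_{-1}(ℤ[C])`,
`C` cyclic. -/
def SpecART : Prop :=
  ∀ (H : Type u) [Group H] [Finite H] (x : Km1 (MonoidAlgebra ℤ H)),
    ∃ (m : ℕ) (_ : 0 < m) (a : ℕ) (C : Fin a → Subgroup H) (_ : ∀ i, IsCyclic (C i))
      (y : ∀ i, Km1 (MonoidAlgebra ℤ (C i))),
      m • x = ∑ i, Km1.map (MonoidAlgebra.mapDomainRingHom ℤ (C i).subtype) (y i)

/-! ### module VB, RES: rational spans of idempotents -/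

/-- The rational span of the idempotents of a commutative `ℚ`-algebra. -/
def RV (B : Type u) [CommRing B] [Algebra ℚ B] : Submodule ℚ B :=
  Submodule.span ℚ {e | e * e = e}

/-- VB: (a) characterization; (b) extension of additive functions on idempotents. -/
structure SpecVB : Prop where
  char : ∀ (B : Type u) [CommRing B] [Algebra ℚ B] (b : B), b ∈ RV B ↔
    ∃ s : Finset ℚ, ∏ q ∈ s, (b - algebraMap ℚ B q) = 0
  ext : ∀ (B : Type u) [CommRing B] [Algebra ℚ B] (θ : B → ℚ)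
    (_ : ∀ e f : B, e * e = e → f * f = f → e * f = 0 → θ (e + f) = θ e + θ f),
    ∃ Θ : RV B →ₗ[ℚ] ℚ, ∀ (e : B) (he : e * e = e), Θ ⟨e, Submodule.subset_span he⟩ = θ e

/-- Restriction of a function on `C` to a subgroup. -/
def resD {k : Type w} [CommRing k] {C : Type u} [Group C] (D : Subgroup C)
    (b : MonoidAlgebra k C) : MonoidAlgebra k D :=
  MonoidAlgebra.ofCoeff (b.coeff.comapDomain (Subtype.val : D → C) Subtype.val_injective.injOn)

/-- RES: the restriction to a subgroup of a rational combination of idempotents of `∏ ℚ_p[C]` is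
such a combination; idempotents of `ℚ_p[C]` are integral if `p` does not divide `|C|`, idempotents
of `ℚ[C]` have denominators dividing `|C|`. -/
structure SpecRES : Prop where
  res : ∀ (S : Finset Nat.Primes) (C : Type u) [CommGroup C] [Finite C] (D : Subgroup C)
    (b : MonoidAlgebra (Qp S) C), b ∈ RV (MonoidAlgebra (Qp S) C) →
    resD D b ∈ RV (MonoidAlgebra (Qp S) D)
  int : ∀ (p : ℕ) [Fact p.Prime] (C : Type u) [CommGroup C] [Finite C] (_ : ¬ p ∣ Nat.card C)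
    (f : MonoidAlgebra ℚ_[p] C) (_ : f * f = f),
    ∃ f' : MonoidAlgebra ℤ_[p] C, f' * f' = f' ∧
      MonoidAlgebra.mapRingHom C (algebraMap ℤ_[p] ℚ_[p]) f' = f
  rat : ∀ (C : Type u) [CommGroup C] [Finite C] (f : MonoidAlgebra ℚ C) (_ : f * f = f) (c : C),
    ∃ z : ℤ, (Nat.card C : ℚ) * f.coeff c = z

/-! ### module LIN: linear algebra over the commutative finite subgroups -/

/-- LIN -/
def SpecLIN : Prop :=
  ∀ (S : Finset Nat.Primes) (G : Type u) [Group G]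
    (Θ : ∀ (C : Type u) [CommGroup C] [Finite C] (φ : C →* G),
      RV (MonoidAlgebra (Qp S) C) →ₗ[ℚ] ℚ)
    -- naturality
    (_ : ∀ (C C' : Type u) [CommGroup C] [Finite C] [CommGroup C'] [Finite C'] (φ : C →* G)
      (φ' : C' →* G) (f : C →* C') (g : G) (_ : ∀ c, φ' (f c) = g * φ c * g⁻¹)
      (_ : Function.Injective φ) (_ : Function.Injective φ')
      (_ : ∀ p : Nat.Primes, (p : ℕ) ∣ Nat.card C' → p ∈ S)
      (b : RV (MonoidAlgebra (Qp S) C)) (b' : RV (MonoidAlgebra (Qp S) C'))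
      (_ : (b' : MonoidAlgebra (Qp S) C') =
        MonoidAlgebra.mapDomainRingHom (Qp S) f (b : MonoidAlgebra (Qp S) C)),
      Θ C' φ' b' = Θ C φ b)
    -- rational elements
    (_ : ∀ (C : Type u) [CommGroup C] [Finite C] (φ : C →* G) (_ : Function.Injective φ)
      (_ : ∀ p : Nat.Primes, (p : ℕ) ∣ Nat.card C → p ∈ S)
      (r : MonoidAlgebra ℚ C) (_ : r ∈ RV (MonoidAlgebra ℚ C))
      (b : RV (MonoidAlgebra (Qp S) C)) (_ : (b : MonoidAlgebra (Qp S) C) =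
        MonoidAlgebra.mapRingHom C (algebraMap ℚ (Qp S)) r), Θ C φ b = 0)
    -- elements vanishing at all p dividing the order
    (_ : ∀ (C : Type u) [CommGroup C] [Finite C] (φ : C →* G) (_ : Function.Injective φ)
      (_ : ∀ p : Nat.Primes, (p : ℕ) ∣ Nat.card C → p ∈ S)
      (b : RV (MonoidAlgebra (Qp S) C))
      (_ : ∀ (p : S) (_ : ((p : Nat.Primes) : ℕ) ∣ Nat.card C) (c : C),
        (b : MonoidAlgebra (Qp S) C).coeff c p = 0), Θ C φ b = 0)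
    (m : ℕ) (C : Fin m → Type u) [∀ i, CommGroup (C i)] [∀ i, Fintype (C i)]
    (φ : ∀ i, C i →* G) (_ : ∀ i, Function.Injective (φ i))
    (_ : ∀ i, ∀ p : Nat.Primes, (p : ℕ) ∣ Nat.card (C i) → p ∈ S)
    (b : ∀ i, RV (MonoidAlgebra (Qp S) (C i)))
    (_ : ∀ x : G, IsOfFinOrder x → ∃ q : ℚ, ∀ p : S, ((p : Nat.Primes) : ℕ) ∣ orderOf x →
      ∑ i, rk (Qp S) x (MonoidAlgebra.mapDomainRingHom (Qp S) (φ i)
        (b i : MonoidAlgebra (Qp S) (C i))) p = (q : ℚ_[((p : Nat.Primes) : ℕ)])),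
    ∑ i, Θ (C i) (φ i) (b i) = 0

/-! ### the theorem -/

/-- The theorem. -/
def SpecFinal : Prop :=
  ∀ (G : Type u) [Group G] (x : ColimKm1 G), IsOfFinAddOrder (assembly G x) → IsOfFinAddOrder x

end Pool.Agent.Lib.MPb6f35e.ZK
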