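import Pool.Agent.Lib.MP_b6f35e_al.ZK.LauPID
import Mathlib

/-!
# Idempotent matrices over `B[t, t⁻¹]`, `B` a finite ring (MP_b6f35e_al, ZK, module FIN)
-/

set_option autoImplicit false

noncomputable section

namespace Pool.Agent.Lib.MPb6f35e.ZK

universe u v w w'

namespace FINMod

/-! ### general facts on `Cj` -/

/-- Transport along an isomorphism. -/
theorem cj_of_equiv {S : Type u} {S' : Type v} [Ring S] [Ring S'] (c : S →+* S) (c' : S' →+* S')
    (σ : S ≃+* S') (hc : ∀ x, σ (c x) = c' (σ x)) (h : Cj S c) : Cj S' c' := by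
  intro e he
  obtain ⟨g, hg⟩ := h (σ.symm e) (by rw [← map_mul, he])
  refine ⟨Units.map (σ : S →* S') g, ?_⟩
  have := congrArg σ hg
  rw [map_mul, map_mul, hc, RingEquiv.apply_symm_apply] at this
  exact this

/-- Finite products. -/
theorem cj_pi {ι : Type w} (S : ι → Type v) [∀ i, Ring (S i)] (c : ∀ i, S i →+* S i)
    (h : ∀ i, Cj (S i) (c i)) : Cj (∀ i, S i)
      (RingHom.pi fun i => (c i).comp (Pi.evalRingHom S i)) := by
  intro e he
  choose g hg using fun i => h i (e i) (congrFun he i)
  refine ⟨MulEquiv.piUnits.symm g, ?_⟩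
  funext i
  exact hg i

/-- Units lift along a surjection with nil kernel. -/
theorem isUnit_of_nil {S : Type u} {S' : Type v} [Ring S] [Ring S'] (π : S →+* S')
    (hs : Function.Surjective π) (hn : ∀ x, π x = 0 → IsNilpotent x) (x : S)
    (hx : IsUnit (π x)) : IsUnit x := by
  obtain ⟨u, hu⟩ := hx
  obtain ⟨y, hy⟩ := hs ((u⁻¹ : S'ˣ) : S')
  have h1 : IsUnit (x * y) := by
    have : IsNilpotent (x * y - 1) := hn _ (by
      rw [map_sub, map_mul, map_one, hy, ← hu, Units.mul_inv, sub_self])
    have := this.isUnit_add_one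
    rwa [sub_add_cancel] at this
  have h2 : IsUnit (y * x) := by
    have : IsNilpotent (y * x - 1) := hn _ (by
      rw [map_sub, map_mul, map_one, hy, ← hu, Units.inv_mul, sub_self])
    have := this.isUnit_add_one
    rwa [sub_add_cancel] at this
  obtain ⟨a, ha⟩ := h1
  obtain ⟨b, hb⟩ := h2
  have hr : x * (y * ((a⁻¹ : Sˣ) : S)) = 1 := by rw [← mul_assoc, ← ha, Units.mul_inv]
  have hl : (((b⁻¹ : Sˣ) : S) * y) * x = 1 := by rw [mul_assoc, ← hb, Units.inv_mul]
  have he : ((b⁻¹ : Sˣ) : S) * y = y * ((a⁻¹ : Sˣ) : S) := left_inv_eq_right_inv hl hr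
  exact ⟨⟨x, y * ((a⁻¹ : Sˣ) : S), hr, by rw [← he, hl]⟩, rfl⟩

/-- Lifting along a surjection with nil kernel. -/
theorem cj_of_surj {S : Type u} {S' : Type v} [Ring S] [Ring S'] (c : S →+* S) (c' : S' →+* S')
    (π : S →+* S') (hs : Function.Surjective π) (hn : ∀ x, π x = 0 → IsNilpotent x)
    (hc : ∀ x, π (c x) = c' (π x)) (h : Cj S' c') : Cj S c := by
  intro e he
  obtain ⟨g', hg'⟩ := h (π e) (by rw [← map_mul, he])
  obtain ⟨g₀, hg₀⟩ := hs (g' : S')
  obtain ⟨g, rfl⟩ := isUnit_of_nil π hs hn g₀ (by rw [hg₀]; exact g'.isUnit)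
  obtain ⟨e', he'⟩ : ∃ e' : S, e' = ((g⁻¹ : Sˣ) : S) * e * (g : S) := ⟨_, rfl⟩
  have hce : c e * c e = c e := by rw [← map_mul, he]
  have hee : e' * e' = e' := by
    calc e' * e' = ((g⁻¹ : Sˣ) : S) * e * ((g : S) * ((g⁻¹ : Sˣ) : S)) * e * (g : S) := by
          rw [he']; noncomm_ring
      _ = ((g⁻¹ : Sˣ) : S) * (e * e) * (g : S) := by rw [Units.mul_inv]; noncomm_ring
      _ = e' := by rw [he, he']
  have hπ : π e' = π (c e) := by
    have h1 : (g : S) * e' = e * (g : S) := by
      rw [he', ← mul_assoc, ← mul_assoc, Units.mul_inv, one_mul]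
    have h2 := congrArg π h1
    rw [map_mul, map_mul, hg₀, hg'] at h2
    rw [hc]
    exact g'.mul_right_inj.1 h2
  obtain ⟨w, hw⟩ : ∃ w : S, w = e' * c e + (1 - e') * (1 - c e) := ⟨_, rfl⟩
  have hwu : IsUnit w := by
    apply isUnit_of_nil π hs hn
    have : π w = 1 := by
      have h3 : π (c e) * π (c e) = π (c e) := by rw [← map_mul, hce]
      rw [hw, map_add, map_mul, map_mul, map_sub, map_sub, map_one, hπ, h3, mul_sub, mul_one,
        sub_mul, one_mul, h3]
      abel
    rw [this]
    exact isUnit_one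
  obtain ⟨W, hW⟩ := hwu
  refine ⟨g * W, ?_⟩
  have h4 : e' * w = w * c e := by
    have h5 : e' * (1 - e') = 0 := by rw [mul_sub, mul_one, hee, sub_self]
    have h6 : (1 - c e) * c e = 0 := by rw [sub_mul, one_mul, hce, sub_self]
    rw [hw, mul_add, add_mul, ← mul_assoc, hee, ← mul_assoc, h5, zero_mul, add_zero, mul_assoc,
      hce, mul_assoc, h6, mul_zero, add_zero]
  rw [Units.val_mul, hW]
  calc e * ((g : S) * w) = (g : S) * (((g⁻¹ : Sˣ) : S) * e * (g : S)) * w := by
        rw [← mul_assoc, ← mul_assoc, ← mul_assoc, Units.mul_inv, one_mul, mul_assoc]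
    _ = (g : S) * (e' * w) := by rw [← he', mul_assoc]
    _ = (g : S) * w * c e := by rw [h4, mul_assoc]

/-! ### Laurent polynomials over matrix rings and products -/

theorem c1_single (A : Type u) [Ring A] (j : ℤ) (a : A) :
    c1 A (AddMonoidAlgebra.single j a : Lau A) = (AddMonoidAlgebra.single 0 a : Lau A) := by
  show AddMonoidAlgebra.mapDomain _ _ = _
  rw [AddMonoidAlgebra.mapDomain_single]
  rfl

/-- Two additive maps on `Lau A` agree if they agree on `single j a`. -/
theorem lau_hom_ext {A : Type u} [Ring A] {V : Type v} [AddCommMonoid V] {f g : Lau A →+ V}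
    (h : ∀ j a, f (AddMonoidAlgebra.single j a) = g (AddMonoidAlgebra.single j a)) : f = g :=
  AddMonoidAlgebra.addMonoidHom_ext h

/-- entries of a matrix ring as constants -/
def lamF (A : Type u) [Ring A] (m : Type w) [Fintype m] [DecidableEq m] :
    Matrix m m A →+* Matrix m m (Lau A) :=
  (AddMonoidAlgebra.singleZeroRingHom : A →+* Lau A).mapMatrix

/-- powers of `t` as scalar matrices -/
def lamT (A : Type u) [Ring A] (m : Type w) [Fintype m] [DecidableEq m] :
    Multiplicative ℤ →* Matrix m m (Lau A) :=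
  (Matrix.scalar m : Lau A →+* Matrix m m (Lau A)).toMonoidHom.comp (AddMonoidAlgebra.of A ℤ)

theorem lamF_apply (A : Type u) [Ring A] (m : Type w) [Fintype m] [DecidableEq m]
    (X : Matrix m m A) (i k : m) : lamF A m X i k = AddMonoidAlgebra.single 0 (X i k) := rfl

theorem lamT_apply (A : Type u) [Ring A] (m : Type w) [Fintype m] [DecidableEq m]
    (n : Multiplicative ℤ) : lamT A m n =
      Matrix.diagonal (fun _ => (AddMonoidAlgebra.single n.toAdd 1 : Lau A)) := rfl

theorem lam_comm (A : Type u) [Ring A] (m : Type w) [Fintype m] [DecidableEq m]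
    (X : Matrix m m A) (n : Multiplicative ℤ) : Commute (lamF A m X) (lamT A m n) := by
  show _ * _ = _ * _
  ext1 i k
  rw [lamT_apply, Matrix.mul_diagonal, Matrix.diagonal_mul, lamF_apply,
    AddMonoidAlgebra.single_mul_single, AddMonoidAlgebra.single_mul_single, mul_one, one_mul,
    zero_add, add_zero]

/-- `M_m(A)[t, t⁻¹] → M_m(A[t, t⁻¹])` -/
def lam (A : Type u) [Ring A] (m : Type w) [Fintype m] [DecidableEq m] :
    Lau (Matrix m m A) →+* Matrix m m (Lau A) :=
  AddMonoidAlgebra.liftNCRingHom (lamF A m) (lamT A m) (lam_comm A m)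

theorem lam_single (A : Type u) [Ring A] (m : Type w) [Fintype m] [DecidableEq m] (j : ℤ)
    (X : Matrix m m A) (i k : m) :
    lam A m (AddMonoidAlgebra.single j X) i k = AddMonoidAlgebra.single j (X i k) := by
  rw [lam, AddMonoidAlgebra.liftNCRingHom_single, lamT_apply, Matrix.mul_diagonal, lamF_apply,
    AddMonoidAlgebra.single_mul_single, mul_one, zero_add, toAdd_ofAdd]

theorem lam_coeff (A : Type u) [Ring A] (m : Type w) [Fintype m] [DecidableEq m]
    (x : Lau (Matrix m m A)) (i k : m) (j : ℤ) :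
    (lam A m x i k).coeff j = x.coeff j i k := by
  have h : ((Finsupp.applyAddHom j).comp AddMonoidAlgebra.coeffAddEquiv.toAddMonoidHom).comp
      ((Matrix.entryAddMonoidHom (Lau A) i k).comp (lam A m : Lau (Matrix m m A) →+ Matrix m m (Lau A)))
      = (Matrix.entryAddMonoidHom A i k).comp
        ((Finsupp.applyAddHom j).comp AddMonoidAlgebra.coeffAddEquiv.toAddMonoidHom) := by
    apply lau_hom_ext
    intro l X
    show (lam A m (AddMonoidAlgebra.single l X) i k).coeff j =
      (AddMonoidAlgebra.single l X : Lau (Matrix m m A)).coeff j i k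
    rw [lam_single, AddMonoidAlgebra.coeff_single, AddMonoidAlgebra.coeff_single,
      Finsupp.single_apply, Finsupp.single_apply]
    split_ifs <;> rfl
  exact congrArg (fun F => F x) h

theorem lam_bij (A : Type u) [Ring A] (m : Type w) [Fintype m] [DecidableEq m] :
    Function.Bijective (lam A m) := by
  constructor
  · intro x y h
    apply AddMonoidAlgebra.ext
    apply Finsupp.ext
    intro j
    ext i k
    rw [← lam_coeff, ← lam_coeff, h]
  · intro Y
    have h1 : ∀ (i k : m) (y : Lau A), ∃ x, lam A m x = Matrix.single i k y := by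
      intro i k y
      induction y using AddMonoidAlgebra.induction_linear with
      | zero => exact ⟨0, by rw [map_zero, Matrix.single_zero]⟩
      | add a b ha hb =>
        obtain ⟨a', ha'⟩ := ha
        obtain ⟨b', hb'⟩ := hb
        exact ⟨a' + b', by rw [map_add, ha', hb', Matrix.single_add]⟩
      | single j a =>
        refine ⟨AddMonoidAlgebra.single j (Matrix.single i k a), ?_⟩
        ext1 i' k'
        rw [lam_single]
        by_cases h : i = i' ∧ k = k'
        · obtain ⟨rfl, rfl⟩ := h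
          rw [Matrix.single_apply_same, Matrix.single_apply_same]
        · rw [Matrix.single_apply_of_ne (h := h), Matrix.single_apply_of_ne (h := h),
            AddMonoidAlgebra.single_zero]
    choose x hx using h1
    refine ⟨∑ i, ∑ k, x i k (Y i k), ?_⟩
    simp only [map_sum, hx]
    exact (Matrix.matrix_eq_sum_single Y).symm

/-- The isomorphism `M_m(A)[t, t⁻¹] ≃ M_m(A[t, t⁻¹])`. -/
def lamE (A : Type u) [Ring A] (m : Type w) [Fintype m] [DecidableEq m] :
    Lau (Matrix m m A) ≃+* Matrix m m (Lau A) :=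
  RingEquiv.ofBijective (lam A m) (lam_bij A m)

theorem lam_c1 (A : Type u) [Ring A] (m : Type w) [Fintype m] [DecidableEq m]
    (x : Lau (Matrix m m A)) : lam A m (c1 _ x) = mc1 A m (lam A m x) := by
  induction x using AddMonoidAlgebra.induction_linear with
  | zero => simp only [map_zero]
  | add a b ha hb => simp only [map_add, ha, hb]
  | single j X =>
    rw [c1_single]
    ext1 i k
    show _ = c1 A (lam A m _ i k)
    rw [lam_single, lam_single, c1_single]

/-- `(∏ A_i)[t, t⁻¹] → ∏ A_i[t, t⁻¹]` -/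
def pil {ι : Type w} (A : ι → Type u) [∀ i, Ring (A i)] : Lau (∀ i, A i) →+* ∀ i, Lau (A i) :=
  RingHom.pi fun i => lauMap (Pi.evalRingHom A i)

theorem pil_apply {ι : Type w} (A : ι → Type u) [∀ i, Ring (A i)] (x : Lau (∀ i, A i)) (i : ι) :
    pil A x i = lauMap (Pi.evalRingHom A i) x := rfl

theorem coeff_lauMap {A : Type u} {B : Type v} [Ring A] [Ring B] (f : A →+* B) (x : Lau A)
    (j : ℤ) : (lauMap f x).coeff j = f (x.coeff j) :=
  AddMonoidAlgebra.coeff_mapRingHom f x j

theorem lauMap_single {A : Type u} {B : Type v} [Ring A] [Ring B] (f : A →+* B) (j : ℤ) (a : A) :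
    lauMap f (AddMonoidAlgebra.single j a) = AddMonoidAlgebra.single j (f a) := by
  apply AddMonoidAlgebra.ext
  apply Finsupp.ext
  intro l
  rw [coeff_lauMap, AddMonoidAlgebra.coeff_single, AddMonoidAlgebra.coeff_single,
    Finsupp.single_apply, Finsupp.single_apply]
  split_ifs
  · rfl
  · exact map_zero f

theorem lauMap_c1 {A : Type u} {B : Type v} [Ring A] [Ring B] (f : A →+* B) (x : Lau A) :
    lauMap f (c1 A x) = c1 B (lauMap f x) := by
  induction x using AddMonoidAlgebra.induction_linear with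
  | zero => simp only [map_zero]
  | add a b ha hb => simp only [map_add, ha, hb]
  | single j X => rw [c1_single, lauMap_single, lauMap_single, c1_single]

theorem pil_bij {ι : Type w} [Fintype ι] [DecidableEq ι] (A : ι → Type u) [∀ i, Ring (A i)] :
    Function.Bijective (pil A) := by
  constructor
  · intro x y h
    apply AddMonoidAlgebra.ext
    apply Finsupp.ext
    intro j
    funext i
    have := congrArg (fun z : Lau (A i) => z.coeff j) (congrFun h i)
    simp only [pil_apply, coeff_lauMap] at this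
    exact this
  · intro Y
    have h1 : ∀ (i : ι) (y : Lau (A i)), ∃ x, pil A x = Pi.single i y := by
      intro i y
      induction y using AddMonoidAlgebra.induction_linear with
      | zero => exact ⟨0, by rw [map_zero, Pi.single_zero]⟩
      | add a b ha hb =>
        obtain ⟨a', ha'⟩ := ha
        obtain ⟨b', hb'⟩ := hb
        exact ⟨a' + b', by rw [map_add, ha', hb', Pi.single_add]⟩
      | single j a =>
        refine ⟨AddMonoidAlgebra.single j (Pi.single i a), ?_⟩
        funext i'
        rw [pil_apply, lauMap_single, Pi.evalRingHom_apply]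
        by_cases h : i' = i
        · subst h
          rw [Pi.single_eq_same, Pi.single_eq_same]
        · rw [Pi.single_eq_of_ne h, Pi.single_eq_of_ne h, AddMonoidAlgebra.single_zero]
    choose x hx using h1
    refine ⟨∑ i, x i (Y i), ?_⟩
    simp only [map_sum, hx]
    exact Finset.univ_sum_single Y

/-- The isomorphism `(∏ A_i)[t, t⁻¹] ≃ ∏ A_i[t, t⁻¹]`. -/
def pilE {ι : Type w} [Fintype ι] [DecidableEq ι] (A : ι → Type u) [∀ i, Ring (A i)] :
    Lau (∀ i, A i) ≃+* ∀ i, Lau (A i) := RingEquiv.ofBijective (pil A) (pil_bij A)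

/-- `A[t, t⁻¹] ≃ B[t, t⁻¹]` for `A ≃ B`. -/
def lauE {A : Type u} {B : Type v} [Ring A] [Ring B] (f : A ≃+* B) : Lau A ≃+* Lau B :=
  RingEquiv.ofRingHom (lauMap (f : A →+* B)) (lauMap (f.symm : B →+* A))
    (by
      apply RingHom.ext
      intro x
      apply AddMonoidAlgebra.ext
      apply Finsupp.ext
      intro j
      rw [RingHom.comp_apply, coeff_lauMap, coeff_lauMap]
      simp)
    (by
      apply RingHom.ext
      intro x
      apply AddMonoidAlgebra.ext
      apply Finsupp.ext
      intro j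
      rw [RingHom.comp_apply, coeff_lauMap, coeff_lauMap]
      simp)

/-! ### nilpotent ideals -/

theorem coeff_mul_mem {A : Type u} [Ring A] (J K : Ideal A) (x y : Lau A)
    (hx : ∀ j, x.coeff j ∈ J) (hy : ∀ j, y.coeff j ∈ K) (j : ℤ) : (x * y).coeff j ∈ J * K := by
  rw [AddMonoidAlgebra.coeff_mul]
  refine Submodule.sum_mem _ fun a _ => Submodule.sum_mem _ fun b _ => ?_
  show (if a + b = j then x.coeff a * y.coeff b else 0) ∈ J * K
  split_ifs
  · exact Ideal.mul_mem_mul (hx a) (hy b)
  · exact Submodule.zero_mem _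

theorem coeff_pow_mem {A : Type u} [Ring A] (J : Ideal A) (x : Lau A)
    (hx : ∀ j, x.coeff j ∈ J) (k : ℕ) : ∀ j, (x ^ k).coeff j ∈ J ^ k := by
  induction k with
  | zero =>
    intro j
    rw [Submodule.pow_zero, Ideal.one_eq_top]
    exact Submodule.mem_top
  | succ k ih =>
    intro j
    rw [pow_succ, Submodule.pow_succ]
    exact coeff_mul_mem _ _ _ _ ih hx j

/-- The kernel of `A[t, t⁻¹] → (A/J)[t, t⁻¹]` is nil if `J` is nilpotent. -/
theorem nil_ker {A : Type u} [Ring A] (J : Ideal A) [J.IsTwoSided] (hJ : IsNilpotent J)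
    (x : Lau A) (hx : lauMap (Ideal.Quotient.mk J) x = 0) : IsNilpotent x := by
  obtain ⟨k, hk⟩ := hJ
  refine ⟨k, ?_⟩
  have h1 : ∀ j, x.coeff j ∈ J := by
    intro j
    rw [← Ideal.Quotient.eq_zero_iff_mem, ← coeff_lauMap, hx]
    rfl
  apply AddMonoidAlgebra.ext
  apply Finsupp.ext
  intro j
  have := coeff_pow_mem J x h1 k j
  rw [hk] at this
  exact this

theorem lauMap_surj {A : Type u} {B : Type v} [Ring A] [Ring B] (f : A →+* B)
    (hf : Function.Surjective f) : Function.Surjective (lauMap f) := by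
  intro y
  induction y using AddMonoidAlgebra.induction_linear with
  | zero => exact ⟨0, map_zero _⟩
  | add a b ha hb =>
    obtain ⟨a', rfl⟩ := ha
    obtain ⟨b', rfl⟩ := hb
    exact ⟨a' + b', map_add _ _ _⟩
  | single j a =>
    obtain ⟨a', rfl⟩ := hf a
    exact ⟨_, lauMap_single f j a'⟩

/-! ### finite rings -/

/-- Matrix rings over finite fields. -/
theorem cj_matrix (K : Type u) [DivisionRing K] [Finite K] (m : ℕ) :
    Cj (Lau (Matrix (Fin m) (Fin m) K)) (c1 (Matrix (Fin m) (Fin m) K)) := by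
  let _ : Field K := littleWedderburn K
  refine cj_of_equiv (mc1 K (Fin m)) _ (lamE K (Fin m)).symm ?_ (cj_field K (Fin m))
  intro x
  rw [RingEquiv.symm_apply_eq]
  show _ = lam K (Fin m) _
  rw [lam_c1]
  congr 1
  exact ((lamE K (Fin m)).apply_symm_apply x).symm

/-- Finite semisimple rings. -/
theorem cj_semisimple (B : Type u) [Ring B] [Finite B] [IsSemisimpleRing B] :
    Cj (Lau B) (c1 B) := by
  obtain ⟨n, D, d, hD, hd, ⟨σ⟩⟩ := IsSemisimpleRing.exists_ringEquiv_pi_matrix_divisionRing B
  have hfin : ∀ i, Finite (D i) := by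
    intro i
    have := hd i
    have hs : Function.Surjective (fun b : B => σ b i 0 0) := by
      intro y
      refine ⟨σ.symm (Pi.single i (Matrix.single 0 0 y)), ?_⟩
      simp
    exact Finite.of_surjective _ hs
  have h1 : Cj (∀ i, Lau (Matrix (Fin (d i)) (Fin (d i)) (D i))) _ :=
    cj_pi _ (fun i => c1 (Matrix (Fin (d i)) (Fin (d i)) (D i)))
      (fun i => by have := hfin i; exact cj_matrix (D i) (d i))
  have h2 : Cj (Lau (∀ i, Matrix (Fin (d i)) (Fin (d i)) (D i))) (c1 _) := by
    refine cj_of_equiv _ _ (pilE _).symm ?_ h1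
    intro x
    rw [RingEquiv.symm_apply_eq]
    funext i
    show c1 _ (x i) = pil (fun i => Matrix (Fin (d i)) (Fin (d i)) (D i)) (c1 _ _) i
    rw [pil_apply, lauMap_c1, ← pil_apply]
    have := congrFun ((pilE (fun i => Matrix (Fin (d i)) (Fin (d i)) (D i))).apply_symm_apply x) i
    exact congrArg (c1 _) this.symm
  refine cj_of_equiv _ _ (lauE σ.symm) ?_ h2
  intro x
  exact lauMap_c1 _ x

/-- Finite rings. -/
theorem cj_finite (B : Type u) [Ring B] [Finite B] : Cj (Lau B) (c1 B) := by
  have : IsArtinianRing B := inferInstance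
  have : Finite (B ⧸ Ring.jacobson B) :=
    Finite.of_surjective (Ideal.Quotient.mk (Ring.jacobson B)) Ideal.Quotient.mk_surjective
  refine cj_of_surj (c1 B) (c1 (B ⧸ Ring.jacobson B)) (lauMap (Ideal.Quotient.mk _))
    (lauMap_surj _ Ideal.Quotient.mk_surjective) (nil_ker _ IsSemiprimaryRing.isNilpotent)
    (lauMap_c1 _) (cj_semisimple _)

end FINMod

/-- FIN -/
theorem specFIN : SpecFIN.{u} := by
  intro B _ _ n e he
  have h1 : FINMod.Cj (Matrix (Fin n) (Fin n) (Lau B)) (FINMod.mc1 B (Fin n)) := by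
    refine FINMod.cj_of_equiv _ _ (FINMod.lamE B (Fin n)) ?_ (FINMod.cj_finite _)
    intro x
    exact FINMod.lam_c1 _ _ x
  exact h1 e he

end Pool.Agent.Lib.MPb6f35e.ZK
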