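import Pool.Agent.Lib.MP_b6f35e_al.ZK.Neck
import Pool.Agent.Lib.MP_b6f35e_al.ZK.Spec

/-!
# RNK: ranks of idempotents over `ℤ_p[G]` vanish at `p`-singular elements of finite order
-/

set_option autoImplicit false

noncomputable section

namespace Pool.Agent.Lib.MPb6f35e.ZK

namespace RNKMod

open Pool.Agent.Lib.MPb6f35e.WH Pool.Agent.Lib.MPb6f35e.WH.Neck

universe u w

theorem rk_single (k : Type w) [CommRing k] {G : Type u} [Group G] (x g : G) (c : k)
    [Decidable (IsConj x g)] :
    rk k x (MonoidAlgebra.single g c) = if IsConj x g then c else 0 := by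
  classical
  show (Finsupp.liftAddHom (fun g : G => if IsConj x g then AddMonoidHom.id k else 0))
    (Finsupp.single g c) = _
  rw [Finsupp.liftAddHom_apply_single]
  split_ifs <;> simp_all

theorem rk_eq (k : Type w) [CommRing k] {G : Type u} [Group G] (x : G) (a : MonoidAlgebra k G) :
    rk k x a = clK a (ConjClasses.mk x) := by
  classical
  induction a using MonoidAlgebra.induction_linear with
  | zero => simp
  | add a b ha hb => rw [map_add, map_add, Finsupp.add_apply, ha, hb]
  | single g c =>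
    rw [rk_single, clK_single, Finsupp.single_apply]
    simp only [ConjClasses.mk_eq_mk_iff_isConj, isConj_comm]

theorem rk_trace (k : Type w) [CommRing k] {G : Type u} [Group G] (x : G)
    (a b : MonoidAlgebra k G) : rk k x (a * b) = rk k x (b * a) := by
  classical
  induction a using MonoidAlgebra.induction_linear with
  | zero => simp
  | add a a' ha ha' => rw [add_mul, mul_add, map_add, map_add, ha, ha']
  | single g c =>
    induction b using MonoidAlgebra.induction_linear with
    | zero => simp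
    | add b b' hb hb' => rw [add_mul, mul_add, map_add, map_add, hb, hb']
    | single h d =>
      rw [MonoidAlgebra.single_mul_single, MonoidAlgebra.single_mul_single, rk_eq, rk_eq,
        clK_single, clK_single, mul_comm c d]
      congr 2
      rw [ConjClasses.mk_eq_mk_iff_isConj]
      exact isConj_iff.2 ⟨h, by group⟩

theorem hk (p : ℕ) [Fact p.Prime] (c : ℤ_[p]) : (p : ℤ_[p]) ∣ c ^ p - c := by
  rw [← Ideal.mem_span_singleton, ← PadicInt.maximalIdeal_eq_span_p, ← PadicInt.ker_toZMod,
    RingHom.mem_ker, map_sub, map_pow, ZMod.pow_card, sub_self]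

theorem inf_div (p : ℕ) [Fact p.Prime] (d : ℤ_[p])
    (h : ∀ e : ℕ, ((p ^ (e + 1) : ℕ) : ℤ_[p]) ∣ d) : d = 0 := by
  by_contra hd
  have h1 : d ∈ (⨅ i : ℕ, Ideal.span {(p : ℤ_[p])} ^ i : Ideal ℤ_[p]) := by
    rw [Submodule.mem_iInf]
    intro i
    rw [Ideal.span_singleton_pow, Ideal.mem_span_singleton]
    have h2 := h i
    rw [Nat.cast_pow] at h2
    exact (pow_dvd_pow _ (Nat.le_succ i)).trans h2
  rw [Ideal.iInf_pow_eq_bot_of_isDomain _ (by
    rw [← PadicInt.maximalIdeal_eq_span_p]
    exact (IsLocalRing.maximalIdeal.isMaximal _).ne_top)] at h1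
  exact hd h1

/-- the order of the elements of a class -/
def ordC {G : Type u} [Group G] : ConjClasses G → ℕ :=
  Quotient.lift orderOf fun a b (h : IsConj a b) => by
    obtain ⟨c, hc⟩ := isConj_iff.1 h
    rw [← hc]
    exact (orderOf_injective (MulAut.conj c).toMonoidHom (MulAut.conj c).injective a).symm

theorem ordC_mk {G : Type u} [Group G] (g : G) : ordC (ConjClasses.mk g) = orderOf g := rfl

/-- A finitely supported function on classes, invariant under `Φ_p`, vanishes on the classes of
finite order divisible by `p`. -/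
theorem supp {G : Type u} [Group G] {R : Type w} [AddCommMonoid R] (p : ℕ) [hp : Fact p.Prime]
    (v : ConjClasses G →₀ R) (hv : Phi p v = v) (c : ConjClasses G) (h0 : ordC c ≠ 0)
    (h1 : p ∣ ordC c) : v c = 0 := by
  classical
  by_contra hne
  obtain ⟨c, hc, hmax⟩ := Finset.exists_max_image
    (v.support.filter fun c => ordC c ≠ 0 ∧ p ∣ ordC c) ordC
    ⟨c, Finset.mem_filter.2 ⟨Finsupp.mem_support_iff.2 hne, h0, h1⟩⟩
  obtain ⟨hc1, hc2, hc3⟩ := Finset.mem_filter.1 hc
  have h2 : c ∈ (Finsupp.mapDomain (powCl p) v).support := by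
    have : Finsupp.mapDomain (powCl p) v = v := hv
    rw [this]
    exact hc1
  obtain ⟨c', hc', rfl⟩ := Finset.mem_image.1 (Finsupp.mapDomain_support h2)
  obtain ⟨y, rfl⟩ : ∃ y, ConjClasses.mk y = c' := ConjClasses.exists_rep c'
  rw [powCl_mk, ordC_mk] at hc2 hc3
  have h3 : orderOf (y ^ p) = orderOf y / Nat.gcd (orderOf y) p :=
    orderOf_pow' y hp.1.ne_zero
  have h4 : p ∣ orderOf y := hc3.trans (orderOf_pow_dvd p)
  rw [Nat.gcd_eq_right h4] at h3
  have h5 : orderOf y ≠ 0 := by
    intro h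
    rw [h, Nat.zero_div] at h3
    exact hc2 h3
  have h6 := hmax (ConjClasses.mk y) (Finset.mem_filter.2 ⟨hc', h5, h4⟩)
  rw [powCl_mk, ordC_mk, ordC_mk, h3] at h6
  exact absurd h6 (not_le.2 (Nat.div_lt_self (Nat.pos_of_ne_zero h5) hp.1.one_lt))

theorem pow_idem {A : Type*} [Monoid A] (E : A) (h : E * E = E) (n : ℕ) : E ^ (n + 1) = E := by
  induction n with
  | zero => rw [zero_add, pow_one]
  | succ n ih => rw [pow_succ, ih, h]

theorem inv (p : ℕ) [hp : Fact p.Prime] {G : Type u} [Group G] (n : ℕ)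
    (E : Matrix (Fin n) (Fin n) (MonoidAlgebra ℤ_[p] G)) (hE : E * E = E) :
    Phi p (clK E.trace) = clK E.trace := by
  ext c
  symm
  rw [← sub_eq_zero]
  apply inf_div p
  intro e
  haveI : ∀ m : ℕ, NeZero (p ^ m) := fun m => ⟨pow_ne_zero _ hp.1.ne_zero⟩
  have hpow : ∀ m : ℕ, E ^ p ^ m = E := by
    intro m
    obtain ⟨j, hj⟩ : ∃ j, p ^ m = j + 1 := Nat.exists_eq_succ_of_ne_zero (NeZero.ne _)
    rw [hj]
    exact pow_idem E hE j
  have h := neck_dvd p e (hk p) E c
  rwa [hpow, hpow] at h

end RNKMod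

theorem specRNK : SpecRNK where
  trace := fun k _ _ _ x a b => RNKMod.rk_trace k x a b
  van := fun p _ G _ x hx hpx n E hE => by
    rw [RNKMod.rk_eq]
    exact RNKMod.supp p _ (RNKMod.inv p n E hE) _ (by
      rw [RNKMod.ordC_mk]
      exact (orderOf_pos_iff.2 hx).ne') hpx

end Pool.Agent.Lib.MPb6f35e.ZK
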