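import Pool.Agent.Lib.MP_b6f35e_al.ZK.Spec

/-!
# Module PAD: the arithmetic square (MP_b6f35e_al, ZK)
-/

set_option autoImplicit false

noncomputable section

namespace Pool.Agent.Lib.MPb6f35e.ZK

universe u v w

namespace PADMod

/-! ### coefficients -/

/-- product of the primes of `S` -/
def PS (S : Finset Nat.Primes) : ℕ := ∏ p ∈ S, (p : ℕ)

theorem PS_ne (S : Finset Nat.Primes) : PS S ≠ 0 :=
  Finset.prod_ne_zero_iff.2 fun p _ => p.2.ne_zero

theorem mem_of_dvd {S : Finset Nat.Primes} {p : Nat.Primes} {k : ℕ} (h : (p : ℕ) ∣ PS S ^ k) :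
    p ∈ S := by
  have h1 := p.2.dvd_of_dvd_pow h
  rw [PS, Prime.dvd_finsetProd_iff p.2.prime] at h1
  obtain ⟨q, hq, h2⟩ := h1
  have h3 : p = q := Subtype.ext ((Nat.prime_dvd_prime_iff_eq p.2 q.2).1 h2)
  rwa [h3]

theorem den1 (p : ℕ) [Fact p.Prime] (c : ℚ_[p]) : ∃ k : ℕ, ‖(p : ℚ_[p]) ^ k * c‖ ≤ 1 := by
  have hp : (1 : ℝ) < p := by exact_mod_cast (Fact.out : p.Prime).one_lt
  obtain ⟨k, hk⟩ := pow_unbounded_of_one_lt ‖c‖ hp
  refine ⟨k, ?_⟩
  rw [norm_mul, norm_pow, Padic.norm_p, inv_pow]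
  have h0 : (0 : ℝ) < (p : ℝ) ^ k := by positivity
  rw [inv_mul_le_iff₀ h0, mul_one]
  exact hk.le

theorem norm_nat_le (p : ℕ) [Fact p.Prime] (n : ℕ) : ‖(n : ℚ_[p])‖ ≤ 1 := by
  have := Padic.norm_int_le_one (p := p) (n : ℤ)
  rwa [Int.cast_natCast] at this

/-- common denominators of a coefficient -/
theorem coef_den (S : Finset Nat.Primes) (c : Qp S) :
    ∃ (k : ℕ) (z : Zp S), (PS S ^ k : ℕ) • c = zpQp S z := by
  have h1 : ∀ p : S, ∃ k : ℕ, ‖(((p : Nat.Primes) : ℕ) : ℚ_[((p : Nat.Primes) : ℕ)]) ^ k * c p‖ ≤ 1 :=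
    fun p => den1 _ (c p)
  choose k hk using h1
  set K := Finset.univ.sup k with hK
  have h2 : ∀ p : S, ‖((PS S ^ K : ℕ) : ℚ_[((p : Nat.Primes) : ℕ)]) * c p‖ ≤ 1 := by
    intro p
    have h3 : ((p : Nat.Primes) : ℕ) ^ k p ∣ PS S ^ K :=
      (pow_dvd_pow _ (Finset.le_sup (f := k) (Finset.mem_univ p))).trans
        (pow_dvd_pow_of_dvd (Finset.dvd_prod_of_mem (fun q : Nat.Primes => (q : ℕ)) p.2) _)
    obtain ⟨m, hm⟩ := h3
    rw [hm, Nat.cast_mul, Nat.cast_pow, mul_comm _ (m : ℚ_[((p : Nat.Primes) : ℕ)]), mul_assoc,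
      norm_mul]
    exact mul_le_one₀ (norm_nat_le _ m) (norm_nonneg _) (hk p)
  refine ⟨K, fun p => ⟨_, h2 p⟩, ?_⟩
  funext p
  rw [Pi.smul_apply, nsmul_eq_mul]
  rfl

/-- `p^e` is a multiple of `x ≠ 0` in `ℤ_p` -/
theorem exists_pow (p : ℕ) [Fact p.Prime] (x : ℕ) (hx : x ≠ 0) :
    ∃ (e : ℕ) (y : ℤ_[p]), (p : ℤ_[p]) ^ e = x * y := by
  have hx' : (x : ℤ_[p]) ≠ 0 := by exact_mod_cast hx
  refine ⟨(x : ℤ_[p]).valuation, ((PadicInt.unitCoeff hx')⁻¹ : ℤ_[p]ˣ), ?_⟩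
  have h := PadicInt.unitCoeff_spec hx'
  calc (p : ℤ_[p]) ^ (x : ℤ_[p]).valuation
      = ((PadicInt.unitCoeff hx' : ℤ_[p]ˣ) * (p : ℤ_[p]) ^ (x : ℤ_[p]).valuation) *
          ((PadicInt.unitCoeff hx')⁻¹ : ℤ_[p]ˣ) := by
        rw [mul_comm, ← mul_assoc, Units.inv_mul, one_mul]
    _ = _ := by rw [← h]

/-- approximation -/
theorem coef_apx (S : Finset Nat.Primes) (c : Qp S) (N : ℕ) (hN : N ≠ 0) :
    ∃ (q : Zs S) (z : Zp S), c = zsQp S q + N • zpQp S z := by
  obtain ⟨k, w, hw⟩ := coef_den S c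
  set M := PS S ^ k with hM
  have hM0 : M ≠ 0 := pow_ne_zero k (PS_ne S)
  have hNM : N * M ≠ 0 := mul_ne_zero hN hM0
  have h1 : ∀ p : S, ∃ (e : ℕ) (y : ℤ_[((p : Nat.Primes) : ℕ)]),
      (((p : Nat.Primes) : ℕ) : ℤ_[((p : Nat.Primes) : ℕ)]) ^ e = (N * M : ℕ) * y :=
    fun p => exists_pow _ _ hNM
  choose e y hy using h1
  -- the integer
  obtain ⟨a, ha⟩ := Nat.chineseRemainderOfFinset (fun p : S => (w p).appr (e p))
    (fun p : S => ((p : Nat.Primes) : ℕ) ^ e p) Finset.univ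
    (fun p _ => pow_ne_zero _ p.1.2.ne_zero)
    (by
      intro p _ q _ hpq
      apply Nat.Coprime.pow
      rw [Nat.coprime_primes p.1.2 q.1.2]
      intro h
      exact hpq (Subtype.ext (Subtype.ext h)))
  have h2 : ∀ p : S, ∃ v : ℤ_[((p : Nat.Primes) : ℕ)], w p = a + (N * M : ℕ) * v := by
    intro p
    have h3 := PadicInt.appr_spec (e p) (w p)
    rw [Ideal.mem_span_singleton] at h3
    obtain ⟨s, hs⟩ := h3
    have h4 := (Nat.modEq_iff_dvd.1 (ha p (Finset.mem_univ p)))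
    obtain ⟨r, hr⟩ := h4
    have h5 : (((w p).appr (e p) : ℤ) : ℤ_[((p : Nat.Primes) : ℕ)]) - ((a : ℤ) : ℤ_[((p : Nat.Primes) : ℕ)]) =
        (((p : Nat.Primes) : ℕ) : ℤ_[((p : Nat.Primes) : ℕ)]) ^ e p * (r : ℤ_[((p : Nat.Primes) : ℕ)]) := by
      have := congrArg (fun z : ℤ => (z : ℤ_[((p : Nat.Primes) : ℕ)])) hr
      simpa using this
    refine ⟨y p * (s + r), ?_⟩
    rw [← mul_assoc, ← hy p, mul_add, ← hs, ← h5]
    simp
  choose v hv using h2
  have hq : ((a : ℚ) / M) ∈ Zs S := by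
    refine ⟨M, hM0, fun p hp => mem_of_dvd hp, a, ?_⟩
    have : (M : ℚ) ≠ 0 := by exact_mod_cast hM0
    rw [mul_div_cancel₀ _ this]
    simp
  refine ⟨⟨_, hq⟩, v, ?_⟩
  funext p
  have h6 := congrFun hw p
  rw [Pi.smul_apply, nsmul_eq_mul] at h6
  have hMp : ((M : ℕ) : ℚ_[((p : Nat.Primes) : ℕ)]) ≠ 0 := by exact_mod_cast hM0
  have h7 : zpQp S w p = ((w p : ℤ_[((p : Nat.Primes) : ℕ)]) : ℚ_[((p : Nat.Primes) : ℕ)]) := rfl
  have h8 : zpQp S v p = ((v p : ℤ_[((p : Nat.Primes) : ℕ)]) : ℚ_[((p : Nat.Primes) : ℕ)]) := rfl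
  have h9 : zsQp S ⟨(a : ℚ) / M, hq⟩ p = (((a : ℚ) / M : ℚ) : ℚ_[((p : Nat.Primes) : ℕ)]) := rfl
  rw [Pi.add_apply, Pi.smul_apply, nsmul_eq_mul, h8, h9]
  rw [h7, hv p] at h6
  apply mul_left_cancel₀ hMp
  rw [h6]
  push_cast
  rw [mul_add, mul_div_cancel₀ _ hMp]
  ring

/-- a rational number in `ℤ[1/S]` which is in `ℤ_p` for `p ∈ S` is an integer -/
theorem coef_int (S : Finset Nat.Primes) (q : Zs S) (z : Zp S) (h : zsQp S q = zpQp S z) :
    ((q : ℚ).num : ℚ) = q := by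
  obtain ⟨N, hN, hp, m, hm⟩ := q.2
  have hden : (q : ℚ).den = 1 := by
    by_contra hne
    obtain ⟨p, hpp, hpd⟩ := Nat.exists_prime_and_dvd hne
    have h1 : (q : ℚ) = Rat.divInt m (N : ℤ) := by
      rw [Rat.divInt_eq_div, Int.cast_natCast]
      have : (N : ℚ) ≠ 0 := by exact_mod_cast hN
      rw [eq_div_iff this, mul_comm]
      exact hm
    have h2 : ((q : ℚ).den : ℤ) ∣ (N : ℤ) := by
      rw [h1]
      exact Rat.den_dvd m N
    have h3 : p ∣ N := hpd.trans (Int.natCast_dvd_natCast.1 h2)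
    have h4 : (⟨p, hpp⟩ : Nat.Primes) ∈ S := hp ⟨p, hpp⟩ h3
    have : Fact p.Prime := ⟨hpp⟩
    have h5 : ((q : ℚ) : ℚ_[p]) = ((z ⟨⟨p, hpp⟩, h4⟩ : ℤ_[p]) : ℚ_[p]) :=
      congrFun h ⟨⟨p, hpp⟩, h4⟩
    have h6 : ‖((q : ℚ) : ℚ_[p])‖ ≤ 1 := by
      rw [h5]
      exact (z ⟨⟨p, hpp⟩, h4⟩).2
    have h7 : ((q : ℚ) : ℚ_[p]) * ((q : ℚ).den : ℚ_[p]) = ((q : ℚ).num : ℚ_[p]) := by
      have h8 : (q : ℚ) * ((q : ℚ).den : ℚ) = ((q : ℚ).num : ℚ) := Rat.mul_den_eq_num _
      exact_mod_cast congrArg (fun x : ℚ => (x : ℚ_[p])) h8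
    have h9 : ‖(((q : ℚ).num : ℤ) : ℚ_[p])‖ < 1 := by
      rw [← h7, norm_mul]
      have h10 : ‖(((q : ℚ).den : ℕ) : ℚ_[p])‖ < 1 := by
        rw [Padic.norm_natCast_lt_one_iff]
        exact hpd
      calc ‖((q : ℚ) : ℚ_[p])‖ * ‖(((q : ℚ).den : ℕ) : ℚ_[p])‖
          ≤ 1 * ‖(((q : ℚ).den : ℕ) : ℚ_[p])‖ :=
            mul_le_mul_of_nonneg_right h6 (norm_nonneg _)
        _ < 1 := by rwa [one_mul]
    rw [Padic.norm_intCast_lt_one_iff] at h9
    have h11 : p ∣ (q : ℚ).num.natAbs := Int.natCast_dvd.1 h9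
    exact Nat.not_coprime_of_dvd_of_dvd hpp.one_lt h11 hpd (q : ℚ).reduced
  exact Rat.coe_int_num_of_den_eq_one hden

/-! ### Laurent polynomials over the group ring -/

section maps

variable {k k' : Type w} [CommRing k] [CommRing k'] {G : Type u} [Group G]

theorem cMap_coeff (f : k →+* k') (a : Lau (MonoidAlgebra k G)) (j : ℤ) (g : G) :
    ((cMap G f a).coeff j).coeff g = f ((a.coeff j).coeff g) := by
  unfold cMap lauMap
  rw [AddMonoidAlgebra.coeff_mapRingHom, MonoidAlgebra.coeff_mapRingHom]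

theorem lau_ext {a b : Lau (MonoidAlgebra k G)}
    (h : ∀ j g, (a.coeff j).coeff g = (b.coeff j).coeff g) : a = b := by
  apply AddMonoidAlgebra.ext
  apply Finsupp.ext
  intro j
  apply MonoidAlgebra.ext
  apply Finsupp.ext
  intro g
  exact h j g

theorem cMap_inj (f : k →+* k') (hf : Function.Injective f) : Function.Injective (cMap G f) := by
  intro a b h
  apply lau_ext
  intro j g
  apply hf
  rw [← cMap_coeff, ← cMap_coeff, h]

theorem cMap_single (f : k →+* k') (j : ℤ) (g : G) (c : k) :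
    cMap G f (AddMonoidAlgebra.single j (MonoidAlgebra.single g c)) =
      AddMonoidAlgebra.single j (MonoidAlgebra.single g (f c)) := by
  unfold cMap lauMap
  rw [AddMonoidAlgebra.mapRingHom_single, MonoidAlgebra.mapRingHom_single]

/-- induction on monomials -/
theorem lau_ind {P : Lau (MonoidAlgebra k G) → Prop} (h0 : P 0) (ha : ∀ a b, P a → P b → P (a + b))
    (hs : ∀ (j : ℤ) (g : G) (c : k), P (AddMonoidAlgebra.single j (MonoidAlgebra.single g c)))
    (a : Lau (MonoidAlgebra k G)) : P a := by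
  induction a using AddMonoidAlgebra.induction_linear with
  | zero => exact h0
  | add a b h1 h2 => exact ha a b h1 h2
  | single j m =>
    induction m using MonoidAlgebra.induction_linear with
    | zero => rw [AddMonoidAlgebra.single_zero]; exact h0
    | add a b h1 h2 => rw [AddMonoidAlgebra.single_add]; exact ha _ _ h1 h2
    | single g c => exact hs j g c

end maps

theorem zpQp_inj (S : Finset Nat.Primes) : Function.Injective (zpQp S) := by
  intro a b h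
  funext p
  exact Subtype.ext (congrFun h p)

/-! ### abstract part -/

section gen

variable {A₁ : Type u} {A₂ : Type u} {A₀ : Type u} [Ring A₁] [Ring A₂] [Ring A₀]

/-- `1 + E`, `E² = 0` -/
def uni {A : Type u} [Ring A] {ι : Type} [Fintype ι] [DecidableEq ι] (E : Matrix ι ι A)
    (h : E * E = 0) : (Matrix ι ι A)ˣ where
  val := 1 + E
  inv := 1 - E
  val_inv := by rw [mul_sub, mul_one, add_mul, h, one_mul, add_zero, add_sub_cancel_right]
  inv_val := by rw [sub_mul, one_mul, mul_add, h, mul_one, add_zero, add_sub_cancel_right]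

theorem uni_map {A B : Type u} [Ring A] [Ring B] (f : A →+* B) {ι : Type} [Fintype ι]
    [DecidableEq ι] (E : Matrix ι ι A) (h : E * E = 0) : (uni E h).val.map f = 1 + E.map f := by
  change (1 + E).map f = 1 + E.map f
  rw [Matrix.map_add _ (map_add f), Matrix.map_one _ (map_zero f) (map_one f)]

/-- a unipotent matrix close to `1` passes to the other side of `X` -/
theorem pass (j : A₂ →+* A₀) (hj : Function.Injective j) {ι : Type} [Fintype ι] [DecidableEq ι]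
    (X : (Matrix ι ι A₀)ˣ) (N₁ N₂ : ℕ) (Z Y : Matrix ι ι A₂) (hZ : N₁ • X.val = Z.map j)
    (hY : N₂ • (X⁻¹).val = Y.map j) (E : Matrix ι ι A₂) (hE : E * E = 0) :
    ∃ W : (Matrix ι ι A₂)ˣ, (1 + (N₂ * N₁) • E.map j) * X.val = X.val * W.val.map j := by
  have hZY : Z * Y = (N₁ * N₂) • (1 : Matrix ι ι A₂) := by
    have h1 : (Z * Y).map j = ((N₁ * N₂) • (1 : Matrix ι ι A₂)).map j := by
      rw [Matrix.map_mul, ← hZ, ← hY, Matrix.smul_mul, Matrix.mul_smul, Units.mul_inv, smul_smul]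
      ext1 a b
      rw [Matrix.smul_apply, Matrix.map_apply, Matrix.smul_apply, map_nsmul, Matrix.one_apply,
        Matrix.one_apply]
      split_ifs
      · rw [map_one]
      · rw [map_zero]
    ext1 a b
    exact hj (congrFun (congrFun h1 a) b)
  have hT : (Y * E * Z) * (Y * E * Z) = 0 := by
    calc (Y * E * Z) * (Y * E * Z) = Y * E * (Z * Y) * (E * Z) := by
          simp only [Matrix.mul_assoc]
      _ = (N₁ * N₂) • (Y * (E * E) * Z) := by
          rw [hZY, Matrix.mul_smul, Matrix.mul_one, Matrix.smul_mul]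
          simp only [Matrix.mul_assoc]
      _ = 0 := by rw [hE, Matrix.mul_zero, Matrix.zero_mul, smul_zero]
  refine ⟨uni (Y * E * Z) hT, ?_⟩
  rw [uni_map, Matrix.map_mul, Matrix.map_mul, ← hZ, ← hY, mul_add, mul_one, add_mul, one_mul]
  congr 1
  have e1 : X.val * ((X⁻¹).val * E.map j * X.val) = E.map j * X.val := by
    rw [← mul_assoc, ← mul_assoc, Units.mul_inv, one_mul]
  rw [Matrix.smul_mul, Matrix.smul_mul, Matrix.smul_mul, Matrix.mul_smul, Matrix.mul_smul,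
    Matrix.mul_smul, smul_smul, e1]

/-- upper or lower unipotent matrices -/
theorem elem (j₁ : A₁ →+* A₀) (j₂ : A₂ →+* A₀) (hj : Function.Injective j₂)
    {ι κ μ : Type} [Fintype μ] [DecidableEq μ]
    (emb : ∀ (A : Type u) [Ring A], Matrix ι κ A →+ Matrix μ μ A)
    (hemb : ∀ (A : Type u) [Ring A] (y y' : Matrix ι κ A), emb A y * emb A y' = 0)
    (hmap : ∀ (A B : Type u) [Ring A] [Ring B] (f : A →+* B) (y : Matrix ι κ A),
      (emb A y).map f = emb B (y.map f))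
    (hden : ∀ Y : Matrix μ μ A₀, ∃ (N : ℕ) (_ : N ≠ 0) (Z : Matrix μ μ A₂), N • Y = Z.map j₂)
    (hapx : ∀ (N : ℕ) (_ : N ≠ 0) (Y : Matrix ι κ A₀), ∃ (Y₁ : Matrix ι κ A₁)
      (Y₂ : Matrix ι κ A₂), Y = Y₁.map j₁ + N • Y₂.map j₂)
    (y : Matrix ι κ A₀) (X : (Matrix μ μ A₀)ˣ) :
    ∃ (W₁ : (Matrix μ μ A₁)ˣ) (W₂ : (Matrix μ μ A₂)ˣ),
      (1 + emb _ y) * X.val = W₁.val.map j₁ * X.val * W₂.val.map j₂ := by
  obtain ⟨N₁, hN₁, Z, hZ⟩ := hden X.val
  obtain ⟨N₂, hN₂, Y, hY⟩ := hden (X⁻¹).val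
  obtain ⟨y₁, y₂, hy⟩ := hapx (N₂ * N₁) (mul_ne_zero hN₂ hN₁) y
  obtain ⟨W₂, hW₂⟩ := pass j₂ hj X N₁ N₂ Z Y hZ hY (emb _ y₂) (hemb _ _ _)
  refine ⟨uni (emb _ y₁) (hemb _ _ _), W₂, ?_⟩
  rw [mul_assoc, ← hW₂, ← mul_assoc]
  congr 1
  rw [uni_map, hy, map_add, map_nsmul, hmap, hmap, add_mul, one_mul, mul_add,
    mul_one, Matrix.mul_smul, hemb, smul_zero, add_zero]
  abel

end gen

section sq

variable (S : Finset Nat.Primes) (G : Type u) [Group G]

/-- denominators of an element -/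
theorem den_el (y : Lau (MonoidAlgebra (Qp S) G)) :
    ∃ (N : ℕ) (_ : N ≠ 0) (z : Lau (MonoidAlgebra (Zp S) G)), N • y = cMap G (zpQp S) z := by
  refine lau_ind (P := fun y => ∃ (N : ℕ) (_ : N ≠ 0) (z : Lau (MonoidAlgebra (Zp S) G)),
    N • y = cMap G (zpQp S) z) ?_ ?_ ?_ y
  · exact ⟨1, one_ne_zero, 0, by rw [smul_zero, map_zero]⟩
  · rintro a b ⟨N, hN, z, hz⟩ ⟨N', hN', z', hz'⟩
    refine ⟨N * N', mul_ne_zero hN hN', N' • z + N • z', ?_⟩
    rw [map_add, map_nsmul, map_nsmul, ← hz, ← hz', smul_add, smul_smul, smul_smul,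
      mul_comm N' N]
  · intro j g c
    obtain ⟨k, z, hz⟩ := coef_den S c
    refine ⟨PS S ^ k, pow_ne_zero k (PS_ne S),
      AddMonoidAlgebra.single j (MonoidAlgebra.single g z), ?_⟩
    rw [cMap_single, ← hz, AddMonoidAlgebra.smul_single, MonoidAlgebra.smul_single]

/-- approximation of an element -/
theorem apx_el (N : ℕ) (hN : N ≠ 0) (y : Lau (MonoidAlgebra (Qp S) G)) :
    ∃ (y₁ : Lau (MonoidAlgebra (Zs S) G)) (y₂ : Lau (MonoidAlgebra (Zp S) G)),
      y = cMap G (zsQp S) y₁ + N • cMap G (zpQp S) y₂ := by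
  refine lau_ind (P := fun y => ∃ (y₁ : Lau (MonoidAlgebra (Zs S) G))
    (y₂ : Lau (MonoidAlgebra (Zp S) G)),
      y = cMap G (zsQp S) y₁ + N • cMap G (zpQp S) y₂) ?_ ?_ ?_ y
  · exact ⟨0, 0, by rw [map_zero, map_zero, smul_zero, add_zero]⟩
  · rintro a b ⟨y₁, y₂, h⟩ ⟨y₁', y₂', h'⟩
    refine ⟨y₁ + y₁', y₂ + y₂', ?_⟩
    rw [map_add, map_add, h, h', smul_add]
    abel
  · intro j g c
    obtain ⟨q, z, hz⟩ := coef_apx S c N hN
    refine ⟨AddMonoidAlgebra.single j (MonoidAlgebra.single g q),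
      AddMonoidAlgebra.single j (MonoidAlgebra.single g z), ?_⟩
    rw [cMap_single, cMap_single, AddMonoidAlgebra.smul_single, MonoidAlgebra.smul_single,
      ← AddMonoidAlgebra.single_add, ← MonoidAlgebra.single_add, ← hz]

/-- denominators of a matrix -/
theorem den_mat {ι κ : Type} [Fintype ι] [Fintype κ]
    (Y : Matrix ι κ (Lau (MonoidAlgebra (Qp S) G))) :
    ∃ (N : ℕ) (_ : N ≠ 0) (Z : Matrix ι κ (Lau (MonoidAlgebra (Zp S) G))),
      N • Y = Z.map (cMap G (zpQp S)) := by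
  classical
  have h1 : ∀ ij : ι × κ, ∃ (N : ℕ) (_ : N ≠ 0) (z : Lau (MonoidAlgebra (Zp S) G)),
      N • Y ij.1 ij.2 = cMap G (zpQp S) z := fun ij => den_el S G _
  choose N hN z hz using h1
  refine ⟨∏ ij, N ij, Finset.prod_ne_zero_iff.2 fun ij _ => hN ij,
    Matrix.of fun i j => (∏ l ∈ Finset.univ.erase (i, j), N l) • z (i, j), ?_⟩
  ext1 i j
  rw [Matrix.smul_apply, Matrix.map_apply, Matrix.of_apply, map_nsmul, ← hz (i, j), smul_smul,
    Finset.prod_erase_mul _ _ (Finset.mem_univ _)]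

theorem apx_mat {ι κ : Type} (N : ℕ) (hN : N ≠ 0)
    (Y : Matrix ι κ (Lau (MonoidAlgebra (Qp S) G))) :
    ∃ (Y₁ : Matrix ι κ (Lau (MonoidAlgebra (Zs S) G)))
      (Y₂ : Matrix ι κ (Lau (MonoidAlgebra (Zp S) G))),
      Y = Y₁.map (cMap G (zsQp S)) + N • Y₂.map (cMap G (zpQp S)) := by
  have h1 : ∀ i j, ∃ (y₁ : Lau (MonoidAlgebra (Zs S) G)) (y₂ : Lau (MonoidAlgebra (Zp S) G)),
      Y i j = cMap G (zsQp S) y₁ + N • cMap G (zpQp S) y₂ := fun i j => apx_el S G N hN _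
  choose y₁ y₂ h using h1
  refine ⟨Matrix.of y₁, Matrix.of y₂, ?_⟩
  ext1 i j
  rw [h]
  rfl

end sq

/-- upper right block -/
def embU (r s : ℕ) (A : Type u) [Ring A] :
    Matrix (Fin r) (Fin s) A →+ Matrix (Fin r ⊕ Fin s) (Fin r ⊕ Fin s) A where
  toFun y := Matrix.fromBlocks 0 y 0 0
  map_zero' := Matrix.fromBlocks_zero
  map_add' y y' := by rw [Matrix.fromBlocks_add]; simp

/-- lower left block -/
def embL (r s : ℕ) (A : Type u) [Ring A] :
    Matrix (Fin s) (Fin r) A →+ Matrix (Fin r ⊕ Fin s) (Fin r ⊕ Fin s) A where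
  toFun y := Matrix.fromBlocks 0 0 y 0
  map_zero' := Matrix.fromBlocks_zero
  map_add' y y' := by rw [Matrix.fromBlocks_add]; simp

end PADMod

open PADMod in
/-- PAD -/
theorem specPAD : SpecPAD.{u} := by
  intro S G _
  refine ⟨?_, ?_, ?_, ?_, ?_⟩
  · intro a
    apply lau_ext
    intro j g
    change ((cMap G (zsQp S) (cMap G (Int.castRingHom (Zs S)) a)).coeff j).coeff g =
      ((cMap G (zpQp S) (cMap G (Int.castRingHom (Zp S)) a)).coeff j).coeff g
    rw [cMap_coeff, cMap_coeff, cMap_coeff, cMap_coeff]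
    have : (zsQp S).comp (Int.castRingHom (Zs S)) = (zpQp S).comp (Int.castRingHom (Zp S)) :=
      RingHom.ext_int _ _
    exact DFunLike.congr_fun this _
  · intro a₁ a₂ h
    have h1 : ∀ j g, zsQp S ((a₁.coeff j).coeff g) = zpQp S ((a₂.coeff j).coeff g) := by
      intro j g
      rw [← cMap_coeff, ← cMap_coeff]
      exact congrArg (fun z : Lau (MonoidAlgebra (Qp S) G) => (z.coeff j).coeff g) h
    let num : Zs S → ℤ := fun q => (q : ℚ).num
    let a : Lau (MonoidAlgebra ℤ G) := AddMonoidAlgebra.ofCoeff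
      (Finsupp.mapRange (fun m : MonoidAlgebra (Zs S) G =>
        (MonoidAlgebra.ofCoeff (Finsupp.mapRange num rfl m.coeff) : MonoidAlgebra ℤ G))
        (by
          apply MonoidAlgebra.ext
          apply Finsupp.ext
          intro g
          rfl) a₁.coeff)
    have ha : ∀ j g, (a.coeff j).coeff g = (((a₁.coeff j).coeff g : Zs S) : ℚ).num := fun _ _ => rfl
    refine ⟨a, ?_, ?_⟩
    · apply lau_ext
      intro j g
      change ((cMap G (Int.castRingHom (Zs S)) a).coeff j).coeff g = _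
      rw [cMap_coeff, ha]
      apply Subtype.ext
      have := coef_int S _ _ (h1 j g)
      rw [← this]
      simp
    · apply lau_ext
      intro j g
      change ((cMap G (Int.castRingHom (Zp S)) a).coeff j).coeff g = _
      rw [cMap_coeff, ha]
      apply zpQp_inj S
      rw [← h1 j g]
      have h2 := coef_int S _ _ (h1 j g)
      have h3 : (zpQp S).comp (Int.castRingHom (Zp S)) = (zsQp S).comp (Int.castRingHom (Zs S)) :=
        RingHom.ext_int _ _
      have h4 := DFunLike.congr_fun h3 (((a₁.coeff j).coeff g : Zs S) : ℚ).num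
      rw [RingHom.comp_apply, RingHom.comp_apply] at h4
      rw [h4]
      congr 1
      apply Subtype.ext
      rw [← h2]
      simp
  · intro a h _
    apply lau_ext
    intro j g
    have h1 : Function.Injective (Int.castRingHom (Zs S)) := by
      intro m n hmn
      have := congrArg Subtype.val hmn
      simpa using this
    apply h1
    rw [← cMap_coeff]
    change ((cMap G (Int.castRingHom (Zs S)) a).coeff j).coeff g = _
    have h2 : cMap G (Int.castRingHom (Zs S)) a = 0 := h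
    rw [h2]
    simp
  · intro r s y X
    have h := elem (cMap G (zsQp S)) (cMap G (zpQp S)) (cMap_inj _ (zpQp_inj S)) (embU r s) (by
      intro A _ y y'
      change Matrix.fromBlocks 0 y 0 0 * Matrix.fromBlocks 0 y' 0 0 = 0
      rw [Matrix.fromBlocks_multiply]
      simp) (by
      intro A B _ _ f y
      change (Matrix.fromBlocks 0 y 0 0).map f = Matrix.fromBlocks 0 (y.map f) 0 0
      rw [Matrix.fromBlocks_map]
      simp) (den_mat S G) (apx_mat S G) y X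
    have e : Matrix.fromBlocks 1 y 0 1 = 1 + embU r s _ y := by
      change _ = 1 + Matrix.fromBlocks 0 y 0 0
      rw [← Matrix.fromBlocks_one, Matrix.fromBlocks_add]
      simp
    rw [e]
    exact h
  · intro r s y X
    have h := elem (cMap G (zsQp S)) (cMap G (zpQp S)) (cMap_inj _ (zpQp_inj S)) (embL r s) (by
      intro A _ y y'
      change Matrix.fromBlocks 0 0 y 0 * Matrix.fromBlocks 0 0 y' 0 = 0
      rw [Matrix.fromBlocks_multiply]
      simp) (by
      intro A B _ _ f y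
      change (Matrix.fromBlocks 0 0 y 0).map f = Matrix.fromBlocks 0 0 (y.map f) 0
      rw [Matrix.fromBlocks_map]
      simp) (den_mat S G) (apx_mat S G) y X
    have e : Matrix.fromBlocks 1 0 y 1 = 1 + embL r s _ y := by
      change _ = 1 + Matrix.fromBlocks 0 0 y 0
      rw [← Matrix.fromBlocks_one, Matrix.fromBlocks_add]
      simp
    rw [e]
    exact h

end Pool.Agent.Lib.MPb6f35e.ZK
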