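import Pool.Agent.Lib.MP_b6f35e_al.ZK.Spec

/-!
# K_0 by idempotent matrices  (MP_b6f35e_al, ZK, module KA)

* `Eqv e f` is an equivalence relation on idempotent matrices, compatible with block sums,
  reindexing, ring homomorphisms;
* `K0.exact` : `[e] = [f]` in `K_0(A)` implies `e ⊕ 1_k ∼ f ⊕ 1_k` for some `k`;
* `K0.exists_rep` : every element of `K_0(A)` is `[e] - [1_k]`;
* `Eqv.conj` : equivalent idempotent matrices are conjugate after adding zero blocks.
-/

set_option autoImplicit false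

noncomputable section

namespace Pool.Agent.Lib.MPb6f35e.ZK

open Matrix

universe u v w w₁ w₂ w₃ w₄

/-! ### Equivalence of idempotent matrices -/

section Eqv

variable {A : Type u} [Ring A] {m : Type w₁} {n : Type w₂} {p : Type w₃} {q : Type w₄}
  [Fintype m] [Fintype n] [Fintype p] [Fintype q]

theorem Eqv.refl {e : Matrix m m A} (he : e * e = e) : Eqv e e := ⟨e, e, he, he⟩

theorem Eqv.symm {e : Matrix m m A} {f : Matrix n n A} (h : Eqv e f) : Eqv f e := by
  obtain ⟨a, b, h1, h2⟩ := h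
  exact ⟨b, a, h2, h1⟩

theorem Eqv.trans {e : Matrix m m A} {f : Matrix n n A} {g : Matrix p p A} (he : e * e = e)
    (hg : g * g = g) (h1 : Eqv e f) (h2 : Eqv f g) : Eqv e g := by
  obtain ⟨a, b, ha, hb⟩ := h1
  obtain ⟨c, d, hc, hd⟩ := h2
  refine ⟨a * c, d * b, ?_, ?_⟩
  · calc a * c * (d * b) = a * (c * d) * b := by simp only [Matrix.mul_assoc]
      _ = (a * b) * (a * b) := by rw [hc, ← hb]; simp only [Matrix.mul_assoc]
      _ = e := by rw [ha, he]
  · calc d * b * (a * c) = d * (b * a) * c := by simp only [Matrix.mul_assoc]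
      _ = (d * c) * (d * c) := by rw [hb, ← hc]; simp only [Matrix.mul_assoc]
      _ = g := by rw [hd, hg]

theorem reindex_idem {e : Matrix m m A} (he : e * e = e) (σ : m ≃ n) :
    Matrix.reindex σ σ e * Matrix.reindex σ σ e = Matrix.reindex σ σ e := by
  rw [Matrix.reindex_apply, Matrix.submatrix_mul_equiv, he]

theorem Eqv.reindex {e : Matrix m m A} (he : e * e = e) (σ : m ≃ n) :
    Eqv e (Matrix.reindex σ σ e) := by
  refine ⟨e.submatrix id σ.symm, e.submatrix σ.symm id, ?_, ?_⟩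
  · rw [Matrix.submatrix_mul_equiv, he, Matrix.submatrix_id_id]
  · have := Matrix.submatrix_mul_equiv e e σ.symm (Equiv.refl m) σ.symm
    rw [he] at this
    exact this

theorem Eqv.zero : Eqv (0 : Matrix m m A) (0 : Matrix n n A) := ⟨0, 0, by simp, by simp⟩

theorem blocks_idem {e : Matrix m m A} {f : Matrix n n A} (he : e * e = e) (hf : f * f = f) :
    Matrix.fromBlocks e 0 0 f * Matrix.fromBlocks e 0 0 f = Matrix.fromBlocks e 0 0 f := by
  rw [Matrix.fromBlocks_multiply, he, hf]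
  simp

theorem Eqv.sum {e : Matrix m m A} {e' : Matrix n n A} {f : Matrix p p A} {f' : Matrix q q A}
    (h1 : Eqv e e') (h2 : Eqv f f') :
    Eqv (Matrix.fromBlocks e 0 0 f) (Matrix.fromBlocks e' 0 0 f') := by
  obtain ⟨a, b, ha, hb⟩ := h1
  obtain ⟨c, d, hc, hd⟩ := h2
  refine ⟨Matrix.fromBlocks a 0 0 c, Matrix.fromBlocks b 0 0 d, ?_, ?_⟩
  · rw [Matrix.fromBlocks_multiply, ha, hc]; simp
  · rw [Matrix.fromBlocks_multiply, hb, hd]; simp

theorem Eqv.comm {e : Matrix m m A} {f : Matrix n n A} (he : e * e = e) (hf : f * f = f) :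
    Eqv (Matrix.fromBlocks e 0 0 f) (Matrix.fromBlocks f 0 0 e) := by
  refine ⟨Matrix.fromBlocks 0 e f 0, Matrix.fromBlocks 0 f e 0, ?_, ?_⟩
  · rw [Matrix.fromBlocks_multiply, he, hf]; simp
  · rw [Matrix.fromBlocks_multiply, he, hf]; simp

theorem Eqv.assoc {e : Matrix m m A} {f : Matrix n n A} {g : Matrix p p A} (he : e * e = e)
    (hf : f * f = f) (hg : g * g = g) :
    Eqv (Matrix.fromBlocks (Matrix.fromBlocks e 0 0 f) 0 0 g)
      (Matrix.fromBlocks e 0 0 (Matrix.fromBlocks f 0 0 g)) := by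
  have h := Eqv.reindex (blocks_idem (blocks_idem he hf) hg) (Equiv.sumAssoc m n p)
  have h2 : Matrix.reindex (Equiv.sumAssoc m n p) (Equiv.sumAssoc m n p)
      (Matrix.fromBlocks (Matrix.fromBlocks e 0 0 f) 0 0 g) =
      Matrix.fromBlocks e 0 0 (Matrix.fromBlocks f 0 0 g) := by
    ext i j
    rcases i with i | i | i <;> rcases j with j | j | j <;> rfl
  rwa [h2] at h

/-- Orthogonal idempotents. -/
theorem Eqv.orth {e f : Matrix m m A} (he : e * e = e) (hf : f * f = f) (h1 : e * f = 0)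
    (h2 : f * e = 0) : Eqv (Matrix.fromBlocks e 0 0 f) (e + f) := by
  refine ⟨Matrix.fromRows e f, Matrix.fromCols e f, ?_, ?_⟩
  · rw [Matrix.fromRows_mul_fromCols, he, hf, h1, h2]
  · rw [Matrix.fromCols_mul_fromRows, he, hf]

theorem Eqv.add_zero {e : Matrix m m A} (he : e * e = e) :
    Eqv (Matrix.fromBlocks e 0 0 (0 : Matrix n n A)) e := by
  refine ⟨Matrix.fromRows e 0, Matrix.fromCols e 0, ?_, ?_⟩
  · rw [Matrix.fromRows_mul_fromCols, he]; simp
  · rw [Matrix.fromCols_mul_fromRows, he]; simp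

theorem Eqv.zero_add {e : Matrix m m A} (he : e * e = e) :
    Eqv (Matrix.fromBlocks (0 : Matrix n n A) 0 0 e) e := by
  refine ⟨Matrix.fromRows 0 e, Matrix.fromCols 0 e, ?_, ?_⟩
  · rw [Matrix.fromRows_mul_fromCols, he]; simp
  · rw [Matrix.fromCols_mul_fromRows, he]; simp

theorem Eqv.map {B : Type v} [Ring B] (φ : A →+* B) {e : Matrix m m A} {f : Matrix n n A}
    (h : Eqv e f) : Eqv (e.map φ) (f.map φ) := by
  obtain ⟨a, b, h1, h2⟩ := h
  exact ⟨a.map φ, b.map φ, by rw [← Matrix.map_mul, h1], by rw [← Matrix.map_mul, h2]⟩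

/-- Conjugate idempotents. -/
theorem Eqv.of_conj [DecidableEq m] {e f : Matrix m m A} (he : e * e = e) (g h : Matrix m m A)
    (hg : h * g = 1) (hf : g * e * h = f) : Eqv e f := by
  refine ⟨e * h, g * e, ?_, ?_⟩
  · calc e * h * (g * e) = e * (h * g) * e := by simp only [Matrix.mul_assoc]
      _ = e := by rw [hg, Matrix.mul_one, he]
  · calc g * e * (e * h) = g * (e * e) * h := by simp only [Matrix.mul_assoc]
      _ = f := by rw [he, hf]

/-- The complement. -/
theorem compl_idem [DecidableEq m] {e : Matrix m m A} (he : e * e = e) :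
    (1 - e) * (1 - e) = 1 - e := by
  rw [Matrix.mul_sub, Matrix.mul_one, Matrix.sub_mul, Matrix.one_mul, he, sub_self, sub_zero]

theorem Eqv.compl [DecidableEq m] {e : Matrix m m A} (he : e * e = e) :
    Eqv (Matrix.fromBlocks e 0 0 (1 - e)) (1 : Matrix m m A) := by
  have h := Eqv.orth he (compl_idem he) (by rw [Matrix.mul_sub, Matrix.mul_one, he, sub_self])
    (by rw [Matrix.sub_mul, Matrix.one_mul, he, sub_self])
  rwa [add_sub_cancel] at h

/-- Equivalent idempotents are conjugate after adding zero blocks. -/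
theorem Eqv.conj [DecidableEq m] [DecidableEq n] {e : Matrix m m A} {f : Matrix n n A}
    (he : e * e = e) (hf : f * f = f) (h : Eqv e f) :
    ∃ (g : Matrix (n ⊕ m) (m ⊕ n) A) (g' : Matrix (m ⊕ n) (n ⊕ m) A), g * g' = 1 ∧ g' * g = 1 ∧
      g * Matrix.fromBlocks e 0 0 (0 : Matrix n n A) * g' =
        Matrix.fromBlocks f 0 0 (0 : Matrix m m A) := by
  obtain ⟨a₀, b₀, h1, h2⟩ := h
  obtain ⟨a, b, hab, hba, hea, haf, hfb, hbe⟩ : ∃ (a : Matrix m n A) (b : Matrix n m A),
      a * b = e ∧ b * a = f ∧ e * a = a ∧ a * f = a ∧ f * b = b ∧ b * e = b := by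
    have e3 : e * e * e = e := by rw [he, he]
    have f3 : f * f * f = f := by rw [hf, hf]
    refine ⟨e * a₀ * f, f * b₀ * e, ?_, ?_, ?_, ?_, ?_, ?_⟩
    · calc e * a₀ * f * (f * b₀ * e) = e * (a₀ * (f * f) * b₀) * e := by
            simp only [Matrix.mul_assoc]
        _ = e * ((a₀ * b₀) * (a₀ * b₀)) * e := by
            rw [hf, ← h2]; simp only [Matrix.mul_assoc]
        _ = e := by rw [h1, he, he, he]
    · calc f * b₀ * e * (e * a₀ * f) = f * (b₀ * (e * e) * a₀) * f := by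
            simp only [Matrix.mul_assoc]
        _ = f * ((b₀ * a₀) * (b₀ * a₀)) * f := by
            rw [he, ← h1]; simp only [Matrix.mul_assoc]
        _ = f := by rw [h2, hf, hf, hf]
    · rw [← Matrix.mul_assoc, ← Matrix.mul_assoc, he]
    · rw [Matrix.mul_assoc, hf]
    · rw [← Matrix.mul_assoc, ← Matrix.mul_assoc, hf]
    · rw [Matrix.mul_assoc, he]
  refine ⟨Matrix.fromBlocks b (1 - f) (1 - e) a, Matrix.fromBlocks a (1 - e) (1 - f) b, ?_, ?_, ?_⟩
  · rw [Matrix.fromBlocks_multiply, hba, hab, compl_idem hf, compl_idem he]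
    rw [Matrix.mul_sub, Matrix.mul_one, hbe, sub_self, Matrix.sub_mul, Matrix.one_mul, hfb,
      sub_self, Matrix.sub_mul, Matrix.one_mul, hea, sub_self, Matrix.mul_sub, Matrix.mul_one, haf,
      sub_self, add_sub_cancel, sub_add_cancel, _root_.add_zero, _root_.add_zero,
      Matrix.fromBlocks_one]
  · rw [Matrix.fromBlocks_multiply, hba, hab, compl_idem hf, compl_idem he]
    rw [Matrix.mul_sub, Matrix.mul_one, haf, sub_self, Matrix.sub_mul, Matrix.one_mul, hea,
      sub_self, Matrix.sub_mul, Matrix.one_mul, hfb, sub_self, Matrix.mul_sub, Matrix.mul_one, hbe,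
      sub_self, add_sub_cancel, sub_add_cancel, _root_.add_zero, _root_.add_zero,
      Matrix.fromBlocks_one]
  · rw [Matrix.fromBlocks_multiply, Matrix.fromBlocks_multiply]
    simp only [Matrix.mul_zero, _root_.add_zero, Matrix.zero_mul, hbe, Matrix.sub_mul,
      Matrix.one_mul, he, sub_self, hba]
    congr 1
    rw [Matrix.mul_sub, Matrix.mul_one, hbe, sub_self]

end Eqv

/-! ### classes of idempotent matrices with arbitrary finite index types -/

section ClsF

variable {A : Type u} [Ring A] {m : Type w₁} {n : Type w₂} {p : Type w₃} {q : Type w₄}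
  [Fintype m] [Fintype n] [Fintype p] [Fintype q]

theorem K0.cls_eqv {m n : ℕ} {e : Matrix (Fin m) (Fin m) A} {f : Matrix (Fin n) (Fin n) A}
    (he : e * e = e) (hf : f * f = f) (h : Eqv e f) : K0.cls e he = K0.cls f hf := by
  obtain ⟨a, b, h1, h2⟩ := h
  exact K0.cls_iso he hf a b h1 h2

theorem K0.clsF_eqv {e : Matrix m m A} {f : Matrix n n A} (he : e * e = e) (hf : f * f = f)
    (h : Eqv e f) : K0.clsF e he = K0.clsF f hf :=
  K0.cls_eqv _ _ (Eqv.trans (reindex_idem he _) (reindex_idem hf _) (Eqv.reindex he _).symm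
    (Eqv.trans he (reindex_idem hf _) h (Eqv.reindex hf _)))

theorem K0.clsF_fin {n : ℕ} {e : Matrix (Fin n) (Fin n) A} (he : e * e = e) :
    K0.clsF e he = K0.cls e he :=
  K0.cls_eqv _ _ (Eqv.reindex he _).symm

theorem K0.clsF_congr {e f : Matrix m m A} (he : e * e = e) (hf : f * f = f) (h : e = f) :
    K0.clsF e he = K0.clsF f hf := by
  subst h; rfl

theorem K0.clsF_reindex {e : Matrix m m A} (he : e * e = e) (σ : m ≃ n) :
    K0.clsF (Matrix.reindex σ σ e) (reindex_idem he σ) = K0.clsF e he :=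
  (K0.clsF_eqv he _ (Eqv.reindex he σ)).symm

theorem K0.clsF_sum {e : Matrix m m A} {f : Matrix n n A} (he : e * e = e) (hf : f * f = f) :
    K0.clsF (Matrix.fromBlocks e 0 0 f) (blocks_idem he hf) = K0.clsF e he + K0.clsF f hf := by
  have h1 := reindex_idem he (Fintype.equivFin m)
  have h2 := reindex_idem hf (Fintype.equivFin n)
  have h3 := reindex_idem (blocks_idem h1 h2) finSumFinEquiv
  have h := K0.cls_sum h1 h2 h3 rfl
  rw [K0.clsF, K0.clsF, K0.clsF, ← h]
  refine K0.cls_eqv _ _ ?_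
  refine Eqv.trans (reindex_idem (blocks_idem he hf) _) h3
    (Eqv.reindex (blocks_idem he hf) _).symm ?_
  refine Eqv.trans (blocks_idem he hf) h3 ?_ (Eqv.reindex (blocks_idem h1 h2) _)
  exact Eqv.sum (Eqv.reindex he _) (Eqv.reindex hf _)

theorem K0.clsF_zero : K0.clsF (0 : Matrix m m A) (by simp) = 0 := by
  have h0 : (0 : Matrix m m A) * 0 = 0 := by simp
  have h := K0.clsF_sum h0 h0
  have h2 : K0.clsF (Matrix.fromBlocks (0 : Matrix m m A) 0 0 (0 : Matrix m m A))
      (blocks_idem h0 h0) = K0.clsF (0 : Matrix m m A) h0 :=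
    K0.clsF_eqv _ _ (Eqv.add_zero h0)
  rw [h2] at h
  exact left_eq_add.1 h

theorem K0.clsF_zero' {e : Matrix m m A} (he : e * e = e) (h : e = 0) : K0.clsF e he = 0 := by
  subst h; exact K0.clsF_zero

/-- Orthogonal idempotents. -/
theorem K0.clsF_add {e f g : Matrix m m A} (he : e * e = e) (hf : f * f = f) (hg : g * g = g)
    (h1 : e * f = 0) (h2 : f * e = 0) (h : e + f = g) :
    K0.clsF g hg = K0.clsF e he + K0.clsF f hf := by
  subst h
  rw [← K0.clsF_sum he hf]
  exact (K0.clsF_eqv _ _ (Eqv.orth he hf h1 h2)).symm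

theorem K0.clsF_compl [DecidableEq m] {e : Matrix m m A} (he : e * e = e) :
    K0.clsF e he + K0.clsF (1 - e) (compl_idem he) =
      K0.clsF (1 : Matrix m m A) (Matrix.one_mul _) := by
  rw [← K0.clsF_sum]
  exact K0.clsF_eqv _ _ (Eqv.compl he)

theorem K0.clsF_conj [DecidableEq m] {e f : Matrix m m A} (he : e * e = e) (hf : f * f = f)
    (g h : Matrix m m A) (hg : h * g = 1) (hh : g * e * h = f) : K0.clsF e he = K0.clsF f hf :=
  K0.clsF_eqv _ _ (Eqv.of_conj he g h hg hh)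

theorem K0.map_clsF {B : Type v} [Ring B] (φ : A →+* B) {e : Matrix m m A} (he : e * e = e) :
    K0.map φ (K0.clsF e he) = K0.clsF (e.map φ) (map_idem φ he) := by
  rw [K0.clsF, K0.map_cls]
  rfl

theorem K0.clsF_one [DecidableEq m] :
    K0.clsF (1 : Matrix m m A) (Matrix.one_mul _) =
      Fintype.card m • K0.clsF (1 : Matrix Unit Unit A) (Matrix.one_mul _) := by
  have key : ∀ k : ℕ, K0.clsF (1 : Matrix (Fin k) (Fin k) A) (Matrix.one_mul _) =
      k • K0.clsF (1 : Matrix Unit Unit A) (Matrix.one_mul _) := by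
    intro k
    induction k with
    | zero =>
      rw [zero_nsmul]
      exact K0.clsF_zero' _ (Subsingleton.elim _ _)
    | succ k ih =>
      rw [succ_nsmul, ← ih, ← K0.clsF_sum]
      refine K0.clsF_eqv _ _ ?_
      have h := Eqv.reindex (Matrix.one_mul (1 : Matrix (Fin (k + 1)) (Fin (k + 1)) A))
        (Fintype.equivOfCardEq (by simp) : Fin (k + 1) ≃ Fin k ⊕ Unit)
      rw [Matrix.reindex_apply, Matrix.submatrix_one_equiv, ← Matrix.fromBlocks_one] at h
      exact h
  rw [← key, K0.clsF_fin, K0.clsF]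
  congr 1
  rw [Matrix.reindex_apply, Matrix.submatrix_one_equiv]

end ClsF

/-! ### exactness -/

section Exact

variable (A : Type u) [Ring A]

/-- The equivalence classes of idempotent matrices. -/
def idemSetoid : Setoid (K0Gen A) where
  r x y := Eqv x.2.1 y.2.1
  iseqv := ⟨fun x => Eqv.refl x.2.2, fun h => h.symm, fun {x _ z} h1 h2 =>
    Eqv.trans x.2.2 z.2.2 h1 h2⟩

/-- The monoid of equivalence classes of idempotent matrices. -/
def VMon : Type u := Quotient (idemSetoid A)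

variable {A}

/-- the class -/
def VMon.mk (x : K0Gen A) : VMon A := Quotient.mk (idemSetoid A) x

theorem VMon.sound {x y : K0Gen A} (h : Eqv x.2.1 y.2.1) : VMon.mk x = VMon.mk y :=
  Quotient.sound (s := idemSetoid A) h

theorem VMon.ex {x y : K0Gen A} (h : VMon.mk x = VMon.mk y) : Eqv x.2.1 y.2.1 :=
  Quotient.exact (s := idemSetoid A) h

theorem VMon.ind {P : VMon A → Prop} (h : ∀ x, P (VMon.mk x)) (x : VMon A) : P x :=
  Quotient.ind (s := idemSetoid A) h x

/-- block sum of generators -/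
def gsum (x y : K0Gen A) : K0Gen A :=
  ⟨x.1 + y.1, Matrix.reindex finSumFinEquiv finSumFinEquiv (Matrix.fromBlocks x.2.1 0 0 y.2.1),
    reindex_idem (blocks_idem x.2.2 y.2.2) _⟩

theorem gsum_eqv (x y : K0Gen A) : Eqv (gsum x y).2.1 (Matrix.fromBlocks x.2.1 0 0 y.2.1) :=
  (Eqv.reindex (blocks_idem x.2.2 y.2.2) _).symm

theorem gsum_congr {x x' y y' : K0Gen A} (h1 : Eqv x.2.1 x'.2.1) (h2 : Eqv y.2.1 y'.2.1) :
    Eqv (gsum x y).2.1 (gsum x' y').2.1 :=
  Eqv.trans (gsum x y).2.2 (gsum x' y').2.2 (gsum_eqv x y)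
    (Eqv.trans (blocks_idem x.2.2 y.2.2) (gsum x' y').2.2 (Eqv.sum h1 h2) (gsum_eqv x' y').symm)

instance : Add (VMon A) where
  add := Quotient.map₂ gsum fun _ _ h1 _ _ h2 => gsum_congr h1 h2

instance : Zero (VMon A) where
  zero := VMon.mk ⟨0, 0, by simp⟩

theorem VMon.mk_add (x y : K0Gen A) : VMon.mk x + VMon.mk y = VMon.mk (gsum x y) := rfl

theorem VMon.zero_def : (0 : VMon A) = VMon.mk ⟨0, 0, by simp⟩ := rfl

instance : AddCommMonoid (VMon A) where
  nsmul := nsmulRec
  add_assoc x y z := by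
    induction x using VMon.ind with | _ x
    induction y using VMon.ind with | _ y
    induction z using VMon.ind with | _ z
    rw [VMon.mk_add, VMon.mk_add, VMon.mk_add, VMon.mk_add]
    apply VMon.sound
    refine Eqv.trans (gsum (gsum x y) z).2.2 (gsum x (gsum y z)).2.2 (gsum_eqv _ _) ?_
    refine Eqv.trans (blocks_idem (gsum x y).2.2 z.2.2) (gsum x (gsum y z)).2.2
      (Eqv.sum (gsum_eqv x y) (Eqv.refl z.2.2)) ?_
    refine Eqv.trans (blocks_idem (blocks_idem x.2.2 y.2.2) z.2.2) (gsum x (gsum y z)).2.2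
      (Eqv.assoc x.2.2 y.2.2 z.2.2) ?_
    refine Eqv.trans (blocks_idem x.2.2 (blocks_idem y.2.2 z.2.2)) (gsum x (gsum y z)).2.2
      (Eqv.sum (Eqv.refl x.2.2) (gsum_eqv y z).symm) (gsum_eqv _ _).symm
  add_comm x y := by
    induction x using VMon.ind with | _ x
    induction y using VMon.ind with | _ y
    rw [VMon.mk_add, VMon.mk_add]
    apply VMon.sound
    exact Eqv.trans (gsum x y).2.2 (gsum y x).2.2 (gsum_eqv _ _)
      (Eqv.trans (blocks_idem x.2.2 y.2.2) (gsum y x).2.2 (Eqv.comm x.2.2 y.2.2)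
        (gsum_eqv _ _).symm)
  zero_add x := by
    induction x using VMon.ind with | _ x
    rw [VMon.zero_def, VMon.mk_add]
    apply VMon.sound
    exact Eqv.trans (gsum _ x).2.2 x.2.2 (gsum_eqv _ _) (Eqv.zero_add x.2.2)
  add_zero x := by
    induction x using VMon.ind with | _ x
    rw [VMon.zero_def, VMon.mk_add]
    apply VMon.sound
    exact Eqv.trans (gsum x _).2.2 x.2.2 (gsum_eqv _ _) (Eqv.add_zero x.2.2)

/-- The homomorphism to the Grothendieck group. -/
def K0.toG : K0 A →+ Algebra.GrothendieckAddGroup (VMon A) :=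
  K0.lift (fun n e he => Algebra.GrothendieckAddGroup.of (VMon.mk ⟨n, e, he⟩))
    (by
      rintro x (⟨m, n, e, f, a, b, h1, h2⟩ | ⟨m, n, e, f, g, h⟩)
      · simp only [map_sub, FreeAbelianGroup.lift_apply_of]
        rw [sub_eq_zero]
        congr 1
        exact VMon.sound ⟨a, b, h1, h2⟩
      · simp only [map_sub, FreeAbelianGroup.lift_apply_of]
        rw [sub_sub, sub_eq_zero, ← map_add]
        congr 1
        rw [VMon.mk_add]
        obtain ⟨g, hg⟩ := g
        subst h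
        rfl)

theorem VMon.exact {x y : VMon A}
    (h : Algebra.GrothendieckAddGroup.of x = Algebra.GrothendieckAddGroup.of y) :
    ∃ z : VMon A, z + x = z + y := by
  obtain ⟨c, hc⟩ := (AddLocalization.addMonoidOf (⊤ : AddSubmonoid (VMon A))).eq_iff_exists.1 h
  exact ⟨c, hc⟩

/-- Equality in `K_0` is stable equivalence. -/
theorem K0.exact {m n : ℕ} {e : Matrix (Fin m) (Fin m) A} {f : Matrix (Fin n) (Fin n) A}
    (he : e * e = e) (hf : f * f = f) (h : K0.cls e he = K0.cls f hf) :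
    ∃ k : ℕ, Eqv (Matrix.fromBlocks e 0 0 (1 : Matrix (Fin k) (Fin k) A))
      (Matrix.fromBlocks f 0 0 (1 : Matrix (Fin k) (Fin k) A)) := by
  have h1 := congrArg K0.toG h
  rw [K0.toG, K0.lift_cls, K0.lift_cls] at h1
  obtain ⟨z, hz⟩ := VMon.exact h1
  induction z using VMon.ind with | _ z
  obtain ⟨k, z, hzz⟩ := z
  have hz' := compl_idem hzz
  have h2 : VMon.mk ⟨k, 1 - z, hz'⟩ + (VMon.mk ⟨k, z, hzz⟩ + VMon.mk ⟨m, e, he⟩) =
      VMon.mk ⟨k, 1 - z, hz'⟩ + (VMon.mk ⟨k, z, hzz⟩ + VMon.mk ⟨n, f, hf⟩) := by rw [hz]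
  have h3 : VMon.mk ⟨k, 1 - z, hz'⟩ + VMon.mk ⟨k, z, hzz⟩ =
      VMon.mk ⟨k, 1, Matrix.one_mul _⟩ := by
    rw [add_comm, VMon.mk_add]
    exact VMon.sound (Eqv.trans (gsum _ _).2.2 (Matrix.one_mul _) (gsum_eqv _ _) (Eqv.compl hzz))
  rw [← add_assoc, ← add_assoc, h3, add_comm, add_comm _ (VMon.mk ⟨n, f, hf⟩), VMon.mk_add,
    VMon.mk_add] at h2
  have h4 := VMon.ex h2
  have h5 := gsum_eqv (⟨m, e, he⟩ : K0Gen A) ⟨k, 1, Matrix.one_mul _⟩
  have h6 := gsum_eqv (⟨n, f, hf⟩ : K0Gen A) ⟨k, 1, Matrix.one_mul _⟩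
  refine ⟨k, ?_⟩
  refine Eqv.trans (blocks_idem he (Matrix.one_mul _)) (blocks_idem hf (Matrix.one_mul _))
    h5.symm ?_
  exact Eqv.trans (gsum (⟨m, e, he⟩ : K0Gen A) ⟨k, 1, Matrix.one_mul _⟩).2.2
    (blocks_idem hf (Matrix.one_mul _)) h4 h6

theorem K0.exactF {m : Type w₁} {n : Type w₂} [Fintype m] [Fintype n] {e : Matrix m m A}
    {f : Matrix n n A} (he : e * e = e) (hf : f * f = f) (h : K0.clsF e he = K0.clsF f hf) :
    ∃ k : ℕ, Eqv (Matrix.fromBlocks e 0 0 (1 : Matrix (Fin k) (Fin k) A))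
      (Matrix.fromBlocks f 0 0 (1 : Matrix (Fin k) (Fin k) A)) := by
  obtain ⟨k, hk⟩ := K0.exact _ _ h
  refine ⟨k, ?_⟩
  have h1 := Eqv.sum (Eqv.reindex he (Fintype.equivFin m))
    (Eqv.refl (Matrix.one_mul (1 : Matrix (Fin k) (Fin k) A)))
  have h2 := Eqv.sum (Eqv.reindex hf (Fintype.equivFin n))
    (Eqv.refl (Matrix.one_mul (1 : Matrix (Fin k) (Fin k) A)))
  refine Eqv.trans (blocks_idem he (Matrix.one_mul _)) (blocks_idem hf (Matrix.one_mul _)) h1 ?_
  exact Eqv.trans (blocks_idem (reindex_idem he _) (Matrix.one_mul _))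
    (blocks_idem hf (Matrix.one_mul _)) hk h2.symm

/-- Every element of `K_0` is `[e] - [1_k]`. -/
theorem K0.exists_rep (x : K0 A) : ∃ (n : ℕ) (e : Matrix (Fin n) (Fin n) A) (he : e * e = e)
    (k : ℕ), x = K0.cls e he - K0.cls (1 : Matrix (Fin k) (Fin k) A) (Matrix.one_mul _) := by
  obtain ⟨x, rfl⟩ := QuotientAddGroup.mk_surjective x
  induction x using FreeAbelianGroup.induction_on with
  | zero =>
    refine ⟨0, 1, Matrix.one_mul _, 0, ?_⟩
    rw [sub_self]; rfl
  | of x =>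
    obtain ⟨n, e, he⟩ := x
    refine ⟨n, e, he, 0, ?_⟩
    have h : K0.cls (1 : Matrix (Fin 0) (Fin 0) A) (Matrix.one_mul _) = 0 := by
      rw [← K0.clsF_fin]
      exact K0.clsF_zero' _ (Subsingleton.elim _ _)
    rw [h, sub_zero]; rfl
  | neg x =>
    obtain ⟨n, e, he⟩ := x
    refine ⟨n, 1 - e, compl_idem he, n, ?_⟩
    have h := K0.clsF_compl he
    rw [K0.clsF_fin, K0.clsF_fin, K0.clsF_fin] at h
    rw [← h]
    have h2 : (QuotientAddGroup.mk (-FreeAbelianGroup.of (⟨n, e, he⟩ : K0Gen A)) : K0 A) =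
      -K0.cls e he := rfl
    refine h2.trans ?_
    abel
  | add x y hx hy =>
    obtain ⟨n, e, he, k, h1⟩ := hx
    obtain ⟨n', e', he', k', h1'⟩ := hy
    refine ⟨n + n', Matrix.reindex finSumFinEquiv finSumFinEquiv (Matrix.fromBlocks e 0 0 e'),
      reindex_idem (blocks_idem he he') _, k + k', ?_⟩
    have h2 : (QuotientAddGroup.mk (x + y) : K0 A) =
      QuotientAddGroup.mk x + QuotientAddGroup.mk y := rfl
    have h3 : K0.cls (1 : Matrix (Fin (k + k')) (Fin (k + k')) A) (Matrix.one_mul _) =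
        K0.cls (1 : Matrix (Fin k) (Fin k) A) (Matrix.one_mul _) +
          K0.cls (1 : Matrix (Fin k') (Fin k') A) (Matrix.one_mul _) := by
      refine K0.cls_sum _ _ _ ?_
      rw [Matrix.fromBlocks_one, Matrix.reindex_apply, Matrix.submatrix_one_equiv]
    rw [h2, h1, h1', h3, K0.cls_sum he he' (reindex_idem (blocks_idem he he') _) rfl]
    abel

/-- Equality in `K_0` of idempotents, conjugate after stabilization. -/
theorem K0.exact_conj {m : Type w₁} [Fintype m] [DecidableEq m] {e f : Matrix m m A}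
    (he : e * e = e) (hf : f * f = f) (h : K0.clsF e he = K0.clsF f hf) :
    ∃ (k : ℕ) (g g' : Matrix ((m ⊕ Fin k) ⊕ (m ⊕ Fin k)) ((m ⊕ Fin k) ⊕ (m ⊕ Fin k)) A),
      g * g' = 1 ∧ g' * g = 1 ∧
      g * Matrix.fromBlocks (Matrix.fromBlocks e 0 0 1) 0 0 0 * g' =
        Matrix.fromBlocks (Matrix.fromBlocks f 0 0 1) 0 0 0 := by
  obtain ⟨k, hk⟩ := K0.exactF he hf h
  exact ⟨k, Eqv.conj (blocks_idem he (Matrix.one_mul _)) (blocks_idem hf (Matrix.one_mul _)) hk⟩

end Exact

/-! ### the module statement -/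

theorem K0.clsF_one' (A : Type u) [Ring A] (m : Type w) [Fintype m] [DecidableEq m] :
    K0.clsF (1 : Matrix m m A) (Matrix.one_mul _) = Fintype.card m • K0.one A := by
  rw [K0.clsF_one]
  congr 1
  rw [K0.one, ← K0.clsF_fin]
  refine K0.clsF_eqv _ _ ?_
  have h := Eqv.reindex (Matrix.one_mul (1 : Matrix Unit Unit A))
    (Fintype.equivOfCardEq (by simp) : Unit ≃ Fin 1)
  rw [Matrix.reindex_apply, Matrix.submatrix_one_equiv] at h
  exact h

/-- Constants vanish in `K_{-1}`. -/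
theorem Km1.mk_const (A : Type u) [Ring A] (ι : Type w) [Fintype ι] (e : Matrix ι ι (Lau A))
    (he : e * e = e) : Km1.mk A (K0.clsF (e.map (c1 A)) (map_idem (c1 A) he)) = 0 := by
  let φ : Lau A →+* Pol A := AddMonoidAlgebra.mapDomainRingHom A (0 : ℤ →+ ℕ)
  have h1 : (posHom A).comp φ = c1 A := by
    refine RingHom.ext fun x => ?_
    induction x using AddMonoidAlgebra.induction_linear with
    | zero => simp
    | add x y hx hy => rw [map_add, map_add, hx, hy]
    | single n r =>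
      simp only [φ, posHom, c1, RingHom.comp_apply, AddMonoidAlgebra.mapDomainRingHom_apply,
        AddMonoidAlgebra.mapDomain_single, AddMonoidHom.zero_apply, map_zero]
  have h2 : e.map (c1 A) = (e.map φ).map (posHom A) := by
    rw [← h1]; rfl
  have h3 : K0.clsF (e.map (c1 A)) (map_idem (c1 A) he) =
      K0.map (posHom A) (K0.clsF (e.map φ) (map_idem φ he)) := by
    rw [K0.map_clsF]
    exact K0.clsF_congr _ _ h2
  rw [h3]
  show (QuotientAddGroup.mk' (extSub A)) _ = 0
  rw [QuotientAddGroup.mk'_apply, QuotientAddGroup.eq_zero_iff]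
  exact AddSubgroup.mem_sup_left ⟨_, rfl⟩

theorem specKA : SpecKA.{u, v, w} where
  cls A _ n e h := K0.clsF_fin h
  eqv A _ ι κ _ _ e f he hf h := K0.clsF_eqv he hf h
  sum A _ ι κ _ _ e f he hf hg := K0.clsF_sum he hf
  one A _ ι _ _ := K0.clsF_one' A ι
  compl A _ ι _ _ e he hf := by
    rw [← K0.clsF_one']
    exact K0.clsF_compl he
  map A B _ _ f ι _ e he := K0.map_clsF f he
  stable A _ ι κ _ _ e f he hf h := K0.exactF he hf h
  rep A _ x := by
    obtain ⟨n, e, he, k, h⟩ := K0.exists_rep x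
    refine ⟨n, k, e, he, ?_⟩
    have h2 := K0.clsF_one' A (Fin k)
    rw [Fintype.card_fin, K0.clsF_fin] at h2
    rw [h, h2]
  const A _ ι _ e he := Km1.mk_const A ι e he

end Pool.Agent.Lib.MPb6f35e.ZK
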