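import Pool.Agent.Lib.MP_b6f35e_al.ZK.MilA
import Pool.Agent.Lib.MP_b6f35e_al.ZK.KA

/-!
# MIL: the boundary map of a Milnor square
-/

set_option autoImplicit false

noncomputable section

namespace Pool.Agent.Lib.MPb6f35e.ZK

open Pool.Agent.Lib.MPb6f35e.WH Matrix

universe u v w w'

namespace Mil

variable {A A₁ A₂ A₀ : Type u} [Ring A] [Ring A₁] [Ring A₂] [Ring A₀] {m : SqMaps A A₁ A₂ A₀}
variable {ι ι' κ κ' : Type} [Fintype ι] [Fintype ι'] [Fintype κ] [DecidableEq κ] [Fintype κ']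
  [DecidableEq κ']

theorem mat_inj (h : IsSq m) {p q : Matrix ι κ A} (h1 : p.map m.i₁ = q.map m.i₁)
    (h2 : p.map m.i₂ = q.map m.i₂) : p = q := by
  ext a b
  have k1 : m.i₁ (p a b) = m.i₁ (q a b) := congrFun (congrFun h1 a) b
  have k2 : m.i₂ (p a b) = m.i₂ (q a b) := congrFun (congrFun h2 a) b
  exact sub_eq_zero.1 (h.inj _ (by rw [map_sub, k1, sub_self]) (by rw [map_sub, k2, sub_self]))

theorem mat_inj' (h : IsSq m) {p q : Matrix ι ι' A} (h1 : p.map m.i₁ = q.map m.i₁)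
    (h2 : p.map m.i₂ = q.map m.i₂) : p = q := by
  ext a b
  have k1 : m.i₁ (p a b) = m.i₁ (q a b) := congrFun (congrFun h1 a) b
  have k2 : m.i₂ (p a b) = m.i₂ (q a b) := congrFun (congrFun h2 a) b
  exact sub_eq_zero.1 (h.inj _ (by rw [map_sub, k1, sub_self]) (by rw [map_sub, k2, sub_self]))

theorem mat_glue (h : IsSq m) (p : Matrix ι ι' A₁) (q : Matrix ι ι' A₂)
    (e : p.map m.j₁ = q.map m.j₂) : ∃ r : Matrix ι ι' A, r.map m.i₁ = p ∧ r.map m.i₂ = q := by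
  have h' : ∀ a b, ∃ x : A, m.i₁ x = p a b ∧ m.i₂ x = q a b := fun a b =>
    h.pull _ _ (congrFun (congrFun e a) b)
  choose x hx using h'
  exact ⟨Matrix.of x, by ext a b; exact (hx a b).1, by ext a b; exact (hx a b).2⟩

/-- The relations over `A₀`. -/
theorem rels (h : IsSq m) {e : Matrix ι ι A} {U : Matrix κ κ A₀} {a₁ : Matrix ι κ A₁}
    {b₁ : Matrix κ ι A₁} {a₂ : Matrix ι κ A₂} {b₂ : Matrix κ ι A₂} (h1 : a₁ * b₁ = e.map m.i₁)
    (h2 : b₁ * a₁ = 1) (h3 : a₂ * b₂ = e.map m.i₂) (h4 : b₂ * a₂ = 1)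
    (h5 : b₁.map m.j₁ * a₂.map m.j₂ = U) :
    a₁.map m.j₁ * U = a₂.map m.j₂ ∧ U * b₂.map m.j₂ = b₁.map m.j₁ := by
  have k0 : (e.map m.i₁).map m.j₁ = (e.map m.i₂).map m.j₂ := by
    ext a b
    exact h.comm _
  have k1 : a₁.map m.j₁ * b₁.map m.j₁ = a₂.map m.j₂ * b₂.map m.j₂ := by
    rw [← Matrix.map_mul, ← Matrix.map_mul, h1, h3, k0]
  have k2 : b₁.map m.j₁ * a₁.map m.j₁ = 1 := by
    rw [← Matrix.map_mul, h2, Matrix.map_one _ (map_zero _) (map_one _)]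
  have k4 : b₂.map m.j₂ * a₂.map m.j₂ = 1 := by
    rw [← Matrix.map_mul, h4, Matrix.map_one _ (map_zero _) (map_one _)]
  constructor
  · rw [← h5, ← Matrix.mul_assoc, k1, Matrix.mul_assoc, k4, Matrix.mul_one]
  · rw [← h5, Matrix.mul_assoc, ← k1, ← Matrix.mul_assoc, k2, Matrix.one_mul]

theorem eqv (h : IsSq m) {e : Matrix ι ι A} {f : Matrix ι' ι' A} {U : Matrix κ κ A₀}
    (he : Gl m e U) (hf : Gl m f U) : Eqv e f := by
  obtain ⟨a₁, b₁, a₂, b₂, h1, h2, h3, h4, h5⟩ := he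
  obtain ⟨c₁, d₁, c₂, d₂, g1, g2, g3, g4, g5⟩ := hf
  obtain ⟨p, p'⟩ := rels h h1 h2 h3 h4 h5
  obtain ⟨q, q'⟩ := rels h g1 g2 g3 g4 g5
  obtain ⟨x, hx1, hx2⟩ := mat_glue h (a₁ * d₁) (a₂ * d₂) (by
    rw [Matrix.map_mul, Matrix.map_mul, ← p, ← q', Matrix.mul_assoc])
  obtain ⟨y, hy1, hy2⟩ := mat_glue h (c₁ * b₁) (c₂ * b₂) (by
    rw [Matrix.map_mul, Matrix.map_mul, ← q, ← p', Matrix.mul_assoc])
  refine ⟨x, y, mat_inj' h ?_ ?_, mat_inj' h ?_ ?_⟩
  · rw [Matrix.map_mul, hx1, hy1, ← h1, Matrix.mul_assoc, ← Matrix.mul_assoc d₁, g2,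
      Matrix.one_mul]
  · rw [Matrix.map_mul, hx2, hy2, ← h3, Matrix.mul_assoc, ← Matrix.mul_assoc d₂, g4,
      Matrix.one_mul]
  · rw [Matrix.map_mul, hx1, hy1, ← g1, Matrix.mul_assoc, ← Matrix.mul_assoc b₁, h2,
      Matrix.one_mul]
  · rw [Matrix.map_mul, hx2, hy2, ← g3, Matrix.mul_assoc, ← Matrix.mul_assoc b₂, h4,
      Matrix.one_mul]

theorem gl_mul {e : Matrix ι ι A} {U : Matrix κ κ A₀} (he : Gl m e U) (W₁ : (Matrix κ κ A₁)ˣ)
    (W₂ : (Matrix κ κ A₂)ˣ) :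
    Gl m e ((W₁ : Matrix κ κ A₁).map m.j₁ * U * (W₂ : Matrix κ κ A₂).map m.j₂) := by
  obtain ⟨a₁, b₁, a₂, b₂, h1, h2, h3, h4, h5⟩ := he
  refine ⟨a₁ * ((W₁⁻¹ : (Matrix κ κ A₁)ˣ) : Matrix κ κ A₁), (W₁ : Matrix κ κ A₁) * b₁,
    a₂ * (W₂ : Matrix κ κ A₂), ((W₂⁻¹ : (Matrix κ κ A₂)ˣ) : Matrix κ κ A₂) * b₂, ?_, ?_, ?_, ?_, ?_⟩
  · rw [Matrix.mul_assoc, ← Matrix.mul_assoc _ (W₁ : Matrix κ κ A₁) b₁, Units.inv_mul,
      Matrix.one_mul, h1]
  · rw [Matrix.mul_assoc, ← Matrix.mul_assoc b₁ a₁, h2, Matrix.one_mul, Units.mul_inv]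
  · rw [Matrix.mul_assoc, ← Matrix.mul_assoc (W₂ : Matrix κ κ A₂) _ b₂, Units.mul_inv,
      Matrix.one_mul, h3]
  · rw [Matrix.mul_assoc, ← Matrix.mul_assoc b₂ a₂, h4, Matrix.one_mul, Units.inv_mul]
  · rw [Matrix.map_mul, Matrix.map_mul, ← h5]
    simp only [Matrix.mul_assoc]

theorem gl_left {e : Matrix ι ι A} {U : Matrix κ κ A₀} (he : Gl m e U) (W₁ : (Matrix κ κ A₁)ˣ) :
    Gl m e ((W₁ : Matrix κ κ A₁).map m.j₁ * U) := by
  have := gl_mul he W₁ 1
  rwa [Units.val_one, Matrix.map_one _ (map_zero _) (map_one _), Matrix.mul_one] at this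

theorem gl_right {e : Matrix ι ι A} {U : Matrix κ κ A₀} (he : Gl m e U) (W₂ : (Matrix κ κ A₂)ˣ) :
    Gl m e (U * (W₂ : Matrix κ κ A₂).map m.j₂) := by
  have := gl_mul he 1 W₂
  rwa [Units.val_one, Matrix.map_one _ (map_zero _) (map_one _), Matrix.one_mul] at this

theorem gl_one : Gl m (1 : Matrix κ κ A) (1 : Matrix κ κ A₀) := by
  refine ⟨1, 1, 1, 1, ?_, ?_, ?_, ?_, ?_⟩
  · rw [Matrix.map_one _ (map_zero _) (map_one _), Matrix.mul_one]
  · rw [Matrix.mul_one]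
  · rw [Matrix.map_one _ (map_zero _) (map_one _), Matrix.mul_one]
  · rw [Matrix.mul_one]
  · rw [Matrix.map_one _ (map_zero _) (map_one _), Matrix.map_one _ (map_zero _) (map_one _),
      Matrix.mul_one]

theorem gl_sum {e : Matrix ι ι A} {U : Matrix κ κ A₀} (he : Gl m e U) {f : Matrix ι' ι' A}
    {V : Matrix κ' κ' A₀} (hf : Gl m f V) :
    Gl m (fromBlocks e 0 0 f) (fromBlocks U 0 0 V) := by
  obtain ⟨a₁, b₁, a₂, b₂, h1, h2, h3, h4, h5⟩ := he
  obtain ⟨c₁, d₁, c₂, d₂, g1, g2, g3, g4, g5⟩ := hf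
  refine ⟨fromBlocks a₁ 0 0 c₁, fromBlocks b₁ 0 0 d₁, fromBlocks a₂ 0 0 c₂,
    fromBlocks b₂ 0 0 d₂, ?_, ?_, ?_, ?_, ?_⟩
  · rw [fromBlocks_multiply, fromBlocks_map, ← h1, ← g1]
    simp [Matrix.map_zero]
  · rw [fromBlocks_multiply, ← fromBlocks_one, ← h2, ← g2]
    simp
  · rw [fromBlocks_multiply, fromBlocks_map, ← h3, ← g3]
    simp [Matrix.map_zero]
  · rw [fromBlocks_multiply, ← fromBlocks_one, ← h4, ← g4]
    simp
  · rw [fromBlocks_map, fromBlocks_map, fromBlocks_multiply, ← h5, ← g5]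
    simp [Matrix.map_zero]

theorem gl_reindex (σ : κ ≃ κ') {e : Matrix ι ι A} {U : Matrix κ κ A₀} (he : Gl m e U) :
    Gl m e (Matrix.reindex σ σ U) := by
  obtain ⟨a₁, b₁, a₂, b₂, h1, h2, h3, h4, h5⟩ := he
  refine ⟨a₁.submatrix id σ.symm, b₁.submatrix σ.symm id, a₂.submatrix id σ.symm,
    b₂.submatrix σ.symm id, ?_, ?_, ?_, ?_, ?_⟩
  · rw [submatrix_mul_equiv, submatrix_id_id, h1]
  · have : b₁.submatrix σ.symm id * a₁.submatrix id σ.symm =
        (b₁ * a₁).submatrix σ.symm σ.symm := by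
      ext i j
      rfl
    rw [this, h2, submatrix_one_equiv]
  · rw [submatrix_mul_equiv, submatrix_id_id, h3]
  · have : b₂.submatrix σ.symm id * a₂.submatrix id σ.symm =
        (b₂ * a₂).submatrix σ.symm σ.symm := by
      ext i j
      rfl
    rw [this, h4, submatrix_one_equiv]
  · rw [← h5]
    ext i j
    rfl

theorem gl_reindexL (σ : ι ≃ ι') {e : Matrix ι ι A} {U : Matrix κ κ A₀} (he : Gl m e U) :
    Gl m (Matrix.reindex σ σ e) U := by
  obtain ⟨a₁, b₁, a₂, b₂, h1, h2, h3, h4, h5⟩ := he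
  refine ⟨a₁.submatrix σ.symm id, b₁.submatrix id σ.symm, a₂.submatrix σ.symm id,
    b₂.submatrix id σ.symm, ?_, ?_, ?_, ?_, ?_⟩
  · have : a₁.submatrix σ.symm id * b₁.submatrix id σ.symm =
        (a₁ * b₁).submatrix σ.symm σ.symm := by
      ext i j
      rfl
    rw [this, h1]
    rfl
  · rw [submatrix_mul_equiv, submatrix_id_id, h2]
  · have : a₂.submatrix σ.symm id * b₂.submatrix id σ.symm =
        (a₂ * b₂).submatrix σ.symm σ.symm := by
      ext i j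
      rfl
    rw [this, h3]
    rfl
  · rw [submatrix_mul_equiv, submatrix_id_id, h4]
  · have t1 : (b₁.submatrix id σ.symm).map m.j₁ = (b₁.map m.j₁).submatrix id σ.symm := rfl
    have t2 : (a₂.submatrix σ.symm id).map m.j₂ = (a₂.map m.j₂).submatrix σ.symm id := rfl
    rw [← h5, t1, t2, submatrix_mul_equiv, submatrix_id_id]

/-- A summand of a glued module. -/
theorem gl_split (h : IsSq m) {f : Matrix ι ι A} {U : Matrix κ κ A₀} {V : Matrix κ' κ' A₀}
    (hf : Gl m f (fromBlocks U 0 0 V)) : ∃ e : Matrix ι ι A, e * e = e ∧ Gl m e U := by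
  obtain ⟨a₁, b₁, a₂, b₂, h1, h2, h3, h4, h5⟩ := hf
  obtain ⟨p, p'⟩ := rels h h1 h2 h3 h4 h5
  have k2 : b₁.submatrix Sum.inl id * a₁.submatrix id Sum.inl = 1 := by
    have : b₁.submatrix Sum.inl id * a₁.submatrix id Sum.inl =
        (b₁ * a₁).submatrix Sum.inl Sum.inl := by
      ext i j
      rfl
    rw [this, h2]
    ext i j
    simp [Matrix.one_apply]
  have k4 : b₂.submatrix Sum.inl id * a₂.submatrix id Sum.inl = 1 := by
    have : b₂.submatrix Sum.inl id * a₂.submatrix id Sum.inl =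
        (b₂ * a₂).submatrix Sum.inl Sum.inl := by
      ext i j
      rfl
    rw [this, h4]
    ext i j
    simp [Matrix.one_apply]
  have q : (a₁.submatrix id Sum.inl).map m.j₁ * U = (a₂.submatrix id Sum.inl).map m.j₂ := by
    ext i j
    have := congrFun (congrFun p i) (Sum.inl j)
    simpa [Matrix.mul_apply, Fintype.sum_sum_type] using this
  have q' : U * (b₂.submatrix Sum.inl id).map m.j₂ = (b₁.submatrix Sum.inl id).map m.j₁ := by
    ext i j
    have := congrFun (congrFun p' (Sum.inl i)) j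
    simpa [Matrix.mul_apply, Fintype.sum_sum_type] using this
  obtain ⟨e, he1, he2⟩ := mat_glue h (a₁.submatrix id Sum.inl * b₁.submatrix Sum.inl id)
    (a₂.submatrix id Sum.inl * b₂.submatrix Sum.inl id) (by
      rw [Matrix.map_mul, Matrix.map_mul, ← q, ← q', Matrix.mul_assoc])
  refine ⟨e, mat_inj' h ?_ ?_, a₁.submatrix id Sum.inl, b₁.submatrix Sum.inl id,
    a₂.submatrix id Sum.inl, b₂.submatrix Sum.inl id, he1.symm, k2, he2.symm, k4, ?_⟩
  · rw [Matrix.map_mul, he1, Matrix.mul_assoc, ← Matrix.mul_assoc (b₁.submatrix Sum.inl id), k2,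
      Matrix.one_mul]
  · rw [Matrix.map_mul, he2, Matrix.mul_assoc, ← Matrix.mul_assoc (b₂.submatrix Sum.inl id), k4,
      Matrix.one_mul]
  · ext i j
    have := congrFun (congrFun h5 (Sum.inl i)) (Sum.inl j)
    simpa [Matrix.mul_apply] using this

theorem gl_white (h : IsSq m) {n : ℕ} {e : Matrix ι ι A} (V : (Matrix (Fin n) (Fin n) A₀)ˣ)
    (X : (Matrix (Fin n ⊕ Fin n) (Fin n ⊕ Fin n) A₀)ˣ)
    (he : Gl m e (X : Matrix (Fin n ⊕ Fin n) (Fin n ⊕ Fin n) A₀)) :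
    Gl m e ((dU V V⁻¹ * X : (Matrix (Fin n ⊕ Fin n) (Fin n ⊕ Fin n) A₀)ˣ) :
      Matrix (Fin n ⊕ Fin n) (Fin n ⊕ Fin n) A₀) := by
  have hup : ∀ (y : Matrix (Fin n) (Fin n) A₀) (Y : (Matrix (Fin n ⊕ Fin n) (Fin n ⊕ Fin n) A₀)ˣ),
      Gl m e (Y : Matrix (Fin n ⊕ Fin n) (Fin n ⊕ Fin n) A₀) →
      Gl m e ((eU y * Y : (Matrix (Fin n ⊕ Fin n) (Fin n ⊕ Fin n) A₀)ˣ) :
        Matrix (Fin n ⊕ Fin n) (Fin n ⊕ Fin n) A₀) := by
    intro y Y hY
    obtain ⟨W₁, W₂, hW⟩ := h.upper n n y Y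
    rw [Units.val_mul]
    have : ((eU y : (Matrix (Fin n ⊕ Fin n) (Fin n ⊕ Fin n) A₀)ˣ) :
      Matrix (Fin n ⊕ Fin n) (Fin n ⊕ Fin n) A₀) = fromBlocks 1 y 0 1 := rfl
    rw [this, hW]
    exact gl_mul hY W₁ W₂
  have hlo : ∀ (y : Matrix (Fin n) (Fin n) A₀) (Y : (Matrix (Fin n ⊕ Fin n) (Fin n ⊕ Fin n) A₀)ˣ),
      Gl m e (Y : Matrix (Fin n ⊕ Fin n) (Fin n ⊕ Fin n) A₀) →
      Gl m e ((eL y * Y : (Matrix (Fin n ⊕ Fin n) (Fin n ⊕ Fin n) A₀)ˣ) :
        Matrix (Fin n ⊕ Fin n) (Fin n ⊕ Fin n) A₀) := by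
    intro y Y hY
    obtain ⟨W₁, W₂, hW⟩ := h.lower n n y Y
    rw [Units.val_mul]
    have : ((eL y : (Matrix (Fin n ⊕ Fin n) (Fin n ⊕ Fin n) A₀)ˣ) :
      Matrix (Fin n ⊕ Fin n) (Fin n ⊕ Fin n) A₀) = fromBlocks 1 0 y 1 := rfl
    rw [this, hW]
    exact gl_mul hY W₁ W₂
  have hw : Gl m e ((wU * X : (Matrix (Fin n ⊕ Fin n) (Fin n ⊕ Fin n) A₀)ˣ) :
        Matrix (Fin n ⊕ Fin n) (Fin n ⊕ Fin n) A₀) := by
    obtain ⟨L, hL⟩ := Lft.wU (j := m.j₁) (ι := Fin n)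
    have := gl_left he L
    rwa [← mapU_val, hL, ← Units.val_mul] at this
  rw [whitehead, mul_assoc, mul_assoc, mul_assoc]
  exact hup _ _ (hlo _ _ (hup _ _ hw))

theorem exists_gl (h : IsSq m) {n : ℕ} (U : (Matrix (Fin n) (Fin n) A₀)ˣ) :
    ∃ e : Matrix (Fin n ⊕ Fin n) (Fin n ⊕ Fin n) A, e * e = e ∧
      Gl m e (U : Matrix (Fin n) (Fin n) A₀) := by
  have h1 := gl_white h (e := (1 : Matrix (Fin n ⊕ Fin n) (Fin n ⊕ Fin n) A)) U 1
    (by rw [Units.val_one]; exact gl_one)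
  rw [mul_one, dU_val] at h1
  exact gl_split h h1

end Mil

open Mil

/-- MIL. -/
theorem specMIL_of (hKA : SpecKA.{u, 0, 0}) : SpecMIL.{u} := by
  have hex : ∀ (A A₁ A₂ A₀ : Type u) [Ring A] [Ring A₁] [Ring A₂] [Ring A₀]
      (m : SqMaps A A₁ A₂ A₀) (_ : IsSq m) (n : ℕ) (U : (Matrix (Fin n) (Fin n) A₀)ˣ),
      ∃ (r : ℕ) (e : Matrix (Fin r) (Fin r) A), e * e = e ∧
        Gl m e (U : Matrix (Fin n) (Fin n) A₀) := by
    intro A A₁ A₂ A₀ _ _ _ _ m h n U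
    obtain ⟨e, he, hg⟩ := exists_gl h U
    refine ⟨n + n, Matrix.reindex finSumFinEquiv finSumFinEquiv e, ?_, gl_reindexL _ hg⟩
    rw [Matrix.reindex_apply, Matrix.submatrix_mul_equiv, he]
  have huni : ∀ (A A₁ A₂ A₀ : Type u) [Ring A] [Ring A₁] [Ring A₂] [Ring A₀]
      (m : SqMaps A A₁ A₂ A₀) (_ : IsSq m) (ι ι' κ : Type) [Fintype ι] [Fintype ι'] [Fintype κ]
      [DecidableEq κ] (e : Matrix ι ι A) (f : Matrix ι' ι' A) (he : e * e = e) (hf : f * f = f)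
      (U : Matrix κ κ A₀), Gl m e U → Gl m f U → K0.clsF e he = K0.clsF f hf := by
    intro A A₁ A₂ A₀ _ _ _ _ m h ι ι' κ _ _ _ _ e f he hf U h1 h2
    exact hKA.eqv A ι ι' e f he hf (eqv h h1 h2)
  refine ⟨hex, ?_, ?_, ?_, ?_⟩
  · intro A A₁ A₂ A₀ _ _ _ _ m h
    let r : ∀ n : ℕ, (Matrix (Fin n) (Fin n) A₀)ˣ → ℕ := fun n U =>
      Classical.choose (hex A A₁ A₂ A₀ m h n U)
    let e : ∀ (n : ℕ) (U : (Matrix (Fin n) (Fin n) A₀)ˣ), Matrix (Fin (r n U)) (Fin (r n U)) A :=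
      fun n U => Classical.choose (Classical.choose_spec (hex A A₁ A₂ A₀ m h n U))
    have he : ∀ (n : ℕ) (U : (Matrix (Fin n) (Fin n) A₀)ˣ), e n U * e n U = e n U :=
      fun n U => (Classical.choose_spec (Classical.choose_spec (hex A A₁ A₂ A₀ m h n U))).1
    have hg : ∀ (n : ℕ) (U : (Matrix (Fin n) (Fin n) A₀)ˣ), Gl m (e n U)
        (U : Matrix (Fin n) (Fin n) A₀) :=
      fun n U => (Classical.choose_spec (Classical.choose_spec (hex A A₁ A₂ A₀ m h n U))).2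
    have hval : ∀ (n : ℕ) (U : (Matrix (Fin n) (Fin n) A₀)ˣ) (ι : Type) [Fintype ι]
        (f : Matrix ι ι A) (hf : f * f = f), Gl m f (U : Matrix (Fin n) (Fin n) A₀) →
        K0.cls (e n U) (he n U) = K0.clsF f hf := by
      intro n U ι _ f hf hG
      rw [← hKA.cls]
      exact huni A A₁ A₂ A₀ m h _ _ _ _ _ _ _ _ (hg n U) hG
    refine ⟨K1.lift (fun n U => K0.cls (e n U) (he n U) - n • K0.one A) ?_, ?_⟩
    · rintro x (⟨n, a, b⟩ | ⟨p, q, a, b, w, y, hw⟩)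
      · simp only [map_sub, FreeAbelianGroup.lift_apply_of]
        have h1 : Gl m (fromBlocks (e n b) 0 0 (e n a)) ((dU (a * b) 1 :
            (Matrix (Fin n ⊕ Fin n) (Fin n ⊕ Fin n) A₀)ˣ) :
            Matrix (Fin n ⊕ Fin n) (Fin n ⊕ Fin n) A₀) := by
          have h2 := gl_white h a (dU b a) (by rw [dU_val]; exact gl_sum (hg n b) (hg n a))
          rwa [← dU_mul, inv_mul_cancel] at h2
        have h3 : Gl m (fromBlocks (e n (a * b)) 0 0 (1 : Matrix (Fin n) (Fin n) A))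
            ((dU (a * b) 1 : (Matrix (Fin n ⊕ Fin n) (Fin n ⊕ Fin n) A₀)ˣ) :
            Matrix (Fin n ⊕ Fin n) (Fin n ⊕ Fin n) A₀) := by
          rw [dU_val, Units.val_one]
          exact gl_sum (hg n (a * b)) gl_one
        have i1 : fromBlocks (e n b) 0 0 (e n a) * fromBlocks (e n b) 0 0 (e n a) =
            fromBlocks (e n b) 0 0 (e n a) := by
          rw [fromBlocks_multiply]
          simp [he]
        have i2 : fromBlocks (e n (a * b)) 0 0 (1 : Matrix (Fin n) (Fin n) A) *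
            fromBlocks (e n (a * b)) 0 0 (1 : Matrix (Fin n) (Fin n) A) =
            fromBlocks (e n (a * b)) 0 0 (1 : Matrix (Fin n) (Fin n) A) := by
          rw [fromBlocks_multiply]
          simp [he]
        have h4 := huni A A₁ A₂ A₀ m h _ _ _ _ _ i1 i2 _ h1 h3
        rw [hKA.sum A _ _ _ _ (he n b) (he n a) i1, hKA.sum A _ _ _ _ (he n (a * b)) (mul_one 1) i2,
          hKA.one, Fintype.card_fin, hKA.cls, hKA.cls, hKA.cls] at h4
        rw [sub_sub, sub_eq_zero]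
        rw [eq_sub_iff_add_eq.2 h4.symm]
        abel
      · simp only [map_sub, FreeAbelianGroup.lift_apply_of]
        have h1 : Gl m (fromBlocks (e p a) 0 0 (e q b)) (w : Matrix (Fin (p + q)) (Fin (p + q)) A₀) := by
          have h2 : Gl m (fromBlocks (e p a) 0 0 (e q b))
              ((dU a b : (Matrix (Fin p ⊕ Fin q) (Fin p ⊕ Fin q) A₀)ˣ) :
              Matrix (Fin p ⊕ Fin q) (Fin p ⊕ Fin q) A₀) := by
            rw [dU_val]
            exact gl_sum (hg p a) (hg q b)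
          obtain ⟨W₁, W₂, hW⟩ := h.upper p q (y * ((b⁻¹ : (Matrix (Fin q) (Fin q) A₀)ˣ) :
            Matrix (Fin q) (Fin q) A₀)) (dU a b)
          have h3 := gl_mul h2 W₁ W₂
          rw [← hW] at h3
          have h4 : fromBlocks 1 (y * ((b⁻¹ : (Matrix (Fin q) (Fin q) A₀)ˣ) :
              Matrix (Fin q) (Fin q) A₀)) 0 1 * ((dU a b :
              (Matrix (Fin p ⊕ Fin q) (Fin p ⊕ Fin q) A₀)ˣ) :
              Matrix (Fin p ⊕ Fin q) (Fin p ⊕ Fin q) A₀) =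
              fromBlocks (a : Matrix (Fin p) (Fin p) A₀) y 0 (b : Matrix (Fin q) (Fin q) A₀) := by
            have t1 : y * ((b⁻¹ : (Matrix (Fin q) (Fin q) A₀)ˣ) : Matrix (Fin q) (Fin q) A₀) *
                (b : Matrix (Fin q) (Fin q) A₀) = y := by
              rw [Matrix.mul_assoc, Units.inv_mul, Matrix.mul_one]
            rw [dU_val, fromBlocks_multiply, t1]
            simp
          rw [h4] at h3
          have h5 := gl_reindex finSumFinEquiv h3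
          rw [← hw] at h5
          exact h5
        have i1 : fromBlocks (e p a) 0 0 (e q b) * fromBlocks (e p a) 0 0 (e q b) =
            fromBlocks (e p a) 0 0 (e q b) := by
          rw [fromBlocks_multiply]
          simp [he]
        have h6 := hval (p + q) w _ _ i1 h1
        rw [hKA.sum A _ _ _ _ (he p a) (he q b) i1, hKA.cls, hKA.cls] at h6
        rw [h6, add_smul]
        abel
    · intro r' n f hf U hG
      rw [K1.lift_cls, hval n U _ f hf hG, hKA.cls]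
  · intro A A₁ A₂ A₀ _ _ _ _ m h d hd y
    have : d.comp (K1.map m.j₁) = 0 := by
      apply K1.ext
      intro n W
      rw [AddMonoidHom.comp_apply, K1.map_cls, AddMonoidHom.zero_apply]
      have h1 : Gl m (1 : Matrix (Fin n) (Fin n) A)
          ((Units.map (m.j₁.mapMatrix).toMonoidHom W : (Matrix (Fin n) (Fin n) A₀)ˣ) :
            Matrix (Fin n) (Fin n) A₀) := by
        have := gl_left (m := m) (gl_one (κ := Fin n)) W
        rwa [Matrix.mul_one] at this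
      rw [hd n n 1 (mul_one 1) _ h1, ← hKA.cls, hKA.one, Fintype.card_fin, sub_self]
    exact DFunLike.congr_fun this y
  · intro A A₁ A₂ A₀ _ _ _ _ m h d hd y
    have : d.comp (K1.map m.j₂) = 0 := by
      apply K1.ext
      intro n W
      rw [AddMonoidHom.comp_apply, K1.map_cls, AddMonoidHom.zero_apply]
      have h1 : Gl m (1 : Matrix (Fin n) (Fin n) A)
          ((Units.map (m.j₂.mapMatrix).toMonoidHom W : (Matrix (Fin n) (Fin n) A₀)ˣ) :
            Matrix (Fin n) (Fin n) A₀) := by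
        have := gl_right (m := m) (gl_one (κ := Fin n)) W
        rwa [Matrix.one_mul] at this
      rw [hd n n 1 (mul_one 1) _ h1, ← hKA.cls, hKA.one, Fintype.card_fin, sub_self]
    exact DFunLike.congr_fun this y
  · intro A A₁ A₂ A₀ B B₁ B₂ B₀ _ _ _ _ _ _ _ _ m m' h h' F d d' hd hd' y
    have : d'.comp (K1.map F.f₀) = (K0.map F.f).comp d := by
      apply K1.ext
      intro n U
      rw [AddMonoidHom.comp_apply, AddMonoidHom.comp_apply, K1.map_cls]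
      obtain ⟨r, e, he, hG⟩ := hex A A₁ A₂ A₀ m h n U
      have hG' : Gl m' (e.map F.f)
          ((Units.map (F.f₀.mapMatrix).toMonoidHom U : (Matrix (Fin n) (Fin n) B₀)ˣ) :
            Matrix (Fin n) (Fin n) B₀) := by
        obtain ⟨a₁, b₁, a₂, b₂, h1, h2, h3, h4, h5⟩ := hG
        have c₁ : (e.map F.f).map m'.i₁ = (e.map m.i₁).map F.f₁ := by
          ext i j
          exact F.c₁ _
        have c₂ : (e.map F.f).map m'.i₂ = (e.map m.i₂).map F.f₂ := by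
          ext i j
          exact F.c₂ _
        have d₁ : (b₁.map F.f₁).map m'.j₁ = (b₁.map m.j₁).map F.f₀ := by
          ext i j
          exact F.d₁ _
        have d₂ : (a₂.map F.f₂).map m'.j₂ = (a₂.map m.j₂).map F.f₀ := by
          ext i j
          exact F.d₂ _
        refine ⟨a₁.map F.f₁, b₁.map F.f₁, a₂.map F.f₂, b₂.map F.f₂, ?_, ?_, ?_, ?_, ?_⟩
        · rw [← Matrix.map_mul, h1, c₁]
        · rw [← Matrix.map_mul, h2, Matrix.map_one _ (map_zero _) (map_one _)]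
        · rw [← Matrix.map_mul, h3, c₂]
        · rw [← Matrix.map_mul, h4, Matrix.map_one _ (map_zero _) (map_one _)]
        · rw [d₁, d₂, ← Matrix.map_mul, h5]
          rfl
      have hone : K0.map F.f (K0.one A) = K0.one B := by
        unfold K0.one
        rw [K0.map_cls]
        congr 1
        exact Matrix.map_one _ (map_zero _) (map_one _)
      rw [hd r n e he U hG, hd' r n _ (map_idem F.f he) _ hG', map_sub, map_nsmul, K0.map_cls, hone]
    exact DFunLike.congr_fun this y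

theorem specMIL : SpecMIL.{u} := specMIL_of specKA

end Pool.Agent.Lib.MPb6f35e.ZK
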