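import Pool.Agent.Lib.MP_b6f35e_al.ZK.Spec

/-!
# Module TOE of ZK (MP_b6f35e_al): the Toeplitz idempotent

Let `c`, `c'` be matrices over `A[t, t⁻¹]` with `c c' = 1` and `c' c = pos q₁ ⊕ neg q₂`. Then
`c P₊ c'` is an idempotent infinite matrix over `A`, equal to `P₊` outside a finite window, and its
part `E` in the window is a finite idempotent matrix over `A` with trace
`s - ∑_j j Tr (c_j c'_(-j))`.
-/

set_option autoImplicit false

noncomputable section

namespace Pool.Agent.Lib.MPb6f35e.ZK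

universe u v w

namespace TOE

open Finset

variable {A : Type u} [Ring A]

/-! ### the projection to the non-negative powers -/

/-- the part of degree `≥ 0` -/
def pp : Lau A →+ Lau A where
  toFun x := AddMonoidAlgebra.ofCoeff (x.coeff.filter fun k => 0 ≤ k)
  map_zero' := by
    rw [AddMonoidAlgebra.coeff_zero, Finsupp.filter_zero]
    rfl
  map_add' x y := by
    rw [AddMonoidAlgebra.coeff_add, Finsupp.filter_add]
    rfl

lemma pp_coeff (x : Lau A) (k : ℤ) : (pp x).coeff k = if 0 ≤ k then x.coeff k else 0 := by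
  show (x.coeff.filter fun k => 0 ≤ k) k = _
  rw [Finsupp.filter_apply]

lemma pp_single (k : ℤ) (a : A) : pp (AddMonoidAlgebra.single k a : Lau A) =
    if 0 ≤ k then AddMonoidAlgebra.single k a else 0 := by
  ext l
  rw [pp_coeff]
  by_cases h : 0 ≤ k
  · rw [if_pos h]
    by_cases hl : 0 ≤ l
    · rw [if_pos hl]
    · rw [if_neg hl, AddMonoidAlgebra.coeff_single, Finsupp.single_apply, if_neg (by omega)]
  · rw [if_neg h]
    by_cases hl : 0 ≤ l
    · rw [if_pos hl, AddMonoidAlgebra.coeff_single, Finsupp.single_apply, if_neg (by omega)]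
      rfl
    · rw [if_neg hl]; rfl

lemma posHom_single (n : ℕ) (a : A) : posHom A (AddMonoidAlgebra.single n a) =
    AddMonoidAlgebra.single (n : ℤ) a := by
  show AddMonoidAlgebra.mapDomain (Nat.castAddMonoidHom ℤ) _ = _
  rw [AddMonoidAlgebra.mapDomain_single]
  rfl

lemma negHom_single (n : ℕ) (a : A) : negHom A (AddMonoidAlgebra.single n a) =
    AddMonoidAlgebra.single (-(n : ℤ)) a := by
  show AddMonoidAlgebra.mapDomain (-(Nat.castAddMonoidHom ℤ)) _ = _
  rw [AddMonoidAlgebra.mapDomain_single]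
  rfl

lemma pp_pos (q : Pol A) (y : Lau A) : pp (posHom A q * pp y) = posHom A q * pp y := by
  induction q using AddMonoidAlgebra.induction_linear with
  | zero => simp
  | add q q' h h' => rw [map_add, add_mul, map_add, h, h']
  | single n a =>
    induction y using AddMonoidAlgebra.induction_linear with
    | zero => simp
    | add y y' h h' => rw [map_add, mul_add, map_add, h, h']
    | single k b =>
      rw [posHom_single, pp_single]
      split_ifs with h
      · rw [AddMonoidAlgebra.single_mul_single, pp_single, if_pos (by omega)]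
      · simp

lemma pp_neg (q : Pol A) (y : Lau A) : pp (negHom A q * pp y) = pp (negHom A q * y) := by
  induction q using AddMonoidAlgebra.induction_linear with
  | zero => simp
  | add q q' h h' => rw [map_add, add_mul, add_mul, map_add, map_add, h, h']
  | single n a =>
    induction y using AddMonoidAlgebra.induction_linear with
    | zero => simp
    | add y y' h h' => rw [map_add, mul_add, mul_add, map_add, map_add, h, h']
    | single k b =>
      rw [negHom_single, pp_single]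
      split_ifs with h
      · rfl
      · rw [AddMonoidAlgebra.single_mul_single, pp_single, if_neg (by omega)]
        simp

lemma pp_mul_const (y : Lau A) (a : A) :
    pp (y * AddMonoidAlgebra.single 0 a) = pp y * AddMonoidAlgebra.single 0 a := by
  ext k
  rw [pp_coeff, AddMonoidAlgebra.coeff_mul_single_zero, AddMonoidAlgebra.coeff_mul_single_zero,
    pp_coeff]
  split_ifs <;> simp

/-! ### matrices -/

section

variable {α β γ : Type*}

/-- entrywise projection -/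
def ppM (M : Matrix α β (Lau A)) : Matrix α β (Lau A) := M.map pp

lemma ppM_add (M N : Matrix α β (Lau A)) : ppM (M + N) = ppM M + ppM N := by
  ext1 i j; exact map_add pp _ _

lemma ppM_sum {δ : Type*} (s : Finset δ) (M : δ → Matrix α β (Lau A)) :
    ppM (∑ i ∈ s, M i) = ∑ i ∈ s, ppM (M i) := by
  ext1 i j
  show pp ((∑ i ∈ s, M i) i j) = _
  rw [Matrix.sum_apply, Matrix.sum_apply, map_sum]
  rfl

variable [Fintype β]

lemma ppM_pos (q : Matrix α β (Pol A)) (M : Matrix β γ (Lau A)) :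
    ppM (q.map (posHom A) * ppM M) = q.map (posHom A) * ppM M := by
  ext1 i j
  show pp ((q.map (posHom A) * ppM M) i j) = _
  rw [Matrix.mul_apply, map_sum]
  exact Finset.sum_congr rfl fun k _ => pp_pos _ _

lemma ppM_neg (q : Matrix α β (Pol A)) (M : Matrix β γ (Lau A)) :
    ppM (q.map (negHom A) * ppM M) = ppM (q.map (negHom A) * M) := by
  ext1 i j
  show pp ((q.map (negHom A) * ppM M) i j) = pp ((q.map (negHom A) * M) i j)
  rw [Matrix.mul_apply, Matrix.mul_apply, map_sum, map_sum]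
  exact Finset.sum_congr rfl fun k _ => pp_neg _ _

/-- constant matrices -/
def cst (K : Matrix α γ A) : Matrix α γ (Lau A) := K.map fun a => AddMonoidAlgebra.single 0 a

lemma ppM_mul_cst (M : Matrix α β (Lau A)) (K : Matrix β γ A) :
    ppM (M * cst K) = ppM M * cst K := by
  ext1 i j
  show pp ((M * cst K) i j) = _
  rw [Matrix.mul_apply, Matrix.mul_apply, map_sum]
  exact Finset.sum_congr rfl fun k _ => pp_mul_const _ _

end

section

variable {ι κ₁ κ₂ : Type} [Fintype ι] [DecidableEq ι] [Fintype κ₁] [Fintype κ₂]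

/-- `c P₊ c'` -/
def Phi {ν : Type} (c : Matrix ι (κ₁ ⊕ κ₂) (Lau A)) (c' : Matrix (κ₁ ⊕ κ₂) ι (Lau A))
    (M : Matrix ι ν (Lau A)) : Matrix ι ν (Lau A) := c * ppM (c' * M)

variable {c : Matrix ι (κ₁ ⊕ κ₂) (Lau A)} {c' : Matrix (κ₁ ⊕ κ₂) ι (Lau A)}

/-- `c P₊ c'` is idempotent -/
theorem Phi_Phi {q₁ : Matrix κ₁ κ₁ (Pol A)} {q₂ : Matrix κ₂ κ₂ (Pol A)} (h : c * c' = 1)
    (h' : c' * c = Matrix.fromBlocks (q₁.map (posHom A)) 0 0 (q₂.map (negHom A))) {ν : Type}
    (M : Matrix ι ν (Lau A)) : Phi c c' (Phi c c' M) = Phi c c' M := by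
  unfold Phi
  obtain ⟨w, hw⟩ : ∃ w, w = c' * M := ⟨_, rfl⟩
  have e1 : c' * (c * ppM (c' * M)) = (c' * c) * ppM w := by rw [hw, Matrix.mul_assoc]
  have e2 : (c' * c) * w = w := by
    rw [hw, ← Matrix.mul_assoc, Matrix.mul_assoc c' c c', h, Matrix.mul_one]
  have e3 : c * (c' * c) = c := by rw [← Matrix.mul_assoc, h, Matrix.one_mul]
  rw [e1, ← hw]
  rw [h'] at e2 e3 ⊢
  -- blocks
  obtain ⟨w₁, hw₁⟩ : ∃ w₁, w₁ = w.toRows₁ := ⟨_, rfl⟩
  obtain ⟨w₂, hw₂⟩ : ∃ w₂, w₂ = w.toRows₂ := ⟨_, rfl⟩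
  obtain ⟨c₁, hc₁⟩ : ∃ c₁, c₁ = c.toCols₁ := ⟨_, rfl⟩
  obtain ⟨c₂, hc₂⟩ : ∃ c₂, c₂ = c.toCols₂ := ⟨_, rfl⟩
  have hw' : w = Matrix.fromRows w₁ w₂ := by rw [hw₁, hw₂, Matrix.fromRows_toRows]
  have hc' : c = Matrix.fromCols c₁ c₂ := by rw [hc₁, hc₂, Matrix.fromCols_toCols]
  have hp : ppM w = Matrix.fromRows (ppM w₁) (ppM w₂) := by
    rw [hw']; ext1 i j; rcases i with i | i <;> rfl
  rw [hw', Matrix.fromBlocks_mul_fromRows] at e2
  rw [hc', Matrix.fromCols_mul_fromBlocks] at e3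
  simp only [Matrix.zero_mul, Matrix.mul_zero, add_zero, zero_add] at e2 e3
  have f2 : q₂.map (negHom A) * w₂ = w₂ := (Matrix.fromRows_inj e2).2
  have f1 : c₁ * q₁.map (posHom A) = c₁ := (Matrix.fromCols_inj e3).1
  rw [hp, Matrix.fromBlocks_mul_fromRows]
  simp only [Matrix.zero_mul, add_zero, zero_add]
  have hp2 : ∀ (x : Matrix κ₁ ν (Lau A)) (y : Matrix κ₂ ν (Lau A)),
      ppM (Matrix.fromRows x y) = Matrix.fromRows (ppM x) (ppM y) := by
    intro x y; ext1 i j; rcases i with i | i <;> rfl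
  rw [hp2, ppM_pos, ppM_neg, f2, hc', Matrix.fromCols_mul_fromRows, Matrix.fromCols_mul_fromRows,
    ← Matrix.mul_assoc, f1]


/-! ### the window -/

/-- `t^l` times the unit matrix -/
def TT (A : Type u) [Ring A] (ι : Type) [DecidableEq ι] (l : ℤ) : Matrix ι ι (Lau A) :=
  Matrix.diagonal fun _ => AddMonoidAlgebra.single l 1

/-- the columns of `c P₊ c'` -/
def FF (c : Matrix ι (κ₁ ⊕ κ₂) (Lau A)) (c' : Matrix (κ₁ ⊕ κ₂) ι (Lau A)) (l : ℤ) :
    Matrix ι ι (Lau A) := Phi c c' (TT A ι l)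

/-- all coefficients vanish outside `[-d, d]` -/
def Bd {α β : Type*} (d : ℕ) (M : Matrix α β (Lau A)) : Prop :=
  ∀ i j (k : ℤ), (k < -(d : ℤ) ∨ (d : ℤ) < k) → (M i j).coeff k = 0

lemma exists_bd {α β : Type*} [Finite α] [Finite β] (M : Matrix α β (Lau A)) :
    ∃ d : ℕ, ∀ d', d ≤ d' → Bd d' M := by
  have h1 : ∀ x : Lau A, ∃ d : ℕ, ∀ k : ℤ, (k < -(d : ℤ) ∨ (d : ℤ) < k) → x.coeff k = 0 := by
    intro x
    refine ⟨x.coeff.support.sup Int.natAbs, fun k hk => ?_⟩
    by_contra hne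
    have h2 : k ∈ x.coeff.support := Finsupp.mem_support_iff.2 hne
    have h3 : k.natAbs ≤ x.coeff.support.sup Int.natAbs := Finset.le_sup h2
    omega
  choose f hf using fun p : α × β => h1 (M p.1 p.2)
  cases nonempty_fintype (α × β)
  refine ⟨Finset.univ.sup f, fun d' hd' i j k hk => hf (i, j) k ?_⟩
  have h4 : f (i, j) ≤ Finset.univ.sup f := Finset.le_sup (Finset.mem_univ _)
  omega

lemma mul_TT_coeff {α : Type*} (M : Matrix α ι (Lau A)) (l k : ℤ) (a : α) (j : ι) :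
    ((M * TT A ι l : Matrix α ι (Lau A)) a j).coeff k = (M a j).coeff (k - l) := by
  rw [TT, Matrix.mul_diagonal, AddMonoidAlgebra.coeff_mul_single_apply, mul_one, sub_eq_add_neg]

/-- the coefficients of `c P₊ c' t^l` -/
lemma FF_coeff_aux {d : ℕ} (hc : Bd d c) (l k : ℤ) (i j : ι) :
    (FF c c' l i j).coeff k = ∑ a, ∑ r ∈ Finset.Icc (-(d : ℤ)) d,
      (c i a).coeff r * (if r ≤ k then (c' a j).coeff (k - r - l) else 0) := by
  unfold FF Phi
  rw [Matrix.mul_apply, AddMonoidAlgebra.coeff_sum, Finsupp.finsetSum_apply]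
  refine Finset.sum_congr rfl fun a _ => ?_
  rw [AddMonoidAlgebra.coeff_mul_apply_left, Finsupp.sum]
  have hsub : (c i a).coeff.support ⊆ Finset.Icc (-(d : ℤ)) d := by
    intro r hr
    rw [Finset.mem_Icc]
    by_contra hne
    exact Finsupp.mem_support_iff.1 hr (hc i a r (by omega))
  rw [Finset.sum_subset hsub]
  · refine Finset.sum_congr rfl fun r _ => ?_
    congr 1
    show (pp ((c' * TT A ι l : Matrix _ ι (Lau A)) a j)).coeff (-r + k) = _
    rw [pp_coeff, mul_TT_coeff]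
    have e1 : (0 ≤ -r + k) ↔ r ≤ k := by omega
    by_cases hr : r ≤ k
    · rw [if_pos (e1.2 hr), if_pos hr]
      congr 1; ring
    · rw [if_neg (fun h => hr (e1.1 h)), if_neg hr]
  · intro r _ hr
    rw [Finsupp.notMem_support_iff.1 hr, zero_mul]

/-- the columns with index in the window have their support in the window -/
lemma FF_supp (h : c * c' = 1) {d : ℕ} (hc : Bd d c) (hc' : Bd d c') {L : ℤ} (hL : 3 * (d : ℤ) < L)
    {l : ℤ} (hl : l < L) (i j : ι) (k : ℤ) (hk : k < -L ∨ L ≤ k) :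
    (FF c c' l i j).coeff k = 0 := by
  by_cases hld : (d : ℤ) ≤ l
  · have e1 : FF c c' l = TT A ι l := by
      unfold FF Phi
      have e2 : ppM (c' * TT A ι l) = c' * TT A ι l := by
        ext a b m
        show (pp ((c' * TT A ι l : Matrix _ ι (Lau A)) a b)).coeff m = _
        rw [pp_coeff]
        split_ifs with hm
        · rfl
        · rw [mul_TT_coeff, hc' a b _ (by omega)]
      rw [e2, ← Matrix.mul_assoc, h, Matrix.one_mul]
    rw [e1, TT, Matrix.diagonal_apply]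
    split_ifs
    · rw [AddMonoidAlgebra.coeff_single, Finsupp.single_apply, if_neg (by omega)]
    · rfl
  · rw [FF_coeff_aux hc]
    refine Finset.sum_eq_zero fun a _ => Finset.sum_eq_zero fun r hr => ?_
    rw [Finset.mem_Icc] at hr
    split_ifs with hrk
    · rw [hc' a j _ (by omega), mul_zero]
    · rw [mul_zero]

end

section

variable {ι κ₁ κ₂ : Type} [Fintype ι] [DecidableEq ι] [Fintype κ₁] [Fintype κ₂]

lemma TT_mul_cst (l : ℤ) {ν : Type} (K : Matrix ι ν A) (a : ι) (j : ν) :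
    (TT A ι l * cst K : Matrix ι ν (Lau A)) a j = AddMonoidAlgebra.single l (K a j) := by
  rw [TT, Matrix.diagonal_mul]
  show AddMonoidAlgebra.single l 1 * AddMonoidAlgebra.single 0 (K a j) = _
  rw [AddMonoidAlgebra.single_mul_single, add_zero, one_mul]

/-- a matrix with support in the window is the sum of its coefficients -/
lemma eq_sum_window {ν : Type} (M : Matrix ι ν (Lau A)) (L : ℤ)
    (hM : ∀ i j (k : ℤ), (k < -L ∨ L ≤ k) → (M i j).coeff k = 0) :
    M = ∑ l ∈ Finset.Ico (-L) L, TT A ι l * cst (Matrix.of fun a b => (M a b).coeff l) := by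
  ext a j k
  rw [Matrix.sum_apply, AddMonoidAlgebra.coeff_sum, Finsupp.finsetSum_apply]
  simp only [TT_mul_cst, AddMonoidAlgebra.coeff_single, Finsupp.single_apply, Matrix.of_apply]
  rw [Finset.sum_ite_eq']
  split_ifs with hk
  · rfl
  · rw [Finset.mem_Ico] at hk
    exact hM a j k (by omega)

omit [DecidableEq ι] in
lemma Phi_sum {ν : Type} (c : Matrix ι (κ₁ ⊕ κ₂) (Lau A)) (c' : Matrix (κ₁ ⊕ κ₂) ι (Lau A))
    (s : Finset ℤ) (M : ℤ → Matrix ι ν (Lau A)) :
    Phi c c' (∑ l ∈ s, M l) = ∑ l ∈ s, Phi c c' (M l) := by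
  unfold Phi
  rw [Matrix.mul_sum, ppM_sum, Matrix.mul_sum]

omit [DecidableEq ι] in
lemma Phi_mul_cst {ν μ : Type} [Fintype ν] (c : Matrix ι (κ₁ ⊕ κ₂) (Lau A))
    (c' : Matrix (κ₁ ⊕ κ₂) ι (Lau A)) (M : Matrix ι ν (Lau A)) (K : Matrix ν μ A) :
    Phi c c' (M * cst K) = Phi c c' M * cst K := by
  unfold Phi
  rw [← Matrix.mul_assoc, ppM_mul_cst, Matrix.mul_assoc]

/-- the window of `c P₊ c'` -/
def EW (c : Matrix ι (κ₁ ⊕ κ₂) (Lau A)) (c' : Matrix (κ₁ ⊕ κ₂) ι (Lau A)) (L : ℤ) :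
    Matrix (Finset.Ico (-L) L × ι) (Finset.Ico (-L) L × ι) A :=
  Matrix.of fun x y => (FF c c' y.1 x.2 y.2).coeff x.1

variable {c : Matrix ι (κ₁ ⊕ κ₂) (Lau A)} {c' : Matrix (κ₁ ⊕ κ₂) ι (Lau A)}

theorem EW_idem {q₁ : Matrix κ₁ κ₁ (Pol A)} {q₂ : Matrix κ₂ κ₂ (Pol A)} (h : c * c' = 1)
    (h' : c' * c = Matrix.fromBlocks (q₁.map (posHom A)) 0 0 (q₂.map (negHom A)))
    {d : ℕ} (hc : Bd d c) (hc' : Bd d c') {L : ℤ} (hL : 3 * (d : ℤ) < L) :
    EW c c' L * EW c c' L = EW c c' L := by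
  ext ⟨k, i⟩ ⟨m, j⟩
  have e1 : FF c c' (m : ℤ) = ∑ l ∈ Finset.Ico (-L) L,
      TT A ι l * cst (Matrix.of fun a b => (FF c c' (m : ℤ) a b).coeff l) :=
    eq_sum_window _ L fun i j k hk =>
      FF_supp h hc hc' hL (Finset.mem_Ico.1 m.2).2 i j k hk
  have e2 : FF c c' (m : ℤ) = ∑ l ∈ Finset.Ico (-L) L,
      FF c c' l * cst (Matrix.of fun a b => (FF c c' (m : ℤ) a b).coeff l) := by
    conv_lhs => rw [FF, ← Phi_Phi h h', ← FF, e1]
    rw [Phi_sum]
    refine Finset.sum_congr rfl fun l _ => ?_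
    rw [Phi_mul_cst]
    rfl
  have e3 : (FF c c' (m : ℤ) i j).coeff k = ∑ l ∈ Finset.Ico (-L) L, ∑ a,
      (FF c c' l i a).coeff k * (FF c c' (m : ℤ) a j).coeff l := by
    conv_lhs => rw [e2]
    rw [Matrix.sum_apply, AddMonoidAlgebra.coeff_sum, Finsupp.finsetSum_apply]
    refine Finset.sum_congr rfl fun l _ => ?_
    rw [Matrix.mul_apply, AddMonoidAlgebra.coeff_sum, Finsupp.finsetSum_apply]
    refine Finset.sum_congr rfl fun a _ => ?_
    show ((FF c c' l i a) * AddMonoidAlgebra.single 0 ((FF c c' (m : ℤ) a j).coeff l)).coeff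
      (k : ℤ) = _
    rw [AddMonoidAlgebra.coeff_mul_single_zero]
  rw [Matrix.mul_apply, Fintype.sum_prod_type]
  show _ = (FF c c' (m : ℤ) i j).coeff k
  rw [e3, ← Finset.sum_coe_sort (Finset.Ico (-L) L)]
  rfl

/-- coefficient of a product -/
lemma coeff_mul_bd {d : ℕ} (x y : Lau A) (hx : ∀ k : ℤ, (k < -(d : ℤ) ∨ (d : ℤ) < k) →
    x.coeff k = 0) : (x * y).coeff 0 = ∑ r ∈ Finset.Icc (-(d : ℤ)) d,
      x.coeff r * y.coeff (-r) := by
  rw [AddMonoidAlgebra.coeff_mul_apply_left, Finsupp.sum]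
  have hsub : x.coeff.support ⊆ Finset.Icc (-(d : ℤ)) d := by
    intro r hr
    rw [Finset.mem_Icc]
    by_contra hne
    exact Finsupp.mem_support_iff.1 hr (hx r (by omega))
  rw [Finset.sum_subset hsub]
  · simp only [add_zero]
  · intro r _ hr
    rw [Finsupp.notMem_support_iff.1 hr, zero_mul]

lemma coeff_mul_bd' {d : ℕ} (x y : Lau A) (hx : ∀ k : ℤ, (k < -(d : ℤ) ∨ (d : ℤ) < k) →
    x.coeff k = 0) : (y * x).coeff 0 = ∑ r ∈ Finset.Icc (-(d : ℤ)) d,
      y.coeff (-r) * x.coeff r := by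
  rw [AddMonoidAlgebra.coeff_mul_apply_right, Finsupp.sum]
  have hsub : x.coeff.support ⊆ Finset.Icc (-(d : ℤ)) d := by
    intro r hr
    rw [Finset.mem_Icc]
    by_contra hne
    exact Finsupp.mem_support_iff.1 hr (hx r (by omega))
  rw [Finset.sum_subset hsub]
  · simp only [zero_add]
  · intro r _ hr
    rw [Finsupp.notMem_support_iff.1 hr, mul_zero]

lemma del_coeff (x : Lau A) (k : ℤ) : (del A x).coeff k = k • x.coeff k := by
  induction x using AddMonoidAlgebra.induction_linear with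
  | zero => simp
  | add x y hx hy =>
    rw [map_add, AddMonoidAlgebra.coeff_add, AddMonoidAlgebra.coeff_add, Finsupp.add_apply,
      Finsupp.add_apply, hx, hy, smul_add]
  | single n a =>
    have e1 : del A (AddMonoidAlgebra.single n a) = AddMonoidAlgebra.single n (n • a) := by
      show (Finsupp.liftAddHom _) (Finsupp.single n a) = _
      rw [Finsupp.liftAddHom_apply_single]
      rfl
    rw [e1, AddMonoidAlgebra.coeff_single, AddMonoidAlgebra.coeff_single, Finsupp.single_apply,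
      Finsupp.single_apply]
    split_ifs with hk
    · rw [hk]
    · simp

/-- the trace of the window -/
theorem EW_trace (h : c * c' = 1) {d : ℕ} (hc : Bd d c) {L : ℤ} (hL : (d : ℤ) < L) :
    (EW c c' L).trace = (L * Fintype.card ι) • (1 : A) -
      ∑ i, ∑ a, ∑ r ∈ Finset.Icc (-(d : ℤ)) d, r • ((c i a).coeff r * (c' a i).coeff (-r)) := by
  have e0 : (EW c c' L).trace = ∑ k ∈ Finset.Ico (-L) L, ∑ i, (FF c c' k i i).coeff k := by
    rw [Matrix.trace, Fintype.sum_prod_type, ← Finset.sum_coe_sort (Finset.Ico (-L) L)]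
    rfl
  have e1 : ∀ (i : ι), ∑ a, ∑ r ∈ Finset.Icc (-(d : ℤ)) d,
      (c i a).coeff r * (c' a i).coeff (-r) = 1 := by
    intro i
    have e2 : ((c * c') i i).coeff 0 = (1 : A) := by
      rw [h, Matrix.one_apply_eq]
      show ((AddMonoidAlgebra.single 0 1 : Lau A)).coeff 0 = 1
      rw [AddMonoidAlgebra.coeff_single, Finsupp.single_eq_same]
    rw [← e2, Matrix.mul_apply, AddMonoidAlgebra.coeff_sum, Finsupp.finsetSum_apply]
    refine Finset.sum_congr rfl fun a _ => ?_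
    rw [coeff_mul_bd _ _ (hc i a)]
  have e3 : ∀ (r : ℤ) (_ : r ∈ Finset.Icc (-(d : ℤ)) d) (x : A),
      ∑ k ∈ Finset.Ico (-L) L, (if r ≤ k then x else 0) = (L - r) • x := by
    intro r hr x
    rw [Finset.mem_Icc] at hr
    rw [← Finset.sum_filter, Finset.sum_const]
    have e4 : (Finset.Ico (-L) L).filter (fun k => r ≤ k) = Finset.Ico r L := by
      ext k
      simp only [Finset.mem_filter, Finset.mem_Ico]
      omega
    rw [e4, Int.card_Ico]
    have e5 : ((L - r).toNat : ℤ) = L - r := Int.toNat_of_nonneg (by omega)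
    rw [← natCast_zsmul, e5]
  rw [e0, Finset.sum_comm]
  have e6 : ∀ i : ι, ∑ k ∈ Finset.Ico (-L) L, (FF c c' k i i).coeff k = L • (1 : A) -
      ∑ a, ∑ r ∈ Finset.Icc (-(d : ℤ)) d, r • ((c i a).coeff r * (c' a i).coeff (-r)) := by
    intro i
    simp only [FF_coeff_aux hc]
    rw [Finset.sum_comm, ← e1 i, Finset.smul_sum, ← Finset.sum_sub_distrib]
    refine Finset.sum_congr rfl fun a _ => ?_
    rw [Finset.sum_comm, Finset.smul_sum, ← Finset.sum_sub_distrib]
    refine Finset.sum_congr rfl fun r hr => ?_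
    rw [← sub_smul, ← e3 r hr]
    refine Finset.sum_congr rfl fun k _ => ?_
    have e7 : k - r - k = -r := by ring
    rw [e7, mul_ite, mul_zero]
  rw [Finset.sum_congr rfl fun i _ => e6 i, Finset.sum_sub_distrib, Finset.sum_const,
    Finset.card_univ, mul_comm L, mul_smul, natCast_zsmul]

omit [DecidableEq ι] in
theorem tau_trace {V : Type v} [AddCommGroup V] (τ : A →+ V) (hτ : ∀ a b, τ (a * b) = τ (b * a))
    {d : ℕ} (hc : Bd d c) : t0 τ (c' * c.map (del A)).trace =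
      τ (∑ i, ∑ a, ∑ r ∈ Finset.Icc (-(d : ℤ)) d,
        r • ((c i a).coeff r * (c' a i).coeff (-r))) := by
  have e1 : t0 τ (c' * c.map (del A)).trace = ∑ a, ∑ i, t0 τ (c' a i * del A (c i a)) := by
    rw [Matrix.trace, map_sum]
    refine Finset.sum_congr rfl fun a _ => ?_
    rw [Matrix.diag_apply, Matrix.mul_apply, map_sum]
    rfl
  rw [e1, Finset.sum_comm, map_sum]
  refine Finset.sum_congr rfl fun i _ => ?_
  rw [map_sum]
  refine Finset.sum_congr rfl fun a _ => ?_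
  rw [map_sum]
  show τ ((c' a i * del A (c i a)).coeff 0) = _
  rw [coeff_mul_bd' (d := d), map_sum]
  · refine Finset.sum_congr rfl fun r _ => ?_
    rw [del_coeff, mul_smul_comm, map_zsmul, map_zsmul, hτ]
  · intro k hk
    rw [del_coeff, hc i a k hk, smul_zero]

end

/-- the two-block form -/
theorem main {V : Type v} [AddCommGroup V] (τ : A →+ V) (hτ : ∀ a b, τ (a * b) = τ (b * a))
    {ι κ₁ κ₂ : Type} [Fintype ι] [DecidableEq ι] [Fintype κ₁] [Fintype κ₂]
    {c : Matrix ι (κ₁ ⊕ κ₂) (Lau A)} {c' : Matrix (κ₁ ⊕ κ₂) ι (Lau A)}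
    {q₁ : Matrix κ₁ κ₁ (Pol A)} {q₂ : Matrix κ₂ κ₂ (Pol A)} (h : c * c' = 1)
    (h' : c' * c = Matrix.fromBlocks (q₁.map (posHom A)) 0 0 (q₂.map (negHom A))) :
    ∃ (N s : ℕ) (E : Matrix (Fin N) (Fin N) A), E * E = E ∧
      τ E.trace = s • τ 1 - t0 τ (c' * c.map (del A)).trace := by
  obtain ⟨d₁, h₁⟩ := exists_bd c
  obtain ⟨d₂, h₂⟩ := exists_bd c'
  obtain ⟨d, hd⟩ : ∃ d : ℕ, d = max d₁ d₂ := ⟨_, rfl⟩
  have hc : Bd d c := h₁ d (by omega)
  have hc' : Bd d c' := h₂ d (by omega)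
  obtain ⟨L, hL⟩ : ∃ L : ℕ, L = 3 * d + 1 := ⟨_, rfl⟩
  obtain ⟨e, he⟩ : ∃ e : (Finset.Ico (-(L : ℤ)) L × ι) ≃ Fin (Fintype.card
    (Finset.Ico (-(L : ℤ)) L × ι)), e = Fintype.equivFin _ := ⟨_, rfl⟩
  refine ⟨_, L * Fintype.card ι, Matrix.reindex e e (EW c c' L), ?_, ?_⟩
  · rw [Matrix.reindex_apply, Matrix.submatrix_mul_equiv, EW_idem h h' hc hc' (by omega)]
  · have e1 : (Matrix.reindex e e (EW c c' L)).trace = (EW c c' L).trace := by
      rw [Matrix.trace, Matrix.trace]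
      exact Equiv.sum_comp e.symm fun x => (EW c c' L) x x
    rw [e1, EW_trace h hc (by omega), tau_trace τ hτ hc, map_sub, map_zsmul, ← natCast_zsmul]
    push_cast
    rfl

end TOE

theorem specTOE : SpecTOE.{u, v} := by
  intro A _ V _ τ hτ R m r₁ r₂ q₁ q₂ _ _ c c' h h'
  obtain ⟨σ, hσ⟩ : ∃ σ : (Fin m ⊕ Fin r₁) ⊕ Fin r₂ ≃ Fin m ⊕ (Fin r₁ ⊕ Fin r₂),
    σ = Equiv.sumAssoc _ _ _ := ⟨_, rfl⟩
  have h1 : c.submatrix id σ * c'.submatrix σ id = 1 := by
    rw [Matrix.submatrix_mul_equiv, h, Matrix.submatrix_id_id]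
  have h2 : c'.submatrix σ id * c.submatrix id σ = Matrix.fromBlocks
      ((Matrix.fromBlocks (1 : Matrix (Fin m) (Fin m) (Pol A)) 0 0 q₁).map (posHom A)) 0 0
      (q₂.map (negHom A)) := by
    rw [← Matrix.submatrix_mul _ _ _ _ _ Function.bijective_id, h']
    ext1 x y
    rcases x with (x | x) | x <;> rcases y with (y | y) | y <;>
      simp [hσ, Matrix.one_apply, apply_ite (posHom A)]
  obtain ⟨N, s, E, hE, hE'⟩ := TOE.main τ hτ h1 h2
  refine ⟨N, s, E, hE, ?_⟩
  rw [hE']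
  congr 2
  show ((c'.submatrix σ id) * (c.map (del A)).submatrix id σ).trace = _
  rw [← Matrix.submatrix_mul _ _ _ _ _ Function.bijective_id, Matrix.trace, Matrix.trace]
  exact Equiv.sum_comp σ fun x => (c' * c.map (del A)) x x

end Pool.Agent.Lib.MPb6f35e.ZK

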