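import Pool.Agent.Lib.MP_b6f35e_al.ZK.DET
import Pool.Agent.Lib.MP_b6f35e_al.ZK.MIL
import Pool.Agent.Lib.MP_b6f35e_al.ZK.PAD
import Pool.Agent.Lib.MP_b6f35e_al.ZK.TOE
import Pool.Agent.Lib.MP_b6f35e_al.ZK.RNK

/-!
# ZK: the theorem on `K_{-1}(ℤ[G])` from the modules
-/

set_option autoImplicit false

noncomputable section

namespace Pool.Agent.Lib.MPb6f35e.ZK

open Pool.Agent.Lib.MPb6f35e.WH (FinSub conjHom K1)
open DLMod

universe u v w

namespace FinMod

/-! ### saturation -/

/-- The elements with a positive multiple in `T`. -/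
def satur {A : Type u} [AddCommGroup A] (T : AddSubgroup A) : AddSubgroup A where
  carrier := {x | ∃ m : ℕ, 0 < m ∧ m • x ∈ T}
  zero_mem' := ⟨1, one_pos, by rw [smul_zero]; exact T.zero_mem⟩
  add_mem' := by
    rintro x y ⟨m, hm, hx⟩ ⟨n, hn, hy⟩
    refine ⟨m * n, Nat.mul_pos hm hn, ?_⟩
    have h1 : (m * n) • (x + y) = n • m • x + m • n • y := by
      rw [smul_add, mul_smul m n y, mul_comm m n, mul_smul n m x]
    rw [h1]
    exact T.add_mem (T.nsmul_mem hx n) (T.nsmul_mem hy m)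
  neg_mem' := by
    rintro x ⟨m, hm, hx⟩
    exact ⟨m, hm, by rw [smul_neg]; exact T.neg_mem hx⟩

lemma mem_satur {A : Type u} [AddCommGroup A] {T : AddSubgroup A} {x : A} :
    x ∈ satur T ↔ ∃ m : ℕ, 0 < m ∧ m • x ∈ T := Iff.rfl

lemma satur_of_nsmul {A : Type u} [AddCommGroup A] {T : AddSubgroup A} {x : A} {m : ℕ}
    (hm : 0 < m) (h : m • x ∈ satur T) : x ∈ satur T := by
  obtain ⟨n, hn, h⟩ := h
  exact ⟨n * m, Nat.mul_pos hn hm, by rw [mul_smul]; exact h⟩

/-! ### functions on non torsion elements -/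

lemma exists_lam {A : Type u} [AddCommGroup A] (t : A) (ht : ¬ IsOfFinAddOrder t) :
    ∃ l : A →+ ℚ, l t ≠ 0 := by
  have hinj : Function.Injective (zmultiplesHom A t) := by
    have h := injective_zsmul_iff_not_isOfFinAddOrder.2 ht
    intro a b hab
    exact h (by simpa using hab)
  obtain ⟨l, hl⟩ := (Module.Baer.of_divisible ℚ).extension_property_addMonoidHom
    (zmultiplesHom A t) hinj (Int.castAddHom ℚ)
  refine ⟨l, ?_⟩
  have h1 := DFunLike.congr_fun hl (1 : ℤ)
  have h2 : l t = 1 := by simpa using h1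
  rw [h2]
  exact one_ne_zero

/-! ### the boundary maps -/

/-- The boundary map of the arithmetic square. -/
def dB (S : Finset Nat.Primes) (G : Type u) [Group G] :
    K1 (Lau (MonoidAlgebra (Qp S) G)) →+ K0 (Lau (MonoidAlgebra ℤ G)) :=
  Classical.choose (specMIL.bd _ _ _ _ (padSq S G) (specPAD S G))

lemma dB_spec (S : Finset Nat.Primes) (G : Type u) [Group G] : IsBd (padSq S G) (dB S G) :=
  Classical.choose_spec (specMIL.bd _ _ _ _ (padSq S G) (specPAD S G))

lemma gc_comm {k k' : Type w} [CommRing k] [CommRing k'] {G G' : Type u} [Group G] [Group G']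
    (F : k →+* k') (φ : G →* G') (a : Lau (MonoidAlgebra k G)) :
    cMap G' F (gMap k φ a) = gMap k' φ (cMap G F a) := by
  induction a using AddMonoidAlgebra.induction_linear with
  | zero => simp
  | add a b ha hb => simp only [map_add, ha, hb]
  | single j a =>
    show lauMap _ (lauMap _ (AddMonoidAlgebra.single j a)) =
      lauMap _ (lauMap _ (AddMonoidAlgebra.single j a))
    simp only [lauMap, AddMonoidAlgebra.mapRingHom_single]
    congr 1
    induction a using MonoidAlgebra.induction_linear with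
    | zero => simp
    | add a b ha hb => simp only [map_add, ha, hb]
    | single g r => simp [MonoidAlgebra.mapDomain_single]

/-- The morphism of arithmetic squares of a homomorphism of groups. -/
def sqG (S : Finset Nat.Primes) {G G' : Type u} [Group G] [Group G'] (φ : G →* G') :
    SqHom (padSq S G) (padSq S G') where
  f := gMap ℤ φ
  f₁ := gMap (Zs S) φ
  f₂ := gMap (Zp S) φ
  f₀ := gMap (Qp S) φ
  c₁ := gc_comm _ φ
  c₂ := gc_comm _ φ
  d₁ := gc_comm _ φ
  d₂ := gc_comm _ φ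

lemma dB_nat (S : Finset Nat.Primes) {G G' : Type u} [Group G] [Group G'] (φ : G →* G')
    (y : K1 (Lau (MonoidAlgebra (Qp S) G))) :
    dB S G' (K1.map (gMap (Qp S) φ) y) = K0.map (gMap ℤ φ) (dB S G y) :=
  specMIL.nat _ _ _ _ _ _ _ _ (padSq S G) (padSq S G') (specPAD S G) (specPAD S G') (sqG S φ)
    _ _ (dB_spec S G) (dB_spec S G') y

lemma map_unit_btU {B B' : Type u} [Ring B] [Ring B'] (F : B →+* B') (f : B) (hf : f * f = f)
    (hf' : F f * F f = F f) :
    K1.map (lauMap F) (K1.unit (btU f hf)) = K1.unit (btU (F f) hf') := by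
  rw [K1.unit, K1.map_cls, K1.unit]
  congr 1
  apply Units.ext
  ext1 i j
  show lauMap F (AddMonoidAlgebra.single 1 f + AddMonoidAlgebra.single 0 (1 - f)) =
    AddMonoidAlgebra.single 1 (F f) + AddMonoidAlgebra.single 0 (1 - F f)
  rw [map_add]
  simp only [lauMap, AddMonoidAlgebra.mapRingHom_single, map_sub, map_one]

lemma unit_mul {B : Type u} [Ring B] (a b : Bˣ) : K1.unit (a * b) = K1.unit a + K1.unit b := by
  rw [K1.unit, K1.unit, K1.unit, ← K1.cls_mul]
  congr 1
  apply Units.ext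
  ext1 i j
  rw [Units.val_mul, Matrix.mul_apply, Finset.sum_eq_single 0]
  · rfl
  · intro b _ hb
    exact absurd (Subsingleton.elim b 0) hb
  · intro h
    exact absurd (Finset.mem_univ _) h

lemma unit_btU_add {B : Type u} [Ring B] (e f : B) (he : e * e = e) (hf : f * f = f)
    (hef : e * f = 0) (h : (e + f) * (e + f) = e + f) :
    K1.unit (btU (e + f) h) = K1.unit (btU e he) + K1.unit (btU f hf) := by
  rw [← unit_mul]
  congr 1
  apply Units.ext
  show AddMonoidAlgebra.single 1 (e + f) + AddMonoidAlgebra.single 0 (1 - (e + f)) =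
    (AddMonoidAlgebra.single 1 e + AddMonoidAlgebra.single 0 (1 - e)) *
    (AddMonoidAlgebra.single 1 f + AddMonoidAlgebra.single 0 (1 - f))
  simp only [add_mul, mul_add, AddMonoidAlgebra.single_mul_single, hef, mul_sub, sub_mul, mul_one,
    one_mul, AddMonoidAlgebra.single_zero, sub_zero, add_zero, zero_add]
  rw [AddMonoidAlgebra.single_add, sub_sub]
  abel

/-! ### the colimit -/

section Colim

variable {G : Type u} [Group G]

lemma ofSub_rel (H K : FinSub G) (g : G) (h : ∀ x ∈ H.1, g * x * g⁻¹ ∈ K.1)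
    (a : Km1 (MonoidAlgebra ℤ H.1)) :
    ColimKm1.ofSub K (Km1.map (MonoidAlgebra.mapDomainRingHom ℤ (conjHom g H.1 K.1 h)) a) =
      ColimKm1.ofSub H a := by
  classical
  have h1 : DirectSum.of (KF G) K (KF.conj g H K h a) - DirectSum.of (KF G) H a ∈ colimSub G :=
    AddSubgroup.subset_closure (ColimRel.mk H K g h a)
  have h2 := (QuotientAddGroup.eq_zero_iff _).2 h1
  exact sub_eq_zero.1 h2

lemma assembly_ofSub (H : FinSub G) (a : Km1 (MonoidAlgebra ℤ H.1)) :
    assembly G (ColimKm1.ofSub H a) =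
      Km1.map (MonoidAlgebra.mapDomainRingHom ℤ H.1.subtype) a := by
  classical
  show assemblyDS G (DirectSum.of (KF G) H a) = _
  rw [assemblyDS, DirectSum.toAddMonoid_of]
  rfl

lemma lauMap_comp {A B C : Type u} [Ring A] [Ring B] [Ring C] (f : A →+* B) (g : B →+* C) :
    (lauMap g).comp (lauMap f) = lauMap (g.comp f) := by
  refine RingHom.ext fun x => ?_
  induction x using AddMonoidAlgebra.induction_linear with
  | zero => simp
  | add a b ha hb => rw [map_add, map_add, ha, hb]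
  | single j a =>
    show lauMap _ (lauMap _ (AddMonoidAlgebra.single j a)) =
      lauMap _ (AddMonoidAlgebra.single j a)
    simp only [lauMap, AddMonoidAlgebra.mapRingHom_single, RingHom.comp_apply]

lemma Km1_map_comp {A B C : Type u} [Ring A] [Ring B] [Ring C] (f : A →+* B) (g : B →+* C)
    (x : Km1 A) : Km1.map g (Km1.map f x) = Km1.map (g.comp f) x := by
  obtain ⟨x, rfl⟩ := Km1.mk_surjective _ x
  rw [Km1.map_mk, Km1.map_mk, Km1.map_mk, K0.map_comp, lauMap_comp]

lemma md_comp {C C' C'' : Type u} [Group C] [Group C'] [Group C''] (f : C →* C') (g : C' →* C'') :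
    (MonoidAlgebra.mapDomainRingHom ℤ g).comp (MonoidAlgebra.mapDomainRingHom ℤ f) =
      MonoidAlgebra.mapDomainRingHom ℤ (g.comp f) := by
  refine RingHom.ext fun x => ?_
  induction x using MonoidAlgebra.induction_linear with
  | zero => simp
  | add a b ha hb => rw [map_add, map_add, ha, hb]
  | single j a => simp [MonoidAlgebra.mapDomain_single]

lemma Km1_md_comp {C C' C'' : Type u} [Group C] [Group C'] [Group C''] (f : C →* C')
    (g : C' →* C'') (x : Km1 (MonoidAlgebra ℤ C)) :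
    Km1.map (MonoidAlgebra.mapDomainRingHom ℤ g) (Km1.map (MonoidAlgebra.mapDomainRingHom ℤ f) x) =
      Km1.map (MonoidAlgebra.mapDomainRingHom ℤ (g.comp f)) x := by
  rw [Km1_map_comp, md_comp]

/-- The range, as a finite subgroup. -/
def rg {C : Type u} [Group C] [Finite C] (φ : C →* G) : FinSub G :=
  ⟨φ.range, (Set.finite_range φ).to_subtype⟩

/-- `K_{-1}(ℤ[C]) → colim`, for `φ : C → G`, `C` finite. -/
def gam {C : Type u} [Group C] [Finite C] (φ : C →* G) :
    Km1 (MonoidAlgebra ℤ C) →+ ColimKm1 G :=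
  (ColimKm1.ofSub (rg φ)).comp (Km1.map (MonoidAlgebra.mapDomainRingHom ℤ φ.rangeRestrict))

lemma gam_rel {C C' : Type u} [Group C] [Finite C] [Group C'] [Finite C'] (φ : C →* G)
    (φ' : C' →* G) (f : C →* C') (g : G) (h : ∀ c, φ' (f c) = g * φ c * g⁻¹)
    (z : Km1 (MonoidAlgebra ℤ C)) :
    gam φ' (Km1.map (MonoidAlgebra.mapDomainRingHom ℤ f) z) = gam φ z := by
  have hmem : ∀ x ∈ (rg φ).1, g * x * g⁻¹ ∈ (rg φ').1 := by
    rintro x ⟨c, rfl⟩
    exact ⟨f c, h c⟩
  show ColimKm1.ofSub (rg φ') (Km1.map _ (Km1.map _ z)) = ColimKm1.ofSub (rg φ) (Km1.map _ z)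
  rw [← ofSub_rel (rg φ) (rg φ') g hmem]
  have h1 := Km1_md_comp f φ'.rangeRestrict z
  have h2 := Km1_md_comp φ.rangeRestrict (conjHom g (rg φ).1 (rg φ').1 hmem) z
  have h3 : φ'.rangeRestrict.comp f = (conjHom g (rg φ).1 (rg φ').1 hmem).comp φ.rangeRestrict := by
    refine MonoidHom.ext fun c => Subtype.ext ?_
    exact h c
  rw [h3] at h1
  exact congrArg _ (h1.trans h2.symm)

lemma ofSub_eq_gam (H : FinSub G) [Finite H.1] (z : Km1 (MonoidAlgebra ℤ H.1)) :
    ColimKm1.ofSub H z = gam H.1.subtype z := by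
  have hmem : ∀ x ∈ H.1, (1 : G) * x * (1 : G)⁻¹ ∈ (rg H.1.subtype).1 := by
    intro x hx
    exact ⟨⟨x, hx⟩, by simp⟩
  rw [← ofSub_rel H (rg H.1.subtype) 1 hmem]
  have h3 : conjHom 1 H.1 (rg H.1.subtype).1 hmem = H.1.subtype.rangeRestrict := by
    refine MonoidHom.ext fun c => Subtype.ext ?_
    show (1 : G) * c * (1 : G)⁻¹ = c
    simp
  rw [h3]
  rfl

lemma assembly_gam {C : Type u} [Group C] [Finite C] (φ : C →* G)
    (z : Km1 (MonoidAlgebra ℤ C)) :
    assembly G (gam φ z) = Km1.map (MonoidAlgebra.mapDomainRingHom ℤ φ) z := by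
  show assembly G (ColimKm1.ofSub (rg φ) (Km1.map _ z)) = _
  rw [assembly_ofSub]
  exact Km1_md_comp φ.rangeRestrict φ.range.subtype z

end Colim

/-! ### generation -/

/-- Data of a generator: a commutative finite group, an injective homomorphism to `G` and an
idempotent of `∏ ℚ_p[C]`. -/
structure Dat (S : Finset Nat.Primes) (G : Type u) [Group G] : Type (u + 1) where
  C : Type u
  cg : CommGroup C
  fin : Fintype C
  φ : C →* G
  inj : Function.Injective φ
  pr : ∀ p : Nat.Primes, (p : ℕ) ∣ Nat.card C → p ∈ S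
  f : MonoidAlgebra (Qp S) C
  hf : f * f = f

attribute [instance] Dat.cg Dat.fin

/-- The element of the colimit of an idempotent. -/
def elt (S : Finset Nat.Primes) {G : Type u} [Group G] {C : Type u} [CommGroup C] [Finite C]
    (φ : C →* G) (f : MonoidAlgebra (Qp S) C) (hf : f * f = f) : ColimKm1 G :=
  gam φ (Km1.mk (MonoidAlgebra ℤ C) (dB S C (K1.unit (btU f hf))))

/-- The subgroup generated by these elements. -/
def T (S : Finset Nat.Primes) (G : Type u) [Group G] : AddSubgroup (ColimKm1 G) :=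
  AddSubgroup.closure (Set.range fun δ : Dat S G => elt S δ.φ δ.f δ.hf)

lemma gam_mem (hGen : SpecGEN.{u}) (S : Finset Nat.Primes) {G : Type u} [Group G] {C : Type u}
    [CommGroup C] [Finite C] (φ : C →* G) (inj : Function.Injective φ)
    (pr : ∀ p : Nat.Primes, (p : ℕ) ∣ Nat.card C → p ∈ S) (y : Km1 (MonoidAlgebra ℤ C)) :
    gam φ y ∈ satur (T S G) := by
  obtain ⟨m, hm, a, ε, f, hf, e⟩ := hGen C S pr (dB S C) (dB_spec S C) y
  refine ⟨m, hm, ?_⟩
  rw [← map_nsmul, e, map_sum]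
  refine AddSubgroup.sum_mem _ fun j _ => ?_
  rw [map_zsmul]
  refine AddSubgroup.zsmul_mem _ (AddSubgroup.subset_closure ?_) _
  exact ⟨⟨C, inferInstance, Fintype.ofFinite C, φ, inj, pr, f j, hf j⟩, rfl⟩

lemma ofSub_mem (hArt : SpecART.{u}) (hGen : SpecGEN.{u}) {G : Type u} [Group G] (H : FinSub G)
    (z : Km1 (MonoidAlgebra ℤ H.1)) :
    ∃ S₀ : Finset Nat.Primes, ∀ S, S₀ ⊆ S → ColimKm1.ofSub H z ∈ satur (T S G) := by
  have _ := H.2
  obtain ⟨m, hm, a, C, hC, y, e⟩ := hArt H.1 z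
  refine ⟨Finset.subtype Nat.Prime (Nat.primeFactors (Nat.card H.1)), fun S hS => ?_⟩
  apply satur_of_nsmul hm
  rw [← map_nsmul, e, map_sum]
  refine AddSubgroup.sum_mem _ fun i _ => ?_
  rw [ofSub_eq_gam, gam_rel (H.1.subtype.comp (C i).subtype) H.1.subtype (C i).subtype 1
    (fun c => by simp)]
  have _ := hC i
  let _ : CommGroup (C i) := IsCyclic.commGroup
  refine gam_mem hGen S (C := C i) _ ?_ ?_ (y i)
  · exact H.1.subtype_injective.comp (C i).subtype_injective
  · intro p hp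
    apply hS
    exact Finset.mem_subtype.2 (Nat.mem_primeFactors.2
      ⟨p.2, hp.trans (Subgroup.card_subgroup_dvd_card (C i)), Nat.card_pos.ne'⟩)

lemma mem_T (hArt : SpecART.{u}) (hGen : SpecGEN.{u}) {G : Type u} [Group G] (x : ColimKm1 G) :
    ∃ S₀ : Finset Nat.Primes, ∀ S, S₀ ⊆ S → x ∈ satur (T S G) := by
  classical
  obtain ⟨x, rfl⟩ := QuotientAddGroup.mk_surjective x
  induction x using DirectSum.induction_on with
  | zero => exact ⟨∅, fun S _ => (satur (T S G)).zero_mem⟩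
  | of H z => exact ofSub_mem hArt hGen H z
  | add x y hx hy =>
    obtain ⟨S₁, h₁⟩ := hx
    obtain ⟨S₂, h₂⟩ := hy
    exact ⟨S₁ ∪ S₂, fun S hS => (satur (T S G)).add_mem
      (h₁ S (Finset.union_subset_left hS)) (h₂ S (Finset.union_subset_right hS))⟩

lemma exists_family (S : Finset Nat.Primes) {G : Type u} [Group G] (t : ColimKm1 G)
    (ht : t ∈ T S G) : ∃ (n : ℕ) (δ : Fin n → Dat S G) (ε : Fin n → ℤ),
      t = ∑ i, ε i • elt S (δ i).φ (δ i).f (δ i).hf := by
  obtain ⟨a, rfl⟩ := (AddSubgroup.mem_closure_range_iff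
    (f := fun δ : Dat S G => elt S δ.φ δ.f δ.hf)).1 ht
  let e := a.support.equivFin
  refine ⟨a.support.card, fun i => (e.symm i).1, fun i => a (e.symm i).1, ?_⟩
  rw [Finsupp.sum, ← Finset.sum_coe_sort]
  exact (Equiv.sum_comp e.symm (fun x : a.support => a x.1 • elt S x.1.φ x.1.f x.1.hf)).symm

/-! ### linear functions on rational spans of idempotents -/

lemma RV_map {B B' : Type u} [CommRing B] [Algebra ℚ B] [CommRing B'] [Algebra ℚ B']
    (F : B →+ B') (hF : ∀ e : B, e * e = e → F e * F e = F e) (b : B) (hb : b ∈ RV B) :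
    F b ∈ RV B' := by
  induction hb using Submodule.span_induction with
  | mem e he => exact Submodule.subset_span (hF e he)
  | zero => rw [map_zero]; exact Submodule.zero_mem _
  | add x y _ _ hx hy => rw [map_add]; exact Submodule.add_mem _ hx hy
  | smul q x _ hx => rw [map_rat_smul]; exact Submodule.smul_mem _ _ hx

lemma RV_ext {B B' : Type u} [CommRing B] [Algebra ℚ B] [CommRing B'] [Algebra ℚ B']
    (F : B →+ B') (hF : ∀ e : B, e * e = e → F e * F e = F e) (Θ : RV B →ₗ[ℚ] ℚ)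
    (Θ' : RV B' →ₗ[ℚ] ℚ)
    (h : ∀ (e : B) (he : e * e = e), Θ' ⟨F e, Submodule.subset_span (hF e he)⟩ =
      Θ ⟨e, Submodule.subset_span he⟩)
    (b : RV B) (b' : RV B') (hb : (b' : B') = F b) : Θ' b' = Θ b := by
  obtain ⟨b, hb0⟩ := b
  obtain ⟨b', hb0'⟩ := b'
  simp only at hb
  subst hb
  induction hb0 using Submodule.span_induction with
  | mem e he => exact h e he
  | zero =>
    have h1 : (⟨F 0, hb0'⟩ : RV B') = 0 := Subtype.ext (map_zero F)
    rw [h1, map_zero]
    exact (map_zero Θ).symm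
  | add x y hx hy ihx ihy =>
    have h1 : (⟨F (x + y), hb0'⟩ : RV B') = ⟨F x, RV_map F hF x hx⟩ + ⟨F y, RV_map F hF y hy⟩ :=
      Subtype.ext (map_add F x y)
    rw [h1, map_add, ihx, ihy, ← map_add]
    rfl
  | smul q x hx ihx =>
    have h1 : (⟨F (q • x), hb0'⟩ : RV B') = q • ⟨F x, RV_map F hF x hx⟩ :=
      Subtype.ext (map_rat_smul F q x)
    rw [h1, map_smul, ihx, ← map_smul]
    rfl

/-! ### the elements `elt` -/

section Elt

variable (S : Finset Nat.Primes) {G : Type u} [Group G]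

lemma elt_congr {C : Type u} [CommGroup C] [Finite C] (φ : C →* G)
    {e f : MonoidAlgebra (Qp S) C} (he : e * e = e) (hf : f * f = f) (h : e = f) :
    elt S φ e he = elt S φ f hf := by
  subst h; rfl

lemma elt_add {C : Type u} [CommGroup C] [Finite C] (φ : C →* G)
    (e f : MonoidAlgebra (Qp S) C) (he : e * e = e) (hf : f * f = f) (hef : e * f = 0)
    (h : (e + f) * (e + f) = e + f) :
    elt S φ (e + f) h = elt S φ e he + elt S φ f hf := by
  unfold elt
  rw [unit_btU_add e f he hf hef h, map_add, map_add, map_add]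

lemma elt_nat {C C' : Type u} [CommGroup C] [Finite C] [CommGroup C'] [Finite C'] (φ : C →* G)
    (φ' : C' →* G) (f : C →* C') (g : G) (h : ∀ c, φ' (f c) = g * φ c * g⁻¹)
    (e : MonoidAlgebra (Qp S) C) (he : e * e = e)
    (he' : MonoidAlgebra.mapDomainRingHom (Qp S) f e * MonoidAlgebra.mapDomainRingHom (Qp S) f e =
      MonoidAlgebra.mapDomainRingHom (Qp S) f e) :
    elt S φ' (MonoidAlgebra.mapDomainRingHom (Qp S) f e) he' = elt S φ e he := by
  unfold elt
  rw [← map_unit_btU (MonoidAlgebra.mapDomainRingHom (Qp S) f) e he he']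
  have h1 := dB_nat S f (K1.unit (btU e he))
  have h2 : K1.map (lauMap (MonoidAlgebra.mapDomainRingHom (Qp S) f)) (K1.unit (btU e he)) =
    K1.map (gMap (Qp S) f) (K1.unit (btU e he)) := rfl
  rw [h2, h1, ← gam_rel φ φ' f g h]
  rfl

lemma elt_van₁ {C : Type u} [CommGroup C] [Finite C] (φ : C →* G)
    (e : MonoidAlgebra (Zs S) C) (he : e * e = e)
    (he' : MonoidAlgebra.mapRingHom C (zsQp S) e * MonoidAlgebra.mapRingHom C (zsQp S) e =
      MonoidAlgebra.mapRingHom C (zsQp S) e) :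
    elt S φ (MonoidAlgebra.mapRingHom C (zsQp S) e) he' = 0 := by
  unfold elt
  rw [← map_unit_btU (MonoidAlgebra.mapRingHom C (zsQp S)) e he he']
  have h1 : dB S C (K1.map (lauMap (MonoidAlgebra.mapRingHom C (zsQp S)))
      (K1.unit (btU e he))) = 0 :=
    specMIL.van₁ _ _ _ _ (padSq S C) (specPAD S C) _ (dB_spec S C) _
  rw [h1, map_zero, map_zero]

lemma elt_van₂ {C : Type u} [CommGroup C] [Finite C] (φ : C →* G)
    (e : MonoidAlgebra (Zp S) C) (he : e * e = e)
    (he' : MonoidAlgebra.mapRingHom C (zpQp S) e * MonoidAlgebra.mapRingHom C (zpQp S) e =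
      MonoidAlgebra.mapRingHom C (zpQp S) e) :
    elt S φ (MonoidAlgebra.mapRingHom C (zpQp S) e) he' = 0 := by
  unfold elt
  rw [← map_unit_btU (MonoidAlgebra.mapRingHom C (zpQp S)) e he he']
  have h1 : dB S C (K1.map (lauMap (MonoidAlgebra.mapRingHom C (zpQp S)))
      (K1.unit (btU e he))) = 0 :=
    specMIL.van₂ _ _ _ _ (padSq S C) (specPAD S C) _ (dB_spec S C) _
  rw [h1, map_zero, map_zero]

lemma mapRing_inj {k k' : Type w} [CommRing k] [CommRing k'] (F : k →+* k')
    (hF : Function.Injective F) (C : Type u) [Group C] :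
    Function.Injective (MonoidAlgebra.mapRingHom C F) := by
  intro a b h
  apply MonoidAlgebra.ext
  apply Finsupp.ext
  intro c
  apply hF
  rw [← MonoidAlgebra.coeff_mapRingHom, ← MonoidAlgebra.coeff_mapRingHom, h]

/-- Idempotents of `ℚ[C]` give zero. -/
lemma elt_rat (hRes : SpecRES.{u}) {C : Type u} [CommGroup C] [Finite C] (φ : C →* G)
    (pr : ∀ p : Nat.Primes, (p : ℕ) ∣ Nat.card C → p ∈ S) (e : MonoidAlgebra ℚ C)
    (he : e * e = e)
    (he' : MonoidAlgebra.mapRingHom C (algebraMap ℚ (Qp S)) e *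
      MonoidAlgebra.mapRingHom C (algebraMap ℚ (Qp S)) e =
      MonoidAlgebra.mapRingHom C (algebraMap ℚ (Qp S)) e) :
    elt S φ (MonoidAlgebra.mapRingHom C (algebraMap ℚ (Qp S)) e) he' = 0 := by
  have hmem : ∀ c, e.coeff c ∈ Zs S := by
    intro c
    obtain ⟨z, hz⟩ := hRes.rat C e he c
    exact ⟨Nat.card C, Nat.card_pos.ne', pr, z, hz⟩
  let e₁ : MonoidAlgebra (Zs S) C :=
    MonoidAlgebra.ofCoeff (Finsupp.equivFunOnFinite.symm fun c => ⟨e.coeff c, hmem c⟩)
  have h1 : MonoidAlgebra.mapRingHom C (Zs S).subtype e₁ = e := by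
    apply MonoidAlgebra.ext
    apply Finsupp.ext
    intro c
    rw [MonoidAlgebra.coeff_mapRingHom]
    rfl
  have h2 : e₁ * e₁ = e₁ := by
    apply mapRing_inj (Zs S).subtype Subtype.val_injective C
    rw [map_mul, h1, he]
  have h3 : MonoidAlgebra.mapRingHom C (zsQp S) e₁ =
      MonoidAlgebra.mapRingHom C (algebraMap ℚ (Qp S)) e := by
    apply MonoidAlgebra.ext
    apply Finsupp.ext
    intro c
    rw [MonoidAlgebra.coeff_mapRingHom, MonoidAlgebra.coeff_mapRingHom]
    rfl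
  have h4 := he'
  rw [← h3] at h4
  rw [elt_congr S φ he' h4 h3.symm]
  exact elt_van₁ S φ e₁ h2 h4

/-- `1` at the primes of `S` which do not divide `n`, `0` at the others. -/
def wS (n : ℕ) : Qp S := by
  classical
  exact fun p => if ((p : Nat.Primes) : ℕ) ∣ n then 0 else 1

open Classical in
lemma wS_apply (n : ℕ) (p : S) : wS S n p = if ((p : Nat.Primes) : ℕ) ∣ n then 0 else 1 := rfl

/-- Idempotents which vanish at the primes dividing the order give zero. -/
lemma elt_int (hRes : SpecRES.{u}) {C : Type u} [CommGroup C] [Finite C] (φ : C →* G)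
    (e : MonoidAlgebra (Qp S) C) (he : e * e = e)
    (he' : MonoidAlgebra.single 1 (wS S (Nat.card C)) * e *
      (MonoidAlgebra.single 1 (wS S (Nat.card C)) * e) =
      MonoidAlgebra.single 1 (wS S (Nat.card C)) * e) :
    elt S φ (MonoidAlgebra.single 1 (wS S (Nat.card C)) * e) he' = 0 := by
  classical
  have hex : ∀ p : S, ∃ f : MonoidAlgebra ℤ_[((p : Nat.Primes) : ℕ)] C,
      ∀ c, ((f.coeff c : ℤ_[((p : Nat.Primes) : ℕ)]) : ℚ_[((p : Nat.Primes) : ℕ)]) =
        wS S (Nat.card C) p * e.coeff c p := by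
    intro p
    by_cases hp : ((p : Nat.Primes) : ℕ) ∣ Nat.card C
    · refine ⟨0, fun c => ?_⟩
      rw [wS_apply, if_pos hp, zero_mul]
      rfl
    · obtain ⟨f, -, hf⟩ := hRes.int ((p : Nat.Primes) : ℕ) C hp
        (MonoidAlgebra.mapRingHom C (Pi.evalRingHom _ p) e) (by rw [← map_mul, he])
      refine ⟨f, fun c => ?_⟩
      have h1 := congrArg (fun x => x.coeff c) hf
      simp only [MonoidAlgebra.coeff_mapRingHom] at h1
      rw [wS_apply, if_neg hp, one_mul]
      exact h1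
  choose f hf using hex
  let e₂ : MonoidAlgebra (Zp S) C :=
    MonoidAlgebra.ofCoeff (Finsupp.equivFunOnFinite.symm fun c => fun p => (f p).coeff c)
  have h3 : MonoidAlgebra.mapRingHom C (zpQp S) e₂ =
      MonoidAlgebra.single 1 (wS S (Nat.card C)) * e := by
    apply MonoidAlgebra.ext
    apply Finsupp.ext
    intro c
    rw [MonoidAlgebra.coeff_mapRingHom, MonoidAlgebra.coeff_single_one_mul]
    funext p
    exact hf p c
  have h2 : e₂ * e₂ = e₂ := by
    apply mapRing_inj (zpQp S) (PADMod.zpQp_inj S) C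
    rw [map_mul, h3, he']
  have h4 := he'
  rw [← h3] at h4
  rw [elt_congr S φ he' h4 h3.symm]
  exact elt_van₂ S φ e₂ h2 h4

end Elt

/-! ### the linear functions -/

section Theta

variable (hV : SpecVB.{u}) (S : Finset Nat.Primes) {G : Type u} [Group G] (l : ColimKm1 G →+ ℚ)

lemma exists_Th (hV : SpecVB.{u}) (S : Finset Nat.Primes) {G : Type u} [Group G]
    (l : ColimKm1 G →+ ℚ) {C : Type u} [CommGroup C] [Finite C] (φ : C →* G) :
    ∃ Θ : RV (MonoidAlgebra (Qp S) C) →ₗ[ℚ] ℚ, ∀ (e : MonoidAlgebra (Qp S) C) (he : e * e = e),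
      Θ ⟨e, Submodule.subset_span he⟩ = l (elt S φ e he) := by
  classical
  obtain ⟨Θ, hΘ⟩ := hV.ext (MonoidAlgebra (Qp S) C)
    (fun e => if he : e * e = e then l (elt S φ e he) else 0) (by
      intro e f he hf hef
      have hfe : f * e = 0 := by rw [mul_comm]; exact hef
      have h : (e + f) * (e + f) = e + f := by
        rw [add_mul, mul_add, mul_add, he, hf, hef, hfe, add_zero, zero_add]
      rw [dif_pos he, dif_pos hf, dif_pos h, elt_add S φ e f he hf hef h, map_add])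
  exact ⟨Θ, fun e he => by rw [hΘ e he, dif_pos he]⟩

/-- The linear function of `l`. -/
def Th {C : Type u} [CommGroup C] [Finite C] (φ : C →* G) :
    RV (MonoidAlgebra (Qp S) C) →ₗ[ℚ] ℚ := Classical.choose (exists_Th hV S l φ)

lemma Th_idem {C : Type u} [CommGroup C] [Finite C] (φ : C →* G) (e : MonoidAlgebra (Qp S) C)
    (he : e * e = e) : Th hV S l φ ⟨e, Submodule.subset_span he⟩ = l (elt S φ e he) :=
  Classical.choose_spec (exists_Th hV S l φ) e he

end Theta

/-! ### the hypotheses of LIN -/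

section Hyp

variable (hV : SpecVB.{u}) (hRes : SpecRES.{u}) (S : Finset Nat.Primes) {G : Type u} [Group G]
  (l : ColimKm1 G →+ ℚ)

lemma Th_nat {C C' : Type u} [CommGroup C] [Finite C] [CommGroup C'] [Finite C'] (φ : C →* G)
    (φ' : C' →* G) (f : C →* C') (g : G) (h : ∀ c, φ' (f c) = g * φ c * g⁻¹)
    (b : RV (MonoidAlgebra (Qp S) C)) (b' : RV (MonoidAlgebra (Qp S) C'))
    (hb : (b' : MonoidAlgebra (Qp S) C') =
      MonoidAlgebra.mapDomainRingHom (Qp S) f (b : MonoidAlgebra (Qp S) C)) :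
    Th hV S l φ' b' = Th hV S l φ b := by
  have hF : ∀ e : MonoidAlgebra (Qp S) C, e * e = e →
      (MonoidAlgebra.mapDomainRingHom (Qp S) f).toAddMonoidHom e *
        (MonoidAlgebra.mapDomainRingHom (Qp S) f).toAddMonoidHom e =
      (MonoidAlgebra.mapDomainRingHom (Qp S) f).toAddMonoidHom e := by
    intro e he
    show MonoidAlgebra.mapDomainRingHom (Qp S) f e * MonoidAlgebra.mapDomainRingHom (Qp S) f e =
      MonoidAlgebra.mapDomainRingHom (Qp S) f e
    rw [← map_mul, he]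
  refine RV_ext (MonoidAlgebra.mapDomainRingHom (Qp S) f).toAddMonoidHom hF _ _ ?_ b b' hb
  intro e he
  exact (Th_idem hV S l φ' _ (hF e he)).trans
    ((congrArg l (elt_nat S φ φ' f g h e he (hF e he))).trans (Th_idem hV S l φ e he).symm)

include hRes in
lemma Th_rat {C : Type u} [CommGroup C] [Finite C] (φ : C →* G)
    (pr : ∀ p : Nat.Primes, (p : ℕ) ∣ Nat.card C → p ∈ S) (r : MonoidAlgebra ℚ C)
    (hr : r ∈ RV (MonoidAlgebra ℚ C)) (b : RV (MonoidAlgebra (Qp S) C))
    (hb : (b : MonoidAlgebra (Qp S) C) = MonoidAlgebra.mapRingHom C (algebraMap ℚ (Qp S)) r) :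
    Th hV S l φ b = 0 := by
  have hF : ∀ e : MonoidAlgebra ℚ C, e * e = e →
      (MonoidAlgebra.mapRingHom C (algebraMap ℚ (Qp S))).toAddMonoidHom e *
        (MonoidAlgebra.mapRingHom C (algebraMap ℚ (Qp S))).toAddMonoidHom e =
      (MonoidAlgebra.mapRingHom C (algebraMap ℚ (Qp S))).toAddMonoidHom e := by
    intro e he
    show MonoidAlgebra.mapRingHom C (algebraMap ℚ (Qp S)) e *
      MonoidAlgebra.mapRingHom C (algebraMap ℚ (Qp S)) e =
      MonoidAlgebra.mapRingHom C (algebraMap ℚ (Qp S)) e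
    rw [← map_mul, he]
  have h := RV_ext (MonoidAlgebra.mapRingHom C (algebraMap ℚ (Qp S))).toAddMonoidHom hF
    (0 : RV (MonoidAlgebra ℚ C) →ₗ[ℚ] ℚ) (Th hV S l φ) (by
      intro e he
      rw [Th_idem, LinearMap.zero_apply]
      have h1 := elt_rat S hRes φ pr e he (hF e he)
      exact (congrArg l h1).trans (map_zero l)) ⟨r, hr⟩ b hb
  rw [h, LinearMap.zero_apply]

include hRes in
lemma Th_int {C : Type u} [CommGroup C] [Finite C] (φ : C →* G)
    (b : RV (MonoidAlgebra (Qp S) C))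
    (hb : ∀ (p : S) (_ : ((p : Nat.Primes) : ℕ) ∣ Nat.card C) (c : C),
      (b : MonoidAlgebra (Qp S) C).coeff c p = 0) :
    Th hV S l φ b = 0 := by
  classical
  have hw : (MonoidAlgebra.single 1 (wS S (Nat.card C)) : MonoidAlgebra (Qp S) C) *
      MonoidAlgebra.single 1 (wS S (Nat.card C)) =
      MonoidAlgebra.single 1 (wS S (Nat.card C)) := by
    rw [MonoidAlgebra.single_mul_single, mul_one]
    congr 1
    funext p
    rw [Pi.mul_apply, wS_apply]
    split_ifs <;> simp
  have hF : ∀ e : MonoidAlgebra (Qp S) C, e * e = e →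
      AddMonoidHom.mulLeft (MonoidAlgebra.single 1 (wS S (Nat.card C))) e *
        AddMonoidHom.mulLeft (MonoidAlgebra.single 1 (wS S (Nat.card C))) e =
      AddMonoidHom.mulLeft (MonoidAlgebra.single 1 (wS S (Nat.card C))) e := by
    intro e he
    show MonoidAlgebra.single 1 (wS S (Nat.card C)) * e *
      (MonoidAlgebra.single 1 (wS S (Nat.card C)) * e) =
      MonoidAlgebra.single 1 (wS S (Nat.card C)) * e
    rw [mul_mul_mul_comm, hw, he]
  have hb2 : (b : MonoidAlgebra (Qp S) C) =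
      AddMonoidHom.mulLeft (MonoidAlgebra.single 1 (wS S (Nat.card C)))
        (b : MonoidAlgebra (Qp S) C) := by
    show (b : MonoidAlgebra (Qp S) C) = MonoidAlgebra.single 1 (wS S (Nat.card C)) *
      (b : MonoidAlgebra (Qp S) C)
    apply MonoidAlgebra.ext
    apply Finsupp.ext
    intro c
    rw [MonoidAlgebra.coeff_single_one_mul]
    funext p
    rw [Pi.mul_apply, wS_apply]
    split_ifs with hp
    · rw [hb p hp c, zero_mul]
    · rw [one_mul]
  have h := RV_ext (AddMonoidHom.mulLeft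
      (MonoidAlgebra.single 1 (wS S (Nat.card C)) : MonoidAlgebra (Qp S) C)) hF
    (0 : RV (MonoidAlgebra (Qp S) C) →ₗ[ℚ] ℚ) (Th hV S l φ) (by
      intro e he
      rw [Th_idem, LinearMap.zero_apply]
      have h1 := elt_int S hRes φ e he (hF e he)
      exact (congrArg l h1).trans (map_zero l)) b b hb2
  rw [h, LinearMap.zero_apply]

include hRes in
lemma lin_step (hLin : SpecLIN.{u}) (n : ℕ) (δ : Fin n → Dat S G)
    (b : ∀ i, RV (MonoidAlgebra (Qp S) (δ i).C))
    (h : ∀ x : G, IsOfFinOrder x → ∃ q : ℚ, ∀ p : S, ((p : Nat.Primes) : ℕ) ∣ orderOf x →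
      ∑ i, rk (Qp S) x (MonoidAlgebra.mapDomainRingHom (Qp S) (δ i).φ
        (b i : MonoidAlgebra (Qp S) (δ i).C)) p = (q : ℚ_[((p : Nat.Primes) : ℕ)])) :
    ∑ i, Th hV S l (δ i).φ (b i) = 0 :=
  hLin S G (fun _ _ _ φ => Th hV S l φ)
    (fun _ _ _ _ _ _ φ φ' f g h _ _ _ b b' hb => Th_nat hV S l φ φ' f g h b b' hb)
    (fun _ _ _ φ _ pr r hr b hb => Th_rat hV hRes S l φ pr r hr b hb)
    (fun _ _ _ φ _ _ b hb => Th_int hV hRes S l φ b hb) n (fun i => (δ i).C)
    (fun i => (δ i).φ) (fun i => (δ i).inj) (fun i => (δ i).pr) b h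

/-- The idempotent, as an element of the rational span. -/
def bz (ε : ℤ) (δ : Dat S G) : RV (MonoidAlgebra (Qp S) δ.C) :=
  ⟨(ε : ℚ) • δ.f, Submodule.smul_mem _ _ (Submodule.subset_span δ.hf)⟩

omit [Group G] in
lemma rat_smul_int {V : Type v} [AddCommGroup V] [Module ℚ V] (ε : ℤ) (v : V) :
    (ε : ℚ) • v = ε • v := Int.cast_smul_eq_zsmul ℚ ε v

lemma bz_val (ε : ℤ) (δ : Dat S G) :
    (bz S ε δ : MonoidAlgebra (Qp S) δ.C) = ε • δ.f := rat_smul_int ε δ.f

lemma Th_bz (ε : ℤ) (δ : Dat S G) :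
    Th hV S l δ.φ (bz S ε δ) = ε • l (elt S δ.φ δ.f δ.hf) := by
  have h : bz S ε δ = (ε : ℚ) • ⟨δ.f, Submodule.subset_span δ.hf⟩ := rfl
  rw [h, map_smul, Th_idem, rat_smul_int]

end Hyp

end FinMod

open FinMod

theorem specFinal_of (hArt : SpecART.{u}) (hGen : SpecGEN.{u}) (hV : SpecVB.{u})
    (hRes : SpecRES.{u}) (hLin : SpecLIN.{u}) : SpecFinal.{u} := by
  intro G _ x hx
  obtain ⟨S₀, hS₀⟩ := mem_T hArt hGen x
  obtain ⟨m, hm, hmx⟩ := hS₀ S₀ (Finset.Subset.refl _)
  generalize S₀ = S at hmx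
  obtain ⟨n, δ, ε, ht⟩ := exists_family S (m • x) hmx
  suffices h : IsOfFinAddOrder (m • x) by
    obtain ⟨k, hk, hk0⟩ := isOfFinAddOrder_iff_nsmul_eq_zero.1 h
    refine isOfFinAddOrder_iff_nsmul_eq_zero.2 ⟨k * m, Nat.mul_pos hk hm, ?_⟩
    rw [mul_smul]
    exact hk0
  by_contra hcon
  obtain ⟨l, hl⟩ := exists_lam (m • x) hcon
  apply hl
  -- the element of `K_1(∏ ℚ_p[G][t, t⁻¹])`
  let y : K1 (Lau (MonoidAlgebra (Qp S) G)) :=
    ∑ i, ε i • K1.map (gMap (Qp S) (δ i).φ) (K1.unit (btU (δ i).f (δ i).hf))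
  have hy : assembly G (m • x) = Km1.mk (MonoidAlgebra ℤ G) (dB S G y) := by
    rw [ht, map_sum, map_sum, map_sum]
    refine Finset.sum_congr rfl fun i _ => ?_
    rw [map_zsmul, map_zsmul, map_zsmul, elt, assembly_gam, dB_nat]
    rfl
  have htor : IsOfFinAddOrder (Km1.mk (MonoidAlgebra ℤ G) (dB S G y)) := by
    rw [← hy, map_nsmul]
    exact hx.nsmul
  have hfin : ∑ i, Th hV S l (δ i).φ (bz S (ε i) (δ i)) = 0 := by
    refine lin_step hV hRes S l hLin n δ (fun i => bz S (ε i) (δ i)) ?_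
    · intro x₀ hx₀
      obtain ⟨s, hs⟩ := specDL.ex (MonoidAlgebra (Qp S) G) (Qp S) (rk (Qp S) x₀)
        (specRNK.trace (Qp S) G x₀)
      obtain ⟨q, hq⟩ := specDET specTOE specRNK specMIL specPAD S G (dB S G) (dB_spec S G) y
        htor x₀ hx₀ s hs
      refine ⟨q, fun p hp => ?_⟩
      rw [← hq p hp]
      have h1 : s y = ∑ i, ε i • rk (Qp S) x₀
          (MonoidAlgebra.mapDomainRingHom (Qp S) (δ i).φ (δ i).f) := by
        rw [map_sum]
        refine Finset.sum_congr rfl fun i _ => ?_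
        have he' : MonoidAlgebra.mapDomainRingHom (Qp S) (δ i).φ (δ i).f *
            MonoidAlgebra.mapDomainRingHom (Qp S) (δ i).φ (δ i).f =
            MonoidAlgebra.mapDomainRingHom (Qp S) (δ i).φ (δ i).f := by
          rw [← map_mul, (δ i).hf]
        have h2 : K1.map (gMap (Qp S) (δ i).φ) (K1.unit (btU (δ i).f (δ i).hf)) =
            K1.unit (btU (MonoidAlgebra.mapDomainRingHom (Qp S) (δ i).φ (δ i).f) he') :=
          map_unit_btU (MonoidAlgebra.mapDomainRingHom (Qp S) (δ i).φ) _ _ he'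
        rw [map_zsmul, h2, specDL.bt _ _ _ (specRNK.trace (Qp S) G x₀) s hs]
      rw [h1, Finset.sum_apply]
      refine Finset.sum_congr rfl fun i _ => ?_
      rw [bz_val, map_zsmul, map_zsmul]
  rw [ht, map_sum, ← hfin]
  refine Finset.sum_congr rfl fun i _ => ?_
  rw [map_zsmul, Th_bz]

end Pool.Agent.Lib.MPb6f35e.ZK
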