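import Pool.Agent.Lib.MP_b6f35e_al.ZK.VB
import Mathlib.LinearAlgebra.Matrix.Charpoly.Eigs
import Mathlib.LinearAlgebra.Trace
import Mathlib.NumberTheory.Padics.PadicIntegers

/-!
# ZK, module RES: restriction of idempotents to subgroups, integrality
-/

set_option autoImplicit false

noncomputable section

namespace Pool.Agent.Lib.MPb6f35e.ZK

universe u v w

namespace RESMod

open MonoidAlgebra

/-! ### the regular representation -/

section reg

variable {k : Type w} [CommRing k] {C : Type u} [Group C]

/-- the matrix of the multiplication by `x` -/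
def regM (x : MonoidAlgebra k C) : Matrix C C k := Matrix.of fun i j => x.coeff (i * j⁻¹)

lemma regM_add (x y : MonoidAlgebra k C) : regM (x + y) = regM x + regM y := by
  ext i j; simp [regM]

lemma regM_zero : regM (0 : MonoidAlgebra k C) = 0 := by
  ext i j; simp [regM]

lemma regM_mul [Fintype C] (x y : MonoidAlgebra k C) : regM (x * y) = regM x * regM y := by
  induction x using MonoidAlgebra.induction_linear with
  | zero => rw [zero_mul, regM_zero, zero_mul]
  | add a b ha hb => rw [add_mul, regM_add, ha, hb, regM_add, add_mul]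
  | single a r =>
    ext i l
    rw [Matrix.mul_apply, Finset.sum_eq_single (a⁻¹ * i)]
    · simp only [regM, Matrix.of_apply]
      rw [coeff_single_mul_apply, coeff_single]
      simp [mul_assoc]
    · intro j _ hj
      have : (single a r : MonoidAlgebra k C).coeff (i * j⁻¹) = 0 := by
        rw [coeff_single]
        refine Finsupp.single_eq_of_ne' ?_
        intro h
        apply hj
        rw [h]
        group
      simp only [regM, Matrix.of_apply]
      rw [this, zero_mul]
    · intro h
      exact absurd (Finset.mem_univ _) h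

lemma regM_one [DecidableEq C] : regM (1 : MonoidAlgebra k C) = 1 := by
  ext i j
  simp only [regM, Matrix.of_apply]
  rw [one_def, coeff_single, Matrix.one_apply]
  by_cases h : i = j
  · subst h; simp
  · rw [if_neg h]
    refine Finsupp.single_eq_of_ne' ?_
    intro h2
    exact h (mul_inv_eq_one.mp h2.symm)

lemma regM_pow [Fintype C] [DecidableEq C] (x : MonoidAlgebra k C) (n : ℕ) :
    regM (x ^ n) = regM x ^ n := by
  induction n with
  | zero => rw [pow_zero, pow_zero, regM_one]
  | succ n ih => rw [pow_succ, regM_mul, ih, pow_succ]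

lemma trace_regM [Fintype C] (x : MonoidAlgebra k C) :
    (regM x).trace = (Fintype.card C : k) * x.coeff 1 := by
  simp [Matrix.trace, regM]

end reg

/-! ### traces of idempotent matrices -/

lemma trace_idem_field {K : Type v} [Field K] {ι : Type w} [Fintype ι] [DecidableEq ι]
    (P : Matrix ι ι K) (hP : P * P = P) :
    ∃ r : ℕ, r ≤ Fintype.card ι ∧ P.trace = (r : K) := by
  have h1 : IsIdempotentElem (Matrix.toLin' P) := by
    show Matrix.toLin' P * Matrix.toLin' P = Matrix.toLin' P
    rw [Module.End.mul_eq_comp, ← Matrix.toLin'_mul, hP]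
  refine ⟨Module.finrank K (LinearMap.range (Matrix.toLin' P)), ?_, ?_⟩
  · refine (Submodule.finrank_le _).trans ?_
    rw [Module.finrank_fintype_fun_eq_card]
  · rw [← Matrix.trace_toLin'_eq]
    exact ((LinearMap.isProj_range_iff_isIdempotentElem _).mpr h1).trace

lemma trace_idem {A : Type v} [CommRing A] [IsReduced A] {ι : Type w} [Fintype ι]
    [DecidableEq ι] (P : Matrix ι ι A) (hP : P * P = P) :
    ∏ j ∈ Finset.range (Fintype.card ι + 1), (P.trace - (j : A)) = 0 := by
  apply IsNilpotent.eq_zero
  rw [nilpotent_iff_mem_prime]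
  intro J hJ
  let φ : A →+* FractionRing (A ⧸ J) :=
    (algebraMap (A ⧸ J) (FractionRing (A ⧸ J))).comp (Ideal.Quotient.mk J)
  have hφ : ∀ x, φ x = 0 → x ∈ J := by
    intro x hx
    have h1 : algebraMap (A ⧸ J) (FractionRing (A ⧸ J)) (Ideal.Quotient.mk J x) = 0 := hx
    rw [map_eq_zero_iff _ (IsFractionRing.injective (A ⧸ J) (FractionRing (A ⧸ J)))] at h1
    exact Ideal.Quotient.eq_zero_iff_mem.mp h1
  apply hφ
  obtain ⟨r, hr, h2⟩ := trace_idem_field (P.map φ) (by rw [← Matrix.map_mul, hP])
  have h3 : φ P.trace = r := by rw [← h2]; exact AddMonoidHom.map_trace φ P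
  rw [map_prod]
  refine Finset.prod_eq_zero (i := r) (Finset.mem_range.mpr (by omega)) ?_
  rw [map_sub, h3, map_natCast, sub_self]

lemma isIntegral_trace {K : Type v} [Field K] {ι : Type w} [Fintype ι] [DecidableEq ι]
    (M : Matrix ι ι K) (m : ℕ) (hm : 0 < m) (h : M ^ (m + 1) = M) : IsIntegral ℤ M.trace := by
  let L := AlgebraicClosure K
  have h1 : (M.map (algebraMap K L)) ^ (m + 1) = M.map (algebraMap K L) := by
    have h2 := congrArg (RingHom.mapMatrix (algebraMap K L)) h
    rw [map_pow] at h2
    exact h2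
  have h3 : algebraMap K L M.trace = (M.map (algebraMap K L)).trace :=
    AddMonoidHom.map_trace (algebraMap K L) M
  rw [← isIntegral_algebraMap_iff (B := L) (algebraMap K L).injective, h3,
    Matrix.trace_eq_sum_roots_charpoly]
  refine IsIntegral.multiset_sum fun μ hμ => ?_
  have h4 := Polynomial.isRoot_of_mem_roots hμ
  rw [Polynomial.IsRoot.def, Matrix.eval_charpoly, ← Matrix.exists_mulVec_eq_zero_iff] at h4
  obtain ⟨v, hv, h5⟩ := h4
  have h6 : (M.map (algebraMap K L)).mulVec v = μ • v := by
    rw [Matrix.sub_mulVec, sub_eq_zero, Matrix.scalar_apply] at h5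
    rw [← h5]
    ext i
    simp [Matrix.mulVec_diagonal]
  have h7 : ∀ n : ℕ, ((M.map (algebraMap K L)) ^ n).mulVec v = μ ^ n • v := by
    intro n
    induction n with
    | zero => simp
    | succ n ih =>
      rw [pow_succ, ← Matrix.mulVec_mulVec, h6, Matrix.mulVec_smul, ih, smul_smul, pow_succ,
        mul_comm]
  have h8 := h7 (m + 1)
  rw [h1, h6] at h8
  have h9 : μ ^ (m + 1) = μ := by
    by_contra hne
    have h10 : (μ ^ (m + 1) - μ) • v = 0 := by rw [sub_smul, ← h8, sub_self]
    rcases smul_eq_zero.mp h10 with h11 | h11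
    · exact hne (sub_eq_zero.mp h11)
    · exact hv h11
  rcases eq_or_ne μ 0 with rfl | hμ0
  · exact isIntegral_zero
  · refine IsIntegral.of_pow hm ?_
    have : μ ^ m = 1 := by
      rw [pow_succ] at h9
      exact mul_right_cancel₀ hμ0 (by rw [h9, one_mul])
    rw [this]
    exact isIntegral_one

/-! ### integrality of idempotents -/

lemma isIntegral_coeff {K : Type v} [Field K] {C : Type u} [CommGroup C] [Finite C]
    (f : MonoidAlgebra K C) (hf : f * f = f) (c : C) :
    IsIntegral ℤ ((Nat.card C : K) * f.coeff c) := by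
  classical
  haveI := Fintype.ofFinite C
  have h1 : (regM (f * single c⁻¹ 1)) ^ (Nat.card C + 1) = regM (f * single c⁻¹ 1) := by
    rw [← regM_pow, mul_pow]
    congr 1
    have h2 : f ^ (Nat.card C + 1) = f := by
      have h3 : IsIdempotentElem f := hf
      exact h3.pow_succ_eq _
    rw [h2, single_pow, one_pow, pow_succ, pow_card_eq_one', one_mul]
  have h4 := isIntegral_trace _ (Nat.card C) Nat.card_pos h1
  rw [trace_regM, coeff_mul_single_apply, inv_inv, one_mul, mul_one, Fintype.card_eq_nat_card]
    at h4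
  exact h4

lemma int_padic (p : ℕ) [Fact p.Prime] (C : Type u) [CommGroup C] [Finite C]
    (hp : ¬ p ∣ Nat.card C) (f : MonoidAlgebra ℚ_[p] C) (hf : f * f = f) :
    ∃ f' : MonoidAlgebra ℤ_[p] C, f' * f' = f' ∧
      MonoidAlgebra.mapRingHom C (algebraMap ℤ_[p] ℚ_[p]) f' = f := by
  have hu : IsUnit (Nat.card C : ℤ_[p]) := by
    rw [PadicInt.isUnit_iff, PadicInt.norm_natCast_eq_one_iff]
    exact (Nat.Prime.coprime_iff_not_dvd Fact.out).mpr hp
  obtain ⟨w, hw⟩ := hu.exists_left_inv
  have h1 : ∀ c : C, ∃ y : ℤ_[p], algebraMap ℤ_[p] ℚ_[p] y = f.coeff c := by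
    intro c
    have h2 : IsIntegral ℤ_[p] ((Nat.card C : ℚ_[p]) * f.coeff c) :=
      (isIntegral_coeff f hf c).tower_top
    obtain ⟨y, hy⟩ := IsIntegrallyClosed.isIntegral_iff.mp h2
    refine ⟨w * y, ?_⟩
    have h3 : algebraMap ℤ_[p] ℚ_[p] w * (Nat.card C : ℚ_[p]) = 1 := by
      rw [← map_natCast (algebraMap ℤ_[p] ℚ_[p]), ← map_mul, hw, map_one]
    rw [map_mul, hy, ← mul_assoc, h3, one_mul]
  choose y hy using h1
  haveI := Fintype.ofFinite C
  have h4 : MonoidAlgebra.mapRingHom C (algebraMap ℤ_[p] ℚ_[p])
      (MonoidAlgebra.ofCoeff (Finsupp.equivFunOnFinite.symm y)) = f := by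
    ext c
    rw [coeff_mapRingHom]
    exact hy c
  refine ⟨MonoidAlgebra.ofCoeff (Finsupp.equivFunOnFinite.symm y), ?_, h4⟩
  have h5 : Function.Injective (MonoidAlgebra.mapRingHom C (algebraMap ℤ_[p] ℚ_[p])) := by
    intro a b hab
    ext c
    have h6 := congrArg (fun z => z.coeff c) hab
    simp only [coeff_mapRingHom] at h6
    exact IsFractionRing.injective ℤ_[p] ℚ_[p] h6
  apply h5
  rw [map_mul, h4, hf]

/-! ### group algebras of finite commutative groups are reduced -/

lemma isReduced_alg (k : Type w) [CommRing k] [IsReduced k] [Algebra ℚ k] (C : Type u)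
    [CommGroup C] [Finite C] : IsReduced (MonoidAlgebra k C) := by
  classical
  haveI := Fintype.ofFinite C
  refine ⟨fun x hx => ?_⟩
  ext c
  have h1 : IsNilpotent (x * single c⁻¹ 1) := (Commute.all _ _).isNilpotent_mul_right hx
  have h2 : IsNilpotent (regM (x * single c⁻¹ 1)) := by
    obtain ⟨n, hn⟩ := h1
    refine ⟨n, ?_⟩
    rw [← regM_pow, hn, regM_zero]
  have h3 := (Matrix.isNilpotent_trace_of_isNilpotent h2).eq_zero
  rw [trace_regM, coeff_mul_single_apply, inv_inv, one_mul, mul_one,
    ← map_natCast (algebraMap ℚ k)] at h3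
  exact VBMod.smul_eq_zero' (by exact_mod_cast Fintype.card_ne_zero) h3

/-! ### restriction to a subgroup -/

section restr

variable {k : Type w} [CommRing k]

lemma resD_coeff {C : Type u} [Group C] (D : Subgroup C) (b : MonoidAlgebra k C) (d : D) :
    (resD D b).coeff d = b.coeff d := Finsupp.comapDomain_apply _ _ _ _

lemma resD_add {C : Type u} [Group C] (D : Subgroup C) (a b : MonoidAlgebra k C) :
    resD D (a + b) = resD D a + resD D b := by
  ext d
  rw [coeff_add, Finsupp.add_apply, resD_coeff, resD_coeff, resD_coeff, coeff_add,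
    Finsupp.add_apply]

lemma resD_zero {C : Type u} [Group C] (D : Subgroup C) :
    resD D (0 : MonoidAlgebra k C) = 0 := by
  ext d
  rw [resD_coeff]
  rfl

lemma resD_mul {C : Type u} [Group C] (D : Subgroup C) [Fintype (C ⧸ D)]
    (x y : MonoidAlgebra k C) :
    resD D (x * y) = ∑ j : C ⧸ D, resD D (x * single j.out 1) *
      resD D (single (j.out)⁻¹ 1 * y) := by
  classical
  induction x using MonoidAlgebra.induction_linear with
  | zero => simp [resD_zero]
  | add a b ha hb => simp only [add_mul, resD_add, ha, hb, Finset.sum_add_distrib]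
  | single a r =>
    obtain ⟨h, hh⟩ := QuotientGroup.mk_out_eq_mul D a⁻¹
    rw [Finset.sum_eq_single ((a⁻¹ : C) : C ⧸ D)]
    · ext d
      have h1 : resD D (single a r * single ((a⁻¹ : C) : C ⧸ D).out 1) =
          (single h r : MonoidAlgebra k D) := by
        rw [single_mul_single, hh, mul_one, mul_inv_cancel_left]
        ext d'
        rw [resD_coeff, coeff_single, coeff_single, Finsupp.single_apply, Finsupp.single_apply]
        exact if_congr Subtype.coe_inj rfl rfl
      rw [h1, resD_coeff, coeff_single_mul_apply, coeff_single_mul_apply, resD_coeff,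
        coeff_single_mul_apply, one_mul, hh, inv_inv]
      congr 2
      simp [mul_assoc]
    · intro j _ hj
      have h1 : resD D (single a r * single j.out 1) = (0 : MonoidAlgebra k D) := by
        rw [single_mul_single, mul_one]
        ext d'
        rw [resD_coeff, coeff_single]
        refine Finsupp.single_eq_of_ne' ?_
        intro h2
        apply hj
        rw [← QuotientGroup.out_eq' j]
        refine QuotientGroup.eq.mpr ?_
        rw [← Subgroup.inv_mem_iff]
        have h3 : ((Quotient.out j)⁻¹ * a⁻¹)⁻¹ = (d' : C) := by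
          rw [← h2]
          group
        rw [h3]
        exact d'.2
      rw [h1, zero_mul]
    · intro h1
      exact absurd (Finset.mem_univ _) h1

end restr

theorem res_idem {k : Type w} [CommRing k] [IsReduced k] [Algebra ℚ k] {C : Type u} [CommGroup C]
    [Finite C] (D : Subgroup C) (f : MonoidAlgebra k C) (hf : f * f = f) :
    resD D f ∈ RV (MonoidAlgebra k D) := by
  classical
  haveI := Fintype.ofFinite (C ⧸ D)
  haveI : IsReduced (MonoidAlgebra k D) := isReduced_alg k D
  let P : Matrix (C ⧸ D) (C ⧸ D) (MonoidAlgebra k D) := Matrix.of fun i j =>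
    resD D (single (i.out)⁻¹ 1 * f * single j.out 1)
  have hP : P * P = P := by
    ext1 i l
    rw [Matrix.mul_apply]
    simp only [P, Matrix.of_apply]
    have h1 := resD_mul D (single (i.out)⁻¹ 1 * f) (f * single l.out 1)
    rw [show single (i.out)⁻¹ 1 * f * (f * single l.out 1) =
      single (i.out)⁻¹ 1 * f * single l.out 1 by
        rw [mul_assoc, ← mul_assoc f f, hf, mul_assoc]] at h1
    rw [h1]
    refine Finset.sum_congr rfl fun j _ => ?_
    rw [mul_assoc (single (Quotient.out j)⁻¹ 1)]
  have ht : P.trace = (Fintype.card (C ⧸ D) : MonoidAlgebra k D) * resD D f := by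
    rw [Matrix.trace]
    simp only [Matrix.diag_apply, P, Matrix.of_apply]
    have h1 : ∀ i : C ⧸ D, single (i.out)⁻¹ 1 * f * single i.out 1 = f := by
      intro i
      rw [mul_comm, ← mul_assoc, single_mul_single, mul_inv_cancel, mul_one, ← one_def, one_mul]
    simp only [h1]
    rw [Finset.sum_const, Finset.card_univ, nsmul_eq_mul]
  have h2 := trace_idem P hP
  rw [ht] at h2
  have hn : (Fintype.card (C ⧸ D) : ℚ) ≠ 0 := by exact_mod_cast Fintype.card_ne_zero
  refine VBMod.mem_of_prod _ ((Finset.range (Fintype.card (C ⧸ D) + 1)).image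
    fun j : ℕ => (j : ℚ) / (Fintype.card (C ⧸ D) : ℚ)) ?_
  rw [Finset.prod_image]
  · refine VBMod.smul_eq_zero' (pow_ne_zero (Fintype.card (C ⧸ D) + 1) hn) ?_
    rw [← h2, map_pow]
    rw [← Finset.card_range (Fintype.card (C ⧸ D) + 1), ← Finset.prod_const,
      Finset.card_range, ← Finset.prod_mul_distrib]
    refine Finset.prod_congr rfl fun j _ => ?_
    rw [mul_sub, ← map_mul, mul_div_cancel₀ _ hn, map_natCast, map_natCast]
  · intro i _ j _ hij
    have := (div_left_inj' hn).mp hij
    exact_mod_cast this

end RESMod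

open RESMod in
theorem specRES : SpecRES.{u} where
  res := by
    intro S C _ _ D b hb
    haveI : IsReduced (Qp S) := inferInstance
    refine Submodule.span_induction (p := fun b _ => resD D b ∈ RV (MonoidAlgebra (Qp S) D))
      ?_ ?_ ?_ ?_ hb
    · intro e he
      exact res_idem D e he
    · rw [resD_zero]
      exact Submodule.zero_mem _
    · intro x y _ _ hx hy
      rw [resD_add]
      exact Submodule.add_mem _ hx hy
    · intro c x _ hx
      have h1 : resD D (c • x) = c • resD D x := by
        ext d
        rw [resD_coeff, MonoidAlgebra.coeff_smul, MonoidAlgebra.coeff_smul, Finsupp.smul_apply,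
          Finsupp.smul_apply, resD_coeff]
      rw [h1]
      exact Submodule.smul_mem _ _ hx
  int := fun p _ C _ _ hp f hf => int_padic p C hp f hf
  rat := by
    intro C _ _ f hf c
    obtain ⟨z, hz⟩ := IsIntegrallyClosed.isIntegral_iff.mp (isIntegral_coeff f hf c)
    exact ⟨z, hz.symm⟩

end Pool.Agent.Lib.MPb6f35e.ZK
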