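import Pool.Agent.Lib.MP_b6f35e_al.ZK.LIN
import Pool.Agent.Lib.MP_b6f35e_al.ZK.RES

/-!
# ZK, module LIN: `specLIN`
-/

set_option autoImplicit false

noncomputable section

namespace Pool.Agent.Lib.MPb6f35e.ZK

universe u v w

namespace LINMod

open WH WH.LIN

/-- A ring homomorphism maps rational combinations of idempotents to such combinations. -/
lemma map_RV {B : Type u} {B' : Type v} [CommRing B] [CommRing B'] [Algebra ℚ B] [Algebra ℚ B']
    (f : B →+* B') (b : B) (hb : b ∈ RV B) : f b ∈ RV B' := by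
  let F : B →ₗ[ℚ] B' := f.toRatAlgHom.toLinearMap
  have h1 : RV B ≤ (RV B').comap F := by
    unfold RV
    rw [Submodule.span_le]
    intro e he
    apply Submodule.subset_span
    show f e * f e = f e
    rw [← map_mul, he]
  exact h1 hb

variable (S : Finset Nat.Primes)

/-- the orders which are allowed -/
def Pr (n : ℕ) : Prop := ∀ p : Nat.Primes, (p : ℕ) ∣ n → p ∈ S

/-- the induced map -/
def mR {C C' : Type u} [CommGroup C] [CommGroup C'] (f : C →* C') :
    RV (MonoidAlgebra (Qp S) C) →+ RV (MonoidAlgebra (Qp S) C') where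
  toFun b := ⟨MonoidAlgebra.mapDomainRingHom (Qp S) f b, map_RV _ _ b.2⟩
  map_zero' := Subtype.ext (map_zero _)
  map_add' _ _ := Subtype.ext (map_add _ _ _)

/-- the coefficients -/
def cR (C : Type u) [CommGroup C] : RV (MonoidAlgebra (Qp S) C) →+ (C → Qp S) where
  toFun b := fun c => (b : MonoidAlgebra (Qp S) C).coeff c
  map_zero' := rfl
  map_add' _ _ := rfl

/-- The system. -/
def sysR : IndSys.{u, u, 0} (Qp S) (Pr S) where
  A C _ _ := RV (MonoidAlgebra (Qp S) C)
  iA C _ _ := inferInstance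
  m f := mR S f
  L C _ _ := cR S C
  map C C' _ _ _ _ _ _ f hf x c := by
    show (MonoidAlgebra.mapDomainRingHom (Qp S) f (x : MonoidAlgebra (Qp S) C)).coeff (f c) = _
    exact Finsupp.mapDomain_apply hf _ c
  map_not C C' _ _ _ _ _ _ f _ x c' hc := by
    show (MonoidAlgebra.mapDomainRingHom (Qp S) f (x : MonoidAlgebra (Qp S) C)).coeff c' = _
    exact Finsupp.mapDomain_of_notMem_range _ _ hc
  norm C _ _ _ D x := by
    refine ⟨D.index • ⟨resD D (x : MonoidAlgebra (Qp S) C), specRES.res S C D _ x.2⟩,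
      fun d => ?_⟩
    rw [map_nsmul, Pi.smul_apply]
    congr 1
  inj C _ _ _ x hx := by
    refine ⟨1, one_pos, ?_⟩
    rw [one_smul]
    apply Subtype.ext
    apply MonoidAlgebra.coeffAddEquiv.injective
    exact Finsupp.ext hx

/-- constants at the primes dividing `n` -/
def NR (n : ℕ) : AddSubgroup (Qp S) where
  carrier := {v | ∃ q : ℚ, ∀ p : S, ((p : Nat.Primes) : ℕ) ∣ n →
    v p = (q : ℚ_[((p : Nat.Primes) : ℕ)])}
  zero_mem' := ⟨0, fun p _ => by simp⟩
  add_mem' := by
    rintro a b ⟨q, hq⟩ ⟨r, hr⟩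
    exact ⟨q + r, fun p hp => by rw [Pi.add_apply, hq p hp, hr p hp, Rat.cast_add]⟩
  neg_mem' := by
    rintro a ⟨q, hq⟩
    exact ⟨-q, fun p hp => by rw [Pi.neg_apply, hq p hp, Rat.cast_neg]⟩

open Classical in
/-- The main point: elements with rational values at the primes dividing the order. -/
lemma key {C : Type u} [CommGroup C] [Finite C] (θ : RV (MonoidAlgebra (Qp S) C) →ₗ[ℚ] ℚ)
    (hrat : ∀ (r : MonoidAlgebra ℚ C) (_ : r ∈ RV (MonoidAlgebra ℚ C))
      (b : RV (MonoidAlgebra (Qp S) C)) (_ : (b : MonoidAlgebra (Qp S) C) =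
        MonoidAlgebra.mapRingHom C (algebraMap ℚ (Qp S)) r), θ b = 0)
    (hvan : ∀ (b : RV (MonoidAlgebra (Qp S) C))
      (_ : ∀ (p : S) (_ : ((p : Nat.Primes) : ℕ) ∣ Nat.card C) (c : C),
        (b : MonoidAlgebra (Qp S) C).coeff c p = 0), θ b = 0)
    (w : RV (MonoidAlgebra (Qp S) C))
    (hw : ∀ c, (w : MonoidAlgebra (Qp S) C).coeff c ∈ NR S (Nat.card C)) : θ w = 0 := by
  have : Fintype C := Fintype.ofFinite C
  by_cases hp : ∃ p₀ : S, ((p₀ : Nat.Primes) : ℕ) ∣ Nat.card C
  · obtain ⟨p₀, hp₀⟩ := hp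
    choose q hq using hw
    let r : MonoidAlgebra ℚ C := ∑ c : C, MonoidAlgebra.single c (q c)
    have hr : ∀ c, r.coeff c = q c := by
      intro c
      show (∑ c : C, MonoidAlgebra.single c (q c) : MonoidAlgebra ℚ C).coeff c = q c
      rw [MonoidAlgebra.coeff_sum, Finsupp.finsetSum_apply, Finset.sum_eq_single c]
      · rw [MonoidAlgebra.coeff_single, Finsupp.single_eq_same]
      · intro d _ hd
        rw [MonoidAlgebra.coeff_single, Finsupp.single_apply, if_neg hd]
      · intro h
        exact absurd (Finset.mem_univ _) h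
    have hrV : r ∈ RV (MonoidAlgebra ℚ C) := by
      rw [specVB.char]
      obtain ⟨s, hs⟩ := (specVB.char _ _).1 w.2
      refine ⟨s, ?_⟩
      -- evaluate at `p₀`
      let ev : MonoidAlgebra (Qp S) C →+* MonoidAlgebra ℚ_[((p₀ : Nat.Primes) : ℕ)] C :=
        MonoidAlgebra.mapRingHom C (Pi.evalRingHom _ p₀)
      let i₀ : MonoidAlgebra ℚ C →+* MonoidAlgebra ℚ_[((p₀ : Nat.Primes) : ℕ)] C :=
        MonoidAlgebra.mapRingHom C (algebraMap ℚ ℚ_[((p₀ : Nat.Primes) : ℕ)])
      have hi : Function.Injective i₀ := by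
        intro x y hxy
        ext c
        have h1 := congrArg (fun z : MonoidAlgebra ℚ_[((p₀ : Nat.Primes) : ℕ)] C =>
          z.coeff c) hxy
        simp only [i₀, MonoidAlgebra.coeff_mapRingHom] at h1
        exact (algebraMap ℚ ℚ_[((p₀ : Nat.Primes) : ℕ)]).injective h1
      have he : ev (w : MonoidAlgebra (Qp S) C) = i₀ r := by
        ext c
        simp only [ev, i₀, MonoidAlgebra.coeff_mapRingHom, hr]
        show (w : MonoidAlgebra (Qp S) C).coeff c p₀ = _
        rw [eq_ratCast]
        exact hq c p₀ hp₀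
      apply hi
      rw [map_zero, map_prod, ← map_zero ev, ← hs, map_prod]
      refine Finset.prod_congr rfl fun x _ => ?_
      rw [map_sub, map_sub, he]
      congr 1
      exact (RingHom.map_rat_algebraMap i₀ x).trans (RingHom.map_rat_algebraMap ev x).symm
    let r' : RV (MonoidAlgebra (Qp S) C) :=
      ⟨MonoidAlgebra.mapRingHom C (algebraMap ℚ (Qp S)) r, map_RV _ _ hrV⟩
    have h1 : θ r' = 0 := hrat r hrV r' rfl
    have h2 : θ (w - r') = 0 := by
      apply hvan
      intro p hp c
      show ((w : MonoidAlgebra (Qp S) C) -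
        MonoidAlgebra.mapRingHom C (algebraMap ℚ (Qp S)) r).coeff c p = 0
      rw [MonoidAlgebra.coeff_sub, Finsupp.sub_apply, Pi.sub_apply,
        MonoidAlgebra.coeff_mapRingHom, hr, sub_eq_zero]
      refine (hq c p hp).trans ?_
      rw [Pi.algebraMap_apply, eq_ratCast]
    have h3 : θ (w - r') = θ w - θ r' := θ.map_sub w r'
    have h4 := h3.symm.trans h2
    rw [h1] at h4
    exact (sub_zero _).symm.trans h4
  · apply hvan
    intro p hp'
    exact absurd ⟨p, hp'⟩ hp

open Classical in
/-- The sum of the coefficients on a conjugacy class, for an induced element. -/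
lemma rk_map {k : Type w} [CommRing k] {C : Type u} [CommGroup C] [Fintype C] {G : Type u}
    [Group G] (φ : C →* G) (g : G) (b : MonoidAlgebra k C) :
    rk k g (MonoidAlgebra.mapDomainRingHom k φ b) =
      ∑ c : C, if ConjClasses.mk (φ c) = ConjClasses.mk g then b.coeff c else 0 := by
  have hrk : ∀ (h : G) (r : k), rk k g (MonoidAlgebra.single h r) =
      if IsConj g h then r else 0 := by
    intro h r
    show (Finsupp.liftAddHom (fun g' : G => if IsConj g g' then AddMonoidHom.id k else 0))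
      (Finsupp.single h r) = _
    rw [Finsupp.liftAddHom_apply_single]
    split_ifs <;> rfl
  induction b using MonoidAlgebra.induction_linear with
  | zero => simp
  | add x y hx hy =>
    rw [map_add, map_add, hx, hy, ← Finset.sum_add_distrib]
    refine Finset.sum_congr rfl fun c _ => ?_
    rw [MonoidAlgebra.coeff_add, Finsupp.add_apply]
    split_ifs
    · rfl
    · rw [add_zero]
  | single c r =>
    rw [MonoidAlgebra.mapDomainRingHom_apply, MonoidAlgebra.mapDomain_single, hrk,
      Finset.sum_eq_single c]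
    · rw [MonoidAlgebra.coeff_single, Finsupp.single_eq_same]
      refine if_congr ?_ rfl rfl
      rw [ConjClasses.mk_eq_mk_iff_isConj]
      exact ⟨IsConj.symm, IsConj.symm⟩
    · intro d _ hd
      have h0 : (MonoidAlgebra.single c r).coeff d = 0 := by
        rw [MonoidAlgebra.coeff_single, Finsupp.single_apply, if_neg (fun h => hd h.symm)]
      rw [h0, ite_self]
    · intro h
      exact absurd (Finset.mem_univ _) h

end LINMod

open LINMod WH WH.LIN in
theorem specLIN : SpecLIN.{u} := by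
  classical
  intro S G _ Θ hnat hrat hvan m C _ _ φ hφ hC b hb
  let K : Cocone (sysR.{u} S) G ℚ :=
    { th := fun {C} _ _ φ => (Θ C φ).toAddMonoidHom
      rel := fun {C C'} _ _ _ _ _ h2 φ φ' hφ hφ' f g h x =>
        hnat C C' φ φ' f g h hφ hφ' h2 x (mR S f x) rfl }
  have hN : Adapted (sysR.{u} S) K (NR S) := by
    intro C _ _ hC φ hφ w _ hw
    refine ⟨1, one_pos, ?_⟩
    rw [one_smul]
    exact key S (Θ C φ) (hrat C φ hφ hC) (hvan C φ hφ hC) w hw
  have hP : ∀ m n : ℕ, m ∣ n → Pr S n → Pr S m := fun m n hmn h p hp => h p (hp.trans hmn)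
  obtain ⟨n, hn, h⟩ := main (sysR.{u} S) K (NR S) hN hP C hC φ hφ b (by
    intro g hg
    obtain ⟨q, hq⟩ := hb g hg
    refine ⟨q, fun p hp => ?_⟩
    rw [← hq p hp, Finset.sum_apply]
    refine Finset.sum_congr rfl fun i _ => ?_
    rw [rk_map]
    rfl)
  have h2 : n • ∑ i, Θ (C i) (φ i) (b i) = 0 := h
  rw [nsmul_eq_mul, mul_eq_zero] at h2
  exact h2.resolve_left (by exact_mod_cast hn.ne')

end Pool.Agent.Lib.MPb6f35e.ZK
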