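import Pool.Agent.Lib.MP_b6f35e_al.ZK.KA
import Pool.Agent.Lib.MP_b6f35e_al.WH.SZ

/-!
# Module ART: `K_{-1}(ℤ[H])` is generated up to torsion by the cyclic subgroups (helper62)
-/

set_option autoImplicit false

noncomputable section

namespace Pool.Agent.Lib.MPb6f35e.ZK

universe u w w'

namespace ARTMod

open Pool.Agent.Lib.MPb6f35e.WH (SpecR)
open Pool.Agent.Lib.MPb6f35e.WH.SZMod (psi psi_single sumPerm sigmaPerm quoPerm quo_entry exists_div)

/-- `ℤ[H][t, t⁻¹]` -/
abbrev LH (H : Type u) [Group H] : Type u := Lau (MonoidAlgebra ℤ H)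

section Psi

variable {H : Type u} [Group H]

lemma LH_induction {P : LH H → Prop} (h0 : P 0) (hadd : ∀ x y, P x → P y → P (x + y))
    (hs : ∀ (j : ℤ) (h : H) (r : ℤ), P (AddMonoidAlgebra.single j (MonoidAlgebra.single h r)))
    (x : LH H) : P x := by
  induction x using AddMonoidAlgebra.induction_linear with
  | zero => exact h0
  | add x y hx hy => exact hadd x y hx hy
  | single j a =>
    induction a using MonoidAlgebra.induction_linear with
    | zero => rw [AddMonoidAlgebra.single_zero]; exact h0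
    | add a b ha hb => rw [AddMonoidAlgebra.single_add]; exact hadd _ _ ha hb
    | single h r => exact hs j h r

variable {Z : Type w} [Fintype Z] [DecidableEq Z]

/-- `ψ` on Laurent polynomials. -/
def psiL (ρ : H →* Equiv.Perm Z) : LH H →+* Matrix Z Z (LH H) :=
  AddMonoidAlgebra.liftNCRingHom
    ((AddMonoidAlgebra.singleZeroRingHom (R := MonoidAlgebra ℤ H) (M := ℤ)).mapMatrix.comp (psi ρ))
    ((Matrix.scalar Z : LH H →+* Matrix Z Z (LH H)).toMonoidHom.comp
      (AddMonoidAlgebra.of (MonoidAlgebra ℤ H) ℤ))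
    (by
      intro x y
      show _ * _ = _ * _
      ext1 i j
      simp [Matrix.scalar_apply, AddMonoidAlgebra.single_mul_single])

lemma psiL_single (ρ : H →* Equiv.Perm Z) (j : ℤ) (a : MonoidAlgebra ℤ H) (z z' : Z) :
    psiL ρ (AddMonoidAlgebra.single j a) z z' = AddMonoidAlgebra.single j (psi ρ a z z') := by
  unfold psiL
  rw [AddMonoidAlgebra.liftNCRingHom_single]
  simp [Matrix.scalar_apply, AddMonoidAlgebra.single_mul_single]

lemma psiL_single' (ρ : H →* Equiv.Perm Z) (j : ℤ) (h : H) (r : ℤ) (z z' : Z) :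
    psiL ρ (AddMonoidAlgebra.single j (MonoidAlgebra.single h r)) z z' =
      if z = ρ h z' then AddMonoidAlgebra.single j (MonoidAlgebra.single h r) else 0 := by
  rw [psiL_single, psi_single]
  split <;> simp

/-- `ψ` on matrices. -/
def PsiL (ρ : H →* Equiv.Perm Z) (n : ℕ) :
    Matrix (Fin n) (Fin n) (LH H) →+* Matrix (Fin n × Z) (Fin n × Z) (LH H) :=
  (Matrix.compRingEquiv (Fin n) Z (LH H)).toRingHom.comp (psiL ρ).mapMatrix

lemma PsiL_apply (ρ : H →* Equiv.Perm Z) {n : ℕ} (u : Matrix (Fin n) (Fin n) (LH H))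
    (i j : Fin n) (z z' : Z) : PsiL ρ n u (i, z) (j, z') = psiL ρ (u i j) z z' := rfl

lemma PsiL_idem (ρ : H →* Equiv.Perm Z) {n : ℕ} {e : Matrix (Fin n) (Fin n) (LH H)}
    (he : e * e = e) : PsiL ρ n e * PsiL ρ n e = PsiL ρ n e := by
  rw [← map_mul, he]

/-- Matrices which differ by a bijection of the index sets are equivalent. -/
lemma eqv_reindex {A : Type u} [Ring A] {ι : Type w} {κ : Type w'} [Fintype ι] [Fintype κ]
    (σ : ι ≃ κ) (f : Matrix ι ι A) (g : Matrix κ κ A) (hg : g * g = g)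
    (h : ∀ i j, g (σ i) (σ j) = f i j) : Eqv g f := by
  refine ⟨g.submatrix id σ, g.submatrix σ id, ?_, ?_⟩
  · rw [Matrix.submatrix_mul_equiv g g id σ id, hg]
    rfl
  · ext1 i j
    rw [Matrix.mul_apply]
    simp only [Matrix.submatrix_apply, id]
    rw [← Matrix.mul_apply, hg, h]

/-- The class of `Ψ(e)` in `K_{-1}`. -/
def kap (ρ : H →* Equiv.Perm Z) {n : ℕ} (e : Matrix (Fin n) (Fin n) (LH H)) (he : e * e = e) :
    Km1 (MonoidAlgebra ℤ H) :=
  Km1.mk _ (K0.clsF (PsiL ρ n e) (PsiL_idem ρ he))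

end Psi

section Kap

variable {H : Type u} [Group H] {Z : Type u} [Fintype Z] [DecidableEq Z]

lemma psiL_equiv {Z' : Type u} [Fintype Z'] [DecidableEq Z'] (ρ : H →* Equiv.Perm Z)
    (ρ' : H →* Equiv.Perm Z') (e : Z ≃ Z') (he : ∀ h z, e (ρ h z) = ρ' h (e z))
    (a : LH H) (z z' : Z) : psiL ρ' a (e z) (e z') = psiL ρ a z z' := by
  induction a using LH_induction with
  | h0 => simp
  | hadd x y hx hy => simp only [map_add, Matrix.add_apply, hx, hy]
  | hs j h r =>
    rw [psiL_single', psiL_single', ← he]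
    simp only [e.injective.eq_iff]

lemma kap_equiv (hKA : SpecKA.{u, u, u}) {Z' : Type u} [Fintype Z'] [DecidableEq Z']
    (ρ : H →* Equiv.Perm Z) (ρ' : H →* Equiv.Perm Z') (σ : Z ≃ Z')
    (hσ : ∀ h z, σ (ρ h z) = ρ' h (σ z)) {n : ℕ} (e : Matrix (Fin n) (Fin n) (LH H))
    (he : e * e = e) : kap ρ' e he = kap ρ e he := by
  unfold kap
  congr 1
  apply hKA.eqv
  refine eqv_reindex (Equiv.prodCongr (Equiv.refl (Fin n)) σ) _ _ (PsiL_idem ρ' he) ?_
  rintro ⟨i, z⟩ ⟨j, z'⟩
  exact psiL_equiv ρ ρ' σ hσ _ z z'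

lemma kap_sum (hKA : SpecKA.{u, u, u}) {Z' : Type u} [Fintype Z'] [DecidableEq Z']
    (ρ : H →* Equiv.Perm Z) (ρ' : H →* Equiv.Perm Z') {n : ℕ}
    (e : Matrix (Fin n) (Fin n) (LH H)) (he : e * e = e) :
    kap (sumPerm ρ ρ') e he = kap ρ e he + kap ρ' e he := by
  have h1 : ∀ (a : LH H) (z z' : Z), psiL (sumPerm ρ ρ') a (Sum.inl z) (Sum.inl z') = psiL ρ a z z' := by
    intro a z z'
    induction a using LH_induction with
    | h0 => simp
    | hadd x y hx hy => simp only [map_add, Matrix.add_apply, hx, hy]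
    | hs j h r =>
      rw [psiL_single', psiL_single']
      have : (Sum.inl z : Z ⊕ Z') = sumPerm ρ ρ' h (Sum.inl z') ↔ z = ρ h z' := by
        show (Sum.inl z : Z ⊕ Z') = Sum.inl (ρ h z') ↔ _
        simp
      simp only [this]
  have h2 : ∀ (a : LH H) (z z' : Z'), psiL (sumPerm ρ ρ') a (Sum.inr z) (Sum.inr z') = psiL ρ' a z z' := by
    intro a z z'
    induction a using LH_induction with
    | h0 => simp
    | hadd x y hx hy => simp only [map_add, Matrix.add_apply, hx, hy]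
    | hs j h r =>
      rw [psiL_single', psiL_single']
      have : (Sum.inr z : Z ⊕ Z') = sumPerm ρ ρ' h (Sum.inr z') ↔ z = ρ' h z' := by
        show (Sum.inr z : Z ⊕ Z') = Sum.inr (ρ' h z') ↔ _
        simp
      simp only [this]
  have h3 : ∀ (a : LH H) (z : Z) (z' : Z'), psiL (sumPerm ρ ρ') a (Sum.inl z) (Sum.inr z') = 0 := by
    intro a z z'
    induction a using LH_induction with
    | h0 => simp
    | hadd x y hx hy => simp only [map_add, Matrix.add_apply, hx, hy, add_zero]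
    | hs j h r =>
      rw [psiL_single', if_neg]
      show ¬ (Sum.inl z : Z ⊕ Z') = Sum.inr (ρ' h z')
      simp
  have h4 : ∀ (a : LH H) (z : Z') (z' : Z), psiL (sumPerm ρ ρ') a (Sum.inr z) (Sum.inl z') = 0 := by
    intro a z z'
    induction a using LH_induction with
    | h0 => simp
    | hadd x y hx hy => simp only [map_add, Matrix.add_apply, hx, hy, add_zero]
    | hs j h r =>
      rw [psiL_single', if_neg]
      show ¬ (Sum.inr z : Z ⊕ Z') = Sum.inl (ρ h z')
      simp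
  have hb : Matrix.fromBlocks (PsiL ρ n e) 0 0 (PsiL ρ' n e) * Matrix.fromBlocks (PsiL ρ n e) 0 0 (PsiL ρ' n e) =
      Matrix.fromBlocks (PsiL ρ n e) 0 0 (PsiL ρ' n e) := by
    rw [Matrix.fromBlocks_multiply]
    simp [PsiL_idem ρ he, PsiL_idem ρ' he]
  unfold kap
  rw [← map_add, ← hKA.sum _ _ _ _ _ _ _ hb]
  congr 1
  apply hKA.eqv
  refine eqv_reindex (Equiv.prodSumDistrib (Fin n) Z Z').symm _ _ (PsiL_idem _ he) ?_
  rintro (⟨i, z⟩ | ⟨i, z⟩) (⟨j, z'⟩ | ⟨j, z'⟩)
  · exact h1 _ z z'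
  · exact h3 _ z z'
  · exact h4 _ z z'
  · exact h2 _ z z'

lemma kap_empty (hKA : SpecKA.{u, u, u}) [IsEmpty Z] (ρ : H →* Equiv.Perm Z) {n : ℕ}
    (e : Matrix (Fin n) (Fin n) (LH H)) (he : e * e = e) : kap ρ e he = 0 := by
  have h1 : PsiL ρ n e = 1 := by
    ext1 ⟨i, z⟩
    exact isEmptyElim z
  have h2 : K0.clsF (PsiL ρ n e) (PsiL_idem ρ he) = K0.clsF (1 : Matrix (Fin n × Z) (Fin n × Z) (LH H)) (mul_one 1) := by
    congr 1
  rw [kap, h2, hKA.one]
  simp

lemma kap_sigma (hKA : SpecKA.{u, u, u}) {n : ℕ} (e : Matrix (Fin n) (Fin n) (LH H))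
    (he : e * e = e) : ∀ (a : ℕ) (Y : Fin a → Type u) [∀ i, Fintype (Y i)] [∀ i, DecidableEq (Y i)]
    (ρ : ∀ i, H →* Equiv.Perm (Y i)), kap (sigmaPerm ρ) e he = ∑ i, kap (ρ i) e he := by
  intro a
  induction a with
  | zero =>
    intro Y _ _ ρ
    rw [kap_empty hKA, Finset.univ_eq_empty, Finset.sum_empty]
  | succ a ih =>
    intro Y _ _ ρ
    let σ : (Σ i, Y i) ≃ Y 0 ⊕ Σ i : Fin a, Y i.succ :=
      { toFun := fun z => Fin.cases (motive := fun i => Y i → Y 0 ⊕ Σ i : Fin a, Y i.succ)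
          (fun y => Sum.inl y) (fun i y => Sum.inr ⟨i, y⟩) z.1 z.2
        invFun := fun z => match z with
          | Sum.inl y => ⟨0, y⟩
          | Sum.inr y => ⟨y.1.succ, y.2⟩
        left_inv := by
          rintro ⟨i, y⟩
          induction i using Fin.cases with
          | zero => rfl
          | succ i => rfl
        right_inv := by rintro (y | ⟨i, y⟩) <;> rfl }
    rw [Fin.sum_univ_succ, ← ih (fun i => Y i.succ) (fun i => ρ i.succ), ← kap_sum hKA]
    symm
    refine kap_equiv hKA _ _ σ ?_ e he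
    rintro h ⟨i, y⟩
    induction i using Fin.cases with
    | zero => rfl
    | succ i => rfl

lemma kap_triv (hKA : SpecKA.{u, u, u}) (hKA' : SpecKA.{u, u, 0}) (m : ℕ) {n : ℕ}
    (e : Matrix (Fin n) (Fin n) (LH H)) (he : e * e = e) :
    kap (sigmaPerm (fun _ : Fin m => (1 : H →* Equiv.Perm PUnit.{u + 1}))) e he =
      m • Km1.mk _ (K0.cls e he) := by
  have h0 : ∀ (a : LH H) (z : PUnit.{u + 1}), psiL (1 : H →* Equiv.Perm PUnit.{u + 1}) a z z = a := by
    intro a z
    induction a using LH_induction with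
    | h0 => simp
    | hadd x y hx hy => simp only [map_add, Matrix.add_apply, hx, hy]
    | hs j h r => rw [psiL_single']; simp
  have h1 : kap (1 : H →* Equiv.Perm PUnit.{u + 1}) e he = Km1.mk _ (K0.cls e he) := by
    unfold kap
    congr 1
    rw [← hKA.cls]
    refine hKA'.eqv _ _ _ _ _ (PsiL_idem _ he) he ?_
    refine eqv_reindex (Equiv.prodUnique (Fin n) PUnit.{u + 1}).symm _ _ (PsiL_idem _ he) ?_
    intro i j
    exact h0 _ _
  rw [kap_sigma hKA, Finset.sum_congr rfl (fun _ _ => h1), Finset.sum_const, Finset.card_univ,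
    Fintype.card_fin]

end Kap

/-! ### the intertwiner -/

section Inter

variable {H : Type u} [Group H] {X Y : Type u} [Fintype X] [DecidableEq X] [Fintype Y]
  [DecidableEq Y]

lemma psiL_inter (ρ : H →* Equiv.Perm X) (σ : H →* Equiv.Perm Y) (F : Matrix Y X ℤ)
    (hF : ∀ h y x, F (σ h y) (ρ h x) = F y x) (a : LH H) (y : Y) (x : X) :
    ∑ y', psiL σ a y y' * (F y' x : LH H) = ∑ x', (F y x' : LH H) * psiL ρ a x' x := by
  induction a using LH_induction with
  | h0 => simp
  | hadd a b ha hb =>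
    simp only [map_add, Matrix.add_apply, add_mul, mul_add, Finset.sum_add_distrib, ha, hb]
  | hs j h r =>
    simp only [psiL_single']
    rw [Finset.sum_eq_single ((σ h).symm y), Finset.sum_eq_single (ρ h x)]
    · rw [if_pos (by rw [Equiv.apply_symm_apply]), if_pos rfl]
      have h1 := hF h ((σ h).symm y) x
      rw [Equiv.apply_symm_apply] at h1
      rw [h1]
      exact (Int.cast_commute _ _).symm
    · intro b _ hb
      rw [if_neg hb, mul_zero]
    · simp
    · intro b _ hb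
      rw [if_neg, zero_mul]
      intro hh
      apply hb
      rw [hh, Equiv.symm_apply_apply]
    · simp

/-- `1 ⊗ F` -/
def tenL (H : Type u) [Group H] (n : ℕ) (F : Matrix Y X ℤ) :
    Matrix (Fin n × Y) (Fin n × X) (LH H) :=
  Matrix.of fun i j => if i.1 = j.1 then (F i.2 j.2 : LH H) else 0

omit [DecidableEq X] [Fintype Y] in
lemma tenL_mul (n : ℕ) (F : Matrix Y X ℤ) (F' : Matrix X Y ℤ) (d : ℤ) (h : F * F' = d • 1) :
    tenL H n F * tenL H n F' = d • (1 : Matrix (Fin n × Y) (Fin n × Y) (LH H)) := by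
  ext1 ⟨i, y⟩ ⟨j, y'⟩
  rw [Matrix.mul_apply, Fintype.sum_prod_type, Finset.sum_eq_single i]
  · have h1 : ∀ x : X, tenL H n F (i, y) (i, x) * tenL H n F' (i, x) (j, y') =
        if i = j then ((F y x * F' x y' : ℤ) : LH H) else 0 := by
      intro x
      simp only [tenL, Matrix.of_apply, if_true]
      split
      · push_cast; rfl
      · rw [mul_zero]
    rw [Finset.sum_congr rfl (fun x _ => h1 x)]
    have h2 := congrFun (congrFun h y) y'
    rw [Matrix.mul_apply, Matrix.smul_apply, Matrix.one_apply] at h2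
    rw [Matrix.smul_apply, Matrix.one_apply]
    by_cases hij : i = j
    · subst hij
      simp only [if_true]
      rw [← Int.cast_sum, h2]
      by_cases hy : y = y'
      · subst hy; simp
      · have : ¬ ((i, y) : Fin n × Y) = (i, y') := fun hh => hy (Prod.mk.inj hh).2
        simp [hy]
    · have : ¬ ((i, y) : Fin n × Y) = (j, y') := fun hh => hij (Prod.mk.inj hh).1
      simp [hij]
  · intro k _ hk
    apply Finset.sum_eq_zero
    intro x _
    simp only [tenL, Matrix.of_apply]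
    rw [if_neg (fun hh => hk hh.symm), zero_mul]
  · simp

lemma PsiL_inter (ρ : H →* Equiv.Perm X) (σ : H →* Equiv.Perm Y) (F : Matrix Y X ℤ)
    (hF : ∀ h y x, F (σ h y) (ρ h x) = F y x) {n : ℕ} (u : Matrix (Fin n) (Fin n) (LH H)) :
    PsiL σ n u * tenL H n F = tenL H n F * PsiL ρ n u := by
  ext1 ⟨i, y⟩ ⟨j, x⟩
  rw [Matrix.mul_apply, Matrix.mul_apply, Fintype.sum_prod_type, Fintype.sum_prod_type,
    Finset.sum_eq_single j, Finset.sum_eq_single i]
  · simp only [tenL, Matrix.of_apply, if_true, PsiL_apply]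
    exact psiL_inter ρ σ F hF _ _ _
  · intro k _ hk
    apply Finset.sum_eq_zero
    intro x _
    simp only [tenL, Matrix.of_apply]
    rw [if_neg (fun hh => hk hh.symm), zero_mul]
  · simp
  · intro k _ hk
    apply Finset.sum_eq_zero
    intro x _
    simp only [tenL, Matrix.of_apply]
    rw [if_neg hk, mul_zero]
  · simp

/-- Cancel `d`. -/
lemma smul_inj {d : ℤ} (hd : d ≠ 0) {ι κ : Type w} {M M' : Matrix ι κ (LH H)} (h : d • M = d • M') :
    M = M' := by
  ext i j k g
  have h7 := congrArg (fun M : Matrix ι κ (LH H) => ((M i j).coeff k).coeff g) h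
  simp only [Matrix.smul_apply, AddMonoidAlgebra.coeff_smul, Finsupp.smul_apply,
    MonoidAlgebra.coeff_smul, smul_eq_mul] at h7
  exact mul_left_cancel₀ hd h7

/-- reduction modulo `N` -/
def red (H : Type u) [Group H] (N : ℕ) : LH H →+* Lau (MonoidAlgebra (ZMod N) H) :=
  lauMap (MonoidAlgebra.mapRingHom H (Int.castRingHom (ZMod N)))

lemma red_surj (N : ℕ) : Function.Surjective (red H N) := by
  have h1 : Function.Surjective (MonoidAlgebra.mapRingHom H (Int.castRingHom (ZMod N))) := by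
    intro b
    induction b using MonoidAlgebra.induction_linear with
    | zero => exact ⟨0, map_zero _⟩
    | add x y hx hy =>
      obtain ⟨a, ha⟩ := hx
      obtain ⟨b, hb⟩ := hy
      exact ⟨a + b, by rw [map_add, ha, hb]⟩
    | single h r =>
      obtain ⟨k, rfl⟩ := ZMod.intCast_surjective r
      exact ⟨MonoidAlgebra.single h k, by simp⟩
  intro y
  induction y using AddMonoidAlgebra.induction_linear with
  | zero => exact ⟨0, map_zero _⟩
  | add x y hx hy =>
    obtain ⟨a, ha⟩ := hx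
    obtain ⟨b, hb⟩ := hy
    exact ⟨a + b, by rw [map_add, ha, hb]⟩
  | single j b =>
    obtain ⟨a, ha⟩ := h1 b
    exact ⟨AddMonoidAlgebra.single j a, by
      rw [red, lauMap, AddMonoidAlgebra.mapRingHom_single, ha]⟩

lemma red_div (d : ℤ) (x : LH H) (h : red H d.natAbs x = 0) : ∃ y : LH H, x = d • y := by
  have h1 : ∀ j, ∃ b : MonoidAlgebra ℤ H, x.coeff j = d • b := by
    intro j
    apply exists_div
    have := congrArg (fun y : Lau (MonoidAlgebra (ZMod d.natAbs) H) => y.coeff j) h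
    simpa [red, lauMap] using this
  choose b hb using h1
  classical
  refine ⟨AddMonoidAlgebra.ofCoeff (Finsupp.onFinset x.coeff.support
    (fun j => if x.coeff j = 0 then 0 else b j) (by
      intro j hj
      rw [Finsupp.mem_support_iff]
      intro h
      rw [if_pos h] at hj
      exact hj rfl)), ?_⟩
  ext1 j
  rw [AddMonoidAlgebra.coeff_smul, Finsupp.smul_apply, AddMonoidAlgebra.coeff_ofCoeff,
    Finsupp.onFinset_apply]
  by_cases h0 : x.coeff j = 0
  · rw [if_pos h0, h0, smul_zero]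
  · rw [if_neg h0, ← hb]

end Inter

/-! ### intertwined actions give the same class -/

section Main

variable {H : Type u} [Group H] {X Y : Type u} [Fintype X] [DecidableEq X] [Fintype Y]
  [DecidableEq Y]

lemma psiL_c1 (ρ : H →* Equiv.Perm X) (a : LH H) (z z' : X) :
    psiL ρ (c1 _ a) z z' = c1 _ (psiL ρ a z z') := by
  induction a using LH_induction with
  | h0 => simp
  | hadd x y hx hy => simp only [map_add, Matrix.add_apply, hx, hy]
  | hs j h r =>
    have h1 : ∀ (k : ℤ) (b : MonoidAlgebra ℤ H), c1 _ (AddMonoidAlgebra.single k b) =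
        (AddMonoidAlgebra.single 0 b : LH H) := by
      intro k b
      show AddMonoidAlgebra.mapDomain (0 : ℤ →+ ℤ) (AddMonoidAlgebra.single k b) = _
      rw [AddMonoidAlgebra.mapDomain_single]
      rfl
    rw [h1, psiL_single', psiL_single']
    split
    · rw [h1]
    · rw [map_zero]

/-- the class of `Ψ(e(1))` vanishes -/
lemma kap_const (hKA : SpecKA.{u, u, u}) (ρ : H →* Equiv.Perm X) {n : ℕ}
    (e : Matrix (Fin n) (Fin n) (LH H)) (he : e * e = e) :
    kap ρ (e.map (c1 _)) (map_idem (c1 _) he) = 0 := by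
  have h1 : PsiL ρ n (e.map (c1 _)) = (PsiL ρ n e).map (c1 _) := by
    ext1 ⟨i, z⟩ ⟨j, z'⟩
    exact psiL_c1 ρ (e i j) z z'
  unfold kap
  have h2 : K0.clsF (PsiL ρ n (e.map (c1 _))) (PsiL_idem ρ (map_idem (c1 _) he)) =
      K0.clsF ((PsiL ρ n e).map (c1 _)) (map_idem (c1 _) (PsiL_idem ρ he)) := by
    congr 1
  rw [h2]
  exact hKA.const _ _ _ (PsiL_idem ρ he)

/-- the algebraic identity -/
lemma eqv_inter (ρ : H →* Equiv.Perm X) (σ : H →* Equiv.Perm Y)
    (F : Matrix Y X ℤ) (F' : Matrix X Y ℤ) (d : ℤ) (hd : d ≠ 0) (h1 : F * F' = d • 1)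
    (h2 : F' * F = d • 1) (hF : ∀ h y x, F (σ h y) (ρ h x) = F y x) {n : ℕ}
    (e e1 x y z z' : Matrix (Fin n) (Fin n) (LH H))
    (hex : e * x = x) (hxe : x * e1 = x) (hye : y * e = y) (hey : e1 * y = y)
    (hxy : x * y = e + d • z) (hyx : y * x = e1 + d • z') (hze : z * e = z) (hez : e * z = z)
    (hz'e : z' * e1 = z') (hez' : e1 * z' = z') (hzx : z * x = x * z') (hyz : y * z = z' * y) :
    Eqv (Matrix.fromBlocks (PsiL ρ n e) 0 0 (PsiL σ n e1))
      (Matrix.fromBlocks (PsiL σ n e) 0 0 (PsiL ρ n e1)) := by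
  set T := tenL H n F with hT
  set T' := tenL H n F' with hT'
  have t1 : T * T' = d • 1 := tenL_mul (H := H) n F F' d h1
  have t2 : T' * T = d • 1 := tenL_mul (H := H) n F' F d h2
  have c1' : ∀ u, PsiL σ n u * T = T * PsiL ρ n u := PsiL_inter ρ σ F hF
  have c2' : ∀ u, PsiL ρ n u * T' = T' * PsiL σ n u := by
    intro u
    apply smul_inj hd
    have h3 : T' * (PsiL σ n u * T) * T' = T' * (T * PsiL ρ n u) * T' := by rw [c1']
    rw [← Matrix.mul_assoc T' T, t2, Matrix.smul_mul, Matrix.one_mul, Matrix.smul_mul,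
      Matrix.mul_assoc, Matrix.mul_assoc, t1, Matrix.mul_smul, Matrix.mul_one, Matrix.mul_smul] at h3
    exact h3.symm
  have L3 : ∀ u v, PsiL ρ n u * (T' * PsiL σ n v) = T' * PsiL σ n (u * v) := fun u v => by
    rw [← Matrix.mul_assoc, c2', Matrix.mul_assoc, ← map_mul]
  have L4 : ∀ u v, PsiL σ n u * (T * PsiL ρ n v) = T * PsiL ρ n (u * v) := fun u v => by
    rw [← Matrix.mul_assoc, c1', Matrix.mul_assoc, ← map_mul]
  have L5 : ∀ u v, T' * PsiL σ n u * PsiL σ n v = T' * PsiL σ n (u * v) := fun u v => by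
    rw [Matrix.mul_assoc, ← map_mul]
  have L6 : ∀ u v, T * PsiL ρ n u * PsiL ρ n v = T * PsiL ρ n (u * v) := fun u v => by
    rw [Matrix.mul_assoc, ← map_mul]
  have L1 : ∀ u v, T' * PsiL σ n u * (T * PsiL ρ n v) = d • PsiL ρ n (u * v) := fun u v => by
    rw [Matrix.mul_assoc, L4, ← Matrix.mul_assoc, t2, Matrix.smul_mul, Matrix.one_mul]
  have L2 : ∀ u v, T * PsiL ρ n u * (T' * PsiL σ n v) = d • PsiL σ n (u * v) := fun u v => by
    rw [Matrix.mul_assoc, L3, ← Matrix.mul_assoc, t1, Matrix.smul_mul, Matrix.one_mul]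
  refine ⟨Matrix.fromBlocks (-(T' * PsiL σ n z)) (-(PsiL ρ n x)) (PsiL σ n y) (T * PsiL ρ n e1),
    Matrix.fromBlocks (T * PsiL ρ n e) (PsiL σ n x) (-(PsiL ρ n y)) (-(T' * PsiL σ n z')), ?_, ?_⟩
  · rw [Matrix.fromBlocks_multiply]
    congr 1
    · rw [Matrix.neg_mul, Matrix.neg_mul, Matrix.mul_neg, neg_neg, L1, ← map_mul, hze, hxy, map_add,
        map_zsmul]
      abel
    · rw [Matrix.neg_mul, Matrix.neg_mul, Matrix.mul_neg, neg_neg, L3, L5, hzx, neg_add_cancel]
    · rw [Matrix.mul_neg, L4, L6, hye, hey, add_neg_cancel]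
    · rw [Matrix.mul_neg, L2, hez', ← map_mul, hyx, map_add, map_zsmul]
      abel
  · rw [Matrix.fromBlocks_multiply]
    congr 1
    · rw [Matrix.mul_neg, L2, hez, ← map_mul, hxy, map_add, map_zsmul]
      abel
    · rw [Matrix.mul_neg, L4, L6, hex, hxe, neg_add_cancel]
    · rw [Matrix.neg_mul, Matrix.neg_mul, Matrix.mul_neg, neg_neg, L3, L5, hyz, add_neg_cancel]
    · rw [Matrix.neg_mul, Matrix.neg_mul, Matrix.mul_neg, neg_neg, L1, hz'e, ← map_mul, hyx, map_add,
        map_zsmul]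
      abel

lemma kap_inter (hKA : SpecKA.{u, u, u}) (hFIN : SpecFIN.{u}) [Finite H] (ρ : H →* Equiv.Perm X)
    (σ : H →* Equiv.Perm Y) (F : Matrix Y X ℤ) (F' : Matrix X Y ℤ) (d : ℤ) (hd : d ≠ 0)
    (h1 : F * F' = d • 1) (h2 : F' * F = d • 1) (hF : ∀ h y x, F (σ h y) (ρ h x) = F y x) {n : ℕ}
    (e : Matrix (Fin n) (Fin n) (LH H)) (he : e * e = e) : kap ρ e he = kap σ e he := by
  classical
  have : NeZero d.natAbs := ⟨Int.natAbs_ne_zero.2 hd⟩
  have hfin : Finite (MonoidAlgebra (ZMod d.natAbs) H) :=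
    Finite.of_injective (fun (a : MonoidAlgebra (ZMod d.natAbs) H) (g : H) => a.coeff g)
      (fun a b hab => MonoidAlgebra.coeff_injective (DFunLike.coe_injective hab))
  set f := red H d.natAbs with hf
  obtain ⟨g, hg⟩ := hFIN (MonoidAlgebra (ZMod d.natAbs) H) n (e.map f) (map_idem f he)
  set e1 := e.map (c1 (MonoidAlgebra ℤ H)) with he1
  have he1e : e1 * e1 = e1 := map_idem (c1 _) he
  have hcomm : (e.map f).map (c1 _) = e1.map f := by
    ext1 i j
    simp only [Matrix.map_apply, he1]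
    have := congrArg (fun F => F (e i j)) (AddMonoidAlgebra.mapRingHom_comp_mapDomainRingHom
      (MonoidAlgebra.mapRingHom H (Int.castRingHom (ZMod d.natAbs))) (0 : ℤ →+ ℤ))
    exact this.symm
  rw [hcomm] at hg
  -- lifts of `g` and `g⁻¹`
  choose G hG using fun i j => red_surj (H := H) d.natAbs ((g : Matrix (Fin n) (Fin n) _) i j)
  choose G' hG' using fun i j => red_surj (H := H) d.natAbs
    (((g⁻¹ : (Matrix (Fin n) (Fin n) (Lau (MonoidAlgebra (ZMod d.natAbs) H)))ˣ) :
      Matrix (Fin n) (Fin n) _) i j)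
  have hGf : (Matrix.of G).map f = (g : Matrix (Fin n) (Fin n) _) := by
    ext1 i j
    exact hG i j
  have hGf' : (Matrix.of G').map f =
      ((g⁻¹ : (Matrix (Fin n) (Fin n) (Lau (MonoidAlgebra (ZMod d.natAbs) H)))ˣ) :
      Matrix (Fin n) (Fin n) _) := by
    ext1 i j
    exact hG' i j
  set x := e * Matrix.of G * e1 with hx
  set y := e1 * Matrix.of G' * e with hy
  have hef : e.map f * e.map f = e.map f := map_idem f he
  have he1f : e1.map f * e1.map f = e1.map f := map_idem f he1e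
  have hxf : x.map f = (g : Matrix (Fin n) (Fin n) _) * e1.map f := by
    rw [hx, Matrix.map_mul, Matrix.map_mul, hGf, hg, Matrix.mul_assoc, he1f]
  have hg' : ((g⁻¹ : (Matrix (Fin n) (Fin n) (Lau (MonoidAlgebra (ZMod d.natAbs) H)))ˣ) :
      Matrix (Fin n) (Fin n) _) * e.map f = e1.map f *
      ((g⁻¹ : (Matrix (Fin n) (Fin n) (Lau (MonoidAlgebra (ZMod d.natAbs) H)))ˣ) :
      Matrix (Fin n) (Fin n) _) := by
    have := congrArg (fun M => ((g⁻¹ : (Matrix (Fin n) (Fin n)
      (Lau (MonoidAlgebra (ZMod d.natAbs) H)))ˣ) : Matrix (Fin n) (Fin n) _) * M *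
      ((g⁻¹ : (Matrix (Fin n) (Fin n) (Lau (MonoidAlgebra (ZMod d.natAbs) H)))ˣ) :
      Matrix (Fin n) (Fin n) _)) hg
    rw [Matrix.mul_assoc, Matrix.mul_assoc, Units.mul_inv, Matrix.mul_one, ← Matrix.mul_assoc,
      Units.inv_mul, Matrix.one_mul] at this
    exact this
  have hyf : y.map f = ((g⁻¹ : (Matrix (Fin n) (Fin n)
      (Lau (MonoidAlgebra (ZMod d.natAbs) H)))ˣ) : Matrix (Fin n) (Fin n) _) * e.map f := by
    rw [hy, Matrix.map_mul, Matrix.map_mul, hGf', ← hg', Matrix.mul_assoc, hef]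
  have div : ∀ M : Matrix (Fin n) (Fin n) (LH H), M.map f = 0 → ∃ M', M = d • M' := by
    intro M hM
    choose M' hM' using fun i j => red_div (H := H) d (M i j) (congrFun (congrFun hM i) j)
    exact ⟨Matrix.of M', by ext1 i j; exact hM' i j⟩
  obtain ⟨z, hz⟩ := div (x * y - e) (by
    rw [Matrix.map_sub f (map_sub f), Matrix.map_mul, hxf, hyf, Matrix.mul_assoc,
      ← Matrix.mul_assoc (e1.map f), ← hg', Matrix.mul_assoc, hef, ← Matrix.mul_assoc,
      Units.mul_inv, Matrix.one_mul, sub_self])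
  obtain ⟨z', hz'⟩ := div (y * x - e1) (by
    rw [Matrix.map_sub f (map_sub f), Matrix.map_mul, hxf, hyf, Matrix.mul_assoc,
      ← Matrix.mul_assoc (e.map f), hg, Matrix.mul_assoc, he1f, ← Matrix.mul_assoc,
      Units.inv_mul, Matrix.one_mul, sub_self])
  have hxy : x * y = e + d • z := by rw [← hz]; abel
  have hyx : y * x = e1 + d • z' := by rw [← hz']; abel
  have hex : e * x = x := by rw [hx, ← Matrix.mul_assoc, ← Matrix.mul_assoc, he]
  have hxe : x * e1 = x := by rw [hx, Matrix.mul_assoc, he1e]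
  have hye : y * e = y := by rw [hy, Matrix.mul_assoc, he]
  have hey : e1 * y = y := by rw [hy, ← Matrix.mul_assoc, ← Matrix.mul_assoc, he1e]
  have hze : z * e = z := by
    apply smul_inj hd
    rw [← Matrix.smul_mul, ← hz, Matrix.sub_mul, Matrix.mul_assoc, hye, he]
  have hez : e * z = z := by
    apply smul_inj hd
    rw [← Matrix.mul_smul, ← hz, Matrix.mul_sub, ← Matrix.mul_assoc, hex, he]
  have hz'e : z' * e1 = z' := by
    apply smul_inj hd
    rw [← Matrix.smul_mul, ← hz', Matrix.sub_mul, Matrix.mul_assoc, hxe, he1e]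
  have hez' : e1 * z' = z' := by
    apply smul_inj hd
    rw [← Matrix.mul_smul, ← hz', Matrix.mul_sub, ← Matrix.mul_assoc, hey, he1e]
  have hzx : z * x = x * z' := by
    apply smul_inj hd
    rw [← Matrix.smul_mul, ← hz, ← Matrix.mul_smul, ← hz', Matrix.sub_mul, Matrix.mul_sub, hex,
      hxe, Matrix.mul_assoc]
  have hyz : y * z = z' * y := by
    apply smul_inj hd
    rw [← Matrix.mul_smul, ← hz, ← Matrix.smul_mul, ← hz', Matrix.sub_mul, Matrix.mul_sub, hye,
      hey, ← Matrix.mul_assoc y]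
  have key := eqv_inter ρ σ F F' d hd h1 h2 hF e e1 x y z z' hex hxe hye hey hxy hyx hze hez hz'e
    hez' hzx hyz
  have hb1 : Matrix.fromBlocks (PsiL ρ n e) 0 0 (PsiL σ n e1) * Matrix.fromBlocks (PsiL ρ n e) 0 0 (PsiL σ n e1) =
      Matrix.fromBlocks (PsiL ρ n e) 0 0 (PsiL σ n e1) := by
    rw [Matrix.fromBlocks_multiply]
    simp [PsiL_idem ρ he, PsiL_idem σ he1e]
  have hb2 : Matrix.fromBlocks (PsiL σ n e) 0 0 (PsiL ρ n e1) * Matrix.fromBlocks (PsiL σ n e) 0 0 (PsiL ρ n e1) =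
      Matrix.fromBlocks (PsiL σ n e) 0 0 (PsiL ρ n e1) := by
    rw [Matrix.fromBlocks_multiply]
    simp [PsiL_idem σ he, PsiL_idem ρ he1e]
  have k1 := hKA.eqv _ _ _ _ _ hb1 hb2 key
  rw [hKA.sum _ _ _ _ _ (PsiL_idem ρ he) (PsiL_idem σ he1e) hb1,
    hKA.sum _ _ _ _ _ (PsiL_idem σ he) (PsiL_idem ρ he1e) hb2] at k1
  have k2 := congrArg (Km1.mk (MonoidAlgebra ℤ H)) k1
  rw [map_add, map_add] at k2
  have k3 : kap ρ e he + kap σ e1 he1e = kap σ e he + kap ρ e1 he1e := k2
  rw [kap_const hKA σ e he, kap_const hKA ρ e he, add_zero, add_zero] at k3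
  exact k3

end Main

/-! ### induction and restriction -/

section Res

variable {H : Type u} [Group H]

/-- Descent of idempotent matrices along an injective ring homomorphism. -/
lemma descend {A B : Type u} [Ring A] [Ring B] (f : B →+* A) (hf : Function.Injective f)
    {ι : Type w} [Fintype ι] (x : Matrix ι ι A) (hx : x * x = x)
    (h1 : ∀ i j, ∃ b, f b = x i j) : ∃ y : Matrix ι ι B, y * y = y ∧ y.map f = x := by
  choose g hg using h1
  have e1 : (Matrix.of g).map f = x := by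
    ext1 i j; exact hg i j
  refine ⟨Matrix.of g, ?_, e1⟩
  have hinj : Function.Injective (fun M : Matrix ι ι B => M.map f) := by
    intro M M' hM
    ext1 i j
    exact hf (congrFun (congrFun hM i) j)
  apply hinj
  show (Matrix.of g * Matrix.of g).map f = (Matrix.of g).map f
  rw [Matrix.map_mul, e1, hx]

lemma quo_entryL (C : Subgroup H) [Fintype (H ⧸ C)] [DecidableEq (H ⧸ C)] (a : LH H)
    (z z' : H ⧸ C) : ∃ b : Lau (MonoidAlgebra ℤ C),
      lauMap (MonoidAlgebra.mapDomainRingHom ℤ C.subtype) b =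
        AddMonoidAlgebra.single 0 (MonoidAlgebra.single (z.out)⁻¹ 1) * psiL (quoPerm C) a z z' *
          AddMonoidAlgebra.single 0 (MonoidAlgebra.single (z'.out) 1) := by
  induction a using AddMonoidAlgebra.induction_linear with
  | zero => exact ⟨0, by simp⟩
  | add x y hx hy =>
    obtain ⟨b, hb⟩ := hx
    obtain ⟨c, hc⟩ := hy
    refine ⟨b + c, ?_⟩
    simp only [map_add, Matrix.add_apply, mul_add, add_mul, hb, hc]
  | single j a =>
    obtain ⟨b, hb⟩ := quo_entry C a z z'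
    refine ⟨AddMonoidAlgebra.single j b, ?_⟩
    rw [psiL_single, lauMap, AddMonoidAlgebra.mapRingHom_single, hb,
      AddMonoidAlgebra.single_mul_single, AddMonoidAlgebra.single_mul_single, zero_add, add_zero]

/-- The diagonal matrices of coset representatives. -/
def dia (C : Subgroup H) [Fintype (H ⧸ C)] [DecidableEq (H ⧸ C)] (n : ℕ) :
    Matrix (Fin n × (H ⧸ C)) (Fin n × (H ⧸ C)) (LH H) :=
  Matrix.diagonal fun z => AddMonoidAlgebra.single 0 (MonoidAlgebra.single (z.2.out) 1)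

def dia' (C : Subgroup H) [Fintype (H ⧸ C)] [DecidableEq (H ⧸ C)] (n : ℕ) :
    Matrix (Fin n × (H ⧸ C)) (Fin n × (H ⧸ C)) (LH H) :=
  Matrix.diagonal fun z => AddMonoidAlgebra.single 0 (MonoidAlgebra.single (z.2.out)⁻¹ 1)

lemma dia_mul (C : Subgroup H) [Fintype (H ⧸ C)] [DecidableEq (H ⧸ C)] (n : ℕ) :
    dia C n * dia' C n = 1 := by
  rw [dia, dia', Matrix.diagonal_mul_diagonal]
  simp only [AddMonoidAlgebra.single_mul_single, MonoidAlgebra.single_mul_single, mul_inv_cancel,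
    one_mul, add_zero]
  exact Matrix.diagonal_one

lemma kap_quo (hKA : SpecKA.{u, u, u}) (C : Subgroup H) [Fintype (H ⧸ C)] [DecidableEq (H ⧸ C)]
    {n : ℕ} (e : Matrix (Fin n) (Fin n) (LH H)) (he : e * e = e) :
    ∃ y : Km1 (MonoidAlgebra ℤ C),
      Km1.map (MonoidAlgebra.mapDomainRingHom ℤ C.subtype) y = kap (quoPerm C) e he := by
  have hinj0 : Function.Injective (MonoidAlgebra.mapDomainRingHom ℤ C.subtype) :=
    MonoidAlgebra.mapDomain_injective C.subtype_injective
  have hinj : Function.Injective (lauMap (MonoidAlgebra.mapDomainRingHom ℤ C.subtype)) := by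
    intro a b hab
    ext1 j
    apply hinj0
    have := congrArg (fun y : LH H => y.coeff j) hab
    simpa [lauMap] using this
  set P := PsiL (quoPerm C) n e with hP
  have hPP : P * P = P := PsiL_idem (quoPerm C) he
  have hid : (dia' C n * P * dia C n) * (dia' C n * P * dia C n) = dia' C n * P * dia C n := by
    have h1 : (dia' C n * P * dia C n) * (dia' C n * P * dia C n) =
        dia' C n * P * (dia C n * dia' C n) * P * dia C n := by
      simp only [Matrix.mul_assoc]
    rw [h1, dia_mul, Matrix.mul_one, Matrix.mul_assoc (dia' C n) P P, hPP]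
  obtain ⟨y, hy, hyx⟩ := descend (lauMap (MonoidAlgebra.mapDomainRingHom ℤ C.subtype)) hinj
    (dia' C n * P * dia C n) hid (by
      intro i j
      rw [dia, dia', Matrix.mul_diagonal, Matrix.diagonal_mul]
      exact quo_entryL C _ _ _)
  refine ⟨Km1.mk _ (K0.clsF y hy), ?_⟩
  rw [Km1.map_mk, kap]
  congr 1
  rw [hKA.map]
  refine hKA.eqv _ _ _ _ _ _ _ ⟨dia' C n * P, P * dia C n, ?_, ?_⟩
  · rw [hyx, ← Matrix.mul_assoc, Matrix.mul_assoc (dia' C n) P P, hPP]
  · rw [Matrix.mul_assoc, ← Matrix.mul_assoc (dia C n), dia_mul, Matrix.one_mul, hPP]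

end Res

/-! ### the theorem -/

section Final

variable {H : Type u} [Group H]

/-- The subgroup generated by the images of the cyclic subgroups. -/
def cycSub (H : Type u) [Group H] : AddSubgroup (Km1 (MonoidAlgebra ℤ H)) :=
  AddSubgroup.closure {y | ∃ (C : Subgroup H) (_ : IsCyclic C) (z : Km1 (MonoidAlgebra ℤ C)),
    Km1.map (MonoidAlgebra.mapDomainRingHom ℤ C.subtype) z = y}

lemma exists_list (y : Km1 (MonoidAlgebra ℤ H)) (hy : y ∈ cycSub H) :
    ∃ l : List (Σ C : {C : Subgroup H // IsCyclic C}, Km1 (MonoidAlgebra ℤ C.1)),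
      y = (l.map fun p => Km1.map (MonoidAlgebra.mapDomainRingHom ℤ p.1.1.subtype) p.2).sum := by
  induction hy using AddSubgroup.closure_induction with
  | mem y hy =>
    obtain ⟨C, hC, z, rfl⟩ := hy
    exact ⟨[⟨⟨C, hC⟩, z⟩], by simp⟩
  | zero => exact ⟨[], by simp⟩
  | add x y _ _ hx hy =>
    obtain ⟨l, rfl⟩ := hx
    obtain ⟨l', rfl⟩ := hy
    exact ⟨l ++ l', by simp⟩
  | neg x _ hx =>
    obtain ⟨l, rfl⟩ := hx
    refine ⟨l.map fun p => ⟨p.1, - p.2⟩, ?_⟩
    rw [List.map_map]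
    rename_i hmem
    clear hmem
    induction l with
    | nil => simp
    | cons p l ih =>
      simp only [List.map_cons, List.sum_cons, neg_add, Function.comp, map_neg]
      rw [ih]

/-- The torsion statement for classes of idempotents. -/
lemma exists_mem (hKA : SpecKA.{u, u, u}) (hKA' : SpecKA.{u, u, 0}) (hFIN : SpecFIN.{u})
    (hR : SpecR.{u}) [Finite H] : ∃ (m : ℕ) (_ : 0 < m), ∀ (n : ℕ)
    (e : Matrix (Fin n) (Fin n) (LH H)) (he : e * e = e),
    m • Km1.mk (MonoidAlgebra ℤ H) (K0.cls e he) ∈ cycSub H := by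
  classical
  obtain ⟨m, hm, a, b, C, C', hC, hC', X, Y, fX, fY, dX, dY, aX, aY, eX, eY, heX, heY, F, F', d,
    hd, h1, h2, hF⟩ := hR H
  let _ := fun i => Fintype.ofFinite (H ⧸ C i)
  let _ := fun i => Fintype.ofFinite (H ⧸ C' i)
  refine ⟨m, hm, fun n e he => ?_⟩
  have key := kap_inter hKA hFIN (MulAction.toPermHom H X) (MulAction.toPermHom H Y) F F' d
    hd h1 h2 hF e he
  let σ : X ≃ (Σ _ : Fin m, PUnit.{u + 1}) ⊕ Σ j, H ⧸ C' j :=
    eX.trans (Equiv.sumCongr ⟨fun i => ⟨i, PUnit.unit⟩, fun i => i.1, fun _ => rfl, fun _ => rfl⟩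
      (Equiv.refl _))
  have kX : kap (MulAction.toPermHom H X) e he =
      m • Km1.mk _ (K0.cls e he) + ∑ j, kap (quoPerm (C' j)) e he := by
    rw [← kap_equiv hKA (MulAction.toPermHom H X)
      (sumPerm (sigmaPerm fun _ : Fin m => (1 : H →* Equiv.Perm PUnit.{u + 1}))
        (sigmaPerm fun j => quoPerm (C' j))) σ
      (by
        intro h x
        rw [show (MulAction.toPermHom H X h) x = h • x from rfl]
        show Sum.map _ id (eX (h • x)) = _
        rw [heX]
        show _ = (sumPerm (sigmaPerm fun _ : Fin m => (1 : H →* Equiv.Perm PUnit.{u + 1}))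
          (sigmaPerm fun j => quoPerm (C' j))) h (Sum.map _ id (eX x))
        rcases eX x with i | z <;> rfl) e he, kap_sum hKA, kap_triv hKA hKA', kap_sigma hKA]
  have kY : kap (MulAction.toPermHom H Y) e he = ∑ j, kap (quoPerm (C j)) e he := by
    rw [← kap_equiv hKA (MulAction.toPermHom H Y) (sigmaPerm fun j => quoPerm (C j)) eY
      (by
        intro h x
        rw [show (MulAction.toPermHom H Y h) x = h • x from rfl, heY]
        rfl) e he, kap_sigma hKA]
  have mem : ∀ D : Subgroup H, IsCyclic D → ∀ [Fintype (H ⧸ D)], kap (quoPerm D) e he ∈ cycSub H := by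
    intro D hD _
    obtain ⟨y, hy⟩ := kap_quo hKA D e he
    rw [← hy]
    exact AddSubgroup.subset_closure ⟨D, hD, y, rfl⟩
  have h3 : m • Km1.mk (MonoidAlgebra ℤ H) (K0.cls e he) = ∑ j, kap (quoPerm (C j)) e he -
      ∑ j, kap (quoPerm (C' j)) e he := by
    rw [← kY, ← key, kX, add_sub_cancel_right]
  rw [h3]
  refine AddSubgroup.sub_mem _ ?_ ?_
  · exact AddSubgroup.sum_mem _ (fun j _ => mem _ (hC j))
  · exact AddSubgroup.sum_mem _ (fun j _ => mem _ (hC' j))

end Final

end ARTMod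

/-- ART, from KA and FIN. -/
theorem specART_of (hKA : SpecKA.{u, u, u}) (hKA' : SpecKA.{u, u, 0}) (hFIN : SpecFIN.{u})
    (hR : WH.SpecR.{u}) : SpecART.{u} := by
  intro H _ _ x
  obtain ⟨m, hm, hmem⟩ := ARTMod.exists_mem (H := H) hKA hKA' hFIN hR
  obtain ⟨y, rfl⟩ := Km1.mk_surjective _ x
  obtain ⟨n, k, e, he, rfl⟩ := hKA.rep _ y
  have hone : m • Km1.mk (MonoidAlgebra ℤ H) (K0.one _) ∈ ARTMod.cycSub H := hmem 1 1 (mul_one 1)
  have hx : m • Km1.mk (MonoidAlgebra ℤ H) (K0.cls e he - k • K0.one _) ∈ ARTMod.cycSub H := by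
    rw [map_sub, smul_sub, map_nsmul, smul_comm m k]
    exact AddSubgroup.sub_mem _ (hmem n e he) (AddSubgroup.nsmul_mem _ hone _)
  obtain ⟨l, hl⟩ := ARTMod.exists_list _ hx
  refine ⟨m, hm, l.length, fun i => (l.get i).1.1, fun i => (l.get i).1.2,
    fun i => (l.get i).2, ?_⟩
  rw [hl, ← List.sum_ofFn]
  congr 1
  rw [List.ext_get_iff]
  simp

/-- ART, from FIN. -/
theorem specART (hFIN : SpecFIN.{u}) : SpecART.{u} := specART_of specKA specKA hFIN WH.specR

end Pool.Agent.Lib.MPb6f35e.ZK
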