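import Pool.Agent.Lib.MP_b6f35e_al.ZK.Spec
import Mathlib

/-!
# `K[t, t⁻¹]` is a PID; idempotent matrices over it (MP_b6f35e_al, ZK)

`pid_lau`, `exists_diag` (idempotent matrices over a PID are diagonalizable), `cj_field`.
-/

set_option autoImplicit false

noncomputable section

namespace Pool.Agent.Lib.MPb6f35e.ZK

universe u v w w'

namespace FINMod

/-- `K[t, t⁻¹]` is a principal ideal ring. -/
theorem pid_lau (K : Type u) [Field K] : IsPrincipalIdealRing (LaurentPolynomial K) := by
  constructor
  intro J
  have h := IsLocalization.map_under (Submonoid.powers (Polynomial.X : Polynomial K))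
    (LaurentPolynomial K) J
  obtain ⟨f, hf⟩ := (IsPrincipalIdealRing.principal (Ideal.under (Polynomial K) J)).1
  refine ⟨algebraMap (Polynomial K) (LaurentPolynomial K) f, ?_⟩
  rw [← h, hf]
  rw [Ideal.submodule_span_eq, Ideal.map_span, Set.image_singleton]

/-- Over a principal ideal domain an idempotent matrix is conjugate to a diagonal matrix of zeros
and ones. -/
theorem exists_diag {R : Type u} [CommRing R] [IsDomain R] [IsPrincipalIdealRing R] {n : Type w}
    [Fintype n] [DecidableEq n] (e : Matrix n n R) (he : e * e = e) :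
    ∃ (g : (Matrix n n R)ˣ) (s : n → Prop) (_ : DecidablePred s),
      e * (g : Matrix n n R) = (g : Matrix n n R) * Matrix.diagonal (fun i => if s i then 1 else 0) := by
  classical
  set f : (n → R) →ₗ[R] (n → R) := Matrix.toLin' e with hf
  have hff : f ∘ₗ f = f := by
    rw [hf, ← Matrix.toLin'_mul, he]
  have hidem : IsIdempotentElem f := hff
  have hc : IsCompl (LinearMap.range f) (LinearMap.ker f) := by
    have := LinearMap.IsIdempotentElem.isCompl hidem
    exact this
  obtain ⟨r₁, b₁⟩ := Submodule.basisOfPid (Pi.basisFun R n) (LinearMap.range f)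
  obtain ⟨r₂, b₂⟩ := Submodule.basisOfPid (Pi.basisFun R n) (LinearMap.ker f)
  let b : Module.Basis (Fin r₁ ⊕ Fin r₂) R (n → R) :=
    (b₁.prod b₂).map (Submodule.prodEquivOfIsCompl _ _ hc)
  have hcard : Nonempty (Fin r₁ ⊕ Fin r₂ ≃ n) := ⟨b.indexEquiv (Pi.basisFun R n)⟩
  obtain ⟨σ⟩ := hcard
  let b' : Module.Basis n R (n → R) := b.reindex σ
  have hb' : ∀ i, f (b' i) = if (σ.symm i).isLeft then b' i else 0 := by
    intro i
    simp only [b', Module.Basis.reindex_apply]
    rcases h : σ.symm i with j | j
    · simp only [Sum.isLeft_inl, if_true]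
      have : b (Sum.inl j) = (b₁ j : n → R) := by
        simp [b]
      rw [this]
      obtain ⟨y, hy⟩ := (b₁ j).2
      rw [← hy]
      exact congrArg (fun F => F y) hff
    · simp only [Sum.isLeft_inr]
      have : b (Sum.inr j) = (b₂ j : n → R) := by
        simp [b]
      rw [this]
      simp
  let G : Matrix n n R := (Pi.basisFun R n).toMatrix b'
  let H : Matrix n n R := b'.toMatrix (Pi.basisFun R n)
  have hGH : G * H = 1 := Module.Basis.toMatrix_mul_toMatrix_flip _ _
  have hHG : H * G = 1 := Module.Basis.toMatrix_mul_toMatrix_flip _ _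
  refine ⟨⟨G, H, hGH, hHG⟩, fun i => (σ.symm i).isLeft = true, inferInstance, ?_⟩
  ext i j
  have h1 : (e * G) i j = f (b' j) i := by
    simp only [Matrix.mul_apply, G, Module.Basis.toMatrix_apply, hf, Matrix.toLin'_apply, Matrix.mulVec,
      dotProduct, Pi.basisFun_repr]
  have h2 : (G * Matrix.diagonal (fun i => if (σ.symm i).isLeft = true then (1 : R) else 0)) i j =
      b' j i * (if (σ.symm j).isLeft = true then (1 : R) else 0) := by
    rw [Matrix.mul_diagonal]
    simp only [G, Module.Basis.toMatrix_apply, Pi.basisFun_repr]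
  show (e * G) i j = (G * Matrix.diagonal (fun i => if (σ.symm i).isLeft = true then (1 : R) else 0)) i j
  rw [h1, h2, hb' j]
  split_ifs <;> simp

/-! ### rings with an idempotent endomorphism -/

/-- Every idempotent `e` of `S` is conjugate to `c(e)`. -/
def Cj (S : Type u) [Ring S] (c : S →+* S) : Prop :=
  ∀ e : S, e * e = e → ∃ g : Sˣ, e * (g : S) = (g : S) * c e

/-- If `e` is conjugate to an idempotent fixed by `c`, then it is conjugate to `c(e)`. -/
theorem cj_of_fixed {S : Type u} [Ring S] (c : S →+* S) (e D : S) (g : Sˣ)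
    (h : e * (g : S) = (g : S) * D) (hD : c D = D) : ∃ g : Sˣ, e * (g : S) = (g : S) * c e := by
  refine ⟨g * (Units.map (c : S →* S) g)⁻¹, ?_⟩
  set G : Sˣ := Units.map (c : S →* S) g with hG
  have h1 : c e * (G : S) = (G : S) * D := by
    have := congrArg c h
    rw [map_mul, map_mul, hD] at this
    exact this
  have h2 : (G⁻¹ : Sˣ) * c e = D * ((G⁻¹ : Sˣ) : S) := by
    rw [← Units.mul_left_inj G, mul_assoc, h1, ← mul_assoc, Units.inv_mul, one_mul, mul_assoc,
      Units.inv_mul, mul_one]
  rw [Units.val_mul, ← mul_assoc, h, mul_assoc, mul_assoc, h2]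

/-- `t ↦ 1` on matrices -/
def mc1 (A : Type u) [Ring A] (n : Type w) [Fintype n] [DecidableEq n] :
    Matrix n n (Lau A) →+* Matrix n n (Lau A) := (c1 A).mapMatrix

/-- Over a field. -/
theorem cj_field (K : Type u) [Field K] (n : Type w) [Fintype n] [DecidableEq n] :
    Cj (Matrix n n (Lau K)) (mc1 K n) := by
  intro e he
  have := pid_lau K
  obtain ⟨g, s, hs, h⟩ := exists_diag (R := LaurentPolynomial K) e he
  refine cj_of_fixed (mc1 K n) e _ g h ?_
  show (Matrix.diagonal (fun i => if s i then (1 : Lau K) else 0)).map (c1 K) = _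
  rw [Matrix.diagonal_map (map_zero _)]
  congr 1
  ext1 i
  split_ifs
  · exact map_one _
  · exact map_zero _

end FINMod

end Pool.Agent.Lib.MPb6f35e.ZK
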