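import Pool.Agent.Lib.MP_b6f35e_al.ZK.DEDC
import Pool.Agent.Lib.MP_b6f35e_al.ZK.LauPID

/-!
# ZK, module DED: `[e(t)] = [e(1)]` in `K_0(O[t, t⁻¹])`, `O` a Dedekind domain
-/

set_option autoImplicit false

noncomputable section

namespace Pool.Agent.Lib.MPb6f35e.ZK

namespace DEDMod

universe u v w w' x

/-! ### clearing denominators -/

section clear

variable {O : Type u} [CommRing O] [IsDomain O]

/-- `O[t, t⁻¹] → K[t, t⁻¹]` -/
abbrev jK (O : Type u) [CommRing O] [IsDomain O] : Lau O →+* Lau (FractionRing O) :=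
  lauMap (algebraMap O (FractionRing O))

theorem jK_inj : Function.Injective (jK O) := by
  rw [injective_iff_map_eq_zero]
  intro a ha
  ext k
  have h := congrArg (fun b : Lau (FractionRing O) => b.coeff k) ha
  have h2 : algebraMap O (FractionRing O) (a.coeff k) = 0 := by
    rw [← lauMap_coeff]
    exact h
  exact (IsFractionRing.injective O (FractionRing O)) (by rw [h2]; exact (map_zero _).symm)

theorem jK_single (n : ℤ) (x : O) : jK O (AddMonoidAlgebra.single n x) =
    AddMonoidAlgebra.single n (algebraMap O (FractionRing O) x) := by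
  show AddMonoidAlgebra.mapRingHom ℤ _ (AddMonoidAlgebra.single n x) = _
  rw [AddMonoidAlgebra.mapRingHom_single]

theorem jK_cst (x : O) : jK O (cst O x) = cst (FractionRing O) (algebraMap O (FractionRing O) x) := by
  rw [cst_apply, cst_apply, jK_single]

theorem clear_one (f : Lau (FractionRing O)) : ∃ (δ : O) (_ : δ ≠ 0) (F : Lau O),
    jK O F = jK O (cst O δ) * f := by
  induction f using AddMonoidAlgebra.induction_linear with
  | zero => exact ⟨1, one_ne_zero, 0, by simp⟩
  | add x y hx hy =>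
    obtain ⟨δ, hδ, F, hF⟩ := hx
    obtain ⟨δ', hδ', F', hF'⟩ := hy
    refine ⟨δ * δ', mul_ne_zero hδ hδ', cst O δ' * F + cst O δ * F', ?_⟩
    rw [map_add, map_mul, map_mul, hF, hF', map_mul, map_mul]
    ring
  | single n c =>
    obtain ⟨a, b, hb, rfl⟩ := IsFractionRing.div_surjective (A := O) c
    have hb0 : b ≠ 0 := nonZeroDivisors.ne_zero hb
    refine ⟨b, hb0, AddMonoidAlgebra.single n a, ?_⟩
    rw [jK_cst, cst_apply, AddMonoidAlgebra.single_mul_single, zero_add, jK_single,
      mul_div_cancel₀]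
    intro h
    exact hb0 ((IsFractionRing.injective O (FractionRing O)) (by rw [h, map_zero]))

open Classical in
theorem clear_mat {n : ℕ} (f : Matrix (Fin n) (Fin n) (Lau (FractionRing O))) :
    ∃ (δ : O) (_ : δ ≠ 0) (F : Matrix (Fin n) (Fin n) (Lau O)),
    F.map (jK O) = jK O (cst O δ) • f := by
  choose δ hδ F hF using fun i j => clear_one (f i j)
  refine ⟨∏ k : Fin n × Fin n, δ k.1 k.2, Finset.prod_ne_zero_iff.2 fun k _ => hδ k.1 k.2,
    Matrix.of fun i j => cst O (∏ k ∈ Finset.univ.erase ((i, j) : Fin n × Fin n), δ k.1 k.2) *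
      F i j, ?_⟩
  ext1 i j
  rw [Matrix.map_apply, Matrix.of_apply, map_mul, hF, Matrix.smul_apply, smul_eq_mul, ← mul_assoc,
    ← map_mul, ← map_mul]
  congr 3
  rw [mul_comm]
  exact Finset.mul_prod_erase Finset.univ (fun k : Fin n × Fin n => δ k.1 k.2)
    (Finset.mem_univ (i, j))

end clear

theorem c1_nat {A : Type u} {B : Type v} [Ring A] [Ring B] (f : A →+* B) (a : Lau A) :
    c1 B (lauMap f a) = lauMap f (c1 A a) := by
  induction a using AddMonoidAlgebra.induction_linear with
  | zero => simp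
  | add x y hx hy => simp only [map_add, hx, hy]
  | single n c =>
    simp only [c1, lauMap, AddMonoidAlgebra.mapRingHom_single,
      AddMonoidAlgebra.mapDomainRingHom_apply, AddMonoidAlgebra.mapDomain_single]

theorem c1_c1 {A : Type u} [Ring A] (a : Lau A) : c1 A (c1 A a) = c1 A a := by
  induction a using AddMonoidAlgebra.induction_linear with
  | zero => simp
  | add x y hx hy => simp only [map_add, hx, hy]
  | single n c =>
    simp only [c1, AddMonoidAlgebra.mapDomainRingHom_apply, AddMonoidAlgebra.mapDomain_single]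
    rfl

theorem main {O : Type u} [CommRing O] [IsDedekindDomain O] (n : ℕ)
    (e : Matrix (Fin n) (Fin n) (Lau O)) (he : e * e = e) :
    K0.cls e he = K0.cls (e.map (c1 O)) (map_idem (c1 O) he) := by
  have heK : e.map (jK O) * e.map (jK O) = e.map (jK O) := by rw [← Matrix.map_mul, he]
  obtain ⟨g, hg⟩ := FINMod.cj_field (FractionRing O) (Fin n) (e.map (jK O)) heK
  set e1 := e.map (c1 O) with he1
  have he1' : e1 * e1 = e1 := map_idem (c1 O) he
  have h1K : FINMod.mc1 (FractionRing O) (Fin n) (e.map (jK O)) = e1.map (jK O) := by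
    ext1 i j
    exact c1_nat (algebraMap O (FractionRing O)) (e i j)
  rw [h1K] at hg
  have he1K : e1.map (jK O) * e1.map (jK O) = e1.map (jK O) := by rw [← Matrix.map_mul, he1']
  obtain ⟨δ, hδ, X, hX⟩ := clear_mat (g : Matrix (Fin n) (Fin n) (Lau (FractionRing O)))
  obtain ⟨δ', hδ', Y, hY⟩ := clear_mat ((g⁻¹ : (Matrix (Fin n) (Fin n) (Lau (FractionRing O)))ˣ) :
    Matrix (Fin n) (Fin n) (Lau (FractionRing O)))
  have hinj : Function.Injective (fun Z : Matrix (Fin n) (Fin n) (Lau O) => Z.map (jK O)) := by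
    intro Z Z' h
    ext1 i j
    exact jK_inj (congrFun (congrFun h i) j)
  have hex : e * (X * e1) = X * e1 := by
    apply hinj
    show (e * (X * e1)).map (jK O) = (X * e1).map (jK O)
    rw [Matrix.map_mul, Matrix.map_mul, hX, Matrix.smul_mul, Matrix.mul_smul, ← hg,
      ← Matrix.mul_assoc, heK]
  have hyx : (Y * e) * (X * e1) = cst O (δ * δ') • e1 := by
    apply hinj
    show ((Y * e) * (X * e1)).map (jK O) = (cst O (δ * δ') • e1).map (jK O)
    have h2 : (cst O (δ * δ') • e1).map (jK O) = jK O (cst O (δ * δ')) • e1.map (jK O) := by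
      ext1 i j
      exact map_mul (jK O) _ _
    have h3 : ((g⁻¹ : (Matrix (Fin n) (Fin n) (Lau (FractionRing O)))ˣ) :
        Matrix (Fin n) (Fin n) (Lau (FractionRing O))) * e.map (jK O) *
        ((g : Matrix (Fin n) (Fin n) (Lau (FractionRing O))) * e1.map (jK O)) =
        e1.map (jK O) := by
      rw [← hg, Matrix.mul_assoc, ← Matrix.mul_assoc (e.map (jK O)) (e.map (jK O)), heK, hg,
        ← Matrix.mul_assoc, Units.inv_mul, Matrix.one_mul]
    rw [Matrix.map_mul, Matrix.map_mul, Matrix.map_mul, hX, hY, Matrix.smul_mul, Matrix.smul_mul,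
      Matrix.smul_mul, Matrix.mul_smul, smul_smul, h3, h2, map_mul, map_mul, mul_comm]
  have hxy : (X * e1) * (Y * e) = cst O (δ * δ') • e := by
    apply hinj
    show ((X * e1) * (Y * e)).map (jK O) = (cst O (δ * δ') • e).map (jK O)
    have h2 : (cst O (δ * δ') • e).map (jK O) = jK O (cst O (δ * δ')) • e.map (jK O) := by
      ext1 i j
      exact map_mul (jK O) _ _
    have h3 : (g : Matrix (Fin n) (Fin n) (Lau (FractionRing O))) * e1.map (jK O) *
        (((g⁻¹ : (Matrix (Fin n) (Fin n) (Lau (FractionRing O)))ˣ) :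
        Matrix (Fin n) (Fin n) (Lau (FractionRing O))) * e.map (jK O)) = e.map (jK O) := by
      rw [← hg, Matrix.mul_assoc, ← Matrix.mul_assoc
        (g : Matrix (Fin n) (Fin n) (Lau (FractionRing O))), Units.mul_inv, Matrix.one_mul, heK]
    rw [Matrix.map_mul, Matrix.map_mul, Matrix.map_mul, hX, hY, Matrix.smul_mul, Matrix.smul_mul,
      Matrix.smul_mul, Matrix.mul_smul, smul_smul, h3, h2, map_mul, map_mul]
  set x := X * e1 with hx
  set y := Y * e with hy
  have hd : δ * δ' ≠ 0 := mul_ne_zero hδ hδ'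
  have hd' : cst O (δ * δ') ≠ 0 := by
    intro h
    rw [cst_apply, AddMonoidAlgebra.single_eq_zero] at h
    exact hd h
  have htf : ∀ (a : Lau O) (v : Fin n → Lau O), a • v = 0 → a = 0 ∨ v = 0 := by
    intro a v h
    by_cases ha : a = 0
    · exact Or.inl ha
    · right
      funext k
      have h2 : a * v k = 0 := congrFun h k
      exact (mul_eq_zero.1 h2).resolve_left ha
  let φ : LinearMap.range (Matrix.mulVecLin e1) →ₗ[Lau O] LinearMap.range (Matrix.mulVecLin x) :=
    (Matrix.mulVecLin x).rangeRestrict ∘ₗ (LinearMap.range (Matrix.mulVecLin e1)).subtype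
  have hφ : Function.Bijective φ := by
    constructor
    · rw [← LinearMap.ker_eq_bot, LinearMap.ker_eq_bot']
      rintro ⟨v, w, rfl⟩ hv
      apply Subtype.ext
      have h1 : x.mulVec (e1.mulVec w) = 0 := congrArg Subtype.val hv
      have h2 : y.mulVec (x.mulVec (e1.mulVec w)) = cst O (δ * δ') • e1.mulVec w := by
        rw [Matrix.mulVec_mulVec, hyx, Matrix.smul_mulVec, Matrix.mulVec_mulVec, he1']
      rw [h1, Matrix.mulVec_zero] at h2
      exact (htf _ _ h2.symm).resolve_left hd'
    · rintro ⟨v, w, rfl⟩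
      refine ⟨⟨e1.mulVec w, w, rfl⟩, ?_⟩
      apply Subtype.ext
      show x.mulVec (e1.mulVec w) = x.mulVec w
      rw [Matrix.mulVec_mulVec, hx, Matrix.mul_assoc, he1']
  have hP₁ : IsC (LinearMap.range (Matrix.mulVecLin x)) (K0.cls e1 he1') :=
    (IsC.range e1 he1').congr (LinearEquiv.ofBijective φ hφ)
  have hle : LinearMap.range (Matrix.mulVecLin x) ≤ LinearMap.range (Matrix.mulVecLin e) := by
    rintro _ ⟨w, rfl⟩
    refine ⟨x.mulVec w, ?_⟩
    show e.mulVec (x.mulVec w) = x.mulVec w
    rw [Matrix.mulVec_mulVec, hex]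
  have hmem : ∀ a ∈ Ideal.span {δ * δ'}, ∀ v ∈ LinearMap.range (Matrix.mulVecLin e),
      cst O a • v ∈ LinearMap.range (Matrix.mulVecLin x) := by
    rintro a ha _ ⟨w, rfl⟩
    obtain ⟨c, rfl⟩ := Ideal.mem_span_singleton'.1 ha
    rw [map_mul, ← smul_smul]
    apply Submodule.smul_mem
    refine ⟨y.mulVec w, ?_⟩
    show x.mulVec (y.mulVec w) = cst O (δ * δ') • e.mulVec w
    rw [Matrix.mulVec_mulVec, hxy, Matrix.smul_mulVec]
  have key := filt (fun K _ => FINMod.pid_lau K) htf (Ideal.span {δ * δ'})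
    (by rw [Ne, Ideal.zero_eq_bot, Ideal.span_singleton_eq_bot]; exact hd)
    (LinearMap.range (Matrix.mulVecLin e)) (LinearMap.range (Matrix.mulVecLin x)) hle hmem
    (K0.cls e he) (K0.cls e1 he1') (IsC.range e he) hP₁
  have h2 : K0.map (c1 O) (K0.cls e1 he1') = K0.cls e1 he1' := by
    rw [K0.map_cls]
    congr 1
    ext1 i j
    exact c1_c1 (e i j)
  rw [map_sub, h2, K0.map_cls] at key
  have h3 : K0.cls (e.map (c1 O)) (map_idem (c1 O) he) = K0.cls e1 he1' := rfl
  rw [h3, sub_self] at key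
  exact sub_eq_zero.1 key.symm

end DEDMod

/-- DED -/
theorem specDED : SpecDED := by
  intro O _ _ n e he
  exact DEDMod.main n e he

end Pool.Agent.Lib.MPb6f35e.ZK
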