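import Pool.Agent.Lib.MP_b6f35e_al.ZK.KA

/-!
# Module GEN of ZK (MP_b6f35e_al): generators of `K_{-1}(ℤ[C])`, `C` finite commutative

`x = [e]`; `e ⊕ (1 - e(1)) ⊕ 1_k` is free over `M[t, t⁻¹]` (ORD) and over `(ℤ[C]/I')[t, t⁻¹]` (FIN),
so it is glued along some `U` over `(M/I)[t, t⁻¹]` in the conductor square; K1F for `U`, LNK for the
idempotents of `M/I`.
-/

set_option autoImplicit false

noncomputable section

namespace Pool.Agent.Lib.MPb6f35e.ZK

open Pool.Agent.Lib.MPb6f35e.WH (K1)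

universe u v w

namespace GENMod

/-! ### Laurent polynomials, coefficientwise -/

section

variable {A : Type u} {B : Type u} [Ring A] [Ring B]

lemma lauMap_coeff (f : A →+* B) (x : Lau A) (k : ℤ) : (lauMap f x).coeff k = f (x.coeff k) := by
  induction x using AddMonoidAlgebra.induction_linear with
  | zero => simp
  | add x y hx hy =>
    rw [map_add, AddMonoidAlgebra.coeff_add, AddMonoidAlgebra.coeff_add, Finsupp.add_apply,
      Finsupp.add_apply, hx, hy, map_add]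
  | single n a =>
    rw [lauMap, AddMonoidAlgebra.mapRingHom_single, AddMonoidAlgebra.coeff_single,
      AddMonoidAlgebra.coeff_single, Finsupp.single_apply, Finsupp.single_apply]
    split_ifs <;> simp

lemma lau_sum (y : Lau A) : y = ∑ k ∈ y.coeff.support, AddMonoidAlgebra.single k (y.coeff k) := by
  ext l
  rw [AddMonoidAlgebra.coeff_sum, Finsupp.finsetSum_apply]
  simp only [AddMonoidAlgebra.coeff_single, Finsupp.single_apply]
  rw [Finset.sum_ite_eq']
  split_ifs with h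
  · rfl
  · exact Finsupp.notMem_support_iff.1 h

lemma lauMap_range (f : A →+* B) (y : Lau B) (h : ∀ k, y.coeff k ∈ f.range) :
    ∃ x : Lau A, lauMap f x = y := by
  choose g hg using h
  refine ⟨∑ k ∈ y.coeff.support, AddMonoidAlgebra.single k (g k), ?_⟩
  conv_rhs => rw [lau_sum y]
  rw [map_sum]
  refine Finset.sum_congr rfl fun k _ => ?_
  rw [lauMap, AddMonoidAlgebra.mapRingHom_single, hg]

lemma lauMap_surj (f : A →+* B) (hf : Function.Surjective f) : Function.Surjective (lauMap f) :=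
  fun y => lauMap_range f y fun _ => hf _

lemma lauMap_inj (f : A →+* B) (hf : Function.Injective f) : Function.Injective (lauMap f) := by
  intro x y h
  ext k
  refine hf ?_
  rw [← lauMap_coeff, h, lauMap_coeff]

lemma lauMap_c1 (f : A →+* B) : (lauMap f).comp (c1 A) = (c1 B).comp (lauMap f) := by
  refine RingHom.ext fun x => ?_
  induction x using AddMonoidAlgebra.induction_linear with
  | zero => simp
  | add x y hx hy => rw [map_add, map_add, hx, hy]
  | single n r =>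
    simp only [lauMap, c1, RingHom.comp_apply, AddMonoidAlgebra.mapDomainRingHom_apply,
      AddMonoidAlgebra.mapRingHom_single, AddMonoidAlgebra.mapDomain_single,
      AddMonoidHom.zero_apply]

end

/-! ### squares with `j₁` surjective -/

section

variable {A A₁ A₂ A₀ : Type u} [Ring A] [Ring A₁] [Ring A₂] [Ring A₀]

/-- a Milnor square -/
theorem isSq_of_surj (m : SqMaps A A₁ A₂ A₀) (comm : ∀ a, m.j₁ (m.i₁ a) = m.j₂ (m.i₂ a))
    (pull : ∀ (a₁ : A₁) (a₂ : A₂), m.j₁ a₁ = m.j₂ a₂ → ∃ a, m.i₁ a = a₁ ∧ m.i₂ a = a₂)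
    (inj : ∀ a : A, m.i₁ a = 0 → m.i₂ a = 0 → a = 0) (hs : Function.Surjective m.j₁) :
    IsSq m where
  comm := comm
  pull := pull
  inj := inj
  upper r s y X := by
    choose g hg using hs
    refine ⟨⟨(Matrix.fromBlocks 1 (y.map g) 0 1 : Matrix (Fin r ⊕ Fin s) (Fin r ⊕ Fin s) A₁),
      Matrix.fromBlocks 1 (-(y.map g)) 0 1, ?_, ?_⟩, 1, ?_⟩
    · rw [Matrix.fromBlocks_multiply, ← Matrix.fromBlocks_one]
      congr 1 <;> simp
    · rw [Matrix.fromBlocks_multiply, ← Matrix.fromBlocks_one]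
      congr 1 <;> simp
    · have e1 : (Matrix.fromBlocks 1 (y.map g) 0 1 : Matrix (Fin r ⊕ Fin s) (Fin r ⊕ Fin s)
          A₁).map m.j₁ = Matrix.fromBlocks 1 y 0 1 := by
        rw [Matrix.fromBlocks_map]
        congr 1
        · exact Matrix.map_one _ (map_zero _) (map_one _)
        · rw [Matrix.map_map]
          ext i j
          exact hg _
        · exact Matrix.map_zero _ (map_zero _)
        · exact Matrix.map_one _ (map_zero _) (map_one _)
      have e2 : ((1 : (Matrix (Fin r ⊕ Fin s) (Fin r ⊕ Fin s) A₂)ˣ).val).map m.j₂ = 1 :=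
        Matrix.map_one _ (map_zero _) (map_one _)
      rw [e2, Matrix.mul_one, e1]
  lower r s y X := by
    choose g hg using hs
    refine ⟨⟨(Matrix.fromBlocks 1 0 (y.map g) 1 : Matrix (Fin r ⊕ Fin s) (Fin r ⊕ Fin s) A₁),
      Matrix.fromBlocks 1 0 (-(y.map g)) 1, ?_, ?_⟩, 1, ?_⟩
    · rw [Matrix.fromBlocks_multiply, ← Matrix.fromBlocks_one]
      congr 1 <;> simp
    · rw [Matrix.fromBlocks_multiply, ← Matrix.fromBlocks_one]
      congr 1 <;> simp
    · have e1 : (Matrix.fromBlocks 1 0 (y.map g) 1 : Matrix (Fin r ⊕ Fin s) (Fin r ⊕ Fin s)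
          A₁).map m.j₁ = Matrix.fromBlocks 1 0 y 1 := by
        rw [Matrix.fromBlocks_map]
        congr 1
        · exact Matrix.map_one _ (map_zero _) (map_one _)
        · exact Matrix.map_zero _ (map_zero _)
        · rw [Matrix.map_map]
          ext i j
          exact hg _
        · exact Matrix.map_one _ (map_zero _) (map_one _)
      have e2 : ((1 : (Matrix (Fin r ⊕ Fin s) (Fin r ⊕ Fin s) A₂)ˣ).val).map m.j₂ = 1 :=
        Matrix.map_one _ (map_zero _) (map_one _)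
      rw [e2, Matrix.mul_one, e1]

/-- an idempotent which is free over `A₁` and `A₂` is glued along a unit -/
theorem exists_gl (m : SqMaps A A₁ A₂ A₀) (comm : ∀ a, m.j₁ (m.i₁ a) = m.j₂ (m.i₂ a)) {r n : ℕ}
    (e : Matrix (Fin r) (Fin r) A)
    (h1 : Eqv (e.map m.i₁) (1 : Matrix (Fin n) (Fin n) A₁))
    (h2 : Eqv (e.map m.i₂) (1 : Matrix (Fin n) (Fin n) A₂)) :
    ∃ U : (Matrix (Fin n) (Fin n) A₀)ˣ, Gl m e (U : Matrix (Fin n) (Fin n) A₀) := by
  obtain ⟨a₁, b₁, h11, h12⟩ := h1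
  obtain ⟨a₂, b₂, h21, h22⟩ := h2
  have hc : (e.map m.i₁).map m.j₁ = (e.map m.i₂).map m.j₂ := by
    ext i j
    exact comm _
  have f1 : a₁.map m.j₁ * b₁.map m.j₁ = (e.map m.i₁).map m.j₁ := by rw [← Matrix.map_mul, h11]
  have f2 : b₁.map m.j₁ * a₁.map m.j₁ = 1 := by
    rw [← Matrix.map_mul, h12]; exact Matrix.map_one _ (map_zero _) (map_one _)
  have f3 : a₂.map m.j₂ * b₂.map m.j₂ = (e.map m.i₁).map m.j₁ := by
    rw [hc, ← Matrix.map_mul, h21]
  have f4 : b₂.map m.j₂ * a₂.map m.j₂ = 1 := by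
    rw [← Matrix.map_mul, h22]; exact Matrix.map_one _ (map_zero _) (map_one _)
  refine ⟨⟨b₁.map m.j₁ * a₂.map m.j₂, b₂.map m.j₂ * a₁.map m.j₁, ?_, ?_⟩,
    a₁, b₁, a₂, b₂, h11, h12, h21, h22, rfl⟩
  · calc b₁.map m.j₁ * a₂.map m.j₂ * (b₂.map m.j₂ * a₁.map m.j₁)
        = b₁.map m.j₁ * (a₂.map m.j₂ * b₂.map m.j₂) * a₁.map m.j₁ := by
          simp only [Matrix.mul_assoc]
      _ = (b₁.map m.j₁ * a₁.map m.j₁) * (b₁.map m.j₁ * a₁.map m.j₁) := by
          rw [f3, ← f1]; simp only [Matrix.mul_assoc]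
      _ = 1 := by rw [f2, Matrix.one_mul]
  · calc b₂.map m.j₂ * a₁.map m.j₁ * (b₁.map m.j₁ * a₂.map m.j₂)
        = b₂.map m.j₂ * (a₁.map m.j₁ * b₁.map m.j₁) * a₂.map m.j₂ := by
          simp only [Matrix.mul_assoc]
      _ = (b₂.map m.j₂ * a₂.map m.j₂) * (b₂.map m.j₂ * a₂.map m.j₂) := by
          rw [f1, ← f3]; simp only [Matrix.mul_assoc]
      _ = 1 := by rw [f4, Matrix.one_mul]

end

/-! ### the conductor square -/

section

variable {C : Type u} [CommGroup C] [Finite C] {M : Subring (MonoidAlgebra ℚ C)}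
  (h : ∀ a : MonoidAlgebra ℤ C, MonoidAlgebra.mapRingHom C (Int.castRingHom ℚ) a ∈ M)
  (hM : ∀ b ∈ M, ∃ a : MonoidAlgebra ℤ C,
    MonoidAlgebra.mapRingHom C (Int.castRingHom ℚ) a = Nat.card C • b)

omit [Finite C] in
lemma mapQ_inj : Function.Injective
    (MonoidAlgebra.mapRingHom C (Int.castRingHom ℚ) : MonoidAlgebra ℤ C →+* MonoidAlgebra ℚ C) := by
  intro x y hxy
  ext g
  have h1 := congrArg (fun z => z.coeff g) hxy
  simpa using h1

omit [Finite C] in
lemma alphaM_inj : Function.Injective (alphaM M h) := by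
  intro x y hxy
  exact mapQ_inj (congrArg Subtype.val hxy)

omit [Finite C] in
include hM in
lemma conI_range (b : M) (hb : b ∈ conI M) : b ∈ (alphaM M h).range := by
  rw [conI, Ideal.mem_span_singleton'] at hb
  obtain ⟨x, rfl⟩ := hb
  obtain ⟨a, ha⟩ := hM x.1 x.2
  refine ⟨a, Subtype.ext ?_⟩
  show MonoidAlgebra.mapRingHom C (Int.castRingHom ℚ) a = ((x * (Nat.card C : M) : M) :
    MonoidAlgebra ℚ C)
  rw [ha, Subring.coe_mul, nsmul_eq_mul, mul_comm]
  push_cast
  rfl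

omit [Finite C] in
include hM in
theorem isSq_con : IsSq (conSq M h) := by
  refine isSq_of_surj _ ?_ ?_ ?_ ?_
  · intro a
    show lauMap _ (lauMap _ a) = lauMap _ (lauMap _ a)
    ext k
    rw [lauMap_coeff, lauMap_coeff, lauMap_coeff, lauMap_coeff]
    rfl
  · intro a₁ a₂ h12
    obtain ⟨a', ha'⟩ := lauMap_surj (Ideal.Quotient.mk ((conI M).comap (alphaM M h)))
      Ideal.Quotient.mk_surjective a₂
    have h3 : lauMap (Ideal.Quotient.mk (conI M)) (a₁ - lauMap (alphaM M h) a') = 0 := by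
      rw [map_sub, sub_eq_zero]
      refine Eq.trans h12 ?_
      rw [← ha']
      ext k
      show (lauMap _ (lauMap _ a')).coeff k = _
      rw [lauMap_coeff, lauMap_coeff, lauMap_coeff, lauMap_coeff]
      rfl
    have h4 : ∀ k, (a₁ - lauMap (alphaM M h) a').coeff k ∈ conI M := by
      intro k
      rw [← Ideal.Quotient.eq_zero_iff_mem, ← lauMap_coeff, h3]
      rfl
    obtain ⟨a'', ha''⟩ := lauMap_range (alphaM M h) (a₁ - lauMap (alphaM M h) a')
      fun k => conI_range h hM _ (h4 k)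
    refine ⟨a' + a'', ?_, ?_⟩
    · show lauMap (alphaM M h) (a' + a'') = a₁
      rw [map_add, ha'']
      abel
    · show lauMap (Ideal.Quotient.mk _) (a' + a'') = a₂
      rw [map_add, ha']
      convert add_zero a₂
      ext k
      rw [lauMap_coeff]
      show Ideal.Quotient.mk _ (a''.coeff k) = 0
      rw [Ideal.Quotient.eq_zero_iff_mem, Ideal.mem_comap, ← lauMap_coeff, ha'']
      exact h4 k
  · intro a ha _
    exact lauMap_inj _ (alphaM_inj h) (by rw [map_zero]; exact ha)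
  · exact lauMap_surj _ Ideal.Quotient.mk_surjective

include h hM in
theorem finite_quot : Finite (M ⧸ conI M) := by
  have hn : Nat.card C ≠ 0 := Nat.card_pos.ne'
  choose ψ hψ using fun b : M => hM b.1 b.2
  have : NeZero (Nat.card C * Nat.card C) := ⟨mul_ne_zero hn hn⟩
  refine Finite.of_injective (β := C → ZMod (Nat.card C * Nat.card C))
    (fun q g => (((ψ q.out).coeff g : ℤ) : ZMod (Nat.card C * Nat.card C))) ?_
  intro q q' hq
  have h1 : ∀ g, ∃ z : ℤ, (ψ q.out).coeff g - (ψ q'.out).coeff g =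
      (Nat.card C * Nat.card C : ℕ) * z := by
    intro g
    have h2 := congrFun hq g
    simp only at h2
    rw [← sub_eq_zero, ← Int.cast_sub, ZMod.intCast_zmod_eq_zero_iff_dvd] at h2
    exact h2
  choose z hz using h1
  cases nonempty_fintype C
  obtain ⟨a, ha⟩ : ∃ a : MonoidAlgebra ℤ C, a = ∑ g, MonoidAlgebra.single g (z g) := ⟨_, rfl⟩
  have ha' : ∀ g, a.coeff g = z g := by
    intro g
    classical
    rw [ha, MonoidAlgebra.coeff_sum, Finsupp.finsetSum_apply]
    simp [MonoidAlgebra.coeff_single, Finsupp.single_apply]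
  have h3 : ψ q.out - ψ q'.out = (Nat.card C * Nat.card C) • a := by
    ext g
    rw [MonoidAlgebra.coeff_sub, Finsupp.sub_apply, hz, ← ha', MonoidAlgebra.coeff_smul,
      Finsupp.smul_apply, nsmul_eq_mul]
  have h4 : ((q.out - q'.out : M) : MonoidAlgebra ℚ C) =
      Nat.card C • MonoidAlgebra.mapRingHom C (Int.castRingHom ℚ) a := by
    have h5 := congrArg (MonoidAlgebra.mapRingHom C (Int.castRingHom ℚ)) h3
    rw [map_sub, hψ, hψ, map_nsmul, ← smul_sub, mul_smul] at h5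
    exact smul_right_injective _ hn h5
  have h6 : q.out - q'.out ∈ conI M := by
    refine Ideal.mem_span_singleton'.2 ⟨alphaM M h a, Subtype.ext ?_⟩
    rw [h4, nsmul_eq_mul, Subring.coe_mul, mul_comm]
    push_cast
    rfl
  have h7 : (Ideal.Quotient.mk (conI M) q.out) = Ideal.Quotient.mk (conI M) q'.out :=
    Ideal.Quotient.eq.2 h6
  rw [← Ideal.Quotient.mk_out q, ← Ideal.Quotient.mk_out q']
  exact h7

include hM in
theorem finite_quot' : Finite (MonoidAlgebra ℤ C ⧸ (conI M).comap (alphaM M h)) := by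
  have := finite_quot h hM
  exact Finite.of_injective (Ideal.quotientMap (conI M) (alphaM M h) le_rfl)
    Ideal.quotientMap_injective

end

/-! ### the theorem -/

/-- `e ⊕ (1 - e(1))` -/
def EE {R : Type u} [Ring R] {n : ℕ} (e : Matrix (Fin n) (Fin n) (Lau R)) :
    Matrix (Fin n ⊕ Fin n) (Fin n ⊕ Fin n) (Lau R) :=
  Matrix.fromBlocks e 0 0 (1 - e.map (c1 R))

lemma EE_idem {R : Type u} [Ring R] {n : ℕ} {e : Matrix (Fin n) (Fin n) (Lau R)}
    (he : e * e = e) : EE e * EE e = EE e := blocks_idem he (compl_idem (map_idem (c1 R) he))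

lemma EE_map {R L : Type u} [Ring R] [Ring L] (f : R →+* L) {n : ℕ}
    (e : Matrix (Fin n) (Fin n) (Lau R)) : (EE e).map (lauMap f) = EE (e.map (lauMap f)) := by
  rw [EE, EE, Matrix.fromBlocks_map]
  congr 1
  · exact Matrix.map_zero _ (map_zero _)
  · exact Matrix.map_zero _ (map_zero _)
  · rw [Matrix.map_sub _ (map_sub _), Matrix.map_one _ (map_zero _) (map_one _)]
    congr 1
    ext1 i j
    exact congrArg (fun F : Lau R →+* Lau L => F (e i j)) (lauMap_c1 f)

lemma clsF_EE {L : Type u} [Ring L] {n : ℕ} (e : Matrix (Fin n) (Fin n) (Lau L))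
    (he : e * e = e) (h : K0.clsF e he = K0.clsF (e.map (c1 L)) (map_idem (c1 L) he)) :
    K0.clsF (EE e) (EE_idem he) = K0.clsF (1 : Matrix (Fin n) (Fin n) (Lau L))
      (Matrix.one_mul _) := by
  rw [← K0.clsF_compl (map_idem (c1 L) he), ← h]
  exact K0.clsF_sum he (compl_idem (map_idem (c1 L) he))

lemma eqv_EE {L : Type u} [Ring L] {n : ℕ} (e : Matrix (Fin n) (Fin n) (Lau L))
    (he : e * e = e) (h : Eqv e (e.map (c1 L))) :
    Eqv (EE e) (1 : Matrix (Fin n) (Fin n) (Lau L)) :=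
  Eqv.trans (EE_idem he) (Matrix.one_mul _)
    (Eqv.sum h (Eqv.refl (compl_idem (map_idem (c1 L) he)))) (Eqv.compl (map_idem (c1 L) he))

lemma eqv_of_conj {L : Type u} [Ring L] {n : ℕ} {e : Matrix (Fin n) (Fin n) (Lau L)}
    (he : e * e = e) (g : (Matrix (Fin n) (Fin n) (Lau L))ˣ)
    (hg : e * (g : Matrix (Fin n) (Fin n) (Lau L)) =
      (g : Matrix (Fin n) (Fin n) (Lau L)) * e.map (c1 L)) : Eqv e (e.map (c1 L)) := by
  refine Eqv.of_conj he ((g⁻¹ : (Matrix (Fin n) (Fin n) (Lau L))ˣ) : Matrix (Fin n) (Fin n) (Lau L))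
    (g : Matrix (Fin n) (Fin n) (Lau L)) (Units.mul_inv g) ?_
  rw [Matrix.mul_assoc, hg, ← Matrix.mul_assoc, Units.inv_mul, Matrix.one_mul]

lemma exists_eqv (hFIN : SpecFIN.{u}) {L : Type u} [Ring L] [Finite L] {n : ℕ}
    {e : Matrix (Fin n) (Fin n) (Lau L)} (he : e * e = e) : Eqv e (e.map (c1 L)) := by
  obtain ⟨g, hg⟩ := hFIN L n e he
  exact eqv_of_conj he g hg

/-- `e ⊕ (1 - e(1)) ⊕ 1_k` -/
def FF {R : Type u} [Ring R] {n : ℕ} (e : Matrix (Fin n) (Fin n) (Lau R)) (k : ℕ) :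
    Matrix ((Fin n ⊕ Fin n) ⊕ Fin k) ((Fin n ⊕ Fin n) ⊕ Fin k) (Lau R) :=
  Matrix.fromBlocks (EE e) 0 0 1

lemma FF_idem {R : Type u} [Ring R] {n : ℕ} {e : Matrix (Fin n) (Fin n) (Lau R)}
    (he : e * e = e) (k : ℕ) : FF e k * FF e k = FF e k :=
  blocks_idem (EE_idem he) (Matrix.one_mul _)

lemma FF_map {R L : Type u} [Ring R] [Ring L] (f : R →+* L) {n : ℕ}
    (e : Matrix (Fin n) (Fin n) (Lau R)) (k : ℕ) :
    (FF e k).map (lauMap f) = FF (e.map (lauMap f)) k := by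
  rw [FF, FF, Matrix.fromBlocks_map, EE_map]
  congr 1
  · exact Matrix.map_zero _ (map_zero _)
  · exact Matrix.map_zero _ (map_zero _)
  · exact Matrix.map_one _ (map_zero _) (map_one _)

/-- reindexed -/
def GG {R : Type u} [Ring R] {n : ℕ} (e : Matrix (Fin n) (Fin n) (Lau R)) (k : ℕ) :
    Matrix (Fin (Fintype.card ((Fin n ⊕ Fin n) ⊕ Fin k)))
      (Fin (Fintype.card ((Fin n ⊕ Fin n) ⊕ Fin k))) (Lau R) :=
  Matrix.reindex (Fintype.equivFin _) (Fintype.equivFin _) (FF e k)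

lemma GG_idem {R : Type u} [Ring R] {n : ℕ} {e : Matrix (Fin n) (Fin n) (Lau R)}
    (he : e * e = e) (k : ℕ) : GG e k * GG e k = GG e k := reindex_idem (FF_idem he k) _

lemma GG_map {R L : Type u} [Ring R] [Ring L] (f : R →+* L) {n : ℕ}
    (e : Matrix (Fin n) (Fin n) (Lau R)) (k : ℕ) :
    (GG e k).map (lauMap f) = GG (e.map (lauMap f)) k := by
  rw [GG, GG, ← FF_map]
  rfl

lemma eqv_GG {L : Type u} [Ring L] {n : ℕ} (e : Matrix (Fin n) (Fin n) (Lau L))
    (he : e * e = e) {k : ℕ} (h : Eqv (FF e k)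
      (Matrix.fromBlocks (1 : Matrix (Fin n) (Fin n) (Lau L)) 0 0
        (1 : Matrix (Fin k) (Fin k) (Lau L)))) :
    Eqv (GG e k) (1 : Matrix (Fin (n + k)) (Fin (n + k)) (Lau L)) := by
  have h1 := Eqv.reindex (Matrix.one_mul (1 : Matrix (Fin n ⊕ Fin k) (Fin n ⊕ Fin k) (Lau L)))
    (finSumFinEquiv : Fin n ⊕ Fin k ≃ Fin (n + k))
  rw [Matrix.reindex_apply, Matrix.submatrix_one_equiv] at h1
  rw [Matrix.fromBlocks_one] at h
  exact Eqv.trans (GG_idem he k) (Matrix.one_mul _) (Eqv.reindex (FF_idem he k) _).symm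
    (Eqv.trans (FF_idem he k) (Matrix.one_mul _) h h1)

lemma mk_one (R : Type u) [Ring R] : Km1.mk R (K0.one (Lau R)) = 0 := by
  have h := Km1.mk_const R (Fin 1) (1 : Matrix (Fin 1) (Fin 1) (Lau R)) (Matrix.one_mul _)
  have h1 : K0.clsF ((1 : Matrix (Fin 1) (Fin 1) (Lau R)).map (c1 R))
      (map_idem (c1 R) (Matrix.one_mul _)) = K0.one (Lau R) := by
    rw [K0.one, ← K0.clsF_fin]
    exact K0.clsF_congr _ _ (Matrix.map_one _ (map_zero _) (map_one _))
  rw [← h1]
  exact h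

lemma mk_clsF_one (R : Type u) [Ring R] (k : ℕ) :
    Km1.mk R (K0.clsF (1 : Matrix (Fin k) (Fin k) (Lau R)) (Matrix.one_mul _)) = 0 := by
  rw [K0.clsF_one', map_nsmul, mk_one, nsmul_zero]

lemma mk_GG {R : Type u} [Ring R] {n : ℕ} {e : Matrix (Fin n) (Fin n) (Lau R)}
    (he : e * e = e) (k : ℕ) : Km1.mk R (K0.cls (GG e k) (GG_idem he k)) =
      Km1.mk R (K0.cls e he) := by
  have h1 : K0.cls (GG e k) (GG_idem he k) = K0.clsF (FF e k) (FF_idem he k) := rfl
  have h2 : K0.clsF (FF e k) (FF_idem he k) = K0.clsF (EE e) (EE_idem he) +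
      K0.clsF (1 : Matrix (Fin k) (Fin k) (Lau R)) (Matrix.one_mul _) :=
    K0.clsF_sum (EE_idem he) (Matrix.one_mul _)
  have h3 : K0.clsF (EE e) (EE_idem he) = K0.clsF e he +
      K0.clsF (1 - e.map (c1 R)) (compl_idem (map_idem (c1 R) he)) :=
    K0.clsF_sum he (compl_idem (map_idem (c1 R) he))
  have h4 := congrArg (Km1.mk R) (K0.clsF_compl (map_idem (c1 R) he))
  rw [map_add, Km1.mk_const R (Fin n) e he, zero_add, mk_clsF_one] at h4
  rw [h1, h2, h3, map_add, map_add, h4, mk_clsF_one, add_zero, add_zero, K0.clsF_fin]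

end GENMod

open GENMod in
/-- GEN -/
theorem specGEN_of (hMIL : SpecMIL.{u}) (hORD : SpecORD.{u}) (hFIN : SpecFIN.{u})
    (hK1F : SpecK1F.{u}) (hLNK : SpecLNK.{u}) : SpecGEN.{u} := by
  intro C _ _ S hS d hd x
  obtain ⟨M, h, hM, hord⟩ := hORD C
  have hsq : IsSq (conSq M h) := isSq_con h hM
  obtain ⟨d', hd'⟩ := hMIL.bd _ _ _ _ (conSq M h) hsq
  have fin1 := finite_quot h hM
  have fin2 := finite_quot' h hM
  obtain ⟨y, rfl⟩ := Km1.mk_surjective _ x
  obtain ⟨n, e, he, k₀, rfl⟩ := K0.exists_rep y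
  -- over `M`
  have he1 := map_idem (lauMap (alphaM M h)) he
  have m1 : K0.clsF (EE (e.map (lauMap (alphaM M h)))) (EE_idem he1) =
      K0.clsF (1 : Matrix (Fin n) (Fin n) (Lau M)) (Matrix.one_mul _) := by
    refine clsF_EE _ he1 ?_
    rw [K0.clsF_fin, K0.clsF_fin]
    exact hord n _ he1
  obtain ⟨k, hk⟩ := K0.exactF _ _ m1
  -- over the finite ring
  have he2 := map_idem (lauMap (Ideal.Quotient.mk ((conI M).comap (alphaM M h)))) he
  have m2 := exists_eqv hFIN he2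
  have g1 : Eqv ((GG e k).map (conSq M h).i₁) (1 : Matrix (Fin (n + k)) (Fin (n + k)) (Lau M)) := by
    show Eqv ((GG e k).map (lauMap (alphaM M h))) _
    rw [GG_map]
    exact eqv_GG _ he1 hk
  have g2 : Eqv ((GG e k).map (conSq M h).i₂) (1 : Matrix (Fin (n + k)) (Fin (n + k))
      (Lau (MonoidAlgebra ℤ C ⧸ (conI M).comap (alphaM M h)))) := by
    show Eqv ((GG e k).map (lauMap (Ideal.Quotient.mk ((conI M).comap (alphaM M h))))) _
    rw [GG_map]
    exact eqv_GG _ he2 (Eqv.sum (eqv_EE _ he2 m2) (Eqv.refl (Matrix.one_mul _)))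
  obtain ⟨U, hU⟩ := exists_gl (conSq M h) hsq.comm (GG e k) g1 g2
  have hb := hd' _ _ (GG e k) (GG_idem he k) U hU
  -- generators
  obtain ⟨m, hm, a, ε, f, hf, hsum⟩ := hK1F (M ⧸ conI M) (K1.cls U)
  choose f' hf' hff using fun j => hLNK C M h hM S hS d hd d' hd' (f j) (hf j)
  refine ⟨m, hm, a, ε, f', hf', ?_⟩
  have h5 : Km1.mk (MonoidAlgebra ℤ C) (K0.cls e he -
      K0.cls (1 : Matrix (Fin k₀) (Fin k₀) _) (Matrix.one_mul _)) =
      Km1.mk (MonoidAlgebra ℤ C) (d' (K1.cls U)) := by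
    rw [hb, map_sub, map_sub, map_nsmul, mk_one, nsmul_zero, mk_GG he k, ← K0.clsF_fin
      (Matrix.one_mul (1 : Matrix (Fin k₀) (Fin k₀) (Lau (MonoidAlgebra ℤ C)))), mk_clsF_one]
  rw [h5, ← map_nsmul, ← map_nsmul, hsum, map_sum, map_sum]
  refine Finset.sum_congr rfl fun j _ => ?_
  rw [map_zsmul, map_zsmul, hff]

end Pool.Agent.Lib.MPb6f35e.ZK

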