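import Pool.Agent.Lib.MP_b6f35e_al.WH.E4
import Pool.Agent.Lib.MP_b6f35e_al.ZK.Spec

/-!
# Module K1F (hive 30, MP_b6f35e_al, Theorem Z)

`B` a finite commutative ring: every element of `K_1(B[t, t⁻¹])` has a positive multiple in the
subgroup generated by the classes of the units `f t + 1 - f`, `f` an idempotent of `B`.
-/

set_option autoImplicit false

noncomputable section

namespace Pool.Agent.Lib.MPb6f35e.ZK

open Pool.Agent.Lib.MPb6f35e.WH

universe u v

open Finset LaurentPolynomial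

namespace K1F

variable {B : Type u} [CommRing B] [Finite B]

/-! ### finite quotients -/

open Polynomial in
/-- pigeonhole -/
lemma exists_dvd (c : B[X]) (hc : c ∈ nonZeroDivisors B[X]) :
    ∃ (i k : ℕ), 0 < k ∧ c ∣ X ^ i * (X ^ k - 1) := by
  classical
  have : Fintype B := Fintype.ofFinite B
  set D := c.natDegree with hD
  set N := Fintype.card B ^ D + 1 with hN
  let g : ∀ n : ℕ, (Fin n → B) → B[X] := fun n v => ∑ j : Fin n, Polynomial.C (v j) * X ^ (j : ℕ)
  have hgdeg : ∀ n (v : Fin n → B), (g n v).degree < n := by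
    intro n v
    exact Polynomial.degree_sum_fin_lt v
  have hginj : ∀ n (v v' : Fin n → B), g n v = g n v' → v = v' := by
    intro n v v' h
    have hco : ∀ (w : Fin n → B) (j : Fin n), (g n w).coeff j = w j := by
      intro w j
      simp only [g, Polynomial.finsetSum_coeff, Polynomial.coeff_C_mul_X_pow]
      rw [Finset.sum_eq_single j]
      · rw [if_pos rfl]
      · intro b _ hb
        rw [if_neg]
        intro h
        exact hb (Fin.ext h.symm)
      · intro h0
        exact absurd (mem_univ _) h0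
    funext j
    rw [← hco v j, ← hco v' j, h]
  let Φ : (Fin N → B) × Fin N → (Fin (N + D) → B) := fun z j =>
    (c * g N z.1 + X ^ (z.2 : ℕ)).coeff j
  have hcard : Fintype.card (Fin (N + D) → B) < Fintype.card ((Fin N → B) × Fin N) := by
    rw [Fintype.card_prod, Fintype.card_fin, Fintype.card_fun, Fintype.card_fun, Fintype.card_fin,
      Fintype.card_fin, pow_add]
    apply Nat.mul_lt_mul_of_pos_left _ (pow_pos Fintype.card_pos _)
    rw [hN]
    exact Nat.lt_succ_self _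
  obtain ⟨⟨v, i⟩, ⟨v', i'⟩, hne, heq⟩ := Fintype.exists_ne_map_eq_of_card_lt Φ hcard
  have hdeg : ∀ z : (Fin N → B) × Fin N, (c * g N z.1 + X ^ (z.2 : ℕ)).degree < ((N + D : ℕ) : WithBot ℕ) := by
    intro z
    refine (Polynomial.degree_add_le _ _).trans_lt (max_lt ?_ ?_)
    · refine (Polynomial.degree_mul_le _ _).trans_lt ?_
      rw [add_comm N D, Nat.cast_add]
      have h1 : c.degree ≤ (D : WithBot ℕ) := Polynomial.degree_le_natDegree
      have h2 := hgdeg N z.1
      exact (add_le_add_left h1 _).trans_lt (WithBot.add_lt_add_left WithBot.coe_ne_bot h2)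
    · refine (Polynomial.degree_X_pow_le _).trans_lt ?_
      have := z.2.2
      exact_mod_cast (by omega : (z.2 : ℕ) < N + D)
  have heq2 : c * g N v + X ^ (i : ℕ) = c * g N v' + X ^ (i' : ℕ) := by
    ext j
    by_cases hj : j < N + D
    · exact congrFun heq ⟨j, hj⟩
    · have h1 := Polynomial.coeff_eq_zero_of_degree_lt ((hdeg (v, i)).trans_le
        (by exact_mod_cast (not_lt.1 hj) : ((N + D : ℕ) : WithBot ℕ) ≤ (j : WithBot ℕ)))
      have h2 := Polynomial.coeff_eq_zero_of_degree_lt ((hdeg (v', i')).trans_le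
        (by exact_mod_cast (not_lt.1 hj) : ((N + D : ℕ) : WithBot ℕ) ≤ (j : WithBot ℕ)))
      exact h1.trans h2.symm
  have hii : i ≠ i' := by
    rintro rfl
    apply hne
    have h1 : c * (g N v - g N v') = 0 := by
      linear_combination heq2
    have h2 := (mem_nonZeroDivisors_iff_left.1 hc) _ h1
    rw [hginj N v v' (sub_eq_zero.1 h2)]
  have hlt : ∀ (a b : Fin N) (w w' : Fin N → B), a < b →
      c * g N w + X ^ (a : ℕ) = c * g N w' + X ^ (b : ℕ) →
      ∃ (i k : ℕ), 0 < k ∧ c ∣ X ^ i * (X ^ k - 1) := by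
    intro a b w w' hab h
    refine ⟨a, b - a, Nat.sub_pos_of_lt hab, g N w - g N w', ?_⟩
    have h1 : (X : B[X]) ^ (b : ℕ) = X ^ (a : ℕ) * X ^ ((b : ℕ) - a) := by
      rw [← pow_add, Nat.add_sub_cancel' (le_of_lt hab)]
    rw [mul_sub, ← h1]
    linear_combination -h
  rcases lt_or_gt_of_ne hii with h | h
  · exact hlt i i' v v' h heq2
  · exact hlt i' i v' v h heq2.symm

omit [Finite B] in
lemma mem_nzd {c : B[T;T⁻¹]} (hc : c ∈ nonZeroDivisors B[T;T⁻¹]) (n : ℕ) (c' : Polynomial B)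
    (h : Polynomial.toLaurent c' = c * T n) : c' ∈ nonZeroDivisors (Polynomial B) := by
  rw [mem_nonZeroDivisors_iff_left]
  intro x hx
  have h1 : c * (T n * Polynomial.toLaurent x) = 0 := by
    rw [← mul_assoc, ← h, ← map_mul, hx, map_zero]
  have h2 := (mem_nonZeroDivisors_iff_left.1 hc) _ h1
  have h3 : Polynomial.toLaurent x = 0 := (isUnit_T (n : ℤ)).mul_right_eq_zero.1 h2
  exact Polynomial.toLaurent_eq_zero.1 h3

lemma exists_dvd_T (c : B[T;T⁻¹]) (hc : c ∈ nonZeroDivisors B[T;T⁻¹]) :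
    ∃ k : ℕ, 0 < k ∧ c ∣ T (k : ℤ) - 1 := by
  obtain ⟨n, c', h⟩ := exists_T_pow c
  obtain ⟨i, k, hk, hdvd⟩ := exists_dvd c' (mem_nzd hc n c' h)
  refine ⟨k, hk, ?_⟩
  have h1 : Polynomial.toLaurent c' ∣ T (i : ℤ) * (T (k : ℤ) - 1) := by
    have h2 := map_dvd (Polynomial.toLaurent (R := B)) hdvd
    rwa [map_mul, map_sub, map_one, Polynomial.toLaurent_X_pow, Polynomial.toLaurent_X_pow] at h2
  have h3 : c ∣ T (i : ℤ) * (T (k : ℤ) - 1) := (Dvd.intro _ h.symm).trans h1
  exact ((isUnit_T (i : ℤ)).dvd_mul_left).1 h3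

lemma finite_of_dvd (c : B[T;T⁻¹]) (k : ℕ) (hk : 0 < k) (h : c ∣ T (k : ℤ) - 1) :
    Finite (B[T;T⁻¹] ⧸ Ideal.span {c}) := by
  set q := Ideal.Quotient.mk (Ideal.span {c}) with hq
  have hk1 : q (T (k : ℤ)) = 1 := by
    rw [← map_one q, hq, Ideal.Quotient.eq, Ideal.mem_span_singleton]
    exact h
  have hpos : ∀ m : ℕ, q (T ((k : ℤ) * m)) = 1 := by
    intro m
    rw [mul_comm, ← T_pow, map_pow, hk1, one_pow]
  have hint : ∀ m : ℤ, q (T ((k : ℤ) * m)) = 1 := by
    intro m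
    obtain ⟨m, rfl | rfl⟩ := m.eq_nat_or_neg
    · exact hpos m
    · have h1 : q (T ((k : ℤ) * m)) * q (T ((k : ℤ) * (-m))) = 1 := by
        rw [← map_mul, ← T_add, mul_neg, add_neg_cancel, T_zero, map_one]
      rwa [hpos, one_mul] at h1
  have hmod : ∀ n : ℤ, q (T n) = q (T (n % k)) := by
    intro n
    conv_lhs => rw [← Int.mul_ediv_add_emod n k]
    rw [T_add, map_mul, hint, one_mul]
  let Θ : (Fin k → B) →+ (B[T;T⁻¹] ⧸ Ideal.span {c}) :=
    { toFun := fun b => ∑ r : Fin k, q (LaurentPolynomial.C (b r) * T (r : ℤ))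
      map_zero' := by simp
      map_add' := by
        intro a b
        rw [← Finset.sum_add_distrib]
        refine Finset.sum_congr rfl fun r _ => ?_
        rw [Pi.add_apply, map_add, add_mul, map_add] }
  have hsurj : Function.Surjective Θ := by
    intro y
    obtain ⟨f, rfl⟩ := Ideal.Quotient.mk_surjective y
    induction f using LaurentPolynomial.induction_on' with
    | add p r hp hr =>
      obtain ⟨a, ha⟩ := hp
      obtain ⟨b, hb⟩ := hr
      exact ⟨a + b, by rw [map_add, map_add, ha, hb]⟩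
    | C_mul_T n a =>
      have hlt : (n % k).toNat < k := by
        have h1 := Int.emod_lt_of_pos n (by exact_mod_cast hk : (0 : ℤ) < k)
        have h2 := Int.emod_nonneg n (by exact_mod_cast hk.ne' : (k : ℤ) ≠ 0)
        omega
      refine ⟨Pi.single ⟨(n % k).toNat, hlt⟩ a, ?_⟩
      show ∑ r : Fin k, q (LaurentPolynomial.C ((Pi.single ⟨(n % k).toNat, hlt⟩ a : Fin k → B) r) *
        T (r : ℤ)) = q (LaurentPolynomial.C a * T n)
      rw [Finset.sum_eq_single ⟨(n % k).toNat, hlt⟩]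
      · rw [Pi.single_eq_same, map_mul, map_mul, hmod n]
        congr 3
        exact Int.toNat_of_nonneg (Int.emod_nonneg n (by exact_mod_cast hk.ne'))
      · intro r _ hr
        rw [Pi.single_eq_of_ne hr, map_zero, zero_mul, map_zero]
      · intro h0
        exact absurd (mem_univ _) h0
  exact Finite.of_surjective Θ hsurj

lemma finite_quot (c : B[T;T⁻¹]) (hc : c ∈ nonZeroDivisors B[T;T⁻¹]) :
    Finite (B[T;T⁻¹] ⧸ Ideal.span {c}) := by
  obtain ⟨k, hk, h⟩ := exists_dvd_T c hc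
  exact finite_of_dvd c k hk h

omit [Finite B] in
lemma nzd_of_unit (a : B[T;T⁻¹])
    (ha : IsUnit (Ideal.Quotient.mk (Ideal.span {(T (1 : ℤ) - 1 : B[T;T⁻¹])}) a)) :
    a ∈ nonZeroDivisors B[T;T⁻¹] := by
  by_contra hcon
  obtain ⟨n, a', h⟩ := exists_T_pow a
  have ha' : a' ∉ nonZeroDivisors (Polynomial B) := by
    intro h1
    apply hcon
    rw [mem_nonZeroDivisors_iff_left]
    intro x hx
    obtain ⟨m, x', hx'⟩ := exists_T_pow x
    have h2 : a' * x' = 0 := by
      apply Polynomial.toLaurent_injective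
      rw [map_mul, h, hx', map_zero]
      linear_combination (T (n : ℤ) * T (m : ℤ) : B[T;T⁻¹]) * hx
    have h3 := (mem_nonZeroDivisors_iff_left.1 h1) _ h2
    rw [h3, map_zero] at hx'
    exact (isUnit_T (m : ℤ)).mul_left_eq_zero.1 hx'.symm
  rw [Polynomial.notMem_nonZeroDivisors_iff] at ha'
  obtain ⟨b, hb, hba⟩ := ha'
  have h1 : LaurentPolynomial.C b * a = 0 := by
    have h2 : LaurentPolynomial.C b * a * T (n : ℤ) = 0 := by
      rw [mul_assoc, ← h, ← Polynomial.toLaurent_C, ← map_mul, ← Polynomial.smul_eq_C_mul, hba,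
        map_zero]
    exact (isUnit_T (n : ℤ)).mul_left_eq_zero.1 h2
  let ε : B[T;T⁻¹] →+* B := LaurentPolynomial.eval₂ (RingHom.id B) 1
  have hεT : ε (T (1 : ℤ)) = 1 := by
    show LaurentPolynomial.eval₂ (RingHom.id B) 1 (T (1 : ℤ)) = 1
    rw [eval₂_T]
    simp
  have hεC : ε (LaurentPolynomial.C b) = b := by
    show LaurentPolynomial.eval₂ (RingHom.id B) 1 (LaurentPolynomial.C b) = b
    rw [eval₂_C]
    rfl
  obtain ⟨w', hw⟩ := ha.exists_right_inv
  obtain ⟨w, rfl⟩ := Ideal.Quotient.mk_surjective w'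
  rw [← map_mul, ← map_one (Ideal.Quotient.mk (Ideal.span {(T (1 : ℤ) - 1 : B[T;T⁻¹])})),
    Ideal.Quotient.eq, Ideal.mem_span_singleton] at hw
  obtain ⟨z, hz⟩ := hw
  have h3 : ε (a * w) = 1 := by
    have h4 := congrArg ε hz
    rw [map_sub, map_mul ε (T (1 : ℤ) - 1), map_sub, hεT, map_one, sub_self, zero_mul,
      sub_eq_zero] at h4
    exact h4
  apply hb
  have h5 := congrArg ε h1
  rw [map_mul, hεC, map_zero] at h5
  calc b = b * ε (a * w) := by rw [h3, mul_one]
    _ = (b * ε a) * ε w := by rw [map_mul, mul_assoc]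
    _ = 0 := by rw [h5, zero_mul]

theorem k1_unit (hK : SpecK.{u, 0}) (x : K1 B[T;T⁻¹]) :
    ∃ (m : ℕ) (_ : 0 < m) (y : (B[T;T⁻¹])ˣ), m • x = K1.unit y := by
  have hfin : Finite (B[T;T⁻¹] ⧸ Ideal.span {(T (1 : ℤ) - 1 : B[T;T⁻¹])}) :=
    finite_of_dvd _ 1 one_pos (by simp)
  have hart : IsArtinianRing (B[T;T⁻¹] ⧸ Ideal.span {(T (1 : ℤ) - 1 : B[T;T⁻¹])}) := inferInstance
  exact EM.E0 hK (fun c hc => finite_quot c hc) _ nzd_of_unit x

/-! ### units -/

/-- units of Laurent polynomial rings over a field -/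
lemma unit_field {k : Type v} [Field k] (y : k[T;T⁻¹]) (hy : IsUnit y) :
    ∃ (b : k) (n : ℤ), b ≠ 0 ∧ y = LaurentPolynomial.C b * T n := by
  obtain ⟨z, hz⟩ := hy.exists_right_inv
  obtain ⟨m, y', hy'⟩ := exists_T_pow y
  obtain ⟨m', z', hz'⟩ := exists_T_pow z
  have h1 : y' * z' = Polynomial.X ^ (m + m') := by
    apply Polynomial.toLaurent_injective
    rw [map_mul, hy', hz', Polynomial.toLaurent_X_pow, Nat.cast_add, T_add]
    linear_combination (T (m : ℤ) * T (m' : ℤ) : k[T;T⁻¹]) * hz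
  obtain ⟨i, -, u, hu⟩ := (dvd_prime_pow Polynomial.prime_X (m + m')).1 (Dvd.intro _ h1)
  obtain ⟨r, hr, hr'⟩ := Polynomial.isUnit_iff.1 u.isUnit
  have hr0 : r ≠ 0 := hr.ne_zero
  have h2 : y' = Polynomial.C r⁻¹ * Polynomial.X ^ i := by
    rw [← hu, ← hr', mul_comm y', ← mul_assoc, ← Polynomial.C_mul, inv_mul_cancel₀ hr0,
      Polynomial.C_1, one_mul]
  refine ⟨r⁻¹, (i : ℤ) - m, inv_ne_zero hr0, ?_⟩
  have h3 : y * T (m : ℤ) = LaurentPolynomial.C r⁻¹ * T (i : ℤ) := by
    rw [← hy', h2, map_mul, Polynomial.toLaurent_C, Polynomial.toLaurent_X_pow]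
  calc y = y * T (m : ℤ) * T (-(m : ℤ)) := by
        rw [mul_T_assoc, add_neg_cancel, T_zero, mul_one]
    _ = LaurentPolynomial.C r⁻¹ * T ((i : ℤ) - m) := by
        rw [h3, mul_T_assoc, sub_eq_add_neg]

/-- one plus nilpotent has finite order if the ring has positive characteristic -/
lemma pow_one_add {L : Type v} [CommRing L] (n : ℕ) (hn : (n : L) = 0) (ν : L)
    (hν : IsNilpotent ν) : ∃ k : ℕ, (1 + ν) ^ n ^ k = 1 := by
  obtain ⟨k, hk⟩ := hν
  have key : ∀ j : ℕ, ∃ r : L, (1 + ν) ^ n ^ j = 1 + ν ^ 2 ^ j * r := by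
    intro j
    induction j with
    | zero => exact ⟨1, by simp⟩
    | succ j ih =>
      obtain ⟨r, hr⟩ := ih
      obtain ⟨s, hs⟩ := Polynomial.powAddExpansion 1 (ν ^ 2 ^ j * r) n
      refine ⟨s * r ^ 2, ?_⟩
      rw [pow_succ n j, pow_mul, hr, hs, hn]
      ring
  obtain ⟨r, hr⟩ := key k
  refine ⟨k, ?_⟩
  rw [hr, pow_eq_zero_of_le (Nat.lt_two_pow_self).le hk, zero_mul, add_zero]

/-- a power of an element of a finite ring is idempotent -/
lemma exists_idem (b : B) : ∃ n : ℕ, 0 < n ∧ b ^ n * b ^ n = b ^ n := by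
  obtain ⟨i, j, hne, h⟩ := Finite.exists_ne_map_eq_of_infinite (fun n : ℕ => b ^ n)
  wlog hij : i < j generalizing i j
  · exact this j i hne.symm h.symm (lt_of_le_of_ne (not_lt.1 hij) hne.symm)
  obtain ⟨d, hd, rfl⟩ := Nat.exists_eq_add_of_lt hij
  have h1 : ∀ n : ℕ, i ≤ n → b ^ n = b ^ (n + (d + 1)) := by
    intro n hn
    obtain ⟨c, rfl⟩ := Nat.exists_eq_add_of_le hn
    have h2 : b ^ i = b ^ (i + d + 1) := h
    rw [pow_add, h2, ← pow_add]
    congr 1
    ring
  have h2 : ∀ (m n : ℕ), i ≤ n → b ^ n = b ^ (n + m * (d + 1)) := by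
    intro m
    induction m with
    | zero => intro n _; simp
    | succ m ih =>
      intro n hn
      rw [ih n hn, h1 (n + m * (d + 1)) (by omega)]
      congr 1
      ring
  refine ⟨(i + 1) * (d + 1), Nat.mul_pos (Nat.succ_pos _) (Nat.succ_pos _), ?_⟩
  rw [← pow_add]
  exact (h2 (i + 1) ((i + 1) * (d + 1)) (by nlinarith)).symm

/-- idempotents for the maximal ideals -/
lemma exists_idem_max (I : MaximalSpectrum B) :
    ∃ f : B, f * f = f ∧ 1 - f ∈ I.asIdeal ∧ ∀ J : MaximalSpectrum B, J ≠ I → f ∈ J.asIdeal := by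
  classical
  have hfin : Finite (MaximalSpectrum B) := inferInstance
  have : Fintype (MaximalSpectrum B) := Fintype.ofFinite _
  have h1 : ∀ J : MaximalSpectrum B, J ≠ I → ∃ s : B, s ∈ J.asIdeal ∧ 1 - s ∈ I.asIdeal := by
    intro J hJ
    have h2 : J.asIdeal ⊔ I.asIdeal = ⊤ := J.isMaximal.coprime_of_ne I.isMaximal (by
      intro h
      exact hJ (MaximalSpectrum.ext h))
    obtain ⟨a, ha, b, hb, hab⟩ := Submodule.mem_sup.1 ((Ideal.eq_top_iff_one _).1 h2)
    refine ⟨a, ha, ?_⟩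
    rw [← hab, add_sub_cancel_left]
    exact hb
  choose! s hs1 hs2 using h1
  set b := ∏ J ∈ Finset.univ.erase I, s J with hb
  obtain ⟨n, hn, hidem⟩ := exists_idem b
  refine ⟨b ^ n, hidem, ?_, ?_⟩
  · rw [← Ideal.Quotient.eq_zero_iff_mem, map_sub, map_one, map_pow, hb, map_prod,
      Finset.prod_eq_one, one_pow, sub_self]
    intro J hJ
    have h3 := hs2 J (Finset.ne_of_mem_erase hJ)
    rw [← Ideal.Quotient.eq_zero_iff_mem, map_sub, map_one, sub_eq_zero] at h3
    exact h3.symm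
  · intro J hJ
    apply Ideal.pow_mem_of_mem _ _ _ hn
    rw [hb]
    exact Ideal.mem_of_dvd _ (Finset.dvd_prod_of_mem s (Finset.mem_erase.2 ⟨hJ, mem_univ J⟩))
      (hs1 J hJ)

/-- an element of all maximal ideals is nilpotent -/
lemma nilp (b : B) (hb : ∀ I : MaximalSpectrum B, b ∈ I.asIdeal) : IsNilpotent b := by
  obtain ⟨n, hn, h⟩ := exists_idem b
  refine ⟨n, ?_⟩
  have hu : IsUnit (1 - b ^ n) := by
    by_contra hcon
    obtain ⟨m, hm, hmem⟩ := exists_max_ideal_of_mem_nonunits hcon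
    have h1 := Ideal.pow_mem_of_mem m (hb ⟨m, hm⟩) n hn
    apply hm.ne_top
    rw [Ideal.eq_top_iff_one]
    have h2 := m.add_mem hmem h1
    rwa [sub_add_cancel] at h2
  exact (hu.mul_right_eq_zero).1 (by rw [sub_mul, one_mul, h, sub_self])

/-- the unit `t^k` -/
def tU (L : Type v) [CommRing L] (k : ℤ) : (L[T;T⁻¹])ˣ where
  val := T k
  inv := T (-k)
  val_inv := by rw [← T_add, add_neg_cancel, T_zero]
  inv_val := by rw [← T_add, neg_add_cancel, T_zero]

lemma tU_add (L : Type v) [CommRing L] (a b : ℤ) : tU L (a + b) = tU L a * tU L b :=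
  Units.ext (T_add a b)

lemma tU_zpow (L : Type v) [CommRing L] (a k : ℤ) : tU L a ^ k = tU L (k * a) := by
  let φ : Multiplicative ℤ →* (L[T;T⁻¹])ˣ :=
    { toFun := fun z => tU L z.toAdd
      map_one' := Units.ext T_zero
      map_mul' := fun x y => tU_add L x.toAdd y.toAdd }
  have h := map_zpow φ (Multiplicative.ofAdd a) k
  have h2 : (Multiplicative.ofAdd a) ^ k = Multiplicative.ofAdd (k * a) := by
    rw [← ofAdd_zsmul, smul_eq_mul]
  rw [h2] at h
  exact h.symm

omit [Finite B] in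
lemma red_one (I : Ideal B) (f : B) (hf : f * f = f) (h : 1 - f ∈ I) :
    Units.map (lauMap (Ideal.Quotient.mk I)).toMonoidHom (btU f hf) = tU (B ⧸ I) 1 := by
  apply Units.ext
  show lauMap (Ideal.Quotient.mk I) (AddMonoidAlgebra.single 1 f +
    AddMonoidAlgebra.single 0 (1 - f)) = AddMonoidAlgebra.single 1 1
  have h1 : Ideal.Quotient.mk I (1 - f) = 0 := Ideal.Quotient.eq_zero_iff_mem.2 h
  have h2 : Ideal.Quotient.mk I f = 1 := by
    rw [map_sub, map_one, sub_eq_zero] at h1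
    exact h1.symm
  rw [map_add]
  simp only [lauMap, AddMonoidAlgebra.mapRingHom_single]
  rw [h1, h2, AddMonoidAlgebra.single_zero, add_zero]

omit [Finite B] in
lemma red_zero (I : Ideal B) (f : B) (hf : f * f = f) (h : f ∈ I) :
    Units.map (lauMap (Ideal.Quotient.mk I)).toMonoidHom (btU f hf) = 1 := by
  apply Units.ext
  show lauMap (Ideal.Quotient.mk I) (AddMonoidAlgebra.single 1 f +
    AddMonoidAlgebra.single 0 (1 - f)) = 1
  have h2 : Ideal.Quotient.mk I f = 0 := Ideal.Quotient.eq_zero_iff_mem.2 h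
  rw [map_add]
  simp only [lauMap, AddMonoidAlgebra.mapRingHom_single]
  rw [map_sub, h2, AddMonoidAlgebra.single_zero, zero_add, map_one, sub_zero]
  rfl

lemma red_unit (y : (B[T;T⁻¹])ˣ) (I : MaximalSpectrum B) : ∃ (m : ℕ) (n : ℤ), 0 < m ∧
    Units.map (lauMap (Ideal.Quotient.mk I.asIdeal)).toMonoidHom (y ^ m) =
      tU (B ⧸ I.asIdeal) (m * n) := by
  have : I.asIdeal.IsMaximal := I.isMaximal
  let _ : Field (B ⧸ I.asIdeal) := Ideal.Quotient.field I.asIdeal
  have hfin : Finite (B ⧸ I.asIdeal) :=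
    Finite.of_surjective _ (Ideal.Quotient.mk_surjective (I := I.asIdeal))
  obtain ⟨b, n, hb, h⟩ := unit_field (lauMap (Ideal.Quotient.mk I.asIdeal) (y : B[T;T⁻¹]))
    (y.isUnit.map (lauMap (Ideal.Quotient.mk I.asIdeal)))
  obtain ⟨m, hm, h1⟩ := (isOfFinOrder_of_finite (Units.mk0 b hb)).exists_pow_eq_one
  refine ⟨m, n, hm, ?_⟩
  apply Units.ext
  have h2 : b ^ m = 1 := by
    have h3 := congrArg Units.val h1
    rwa [Units.val_pow_eq_pow_val, Units.val_mk0, Units.val_one] at h3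
  have h4 : (lauMap (Ideal.Quotient.mk I.asIdeal) (y : B[T;T⁻¹])) ^ m = T ((m : ℤ) * n) := by
    rw [h, mul_pow, ← map_pow, h2, map_one, one_mul, T_pow]
  rw [map_pow, Units.val_pow_eq_pow_val]
  exact h4

omit [Finite B] in
lemma coeff_lauMap {B' : Type v} [CommRing B'] (q : B →+* B') (v : B[T;T⁻¹]) (z : ℤ) :
    (lauMap q v).coeff z = q (v.coeff z) := by
  simp [lauMap]

/-- the units of `B[t, t⁻¹]` up to finite order -/
theorem unit_pow (y : (B[T;T⁻¹])ˣ) : ∃ (M : ℕ) (_ : 0 < M) (ε : MaximalSpectrum B → ℤ)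
    (f : MaximalSpectrum B → B) (hf : ∀ j, f j * f j = f j),
    ∀ [Fintype (MaximalSpectrum B)], y ^ M = ∏ j, btU (f j) (hf j) ^ ε j := by
  classical
  have hfin : Finite (MaximalSpectrum B) := inferInstance
  have hF : Fintype (MaximalSpectrum B) := Fintype.ofFinite _
  choose f hf hf1 hf2 using exists_idem_max (B := B)
  choose m n hm hmn using red_unit y
  set M1 := ∏ I, m I with hM1
  have hM1pos : 0 < M1 := Finset.prod_pos fun I _ => hm I
  have hred : ∀ I, Units.map (lauMap (Ideal.Quotient.mk I.asIdeal)).toMonoidHom (y ^ M1) =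
      tU (B ⧸ I.asIdeal) (M1 * n I) := by
    intro I
    obtain ⟨q, hq⟩ := Finset.dvd_prod_of_mem m (mem_univ I)
    have hq' : M1 = m I * q := hq
    rw [hq', pow_mul, map_pow, hmn, ← zpow_natCast, tU_zpow]
    congr 1
    push_cast
    ring
  set P : (B[T;T⁻¹])ˣ := ∏ J, btU (f J) (hf J) ^ ((M1 : ℤ) * n J) with hP
  have hredP : ∀ I, Units.map (lauMap (Ideal.Quotient.mk I.asIdeal)).toMonoidHom P =
      tU (B ⧸ I.asIdeal) (M1 * n I) := by
    intro I
    rw [hP, map_prod, Finset.prod_eq_single I]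
    · rw [map_zpow, red_one I.asIdeal (f I) (hf I) (hf1 I), tU_zpow, mul_one]
    · intro J _ hJ
      rw [map_zpow, red_zero I.asIdeal (f J) (hf J) (hf2 J I hJ.symm), one_zpow]
    · intro h
      exact absurd (mem_univ _) h
  set w : (B[T;T⁻¹])ˣ := y ^ M1 * P⁻¹ with hw
  have hredw : ∀ I : MaximalSpectrum B,
      Units.map (lauMap (Ideal.Quotient.mk I.asIdeal)).toMonoidHom w = 1 := by
    intro I
    rw [hw, map_mul, map_inv, hred, hredP, mul_inv_cancel]
  have hnil : IsNilpotent ((w : B[T;T⁻¹]) - 1) := by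
    have h1 : ∀ z : ℤ, IsNilpotent (((w : B[T;T⁻¹]) - 1).coeff z) := by
      intro z
      apply nilp
      intro I
      have h2 : lauMap (Ideal.Quotient.mk I.asIdeal) ((w : B[T;T⁻¹]) - 1) = 0 := by
        have h3 := congrArg Units.val (hredw I)
        rw [map_sub, map_one, sub_eq_zero]
        exact h3
      rw [← Ideal.Quotient.eq_zero_iff_mem, ← coeff_lauMap, h2]
      rfl
    have h5 : (w : B[T;T⁻¹]) - 1 = ∑ z ∈ ((w : B[T;T⁻¹]) - 1).coeff.support,
        LaurentPolynomial.C (((w : B[T;T⁻¹]) - 1).coeff z) * T z := by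
      apply LaurentPolynomial.ext
      intro a
      have h6 : (∑ z ∈ ((w : B[T;T⁻¹]) - 1).coeff.support,
          LaurentPolynomial.C (((w : B[T;T⁻¹]) - 1).coeff z) * T z).coeff a =
          ∑ z ∈ ((w : B[T;T⁻¹]) - 1).coeff.support,
          (LaurentPolynomial.C (((w : B[T;T⁻¹]) - 1).coeff z) * T z).coeff a := by
        rw [AddMonoidAlgebra.coeff_sum, Finsupp.finsetSum_apply]
      rw [h6]
      simp only [← single_eq_C_mul_T, AddMonoidAlgebra.coeff_single, Finsupp.single_apply]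
      rw [Finset.sum_ite_eq' (((w : B[T;T⁻¹]) - 1).coeff.support) a
        (fun z => ((w : B[T;T⁻¹]) - 1).coeff z)]
      split_ifs with h7
      · rfl
      · exact Finsupp.notMem_support_iff.1 h7
    rw [h5, ← mem_nilradical]
    refine Ideal.sum_mem _ fun z _ => Ideal.mul_mem_right _ _ ?_
    rw [mem_nilradical]
    exact (h1 z).map LaurentPolynomial.C
  have hchar : ((Nat.card B : ℕ) : B[T;T⁻¹]) = 0 := by
    have h1 : ((Nat.card B : ℕ) : B) = 0 := by
      have : Fintype B := Fintype.ofFinite B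
      rw [Nat.card_eq_fintype_card]
      exact Nat.cast_card_eq_zero B
    have h2 := congrArg (LaurentPolynomial.C (R := B)) h1
    rwa [map_natCast, map_zero] at h2
  obtain ⟨k, hk⟩ := pow_one_add (Nat.card B) hchar ((w : B[T;T⁻¹]) - 1) hnil
  rw [add_sub_cancel] at hk
  have hwk : w ^ Nat.card B ^ k = 1 := by
    apply Units.ext
    rw [Units.val_pow_eq_pow_val, hk, Units.val_one]
  have hcpos : 0 < Nat.card B := Nat.card_pos
  refine ⟨M1 * Nat.card B ^ k, Nat.mul_pos hM1pos (pow_pos hcpos k),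
    fun I => ((M1 : ℤ) * n I) * ((Nat.card B ^ k : ℕ) : ℤ), f, hf, ?_⟩
  intro hF'
  have h8 : y ^ M1 = w * P := by rw [hw, inv_mul_cancel_right]
  rw [pow_mul, h8, mul_pow, hwk, one_mul, hP]
  have hFF : hF' = hF := Subsingleton.elim _ _
  subst hFF
  rw [← Finset.prod_pow]
  refine Finset.prod_congr rfl fun I _ => ?_
  rw [← zpow_natCast, ← zpow_mul]

end K1F

open K1F in
theorem specK1F (hK : SpecK.{u, 0}) : SpecK1F.{u} := by
  classical
  intro B _ _ x
  obtain ⟨m, hm, y, hy⟩ := k1_unit hK x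
  obtain ⟨M, hM, ε, f, hf, h⟩ := unit_pow y
  have hfin : Finite (MaximalSpectrum B) := inferInstance
  have : Fintype (MaximalSpectrum B) := Fintype.ofFinite _
  let e := Fintype.equivFin (MaximalSpectrum B)
  refine ⟨M * m, Nat.mul_pos hM hm, Fintype.card (MaximalSpectrum B), fun j => ε (e.symm j),
    fun j => f (e.symm j), fun j => hf (e.symm j), ?_⟩
  have h1 : ((M * m) • x : K1 (Lau B)) = K1.unit (y ^ M) := by
    rw [mul_smul, hy]
    exact (EM.unit_pow y M).symm
  rw [h1, h]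
  have h2 : ∀ s : Finset (MaximalSpectrum B), (K1.unit (∏ j ∈ s, btU (f j) (hf j) ^ ε j) :
      K1 (Lau B)) = ∑ j ∈ s, ε j • K1.unit (btU (f j) (hf j)) := by
    intro s
    have h3 := map_sum (EM.unitHom (L := Lau B)) (fun j => Additive.ofMul (btU (f j) (hf j) ^ ε j)) s
    have h4 : (EM.unitHom (L := Lau B)) (∑ j ∈ s, Additive.ofMul (btU (f j) (hf j) ^ ε j)) =
        K1.unit (∏ j ∈ s, btU (f j) (hf j) ^ ε j) := by
      rw [← ofMul_prod]
      rfl
    rw [← h4, h3]
    refine Finset.sum_congr rfl fun j _ => ?_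
    rw [ofMul_zpow, map_zsmul]
    rfl
  rw [h2]
  exact Fintype.sum_equiv e _ _ (fun j => by simp)

end Pool.Agent.Lib.MPb6f35e.ZK
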