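import Pool.Agent.Lib.MP_b6f35e_al.ZK.Spec

/-!
# Module LNK, part 2: lifting idempotents to `ℚ_p[C]` by a limit  (MP_b6f35e_al, ZK)
-/

set_option autoImplicit false

noncomputable section

namespace Pool.Agent.Lib.MPb6f35e.ZK.LNKMod

universe u v

/-- `ℚ[C] → ℚ_p[C]` -/
def jQ (p : ℕ) [Fact p.Prime] (C : Type u) [CommGroup C] :
    MonoidAlgebra ℚ C →+* MonoidAlgebra ℚ_[p] C :=
  MonoidAlgebra.mapRingHom C (algebraMap ℚ ℚ_[p])

/-- `ℤ_p[C] → ℚ_p[C]` -/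
def jZ (p : ℕ) [Fact p.Prime] (C : Type u) [CommGroup C] :
    MonoidAlgebra ℤ_[p] C →+* MonoidAlgebra ℚ_[p] C :=
  MonoidAlgebra.mapRingHom C (algebraMap ℤ_[p] ℚ_[p])

/-- `ℤ[C] → ℚ[C]` -/
def iQ (C : Type u) [CommGroup C] : MonoidAlgebra ℤ C →+* MonoidAlgebra ℚ C :=
  MonoidAlgebra.mapRingHom C (Int.castRingHom ℚ)

/-- `ℤ[C] → ℤ_p[C]` -/
def iP (p : ℕ) [Fact p.Prime] (C : Type u) [CommGroup C] :
    MonoidAlgebra ℤ C →+* MonoidAlgebra ℤ_[p] C :=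
  MonoidAlgebra.mapRingHom C (Int.castRingHom ℤ_[p])

lemma ji (p : ℕ) [Fact p.Prime] (C : Type u) [CommGroup C] (a : MonoidAlgebra ℤ C) :
    jQ p C (iQ C a) = jZ p C (iP p C a) := by
  ext c
  simp [jQ, iQ, jZ, iP]

lemma norm_lt (p : ℕ) [Fact p.Prime] (n : ℕ) (hp : p ∣ n) : ‖(n : ℤ_[p])‖ < 1 := by
  have h : ‖((n : ℤ) : ℤ_[p])‖ < 1 := (PadicInt.norm_int_lt_one_iff_dvd (n : ℤ)).2 (by exact_mod_cast hp)
  simpa using h

/-- an element of `k[C]` from its coefficients -/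
def mk' {k : Type v} [CommRing k] {C : Type u} [Finite C] (a : C → k) : MonoidAlgebra k C :=
  MonoidAlgebra.ofCoeff (Finsupp.equivFunOnFinite.symm a)

lemma mk'_coeff {k : Type v} [CommRing k] {C : Type u} [Finite C] (a : C → k) (c : C) :
    (mk' a).coeff c = a c := rfl

section lim

variable {C : Type u} [CommGroup C] [Finite C] (p : ℕ) [Fact p.Prime] (n : ℕ)

/-- the tails -/
def tail (w : ℕ → MonoidAlgebra ℤ C) (K : ℕ) : MonoidAlgebra ℤ_[p] C :=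
  mk' fun c => ∑' j : ℕ, (n : ℤ_[p]) ^ j * (((w (K + j)).coeff c : ℤ) : ℤ_[p])

lemma summ (hp : p ∣ n) (w : ℕ → MonoidAlgebra ℤ C) (K : ℕ) (c : C) :
    Summable fun j : ℕ => (n : ℤ_[p]) ^ j * (((w (K + j)).coeff c : ℤ) : ℤ_[p]) := by
  refine Summable.of_norm_bounded (g := fun j => ‖(n : ℤ_[p])‖ ^ j)
    (summable_geometric_of_lt_one (norm_nonneg _) (norm_lt p n hp)) fun j => ?_
  rw [norm_mul, norm_pow]
  exact mul_le_of_le_one_right (pow_nonneg (norm_nonneg _) _) (PadicInt.norm_le_one _)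

lemma tail_eq (hp : p ∣ n) (w : ℕ → MonoidAlgebra ℤ C) (K : ℕ) :
    tail p n w K = iP p C (w K) + (n : MonoidAlgebra ℤ_[p] C) * tail p n w (K + 1) := by
  rw [← nsmul_eq_mul]
  ext c
  rw [MonoidAlgebra.coeff_add, Finsupp.add_apply, MonoidAlgebra.coeff_smul_apply, tail, mk'_coeff,
    (summ p n hp w K c).tsum_eq_zero_add, tail, mk'_coeff, nsmul_eq_mul,
    ← (summ p n hp w (K + 1) c).tsum_mul_left]
  congr 1
  · simp [iP]
  · refine tsum_congr fun j => ?_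
    rw [pow_succ, show K + (j + 1) = K + 1 + j by ring]
    ring

lemma limit (hp : p ∣ n) (hn : n ≠ 0) (x : ℕ → MonoidAlgebra ℚ C)
    (w z ξ : ℕ → MonoidAlgebra ℤ C)
    (h1 : ∀ k, x (k + 1) = x k + (n : MonoidAlgebra ℚ C) ^ k * iQ C (w k))
    (h2 : ∀ k, x k * x k - x k = (n : MonoidAlgebra ℚ C) ^ k * iQ C (z k))
    (h3 : ∀ k, (n : MonoidAlgebra ℚ C) * x k = iQ C (ξ k)) :
    ∃ r : MonoidAlgebra ℤ_[p] C,
      (jQ p C (x 1) + (n : MonoidAlgebra ℚ_[p] C) * jZ p C r) *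
        (jQ p C (x 1) + (n : MonoidAlgebra ℚ_[p] C) * jZ p C r) =
      jQ p C (x 1) + (n : MonoidAlgebra ℚ_[p] C) * jZ p C r := by
  refine ⟨tail p n w 1, ?_⟩
  set F : MonoidAlgebra ℚ_[p] C :=
    jQ p C (x 1) + (n : MonoidAlgebra ℚ_[p] C) * jZ p C (tail p n w 1) with hF
  have hK : ∀ K : ℕ, F = jQ p C (x (K + 1)) +
      (n : MonoidAlgebra ℚ_[p] C) ^ (K + 1) * jZ p C (tail p n w (K + 1)) := by
    intro K
    induction K with
    | zero => simp [hF]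
    | succ K ih =>
      rw [ih, h1 (K + 1), tail_eq p n hp w (K + 1)]
      simp only [map_add, map_mul, map_pow, map_natCast, ji]
      ring
  have hq : ∀ K : ℕ, ∃ q : MonoidAlgebra ℤ_[p] C, (n : MonoidAlgebra ℚ_[p] C) * (F * F - F) =
      (n : MonoidAlgebra ℚ_[p] C) ^ (K + 1) * jZ p C q := by
    intro K
    refine ⟨(n : MonoidAlgebra ℤ_[p] C) * iP p C (z (K + 1)) +
      (2 * iP p C (ξ (K + 1)) - n) * tail p n w (K + 1) +
      (n : MonoidAlgebra ℤ_[p] C) ^ (K + 2) * tail p n w (K + 1) ^ 2, ?_⟩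
    have e2 := congrArg (jQ p C) (h2 (K + 1))
    have e3 := congrArg (jQ p C) (h3 (K + 1))
    simp only [map_mul, map_sub, map_pow, map_natCast, ji] at e2 e3
    have g2 : (jZ p C) 2 = 2 := map_ofNat _ 2
    rw [hK K]
    simp only [map_add, map_mul, map_sub, map_pow, map_natCast, g2]
    linear_combination (n : MonoidAlgebra ℚ_[p] C) * e2 +
      2 * (n : MonoidAlgebra ℚ_[p] C) ^ (K + 1) * jZ p C (tail p n w (K + 1)) * e3
  have h0 : (n : MonoidAlgebra ℚ_[p] C) * (F * F - F) = 0 := by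
    ext c
    rw [MonoidAlgebra.coeff_zero, Finsupp.zero_apply]
    by_contra hne
    have hpos : 0 < ‖((n : MonoidAlgebra ℚ_[p] C) * (F * F - F)).coeff c‖ := norm_pos_iff.2 hne
    obtain ⟨K, hKK⟩ := exists_pow_lt_of_lt_one hpos (norm_lt p n hp)
    obtain ⟨q, hq⟩ := hq K
    rw [hq, ← Nat.cast_pow, ← nsmul_eq_mul, MonoidAlgebra.coeff_smul_apply, nsmul_eq_mul,
      norm_mul] at hKK
    have h5 : ‖((n ^ (K + 1) : ℕ) : ℚ_[p])‖ = ‖(n : ℤ_[p])‖ ^ (K + 1) := by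
      rw [Nat.cast_pow, norm_pow]
      congr 1
    have h6 : ‖(jZ p C q).coeff c‖ ≤ 1 := by
      have : (jZ p C q).coeff c = ((q.coeff c : ℤ_[p]) : ℚ_[p]) := by
        simp [jZ]
      rw [this]
      exact PadicInt.norm_le_one _
    rw [h5] at hKK
    have h7 : ‖(n : ℤ_[p])‖ ^ (K + 1) * ‖(jZ p C q).coeff c‖ ≤ ‖(n : ℤ_[p])‖ ^ K := by
      calc ‖(n : ℤ_[p])‖ ^ (K + 1) * ‖(jZ p C q).coeff c‖ ≤ ‖(n : ℤ_[p])‖ ^ (K + 1) :=
            mul_le_of_le_one_right (pow_nonneg (norm_nonneg _) _) h6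
        _ ≤ ‖(n : ℤ_[p])‖ ^ K :=
            pow_le_pow_of_le_one (norm_nonneg _) (norm_lt p n hp).le (Nat.le_succ K)
    exact absurd hKK (not_lt.2 h7)
  have h8 : F * F - F = 0 := by
    rw [← nsmul_eq_mul] at h0
    ext c
    have h9 : n • (F * F - F).coeff c = 0 := by
      rw [← MonoidAlgebra.coeff_smul_apply, h0]
      simp
    rw [nsmul_eq_mul, mul_eq_zero, Nat.cast_eq_zero] at h9
    rw [h9.resolve_left hn]
    simp
  exact sub_eq_zero.1 h8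

lemma notdvd (hp : ¬ p ∣ n) (x : MonoidAlgebra ℚ C) (ξ : MonoidAlgebra ℤ C)
    (h3 : (n : MonoidAlgebra ℚ C) * x = iQ C ξ) :
    ∃ r : MonoidAlgebra ℤ_[p] C,
      (jQ p C x + (n : MonoidAlgebra ℚ_[p] C) * jZ p C r) *
        (jQ p C x + (n : MonoidAlgebra ℚ_[p] C) * jZ p C r) =
      jQ p C x + (n : MonoidAlgebra ℚ_[p] C) * jZ p C r := by
  have hu : IsUnit (n : ℤ_[p]) := by
    rw [PadicInt.isUnit_iff]
    refine le_antisymm (PadicInt.norm_le_one _) (not_lt.1 fun h => hp ?_)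
    have h' : ‖((n : ℤ) : ℤ_[p])‖ < 1 := by simpa using h
    exact_mod_cast (PadicInt.norm_int_lt_one_iff_dvd (n : ℤ)).1 h'
  obtain ⟨u, hu⟩ := hu.exists_left_inv
  set U : MonoidAlgebra ℤ_[p] C := MonoidAlgebra.single 1 u with hU
  have hUn : jZ p C U * (n : MonoidAlgebra ℚ_[p] C) = 1 := by
    rw [← map_natCast (jZ p C), ← map_mul]
    have : U * (n : MonoidAlgebra ℤ_[p] C) = 1 := by
      rw [hU, MonoidAlgebra.natCast_def, MonoidAlgebra.single_mul_single, mul_one, hu]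
      rfl
    rw [this, map_one]
  refine ⟨-(U * U * iP p C ξ), ?_⟩
  have e3 := congrArg (jQ p C) h3
  simp only [map_mul, map_natCast, ji] at e3
  have : jQ p C x + (n : MonoidAlgebra ℚ_[p] C) * jZ p C (-(U * U * iP p C ξ)) = 0 := by
    simp only [map_neg, map_mul]
    rw [← e3]
    linear_combination (-(1 + jZ p C U * n)) * jQ p C x * hUn
  rw [this, mul_zero]

end lim

end Pool.Agent.Lib.MPb6f35e.ZK.LNKMod
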