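import Pool.Agent.Lib.MP_b6f35e_al.ZK.LNKcore
import Pool.Agent.Lib.MP_b6f35e_al.ZK.LNKlim

/-!
# Module LNK: the two boundary maps agree on idempotents  (MP_b6f35e_al, ZK)
-/

set_option autoImplicit false

noncomputable section

namespace Pool.Agent.Lib.MPb6f35e.ZK.LNKMod

open Pool.Agent.Lib.MPb6f35e.WH (K1 oneByOne)

universe u v

/-! ### the variable `t` -/

section lau

variable (A : Type u) [CommRing A]

/-- `t` -/
def T : Lau A := AddMonoidAlgebra.single (1 : ℤ) 1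

/-- `t⁻¹` -/
def T' : Lau A := AddMonoidAlgebra.single (-1 : ℤ) 1

/-- constants -/
def cst : A →+* Lau A := AddMonoidAlgebra.singleZeroRingHom

lemma TT' : T A * T' A = 1 := by
  rw [T, T', AddMonoidAlgebra.single_mul_single, mul_one, AddMonoidAlgebra.one_def]
  norm_num

lemma cst_def (a : A) : cst A a = AddMonoidAlgebra.single 0 a := rfl

variable {A}
variable {B : Type u} [CommRing B]

lemma lauMap_T (f : A →+* B) : lauMap f (T A) = T B := by
  rw [lauMap, T, AddMonoidAlgebra.mapRingHom_single, map_one]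
  rfl

lemma lauMap_T' (f : A →+* B) : lauMap f (T' A) = T' B := by
  rw [lauMap, T', AddMonoidAlgebra.mapRingHom_single, map_one]
  rfl

lemma lauMap_cst (f : A →+* B) (a : A) : lauMap f (cst A a) = cst B (f a) := by
  rw [lauMap, cst_def, AddMonoidAlgebra.mapRingHom_single]
  rfl

lemma btU_val (f : A) (hf : f * f = f) : (btU f hf : Lau A) = cst A f * T A + 1 - cst A f := by
  show AddMonoidAlgebra.single 1 f + AddMonoidAlgebra.single 0 (1 - f) = _
  rw [T, cst_def, AddMonoidAlgebra.single_mul_single, AddMonoidAlgebra.single_sub, zero_add,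
    mul_one, AddMonoidAlgebra.one_def, add_sub_assoc]

lemma oneByOne_val (a : (Lau A)ˣ) :
    ((oneByOne a : (Matrix (Fin 1) (Fin 1) (Lau A))ˣ) : Matrix (Fin 1) (Fin 1) (Lau A)) =
      Matrix.of fun _ _ => (a : Lau A) := rfl

lemma lauMap_inj (f : A →+* B) (hf : Function.Injective f) : Function.Injective (lauMap f) := by
  intro a b hab
  have : Function.Injective (AddMonoidAlgebra.map (M := ℤ) (f : A →+ B)) :=
    AddMonoidAlgebra.map_injective _ hf
  exact this hab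

end lau

lemma mapRingHom_inj {k k' : Type v} [CommRing k] [CommRing k'] (C : Type u) [CommGroup C]
    (f : k →+* k') (hf : Function.Injective f) :
    Function.Injective (MonoidAlgebra.mapRingHom C f) := by
  intro a b hab
  have : Function.Injective (MonoidAlgebra.map (M := C) (f : k →+ k')) :=
    MonoidAlgebra.map_injective _ hf
  exact this hab

/-! ### frames with `F` -/

section core
variable {L : Type u} [CommRing L]

lemma frameF (t t' x F : L) (ht : t * t' = 1) (hF : F * F = F) :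
    col ((1 + (x * x - x) * (t + t' - 2)) * (x * t' + 1 - x) * (F * t + 1 - F))
        ((x * x - x) * (t + t' - 2) * (F * t + 1 - F)) *
      row ((x * t + 1 - x) * (F * t' + 1 - F)) ((x * x - x) * (t + t' - 2) * (F * t' + 1 - F)) =
    eM t t' (x * x - x) ((x * x - x) * x) := by
  rw [← frame t t' x ht, col_mul_row, col_mul_row]
  have h := bb_eq t t' F ht hF
  ext i j
  fin_cases i <;> fin_cases j <;>
    simp only [Fin.zero_eta, Fin.mk_one, Fin.isValue,
      Matrix.of_apply, Matrix.cons_val_zero, Matrix.cons_val_one, Matrix.cons_val_fin_one,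
      Matrix.cons_val', Matrix.empty_val']
  · linear_combination ((1 + (x * x - x) * (t + t' - 2)) * (x * t' + 1 - x) * (x * t + 1 - x)) * h
  · linear_combination ((1 + (x * x - x) * (t + t' - 2)) * (x * t' + 1 - x) *
      ((x * x - x) * (t + t' - 2))) * h
  · linear_combination (((x * x - x) * (t + t' - 2)) * (x * t + 1 - x)) * h
  · linear_combination (((x * x - x) * (t + t' - 2)) * ((x * x - x) * (t + t' - 2))) * h

lemma frameF' (t t' x F : L) (ht : t * t' = 1) (hF : F * F = F) :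
    row ((x * t + 1 - x) * (F * t' + 1 - F)) ((x * x - x) * (t + t' - 2) * (F * t' + 1 - F)) *
      col ((1 + (x * x - x) * (t + t' - 2)) * (x * t' + 1 - x) * (F * t + 1 - F))
        ((x * x - x) * (t + t' - 2) * (F * t + 1 - F)) = 1 := by
  apply row_mul_col_one
  have h := ab_eq t t' x ht
  have h' := bb_eq t t' F ht hF
  linear_combination (1 + (x * x - x) * (t + t' - 2)) * (F * t + 1 - F) * (F * t' + 1 - F) * h + h'

lemma frameFF (t t' x F : L) (ht : t * t' = 1) :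
    row (x * t + 1 - x) ((x * x - x) * (t + t' - 2)) *
      col ((1 + (x * x - x) * (t + t' - 2)) * (x * t' + 1 - x) * (F * t + 1 - F))
        ((x * x - x) * (t + t' - 2) * (F * t + 1 - F)) = Matrix.of fun _ _ => F * t + 1 - F := by
  rw [row_mul_col]
  have h := ab_eq t t' x ht
  congr 1
  funext _ _
  linear_combination (1 + (x * x - x) * (t + t' - 2)) * (F * t + 1 - F) * h

end core

/-! ### the two squares, abstractly -/

section abs

variable {A A₁ A₂ A₀ : Type u} [CommRing A] [CommRing A₁] [CommRing A₂] [CommRing A₀]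

/-- the first pair of frames -/
lemma abs1 (i₁ : A →+* A₁) (δ η : A) (x : A₁) (hδ : i₁ δ = x * x - x)
    (hη : i₁ η = (x * x - x) * x) :
    col ((1 + (cst A₁ x * cst A₁ x - cst A₁ x) * (T A₁ + T' A₁ - 2)) *
      (cst A₁ x * T' A₁ + 1 - cst A₁ x))
      ((cst A₁ x * cst A₁ x - cst A₁ x) * (T A₁ + T' A₁ - 2)) *
    row (cst A₁ x * T A₁ + 1 - cst A₁ x)
      ((cst A₁ x * cst A₁ x - cst A₁ x) * (T A₁ + T' A₁ - 2)) =
    (eM (T A) (T' A) (cst A δ) (cst A η)).map (lauMap i₁) := by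
  rw [frame _ _ _ (TT' A₁), eM_map, lauMap_T, lauMap_T', lauMap_cst, lauMap_cst, hδ, hη, map_mul,
    map_sub, map_mul]

/-- conductor square -/
lemma glCon' (i₁ : A →+* A₁) (i₂ : A →+* A₂) (j₁ : A₁ →+* A₀) (j₂ : A₂ →+* A₀) (δ η : A)
    (x : A₁) (hδ : i₁ δ = x * x - x) (hη : i₁ η = (x * x - x) * x) (kδ : i₂ δ = 0)
    (kη : i₂ η = 0) (f : A₀) (hf : f * f = f) (hx : j₁ x = f) :
    Gl (⟨lauMap i₁, lauMap i₂, lauMap j₁, lauMap j₂⟩ : SqMaps (Lau A) (Lau A₁) (Lau A₂) (Lau A₀))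
      (eM (T A) (T' A) (cst A δ) (cst A η))
      ((oneByOne (btU f hf) : (Matrix (Fin 1) (Fin 1) (Lau A₀))ˣ) :
        Matrix (Fin 1) (Fin 1) (Lau A₀)) := by
  refine ⟨_, _, col 1 0, row 1 0, abs1 i₁ δ η x hδ hη, frame' _ _ _ (TT' _), ?_, ?_, ?_⟩
  · rw [eM_map, lauMap_T, lauMap_T', lauMap_cst, lauMap_cst, kδ, kη, map_zero, col_mul_row]
    simp [eM]
  · exact row_mul_col_one _ _ _ _ (by ring)
  · rw [row_map, col_map, row_mul_col, oneByOne_val, btU_val]
    congr 1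
    funext _ _
    rw [map_one, map_zero, mul_one, mul_zero, add_zero, map_sub, map_add, map_mul, map_one,
      lauMap_T, lauMap_cst, hx]

/-- arithmetic square -/
lemma glPad' (i₁ : A →+* A₁) (i₂ : A →+* A₂) (j₁ : A₁ →+* A₀) (j₂ : A₂ →+* A₀)
    (hj : Function.Injective j₂) (hcomm : ∀ a, j₁ (i₁ a) = j₂ (i₂ a)) (δ η ξ : A)
    (x : A₁) (hδ : i₁ δ = x * x - x) (hη : i₁ η = (x * x - x) * x) (n : ℕ)
    (hξ : i₁ ξ = (n : A₁) * x) (r : A₂)
    (F : A₀) (hF : F * F = F) (hFdef : F = j₁ x + (n : A₀) * j₂ r) :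
    Gl (⟨lauMap i₁, lauMap i₂, lauMap j₁, lauMap j₂⟩ : SqMaps (Lau A) (Lau A₁) (Lau A₂) (Lau A₀))
      (eM (T A) (T' A) (cst A δ) (cst A η))
      ((oneByOne (btU F hF) : (Matrix (Fin 1) (Fin 1) (Lau A₀))ˣ) :
        Matrix (Fin 1) (Fin 1) (Lau A₀)) := by
  have ginj : Function.Injective (lauMap j₂) := lauMap_inj _ hj
  set X : A₀ := j₁ x with hX
  have kδ : j₂ (i₂ δ) = X * X - X := by rw [← hcomm, hδ, map_sub, map_mul]
  have kη : j₂ (i₂ η) = (X * X - X) * X := by rw [← hcomm, hη, map_mul, map_sub, map_mul]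
  have kξ : j₂ (i₂ ξ) = (n : A₀) * X := by rw [← hcomm, hξ, map_mul, map_natCast]
  have hFq : cst A₀ F = cst A₀ X + (n : Lau A₀) * cst A₀ (j₂ r) := by
    rw [hFdef, map_add, map_mul, map_natCast]
  have hFF : (cst A₀ X + (n : Lau A₀) * cst A₀ (j₂ r)) * (cst A₀ X + (n : Lau A₀) *
      cst A₀ (j₂ r)) = cst A₀ X + (n : Lau A₀) * cst A₀ (j₂ r) := by
    rw [← hFq, ← map_mul, hF]
  have cols : (col (α₁ (T A₂) (T' A₂) (cst A₂ (i₂ δ)) (cst A₂ (i₂ ξ)) (n : Lau A₂) (cst A₂ r))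
        (α₂ (T A₂) (T' A₂) (cst A₂ (i₂ δ)) (cst A₂ (i₂ η)) (n : Lau A₂) (cst A₂ r))).map
        (lauMap j₂) =
      col ((1 + (cst A₀ X * cst A₀ X - cst A₀ X) * (T A₀ + T' A₀ - 2)) *
        (cst A₀ X * T' A₀ + 1 - cst A₀ X) *
        ((cst A₀ X + n * cst A₀ (j₂ r)) * T A₀ + 1 - (cst A₀ X + n * cst A₀ (j₂ r))))
        ((cst A₀ X * cst A₀ X - cst A₀ X) * (T A₀ + T' A₀ - 2) *
        ((cst A₀ X + n * cst A₀ (j₂ r)) * T A₀ + 1 - (cst A₀ X + n * cst A₀ (j₂ r)))) := by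
    rw [col_map, α₁_map, α₂_map, lauMap_T, lauMap_T', lauMap_cst, lauMap_cst, lauMap_cst,
      lauMap_cst, kδ, kη, kξ, map_natCast, map_mul, map_mul, map_sub, map_mul, map_natCast,
      α₁_eq _ _ _ _ _ (TT' A₀), α₂_eq]
  have rows : (row (β₁ (T A₂) (T' A₂) (cst A₂ (i₂ δ)) (cst A₂ (i₂ ξ)) (n : Lau A₂) (cst A₂ r))
        (β₂ (T A₂) (T' A₂) (cst A₂ (i₂ δ)) (cst A₂ (i₂ η)) (n : Lau A₂) (cst A₂ r))).map
        (lauMap j₂) =
      row ((cst A₀ X * T A₀ + 1 - cst A₀ X) *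
        ((cst A₀ X + n * cst A₀ (j₂ r)) * T' A₀ + 1 - (cst A₀ X + n * cst A₀ (j₂ r))))
        ((cst A₀ X * cst A₀ X - cst A₀ X) * (T A₀ + T' A₀ - 2) *
        ((cst A₀ X + n * cst A₀ (j₂ r)) * T' A₀ + 1 - (cst A₀ X + n * cst A₀ (j₂ r)))) := by
    rw [row_map, β₁_map, β₂_map, lauMap_T, lauMap_T', lauMap_cst, lauMap_cst, lauMap_cst,
      lauMap_cst, kδ, kη, kξ, map_natCast, map_mul, map_mul, map_sub, map_mul, map_natCast,
      β₁_eq _ _ _ _ _ (TT' A₀), β₂_eq]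
  refine ⟨_, _, col (α₁ (T A₂) (T' A₂) (cst A₂ (i₂ δ)) (cst A₂ (i₂ ξ)) (n : Lau A₂) (cst A₂ r))
    (α₂ (T A₂) (T' A₂) (cst A₂ (i₂ δ)) (cst A₂ (i₂ η)) (n : Lau A₂) (cst A₂ r)),
    row (β₁ (T A₂) (T' A₂) (cst A₂ (i₂ δ)) (cst A₂ (i₂ ξ)) (n : Lau A₂) (cst A₂ r))
    (β₂ (T A₂) (T' A₂) (cst A₂ (i₂ δ)) (cst A₂ (i₂ η)) (n : Lau A₂) (cst A₂ r)),
    abs1 i₁ δ η x hδ hη, frame' _ _ _ (TT' _), ?_, ?_, ?_⟩
  · apply Matrix.map_injective ginj
    beta_reduce
    rw [Matrix.map_mul, cols, rows, frameF _ _ _ _ (TT' A₀) hFF, eM_map, eM_map, lauMap_T,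
      lauMap_T', lauMap_cst, lauMap_cst, lauMap_T, lauMap_T', lauMap_cst, lauMap_cst, kδ, kη,
      map_mul, map_sub, map_mul]
  · apply Matrix.map_injective ginj
    beta_reduce
    rw [Matrix.map_mul, cols, rows, frameF' _ _ _ _ (TT' A₀) hFF, Matrix.map_one _ (map_zero _)
      (map_one _)]
  · have g2' : lauMap j₁ 2 = 2 := map_ofNat _ 2
    show (row _ _).map (lauMap j₁) * (col _ _).map (lauMap j₂) = _
    rw [cols, row_map, map_sub, map_add, map_mul, map_one, lauMap_T, lauMap_cst, map_mul, map_sub,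
      map_mul, lauMap_cst, map_sub, map_add, lauMap_T, lauMap_T', g2', ← hX,
      frameFF _ _ _ _ (TT' A₀), oneByOne_val, btU_val, hFq]

end abs

/-! ### the sequence -/

section seq

variable {C : Type u} [CommGroup C] [Finite C] (M : Subring (MonoidAlgebra ℚ C))

lemma mem_conI (b : M) : b ∈ conI M ↔ ∃ y : M, b = (Nat.card C : M) * y :=
  Ideal.mem_span_singleton

lemma seq (f : M ⧸ conI M) (hf : f * f = f) : ∃ x y : ℕ → M,
    (∀ k, Ideal.Quotient.mk (conI M) (x k) = f) ∧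
    (∀ k, x k * x k - x k = (Nat.card C : M) ^ (k + 1) * y k) ∧
    (∀ k, x (k + 1) = x k + (Nat.card C : M) ^ (k + 1) * (y k * (1 - 2 * x k))) := by
  obtain ⟨x0, hx0⟩ := Ideal.Quotient.mk_surjective f
  set x : ℕ → M := fun k => Nat.rec x0 (fun _ x => 3 * x * x - 2 * x * x * x) k with hx
  have hs : ∀ k, x (k + 1) = 3 * x k * x k - 2 * x k * x k * x k := fun k => rfl
  have h1 : ∀ k, Ideal.Quotient.mk (conI M) (x k) = f := by
    intro k
    induction k with
    | zero => exact hx0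
    | succ k ih =>
      rw [hs]
      simp only [map_sub, map_mul, ih, map_ofNat]
      linear_combination (3 - 2 * f - 2) * hf
  have h2 : ∀ k, ∃ y : M, x k * x k - x k = (Nat.card C : M) ^ (k + 1) * y := by
    intro k
    induction k with
    | zero =>
      have : x 0 * x 0 - x 0 ∈ conI M := by
        rw [← Ideal.Quotient.eq_zero_iff_mem, map_sub, map_mul, h1 0, hf, sub_self]
      obtain ⟨y, hy⟩ := (mem_conI M _).1 this
      exact ⟨y, by rw [hy]; ring⟩
    | succ k ih =>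
      obtain ⟨y, hy⟩ := ih
      refine ⟨(Nat.card C : M) ^ k * y * y * (4 * x k * x k - 4 * x k - 3), ?_⟩
      rw [hs]
      have : (3 * x k * x k - 2 * x k * x k * x k) * (3 * x k * x k - 2 * x k * x k * x k) -
          (3 * x k * x k - 2 * x k * x k * x k) =
          (x k * x k - x k) * (x k * x k - x k) * (4 * x k * x k - 4 * x k - 3) := by
        ring
      rw [this, hy]
      ring
  choose y hy using h2
  refine ⟨x, y, h1, hy, fun k => ?_⟩
  rw [hs]
  linear_combination (1 - 2 * x k) * hy k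

end seq

/-! ### LNK -/

lemma iQ_inj (C : Type u) [CommGroup C] : Function.Injective (iQ C) :=
  mapRingHom_inj C _ Int.cast_injective

section arith

variable {C : Type u} [CommGroup C] [Finite C]

/-- the idempotent of `∏ ℚ_p[C]` -/
lemma existsR (S : Finset Nat.Primes) (n : ℕ) (hn : n ≠ 0) (x : ℕ → MonoidAlgebra ℚ C)
    (w z ξ : ℕ → MonoidAlgebra ℤ C)
    (h1 : ∀ k, x (k + 1) = x k + (n : MonoidAlgebra ℚ C) ^ k * iQ C (w k))
    (h2 : ∀ k, x k * x k - x k = (n : MonoidAlgebra ℚ C) ^ k * iQ C (z k))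
    (h3 : ∀ k, (n : MonoidAlgebra ℚ C) * x k = iQ C (ξ k)) :
    ∃ R : MonoidAlgebra (Zp S) C,
      (MonoidAlgebra.mapRingHom C (algebraMap ℚ (Qp S)) (x 1) + (n : MonoidAlgebra (Qp S) C) *
        MonoidAlgebra.mapRingHom C (zpQp S) R) *
      (MonoidAlgebra.mapRingHom C (algebraMap ℚ (Qp S)) (x 1) + (n : MonoidAlgebra (Qp S) C) *
        MonoidAlgebra.mapRingHom C (zpQp S) R) =
      MonoidAlgebra.mapRingHom C (algebraMap ℚ (Qp S)) (x 1) + (n : MonoidAlgebra (Qp S) C) *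
        MonoidAlgebra.mapRingHom C (zpQp S) R := by
  have hr : ∀ p : S, ∃ r : MonoidAlgebra ℤ_[((p : Nat.Primes) : ℕ)] C,
      (jQ ((p : Nat.Primes) : ℕ) C (x 1) + (n : MonoidAlgebra ℚ_[((p : Nat.Primes) : ℕ)] C) *
          jZ ((p : Nat.Primes) : ℕ) C r) *
        (jQ ((p : Nat.Primes) : ℕ) C (x 1) + (n : MonoidAlgebra ℚ_[((p : Nat.Primes) : ℕ)] C) *
          jZ ((p : Nat.Primes) : ℕ) C r) =
      jQ ((p : Nat.Primes) : ℕ) C (x 1) + (n : MonoidAlgebra ℚ_[((p : Nat.Primes) : ℕ)] C) *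
          jZ ((p : Nat.Primes) : ℕ) C r := by
    intro p
    by_cases hp : ((p : Nat.Primes) : ℕ) ∣ n
    · exact limit ((p : Nat.Primes) : ℕ) n hp hn x w z ξ h1 h2 h3
    · exact notdvd ((p : Nat.Primes) : ℕ) n hp (x 1) (ξ 1) (h3 1)
  choose r hr using hr
  refine ⟨mk' fun c p => (r p).coeff c, ?_⟩
  set R : MonoidAlgebra (Zp S) C := mk' fun c p => (r p).coeff c with hR
  set F : MonoidAlgebra (Qp S) C := MonoidAlgebra.mapRingHom C (algebraMap ℚ (Qp S)) (x 1) +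
    (n : MonoidAlgebra (Qp S) C) * MonoidAlgebra.mapRingHom C (zpQp S) R with hFdef
  have key : ∀ p : S, MonoidAlgebra.mapRingHom C
      (Pi.evalRingHom (fun p : S => ℚ_[((p : Nat.Primes) : ℕ)]) p) F =
      jQ ((p : Nat.Primes) : ℕ) C (x 1) + (n : MonoidAlgebra ℚ_[((p : Nat.Primes) : ℕ)] C) *
        jZ ((p : Nat.Primes) : ℕ) C (r p) := by
    intro p
    rw [hFdef, map_add, map_mul, map_natCast]
    congr 1
    · ext c
      rw [MonoidAlgebra.coeff_mapRingHom, MonoidAlgebra.coeff_mapRingHom, jQ,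
        MonoidAlgebra.coeff_mapRingHom]
      rfl
    · congr 1
      ext c
      rw [MonoidAlgebra.coeff_mapRingHom, MonoidAlgebra.coeff_mapRingHom, jZ,
        MonoidAlgebra.coeff_mapRingHom]
      rfl
  have key2 : ∀ p : S, MonoidAlgebra.mapRingHom C
      (Pi.evalRingHom (fun p : S => ℚ_[((p : Nat.Primes) : ℕ)]) p) (F * F) =
      MonoidAlgebra.mapRingHom C (Pi.evalRingHom _ p) F := by
    intro p
    rw [map_mul, key p]
    exact hr p
  ext c p
  have e := congrArg (fun y => y.coeff c) (key2 p)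
  simp only [MonoidAlgebra.coeff_mapRingHom] at e
  exact e

/-- the conductor square -/
lemma glCon (M : Subring (MonoidAlgebra ℚ C))
    (h : ∀ a : MonoidAlgebra ℤ C, MonoidAlgebra.mapRingHom C (Int.castRingHom ℚ) a ∈ M)
    (f : M ⧸ conI M) (hf : f * f = f) (x : M) (hx : Ideal.Quotient.mk (conI M) x = f)
    (z ξ : MonoidAlgebra ℤ C)
    (h2 : (x * x - x : MonoidAlgebra ℚ C) = (Nat.card C : MonoidAlgebra ℚ C) * iQ C z)
    (h3 : (Nat.card C : MonoidAlgebra ℚ C) * (x : MonoidAlgebra ℚ C) = iQ C ξ) :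
    Gl (conSq M h) (eM (T _) (T' _) (cst _ ((Nat.card C : MonoidAlgebra ℤ C) * z))
      (cst _ (z * ξ))) ((oneByOne (btU f hf) : (Matrix (Fin 1) (Fin 1) _)ˣ) :
      Matrix (Fin 1) (Fin 1) (Lau (M ⧸ conI M))) := by
  have aδ : alphaM M h ((Nat.card C : MonoidAlgebra ℤ C) * z) = x * x - x := Subtype.ext (by
    show iQ C _ = _
    rw [map_mul, map_natCast, ← h2]
    rfl)
  have aη : alphaM M h (z * ξ) = (x * x - x) * x := Subtype.ext (by
    show iQ C _ = _
    rw [map_mul, ← h3]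
    push_cast
    rw [h2]
    ring)
  have aξ : alphaM M h ξ = (Nat.card C : M) * x := Subtype.ext (by
    show iQ C ξ = _
    rw [← h3]
    push_cast
    rfl)
  have m1 : Ideal.Quotient.mk ((conI M).comap (alphaM M h))
      ((Nat.card C : MonoidAlgebra ℤ C) * z) = 0 := by
    rw [Ideal.Quotient.eq_zero_iff_mem, Ideal.mem_comap, map_mul, map_natCast, mem_conI]
    exact ⟨_, rfl⟩
  have m2 : Ideal.Quotient.mk ((conI M).comap (alphaM M h)) (z * ξ) = 0 := by
    rw [Ideal.Quotient.eq_zero_iff_mem, Ideal.mem_comap, map_mul, aξ, mem_conI]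
    exact ⟨alphaM M h z * x, by ring⟩
  exact glCon' (alphaM M h) (Ideal.Quotient.mk ((conI M).comap (alphaM M h)))
    (Ideal.Quotient.mk (conI M)) (Ideal.quotientMap (conI M) (alphaM M h) le_rfl) _ _ x aδ aη
    m1 m2 f hf hx

/-- the arithmetic square -/
lemma glPad (S : Finset Nat.Primes) (n : ℕ) (hn : n ≠ 0)
    (hS : ∀ p : Nat.Primes, (p : ℕ) ∣ n → p ∈ S)
    (x : MonoidAlgebra ℚ C) (z ξ : MonoidAlgebra ℤ C)
    (h2 : x * x - x = (n : MonoidAlgebra ℚ C) * iQ C z)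
    (h3 : (n : MonoidAlgebra ℚ C) * x = iQ C ξ)
    (R : MonoidAlgebra (Zp S) C) (F : MonoidAlgebra (Qp S) C)
    (hFdef : F = MonoidAlgebra.mapRingHom C (algebraMap ℚ (Qp S)) x +
      (n : MonoidAlgebra (Qp S) C) * MonoidAlgebra.mapRingHom C (zpQp S) R)
    (hF : F * F = F) :
    Gl (padSq S C) (eM (T _) (T' _) (cst _ ((n : MonoidAlgebra ℤ C) * z))
      (cst _ (z * ξ))) ((oneByOne (btU F hF) : (Matrix (Fin 1) (Fin 1) _)ˣ) :
      Matrix (Fin 1) (Fin 1) (Lau (MonoidAlgebra (Qp S) C))) := by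
  have eδ : iQ C ((n : MonoidAlgebra ℤ C) * z) = x * x - x := by
    rw [map_mul, map_natCast, h2]
  have eη : iQ C (z * ξ) = (x * x - x) * x := by
    rw [map_mul, ← h3, h2]
    ring
  have hmem : ∀ c : C, x.coeff c ∈ Zs S := by
    intro c
    refine ⟨n, hn, fun p hp => hS p hp, ξ.coeff c, ?_⟩
    have e := congrArg (fun y => y.coeff c) h3
    simp only [← nsmul_eq_mul, MonoidAlgebra.coeff_smul_apply] at e
    rw [nsmul_eq_mul] at e
    rw [e]
    simp [iQ]
  obtain ⟨xs, sx⟩ : ∃ xs : MonoidAlgebra (Zs S) C,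
      MonoidAlgebra.mapRingHom C (Zs S).subtype xs = x := by
    refine ⟨mk' fun c => ⟨x.coeff c, hmem c⟩, ?_⟩
    ext c
    rw [MonoidAlgebra.coeff_mapRingHom]
    rfl
  have sinj : Function.Injective (MonoidAlgebra.mapRingHom C (Zs S).subtype) :=
    mapRingHom_inj C _ Subtype.val_injective
  have si : ∀ a : MonoidAlgebra ℤ C, MonoidAlgebra.mapRingHom C (Zs S).subtype
      (MonoidAlgebra.mapRingHom C (Int.castRingHom (Zs S)) a) = iQ C a := by
    intro a
    rw [← RingHom.comp_apply, ← MonoidAlgebra.mapRingHom_comp, iQ]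
    congr 2
  have sδ : MonoidAlgebra.mapRingHom C (Int.castRingHom (Zs S))
      ((n : MonoidAlgebra ℤ C) * z) = xs * xs - xs := by
    apply sinj
    rw [si, eδ, map_sub, map_mul, sx]
  have sη : MonoidAlgebra.mapRingHom C (Int.castRingHom (Zs S)) (z * ξ) =
      (xs * xs - xs) * xs := by
    apply sinj
    rw [si, eη, map_mul, map_sub, map_mul, sx]
  have sξ : MonoidAlgebra.mapRingHom C (Int.castRingHom (Zs S)) ξ =
      (n : MonoidAlgebra (Zs S) C) * xs := by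
    apply sinj
    rw [si, map_mul, sx, map_natCast, h3]
  have xX : MonoidAlgebra.mapRingHom C (zsQp S) xs =
      MonoidAlgebra.mapRingHom C (algebraMap ℚ (Qp S)) x := by
    rw [← sx, zsQp, MonoidAlgebra.mapRingHom_comp, RingHom.comp_apply]
  have hcomm : ∀ a : MonoidAlgebra ℤ C, MonoidAlgebra.mapRingHom C (zsQp S)
      (MonoidAlgebra.mapRingHom C (Int.castRingHom (Zs S)) a) =
      MonoidAlgebra.mapRingHom C (zpQp S)
      (MonoidAlgebra.mapRingHom C (Int.castRingHom (Zp S)) a) := by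
    intro a
    rw [← RingHom.comp_apply, ← MonoidAlgebra.mapRingHom_comp, ← RingHom.comp_apply,
      ← MonoidAlgebra.mapRingHom_comp]
    congr 2
  have zinj : Function.Injective (zpQp S) := by
    intro a b hab
    funext p
    have e := congrFun hab p
    exact Subtype.val_injective e
  rw [← xX] at hFdef
  exact glPad' (MonoidAlgebra.mapRingHom C (Int.castRingHom (Zs S)))
    (MonoidAlgebra.mapRingHom C (Int.castRingHom (Zp S)))
    (MonoidAlgebra.mapRingHom C (zsQp S)) (MonoidAlgebra.mapRingHom C (zpQp S))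
    (mapRingHom_inj C _ zinj) hcomm _ _ ξ xs sδ sη n sξ R F hF hFdef

end arith

/-! ### LNK -/

theorem specLNK : SpecLNK.{u} := by
  intro C _ _ M h hM S hS d hd d' hd' f hf
  obtain ⟨x, y, hx, hy, hs⟩ := seq M f hf
  have hn0 : Nat.card C ≠ 0 := Nat.card_pos.ne'
  choose w hw using fun k => hM ((y k * (1 - 2 * x k) : M) : MonoidAlgebra ℚ C) (Subtype.prop _)
  choose z hz using fun k => hM (y k : MonoidAlgebra ℚ C) (Subtype.prop _)
  choose ξ hξ using fun k => hM (x k : MonoidAlgebra ℚ C) (Subtype.prop _)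
  obtain ⟨x', hx'⟩ : ∃ x' : ℕ → MonoidAlgebra ℚ C, ∀ k, x' k = x k := ⟨_, fun k => rfl⟩
  obtain ⟨n, hn⟩ : ∃ n : ℕ, n = Nat.card C := ⟨_, rfl⟩
  have h1 : ∀ k, x' (k + 1) = x' k + (n : MonoidAlgebra ℚ C) ^ k * iQ C (w k) := by
    intro k
    have e := congrArg (Subtype.val) (hs k)
    rw [hx', hx', e, iQ, hw k, nsmul_eq_mul, hn]
    push_cast
    ring
  have h2 : ∀ k, x' k * x' k - x' k = (n : MonoidAlgebra ℚ C) ^ k * iQ C (z k) := by
    intro k
    have e := congrArg (Subtype.val) (hy k)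
    rw [hx', iQ, hz k, nsmul_eq_mul, hn]
    push_cast at e
    rw [e]
    ring
  have h3 : ∀ k, (n : MonoidAlgebra ℚ C) * x' k = iQ C (ξ k) := by
    intro k
    rw [hx', iQ, hξ k, nsmul_eq_mul, hn]
  obtain ⟨R, hR⟩ := existsR S n (hn ▸ hn0) x' w z ξ h1 h2 h3
  obtain ⟨F, hFdef⟩ : ∃ F : MonoidAlgebra (Qp S) C,
      F = MonoidAlgebra.mapRingHom C (algebraMap ℚ (Qp S)) (x' 1) +
      (n : MonoidAlgebra (Qp S) C) * MonoidAlgebra.mapRingHom C (zpQp S) R := ⟨_, rfl⟩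
  rw [← hFdef] at hR
  refine ⟨F, hR, ?_⟩
  have h21 := h2 1
  rw [pow_one] at h21
  have hrel : (z 1 * ξ 1) * (z 1 * ξ 1) = ((n : MonoidAlgebra ℤ C) * z 1) *
      (z 1 * ξ 1) + ((n : MonoidAlgebra ℤ C) * z 1) *
      ((n : MonoidAlgebra ℤ C) * z 1) * ((n : MonoidAlgebra ℤ C) * z 1) := by
    apply iQ_inj C
    simp only [map_mul, map_add, map_natCast, ← h3 1]
    linear_combination ((n : MonoidAlgebra ℚ C) ^ 2 * iQ C (z 1) ^ 2) * h21
  have hrel' : cst (MonoidAlgebra ℤ C) (z 1 * ξ 1) * cst (MonoidAlgebra ℤ C) (z 1 * ξ 1) =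
      cst (MonoidAlgebra ℤ C) ((n : MonoidAlgebra ℤ C) * z 1) *
      cst (MonoidAlgebra ℤ C) (z 1 * ξ 1) +
      cst (MonoidAlgebra ℤ C) ((n : MonoidAlgebra ℤ C) * z 1) *
      cst (MonoidAlgebra ℤ C) ((n : MonoidAlgebra ℤ C) * z 1) *
      cst (MonoidAlgebra ℤ C) ((n : MonoidAlgebra ℤ C) * z 1) := by
    rw [← map_mul, hrel]
    simp only [map_add, map_mul]
  have he := eM_idem (T (MonoidAlgebra ℤ C)) (T' (MonoidAlgebra ℤ C))
    (cst (MonoidAlgebra ℤ C) ((n : MonoidAlgebra ℤ C) * z 1))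
    (cst (MonoidAlgebra ℤ C) (z 1 * ξ 1)) (TT' (MonoidAlgebra ℤ C)) hrel'
  have G2 := glPad S n (hn ▸ hn0) (hn ▸ hS) (x' 1) (z 1) (ξ 1) h21 (h3 1) R F hFdef hR
  have E2 := hd 2 1 _ he _ G2
  subst hn
  rw [hx'] at h21
  have h31 := h3 1
  rw [hx'] at h31
  have G1 := glCon M h f hf (x 1) (hx 1) (z 1) (ξ 1) h21 h31
  have E1 := hd' 2 1 _ he _ G1
  exact E1.trans E2.symm

end Pool.Agent.Lib.MPb6f35e.ZK.LNKMod
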