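import Pool.Agent.Lib.MP_b6f35e_al.ZK.KA

/-!
# The maximal order of `ℚ[C]`  (MP_b6f35e_al, ZK, module ORD)

`M` = elements of `ℚ[C]` integral over `ℤ`, `C` a finite commutative group.  `|C| M ⊆ ℤ[C]`, and
`[e(t)] = [e(1)]` in `K_0(M[t, t⁻¹])` (from the same statement for Dedekind domains).
-/

set_option autoImplicit false
set_option linter.unusedSectionVars false

noncomputable section

namespace Pool.Agent.Lib.MPb6f35e.ZK

namespace ORDMod

open Matrix

universe u v w

/-! ### non-unital homomorphisms -/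

section NonUnital

variable {A : Type u} {B : Type v} [Ring A] [Ring B]

theorem map_mulN (f : A →ₙ+* B) {m n p : Type*} [Fintype n] (x : Matrix m n A)
    (y : Matrix n p A) : (x * y).map f = x.map f * y.map f := by
  ext i j
  simp only [Matrix.map_apply, Matrix.mul_apply, map_sum, map_mul]

theorem map_idemN (f : A →ₙ+* B) {ι : Type w} [Fintype ι] {e : Matrix ι ι A} (h : e * e = e) :
    e.map f * e.map f = e.map f := by
  rw [← map_mulN, h]

/-- Functoriality of `K_0` for non-unital homomorphisms. -/
def mapN (f : A →ₙ+* B) : K0 A →+ K0 B :=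
  K0.lift (fun _ e h => K0.cls (e.map f) (map_idemN f h))
    (by
      rintro x (⟨m, n, e, g, a, b, h1, h2⟩ | ⟨m, n, e, g, z, h⟩)
      · simp only [map_sub, FreeAbelianGroup.lift_apply_of]
        rw [sub_eq_zero]
        exact K0.cls_iso _ _ (a.map f) (b.map f) (by rw [← map_mulN, h1])
          (by rw [← map_mulN, h2])
      · simp only [map_sub, FreeAbelianGroup.lift_apply_of]
        rw [K0.cls_sum (map_idemN f e.2) (map_idemN f g.2) (map_idemN f z.2)]
        · abel
        · rw [h]
          ext i j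
          simp only [Matrix.map_apply, Matrix.reindex_apply, Matrix.submatrix_apply]
          rcases finSumFinEquiv.symm i with a | a <;> rcases finSumFinEquiv.symm j with b | b <;>
            simp [Matrix.fromBlocks])

@[simp] theorem mapN_cls (f : A →ₙ+* B) {n : ℕ} (e : Matrix (Fin n) (Fin n) A)
    (h : e * e = e) : mapN f (K0.cls e h) = K0.cls (e.map f) (map_idemN f h) := by
  simp [mapN]

/-- the additive map on Laurent polynomials -/
def lauA (f : A →+ B) : Lau A →+ Lau B where
  toFun x := AddMonoidAlgebra.ofCoeff (x.coeff.mapRange f (map_zero f))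
  map_zero' := by
    refine AddMonoidAlgebra.ext (Finsupp.ext fun i => ?_)
    simp only [AddMonoidAlgebra.coeff_zero, Finsupp.mapRange_apply, Finsupp.coe_zero,
      Pi.zero_apply, map_zero]
  map_add' x y := by
    refine AddMonoidAlgebra.ext (Finsupp.ext fun i => ?_)
    simp only [AddMonoidAlgebra.coeff_add, Finsupp.mapRange_apply, Finsupp.coe_add,
      Pi.add_apply, map_add]

theorem lauA_coeff (f : A →+ B) (x : Lau A) (n : ℤ) : (lauA f x).coeff n = f (x.coeff n) := rfl

theorem lauA_single (f : A →+ B) (n : ℤ) (a : A) :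
    lauA f (AddMonoidAlgebra.single n a) = AddMonoidAlgebra.single n (f a) := by
  refine AddMonoidAlgebra.ext (Finsupp.ext fun i => ?_)
  rw [lauA_coeff, AddMonoidAlgebra.coeff_single, AddMonoidAlgebra.coeff_single,
    Finsupp.single_apply, Finsupp.single_apply]
  split_ifs
  · rfl
  · exact map_zero f

/-- A non-unital homomorphism on Laurent polynomials. -/
def lauN (f : A →ₙ+* B) : Lau A →ₙ+* Lau B where
  toFun x := lauA (f : A →+ B) x
  map_zero' := map_zero _
  map_add' := map_add _
  map_mul' x y := by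
    induction x using AddMonoidAlgebra.induction_linear with
    | zero => rw [zero_mul, map_zero, zero_mul]
    | add x x' hx hx' => rw [add_mul, map_add, map_add, add_mul, hx, hx']
    | single i a =>
      induction y using AddMonoidAlgebra.induction_linear with
      | zero => rw [mul_zero, map_zero, mul_zero]
      | add x x' hx hx' => rw [mul_add, map_add, map_add, mul_add, hx, hx']
      | single j b =>
        rw [AddMonoidAlgebra.single_mul_single, lauA_single, lauA_single, lauA_single,
          AddMonoidAlgebra.single_mul_single]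
        congr 1
        exact map_mul f a b

theorem lauN_coeff (f : A →ₙ+* B) (x : Lau A) (n : ℤ) : (lauN f x).coeff n = f (x.coeff n) := rfl

theorem lauMap_coeff (f : A →+* B) (x : Lau A) (n : ℤ) :
    (lauMap f x).coeff n = f (x.coeff n) := by
  induction x using AddMonoidAlgebra.induction_linear with
  | zero => rw [map_zero]; simp only [AddMonoidAlgebra.coeff_zero, Finsupp.coe_zero,
      Pi.zero_apply, map_zero]
  | add x x' hx hx' => rw [map_add]; simp only [AddMonoidAlgebra.coeff_add, Finsupp.coe_add,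
      Pi.add_apply, map_add, hx, hx']
  | single i a =>
    rw [lauMap, AddMonoidAlgebra.mapRingHom_single, AddMonoidAlgebra.coeff_single,
      AddMonoidAlgebra.coeff_single, Finsupp.single_apply, Finsupp.single_apply]
    split_ifs
    · rfl
    · exact (map_zero f).symm

theorem lauMap_c1 (f : A →+* B) (x : Lau A) : lauMap f (c1 A x) = c1 B (lauMap f x) := by
  induction x using AddMonoidAlgebra.induction_linear with
  | zero => simp only [map_zero]
  | add x x' hx hx' => simp only [map_add, hx, hx']
  | single i a =>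
    simp only [lauMap, c1, AddMonoidAlgebra.mapDomainRingHom_apply,
      AddMonoidAlgebra.mapDomain_single, AddMonoidHom.zero_apply,
      AddMonoidAlgebra.mapRingHom_single]

end NonUnital

/-! ### finite sums of orthogonal idempotents -/

theorem clsF_sum_orth {A : Type u} [Ring A] {m : Type v} [Fintype m] {ι : Type w}
    (t : Finset ι) (E : ι → Matrix m m A) (hE : ∀ i, E i * E i = E i)
    (ho : ∀ i j, i ≠ j → E i * E j = 0) :
    ∃ h : (∑ i ∈ t, E i) * (∑ i ∈ t, E i) = ∑ i ∈ t, E i,
      K0.clsF (∑ i ∈ t, E i) h = ∑ i ∈ t, K0.clsF (E i) (hE i) := by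
  classical
  induction t using Finset.induction_on with
  | empty =>
    have h0 : (∑ i ∈ (∅ : Finset ι), E i) = 0 := Finset.sum_empty
    refine ⟨by rw [h0, zero_mul], ?_⟩
    rw [K0.clsF_zero' _ h0, Finset.sum_empty]
  | insert a t ha ih =>
    obtain ⟨h, ih⟩ := ih
    have h1 : E a * ∑ i ∈ t, E i = 0 := by
      rw [Finset.mul_sum]
      exact Finset.sum_eq_zero fun i hi => ho a i (by rintro rfl; exact ha hi)
    have h2 : (∑ i ∈ t, E i) * E a = 0 := by
      rw [Finset.sum_mul]
      exact Finset.sum_eq_zero fun i hi => ho i a (by rintro rfl; exact ha hi)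
    have h3 : (∑ i ∈ insert a t, E i) * (∑ i ∈ insert a t, E i) = ∑ i ∈ insert a t, E i := by
      rw [Finset.sum_insert ha, mul_add, add_mul, add_mul, h1, h2, hE, h]
      simp
    refine ⟨h3, ?_⟩
    rw [K0.clsF_add (hE a) h h3 h1 h2 (Finset.sum_insert ha).symm, ih, Finset.sum_insert ha]

/-- If `M` is an orthogonal sum of rings `O i` with `[e(t)] = [e(1)]` then `[e(t)] = [e(1)]`
for `M`. -/
theorem c1_of_decomp {M : Type u} [Ring M] {ι : Type w} [Fintype ι] (O : ι → Type u)
    [∀ i, Ring (O i)] (π : ∀ i, M →+* O i) (s : ∀ i, O i →ₙ+* M)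
    (hs : ∀ x, ∑ i, s i (π i x) = x) (ho : ∀ i j, i ≠ j → ∀ a b, s i a * s j b = 0)
    (h : ∀ i (n : ℕ) (e : Matrix (Fin n) (Fin n) (Lau (O i))) (he : e * e = e),
      K0.cls e he = K0.cls (e.map (c1 (O i))) (map_idem (c1 (O i)) he))
    (n : ℕ) (e : Matrix (Fin n) (Fin n) (Lau M)) (he : e * e = e) :
    K0.cls e he = K0.cls (e.map (c1 M)) (map_idem (c1 M) he) := by
  have hs' : ∀ x : Lau M, ∑ i, lauN (s i) (lauMap (π i) x) = x := by
    intro x
    refine AddMonoidAlgebra.ext (Finsupp.ext fun n => ?_)
    have h1 : (∑ i, lauN (s i) (lauMap (π i) x)).coeff n =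
        ∑ i, (lauN (s i) (lauMap (π i) x)).coeff n := by
      rw [AddMonoidAlgebra.coeff_sum, Finsupp.finsetSum_apply]
    rw [h1]
    simp only [lauN_coeff, lauMap_coeff, hs]
  have ho' : ∀ i j, i ≠ j → ∀ a b, lauN (s i) a * lauN (s j) b = 0 := by
    intro i j hij a b
    induction a using AddMonoidAlgebra.induction_linear with
    | zero => rw [map_zero, zero_mul]
    | add x x' hx hx' => rw [map_add, add_mul, hx, hx', add_zero]
    | single k a =>
      induction b using AddMonoidAlgebra.induction_linear with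
      | zero => rw [map_zero, mul_zero]
      | add x x' hx hx' => rw [map_add, mul_add, hx, hx', add_zero]
      | single l b =>
        show lauA _ _ * lauA _ _ = 0
        rw [lauA_single, lauA_single, AddMonoidAlgebra.single_mul_single]
        have : ((s i : O i →+ M) a) * ((s j : O j →+ M) b) = 0 := ho i j hij a b
        rw [this, AddMonoidAlgebra.single_zero]
  have key : ∀ (e : Matrix (Fin n) (Fin n) (Lau M)) (he : e * e = e),
      K0.cls e he = ∑ i, mapN (lauN (s i)) (K0.map (lauMap (π i)) (K0.cls e he)) := by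
    intro e he
    have h1 : ∀ i, ((e.map (lauMap (π i))).map (lauN (s i))) *
        ((e.map (lauMap (π i))).map (lauN (s i))) = (e.map (lauMap (π i))).map (lauN (s i)) :=
      fun i => map_idemN _ (map_idem _ he)
    have h2 : ∀ i j, i ≠ j → ((e.map (lauMap (π i))).map (lauN (s i))) *
        ((e.map (lauMap (π j))).map (lauN (s j))) = 0 := by
      intro i j hij
      ext k l
      simp only [Matrix.mul_apply, Matrix.map_apply, ho' i j hij, Finset.sum_const_zero,
        Matrix.zero_apply]
    obtain ⟨h3, h4⟩ := clsF_sum_orth Finset.univ _ h1 h2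
    have h5 : ∑ i, (e.map (lauMap (π i))).map (lauN (s i)) = e := by
      ext1 k l
      rw [Matrix.sum_apply]
      simp only [Matrix.map_apply, hs']
    refine (K0.clsF_fin he).symm.trans ((K0.clsF_congr he h3 h5.symm).trans (h4.trans ?_))
    refine Finset.sum_congr rfl fun i _ => ?_
    rw [K0.clsF_fin, K0.map_cls, mapN_cls]
  rw [key e he, key _ (map_idem (c1 M) he)]
  refine Finset.sum_congr rfl fun i _ => ?_
  congr 1
  rw [K0.map_cls, K0.map_cls, h i]
  congr 1
  ext1 k l
  simp only [Matrix.map_apply, lauMap_c1]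

/-! ### characters -/

section Char

variable (C : Type u) [CommGroup C] [Finite C]

/-- evaluation at a character -/
def ev (ψ : AddChar (Additive C) ℂ) : MonoidAlgebra ℚ C →+* ℂ :=
  (MonoidAlgebra.lift ℚ ℂ C
    { toFun := fun c => ψ (Additive.ofMul c)
      map_one' := by rw [ofMul_one, AddChar.map_zero_eq_one]
      map_mul' := fun a b => by rw [ofMul_mul, AddChar.map_add_eq_mul] }).toRingHom

theorem ev_single (ψ : AddChar (Additive C) ℂ) (c : C) (q : ℚ) :
    ev C ψ (MonoidAlgebra.single c q) = (q : ℂ) * ψ (Additive.ofMul c) := by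
  show MonoidAlgebra.lift ℚ ℂ C _ (MonoidAlgebra.single c q) = _
  rw [MonoidAlgebra.lift_single, Algebra.smul_def]
  rfl

variable {C}

theorem sum_ev [Fintype C] (b : MonoidAlgebra ℚ C) (g : C) :
    ∑ ψ : AddChar (Additive C) ℂ, ev C ψ b * ψ (Additive.ofMul g⁻¹) =
      (Nat.card C : ℂ) * (b.coeff g : ℂ) := by
  classical
  have : Fintype (Additive C) := Fintype.ofFinite _
  induction b using MonoidAlgebra.induction_linear with
  | zero => simp
  | add x y hx hy =>
    simp only [map_add, add_mul, Finset.sum_add_distrib, hx, hy, MonoidAlgebra.coeff_add,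
      Finsupp.add_apply]
    push_cast
    ring
  | single c q =>
    simp only [ev_single, mul_assoc]
    rw [← Finset.mul_sum]
    have h1 : ∀ ψ : AddChar (Additive C) ℂ, ψ (Additive.ofMul c) * ψ (Additive.ofMul g⁻¹) =
        ψ (Additive.ofMul (c * g⁻¹)) := by
      intro ψ
      rw [ofMul_mul, AddChar.map_add_eq_mul]
    simp only [h1]
    rw [AddChar.sum_apply_eq_ite, MonoidAlgebra.coeff_single, Finsupp.single_apply]
    by_cases h : c = g
    · subst h
      rw [mul_inv_cancel, ofMul_one, if_pos rfl, if_pos rfl, mul_comm]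
      congr 1
      rw [Nat.card_eq_fintype_card]
      norm_cast
      exact (Fintype.card_congr Additive.toMul)
    · rw [if_neg h, if_neg]
      · simp
      · intro h2
        apply h
        have h3 : c * g⁻¹ = 1 := by
          rw [← ofMul_one] at h2
          exact Additive.ofMul.injective h2
        exact mul_inv_eq_one.1 h3

theorem ext_ev {b : MonoidAlgebra ℚ C} (h : ∀ ψ, ev C ψ b = 0) : b = 0 := by
  have : Fintype C := Fintype.ofFinite _
  refine MonoidAlgebra.ext (Finsupp.ext fun g => ?_)
  have h1 := sum_ev b g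
  simp only [h, zero_mul, Finset.sum_const_zero] at h1
  have h2 : (Nat.card C : ℂ) ≠ 0 := by
    rw [Nat.cast_ne_zero]
    exact Nat.card_pos.ne'
  have h3 := (mul_eq_zero.1 h1.symm).resolve_left h2
  rw [MonoidAlgebra.coeff_zero, Finsupp.coe_zero, Pi.zero_apply]
  exact_mod_cast h3

theorem isReduced : IsReduced (MonoidAlgebra ℚ C) where
  eq_zero x hx := by
    obtain ⟨n, hn⟩ := hx
    refine ext_ev fun ψ => ?_
    have h := congrArg (ev C ψ) hn
    rw [map_pow, map_zero] at h
    exact eq_zero_of_pow_eq_zero h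

theorem isIntegral_char (ψ : AddChar (Additive C) ℂ) (c : C) :
    IsIntegral ℤ (ψ (Additive.ofMul c)) := by
  refine IsIntegral.of_pow (Nat.card_pos (α := C)) ?_
  rw [← AddChar.map_nsmul_eq_pow, ← ofMul_pow, pow_card_eq_one', ofMul_one,
    AddChar.map_zero_eq_one]
  exact isIntegral_one

theorem card_mul_integral {b : MonoidAlgebra ℚ C} (hb : IsIntegral ℤ b) (g : C) :
    ∃ z : ℤ, (z : ℚ) = (Nat.card C : ℚ) * b.coeff g := by
  have : Fintype C := Fintype.ofFinite _
  have h1 : IsIntegral ℤ ((Nat.card C : ℂ) * (b.coeff g : ℂ)) := by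
    rw [← sum_ev]
    refine IsIntegral.sum _ fun ψ _ => IsIntegral.mul ?_ (isIntegral_char ψ _)
    exact IsIntegral.map (ev C ψ).toIntAlgHom hb
  have h2 : IsIntegral ℤ ((Nat.card C : ℚ) * b.coeff g) := by
    have h3 : (Nat.card C : ℂ) * (b.coeff g : ℂ) =
        algebraMap ℚ ℂ ((Nat.card C : ℚ) * b.coeff g) := by
      rw [eq_ratCast]
      push_cast
      rfl
    rw [h3] at h1
    exact (isIntegral_algebraMap_iff (algebraMap ℚ ℂ).injective).1 h1
  obtain ⟨z, hz⟩ := IsIntegrallyClosed.isIntegral_iff.1 h2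
  exact ⟨z, by rw [← hz]; rfl⟩

end Char

/-! ### the maximal order -/

section Order

variable (C : Type u) [CommGroup C] [Finite C]

/-- the elements of `ℚ[C]` integral over `ℤ` -/
def Mx : Subring (MonoidAlgebra ℚ C) := (integralClosure ℤ (MonoidAlgebra ℚ C)).toSubring

variable {C}

theorem mem_Mx {b : MonoidAlgebra ℚ C} : b ∈ Mx C ↔ IsIntegral ℤ b := Iff.rfl

theorem map_mem (a : MonoidAlgebra ℤ C) :
    MonoidAlgebra.mapRingHom C (Int.castRingHom ℚ) a ∈ Mx C := by
  induction a using MonoidAlgebra.induction_linear with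
  | zero => rw [map_zero]; exact Subring.zero_mem _
  | add x y hx hy => rw [map_add]; exact Subring.add_mem _ hx hy
  | single c z =>
    rw [MonoidAlgebra.mapRingHom_single]
    have h : (MonoidAlgebra.single c (Int.castRingHom ℚ z) : MonoidAlgebra ℚ C) =
        (z : MonoidAlgebra ℚ C) * MonoidAlgebra.single c 1 := by
      rw [← zsmul_eq_mul, MonoidAlgebra.smul_single, zsmul_eq_mul, mul_one]
      rfl
    rw [h]
    refine Subring.mul_mem _ (intCast_mem _ _) ?_
    rw [mem_Mx]
    refine IsIntegral.of_pow (Nat.card_pos (α := C)) ?_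
    rw [MonoidAlgebra.single_pow, pow_card_eq_one', one_pow, ← MonoidAlgebra.one_def]
    exact isIntegral_one

theorem card_mem {b : MonoidAlgebra ℚ C} (hb : b ∈ Mx C) : ∃ a : MonoidAlgebra ℤ C,
    MonoidAlgebra.mapRingHom C (Int.castRingHom ℚ) a = Nat.card C • b := by
  choose z hz using card_mul_integral (mem_Mx.1 hb)
  refine ⟨MonoidAlgebra.ofCoeff (Finsupp.equivFunOnFinite.symm z), ?_⟩
  refine MonoidAlgebra.ext (Finsupp.ext fun g => ?_)
  rw [MonoidAlgebra.coeff_smul, Finsupp.smul_apply, nsmul_eq_mul, ← hz]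
  rfl

/-- the components -/
abbrev R (C : Type u) [CommGroup C] : Type u := MonoidAlgebra ℚ C

instance : IsReduced (R C) := isReduced

instance : IsArtinianRing (R C) := IsArtinianRing.of_finite ℚ (R C)

/-- the ring of integers of a component -/
abbrev Oc (I : MaximalSpectrum (R C)) : Type u := integralClosure ℤ (R C ⧸ I.asIdeal)

theorem dedekind (I : MaximalSpectrum (R C)) : IsDedekindDomain (Oc I) := by
  let _ : Field (R C ⧸ I.asIdeal) := Ideal.Quotient.field I.asIdeal
  exact integralClosure.isDedekindDomain ℤ ℚ (R C ⧸ I.asIdeal)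

/-- the projection -/
def pr (I : MaximalSpectrum (R C)) : Mx C →+* Oc I :=
  ((Ideal.Quotient.mk I.asIdeal).comp (Mx C).subtype).codRestrict
    (integralClosure ℤ (R C ⧸ I.asIdeal)) fun x =>
      IsIntegral.map (Ideal.Quotient.mk I.asIdeal).toIntAlgHom x.2

open Classical in
/-- the inclusion, with values in `ℚ[C]` -/
def inA (I : MaximalSpectrum (R C)) (x : R C ⧸ I.asIdeal) : R C :=
  (IsArtinianRing.equivPi (R C)).symm (Pi.single I x)

theorem inA_apply (I : MaximalSpectrum (R C)) (x : R C ⧸ I.asIdeal) [DecidableEq (MaximalSpectrum (R C))] :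
    IsArtinianRing.equivPi (R C) (inA I x) = Pi.single I x := by
  rw [inA, AlgEquiv.apply_symm_apply]
  congr 1
  exact Subsingleton.elim _ _

theorem equivPi_inj {x y : R C} (h : IsArtinianRing.equivPi (R C) x =
    IsArtinianRing.equivPi (R C) y) : x = y := (IsArtinianRing.equivPi (R C)).injective h

theorem inA_zero (I : MaximalSpectrum (R C)) : inA I 0 = 0 := by
  classical
  apply equivPi_inj
  rw [inA_apply, map_zero, Pi.single_zero]

theorem inA_add (I : MaximalSpectrum (R C)) (x y : R C ⧸ I.asIdeal) :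
    inA I (x + y) = inA I x + inA I y := by
  classical
  apply equivPi_inj
  rw [map_add, inA_apply, inA_apply, inA_apply, Pi.single_add]

theorem inA_mul (I : MaximalSpectrum (R C)) (x y : R C ⧸ I.asIdeal) :
    inA I (x * y) = inA I x * inA I y := by
  classical
  apply equivPi_inj
  rw [map_mul, inA_apply, inA_apply, inA_apply, Pi.single_mul]

theorem inA_orth (I J : MaximalSpectrum (R C)) (h : I ≠ J) (x : R C ⧸ I.asIdeal)
    (y : R C ⧸ J.asIdeal) : inA I x * inA J y = 0 := by
  classical
  apply equivPi_inj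
  rw [map_mul, inA_apply, inA_apply, map_zero]
  funext K
  rw [Pi.mul_apply, Pi.zero_apply]
  by_cases hK : K = I
  · subst hK
    rw [Pi.single_eq_of_ne h, mul_zero]
  · rw [Pi.single_eq_of_ne hK, zero_mul]

theorem sum_inA [Fintype (MaximalSpectrum (R C))] (x : R C) :
    ∑ I : MaximalSpectrum (R C), inA I (Ideal.Quotient.mk I.asIdeal x) = x := by
  classical
  apply equivPi_inj
  rw [map_sum]
  simp only [inA_apply]
  exact Finset.univ_sum_single (IsArtinianRing.equivPi (R C) x)

theorem inA_integral (I : MaximalSpectrum (R C)) {x : R C ⧸ I.asIdeal} (hx : IsIntegral ℤ x) :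
    IsIntegral ℤ (inA I x) := by
  obtain ⟨p, hp, hpx⟩ := hx
  refine ⟨Polynomial.X * p, Polynomial.monic_X.mul hp, ?_⟩
  classical
  apply equivPi_inj
  rw [map_zero]
  funext K
  have h1 : Ideal.Quotient.mk K.asIdeal (inA I x) =
      (Pi.single I x : ∀ K : MaximalSpectrum (R C), R C ⧸ K.asIdeal) K :=
    congrFun (inA_apply I x) K
  show Ideal.Quotient.mk K.asIdeal (Polynomial.eval₂ (algebraMap ℤ (R C)) (inA I x)
    (Polynomial.X * p)) = 0
  rw [Polynomial.hom_eval₂, Polynomial.eval₂_mul, Polynomial.eval₂_X, h1]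
  by_cases hK : K = I
  · subst hK
    rw [Pi.single_eq_same]
    have h2 : (Ideal.Quotient.mk K.asIdeal).comp (algebraMap ℤ (R C)) =
      algebraMap ℤ (R C ⧸ K.asIdeal) := RingHom.ext_int _ _
    rw [h2, hpx, mul_zero]
  · rw [Pi.single_eq_of_ne hK, zero_mul]

/-- the inclusion -/
def inc (I : MaximalSpectrum (R C)) : Oc I →ₙ+* Mx C where
  toFun x := ⟨inA I x.1, inA_integral I x.2⟩
  map_zero' := Subtype.ext (inA_zero I)
  map_add' x y := Subtype.ext (inA_add I x.1 y.1)
  map_mul' x y := Subtype.ext (inA_mul I x.1 y.1)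

theorem sum_inc [Fintype (MaximalSpectrum (R C))] (x : Mx C) : ∑ I, inc I (pr I x) = x := by
  apply Subtype.ext
  rw [AddSubmonoidClass.coe_finsetSum]
  exact sum_inA x.1

theorem inc_mul (I J : MaximalSpectrum (R C)) (h : I ≠ J) (a : Oc I) (b : Oc J) :
    inc I a * inc J b = 0 := Subtype.ext (inA_orth I J h a.1 b.1)

end Order

theorem specORD_of (hDED : SpecDED.{u}) : SpecORD.{u} := by
  intro C _ _
  have : Fintype (MaximalSpectrum (R C)) := Fintype.ofFinite _
  refine ⟨Mx C, map_mem, fun b hb => card_mem hb, ?_⟩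
  have h1 : ∀ (I : MaximalSpectrum (R C)) (n : ℕ) (e : Matrix (Fin n) (Fin n) (Lau (Oc I)))
      (he : e * e = e), K0.cls e he = K0.cls (e.map (c1 (Oc I))) (map_idem (c1 (Oc I)) he) := by
    intro I n e he
    have := dedekind I
    exact hDED (Oc I) n e he
  have h2 := @c1_of_decomp (Mx C) _ (MaximalSpectrum (R C)) _ (fun I => Oc I) _ (fun I => pr I)
    (fun I => inc I)
  have h3 := h2 sum_inc
  have h4 := h3 inc_mul
  exact h4 h1

end ORDMod

end Pool.Agent.Lib.MPb6f35e.ZK
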