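import Pool.Agent.Lib.MP_b6f35e_al.ZK.Final

/-!
# ZK: elements of infinite order in `K_{-1}(ℤ[G])`
-/

set_option autoImplicit false

noncomputable section

namespace Pool.Agent.Lib.MPb6f35e.ZK

open Pool.Agent.Lib.MPb6f35e.WH (FinSub conjHom K1)
open DLMod FinMod

universe u v w

namespace TwoMod

variable {k : Type w} [CommRing k] {C : Type u} [Group C] [Fintype C]

/-- `∑_c v c` -/
def nrm (v : k) : MonoidAlgebra k C := ∑ c : C, MonoidAlgebra.single c v

lemma nrm_mul (v v' : k) : (nrm v : MonoidAlgebra k C) * nrm v' =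
    nrm ((Fintype.card C : k) * (v * v')) := by
  unfold nrm
  rw [Finset.sum_mul]
  have h : ∀ c : C, MonoidAlgebra.single c v * ∑ c' : C, MonoidAlgebra.single c' v' =
      ∑ c' : C, MonoidAlgebra.single c' (v * v') := by
    intro c
    rw [Finset.mul_sum]
    simp only [MonoidAlgebra.single_mul_single]
    exact Equiv.sum_comp (Equiv.mulLeft c) (fun c' : C => MonoidAlgebra.single c' (v * v'))
  rw [Finset.sum_congr rfl (fun c _ => h c), Finset.sum_const, Finset.card_univ]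
  rw [Finset.smul_sum]
  refine Finset.sum_congr rfl fun c _ => ?_
  rw [MonoidAlgebra.smul_single, nsmul_eq_mul]

open Classical in
lemma rk_nrm {G : Type u} [Group G] (φ : C →* G) (x : G) (v : k) :
    rk k x (MonoidAlgebra.mapDomainRingHom k φ (nrm v)) =
      ((Finset.univ.filter fun c : C => IsConj x (φ c)).card : k) * v := by
  unfold nrm
  rw [map_sum, map_sum]
  have h : ∀ c : C, rk k x (MonoidAlgebra.mapDomainRingHom k φ (MonoidAlgebra.single c v)) =
      if IsConj x (φ c) then v else 0 := by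
    intro c
    have h1 : MonoidAlgebra.mapDomainRingHom k φ (MonoidAlgebra.single c v) =
        MonoidAlgebra.single (φ c) v := by simp [MonoidAlgebra.mapDomain_single]
    rw [h1, DETMod.rk_single]
  rw [Finset.sum_congr rfl (fun c _ => h c), ← Finset.sum_filter, Finset.sum_const, nsmul_eq_mul]

end TwoMod

open TwoMod

/-- An element whose order has two prime divisors gives an element of infinite order. -/
theorem two_primes {G : Type u} [Group G] (g : G) (hg : IsOfFinOrder g) (p q : ℕ)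
    (hp : p.Prime) (hq : q.Prime) (hpq : p ≠ q) (hpg : p ∣ orderOf g) (hqg : q ∣ orderOf g) :
    ∃ z : Km1 (MonoidAlgebra ℤ (Subgroup.zpowers g)), ¬ IsOfFinAddOrder
      (Km1.map (MonoidAlgebra.mapDomainRingHom ℤ (Subgroup.zpowers g).subtype) z) := by
  classical
  have hfin : Finite (Subgroup.zpowers g) := hg.finite_zpowers
  have _ : Fintype (Subgroup.zpowers g) := Fintype.ofFinite _
  obtain ⟨P, rfl⟩ : ∃ P : Nat.Primes, (P : ℕ) = p := ⟨⟨p, hp⟩, rfl⟩
  obtain ⟨Q, rfl⟩ : ∃ Q : Nat.Primes, (Q : ℕ) = q := ⟨⟨q, hq⟩, rfl⟩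
  let S : Finset Nat.Primes := {P, Q}
  let n := Fintype.card (Subgroup.zpowers g)
  let v : Qp S := fun r => if (r : Nat.Primes) = Q then
    (n : ℚ_[((r : Nat.Primes) : ℕ)])⁻¹ else 0
  have hn : ∀ r : S, (n : ℚ_[((r : Nat.Primes) : ℕ)]) ≠ 0 := fun r =>
    Nat.cast_ne_zero.2 Fintype.card_ne_zero
  let f : MonoidAlgebra (Qp S) (Subgroup.zpowers g) := nrm v
  have hf : f * f = f := by
    show nrm v * nrm v = nrm v
    rw [nrm_mul]
    congr 1
    funext r
    show (n : ℚ_[((r : Nat.Primes) : ℕ)]) * (v r * v r) = v r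
    show (n : ℚ_[((r : Nat.Primes) : ℕ)]) * ((if (r : Nat.Primes) = Q then
      (n : ℚ_[((r : Nat.Primes) : ℕ)])⁻¹ else 0) * (if (r : Nat.Primes) = Q then
      (n : ℚ_[((r : Nat.Primes) : ℕ)])⁻¹ else 0)) = if (r : Nat.Primes) = Q then
      (n : ℚ_[((r : Nat.Primes) : ℕ)])⁻¹ else 0
    split_ifs
    · rw [← mul_assoc, mul_inv_cancel₀ (hn r), one_mul]
    · rw [mul_zero, mul_zero]
  refine ⟨Km1.mk _ (dB S _ (K1.unit (btU f hf))), fun htor => ?_⟩
  set φ := (Subgroup.zpowers g).subtype with hφ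
  have hf' : MonoidAlgebra.mapDomainRingHom (Qp S) φ f * MonoidAlgebra.mapDomainRingHom (Qp S) φ f =
      MonoidAlgebra.mapDomainRingHom (Qp S) φ f := by rw [← map_mul, hf]
  have h1 : Km1.map (MonoidAlgebra.mapDomainRingHom ℤ φ) (Km1.mk _ (dB S _
      (K1.unit (btU f hf)))) = Km1.mk (MonoidAlgebra ℤ G)
        (dB S G (K1.unit (btU (MonoidAlgebra.mapDomainRingHom (Qp S) φ f) hf'))) := by
    rw [← map_unit_btU (MonoidAlgebra.mapDomainRingHom (Qp S) φ) f hf hf']
    have h2 := dB_nat S φ (K1.unit (btU f hf))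
    have h3 : K1.map (lauMap (MonoidAlgebra.mapDomainRingHom (Qp S) φ)) (K1.unit (btU f hf)) =
      K1.map (gMap (Qp S) φ) (K1.unit (btU f hf)) := rfl
    rw [h3, h2]
    rfl
  rw [h1] at htor
  obtain ⟨s, hs⟩ := specDL.ex (MonoidAlgebra (Qp S) G) (Qp S) (rk (Qp S) g)
    (specRNK.trace (Qp S) G g)
  obtain ⟨r, hr⟩ := specDET specTOE specRNK specMIL specPAD S G (dB S G) (dB_spec S G) _
    htor g hg s hs
  rw [specDL.bt _ _ _ (specRNK.trace (Qp S) G g) s hs] at hr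
  have h4 : rk (Qp S) g (MonoidAlgebra.mapDomainRingHom (Qp S) φ f) =
    ((Finset.univ.filter fun c : Subgroup.zpowers g => IsConj g (φ c)).card : Qp S) * v :=
    rk_nrm φ g v
  set m := (Finset.univ.filter fun c : Subgroup.zpowers g => IsConj g (φ c)).card with hm
  have hm0 : m ≠ 0 := by
    rw [hm, Finset.card_ne_zero]
    exact ⟨⟨g, Subgroup.mem_zpowers g⟩, Finset.mem_filter.2 ⟨Finset.mem_univ _, IsConj.refl g⟩⟩
  rw [h4] at hr
  have hPS : P ∈ S := Finset.mem_insert_self _ _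
  have hQS : Q ∈ S := Finset.mem_insert_of_mem (Finset.mem_singleton_self _)
  have hPQ : P ≠ Q := fun h => hpq (by rw [h])
  have h5 := hr ⟨P, hPS⟩ hpg
  have h6 := hr ⟨Q, hQS⟩ hqg
  have h7 : (m : ℚ_[(P : ℕ)]) * (if P = Q then (n : ℚ_[(P : ℕ)])⁻¹ else 0) = (r : ℚ_[(P : ℕ)]) := h5
  have h8 : (m : ℚ_[(Q : ℕ)]) * (if Q = Q then (n : ℚ_[(Q : ℕ)])⁻¹ else 0) = (r : ℚ_[(Q : ℕ)]) := h6
  rw [if_neg hPQ, mul_zero] at h7
  have h9 : r = 0 := by exact_mod_cast h7.symm
  rw [if_pos rfl, h9] at h8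
  have h10 : (m : ℚ_[(Q : ℕ)]) * (n : ℚ_[(Q : ℕ)])⁻¹ = 0 := by rw [h8]; norm_num
  rcases mul_eq_zero.1 h10 with h | h
  · exact hm0 (Nat.cast_eq_zero.1 h)
  · exact hn ⟨Q, hQS⟩ (inv_eq_zero.1 h)

end Pool.Agent.Lib.MPb6f35e.ZK
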