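import Pool.Agent.Lib.MP_b6f35e_al.ZK.Final
import Pool.Agent.Lib.MP_b6f35e_al.ZK.Two
import Pool.Agent.Lib.MP_b6f35e_al.ZK.ART
import Pool.Agent.Lib.MP_b6f35e_al.ZK.GEN
import Pool.Agent.Lib.MP_b6f35e_al.ZK.LNK
import Pool.Agent.Lib.MP_b6f35e_al.ZK.LINS
import Pool.Agent.Lib.MP_b6f35e_al.ZK.DED
import Pool.Agent.Lib.MP_b6f35e_al.ZK.ORD
import Pool.Agent.Lib.MP_b6f35e_al.ZK.FIN
import Pool.Agent.Lib.MP_b6f35e_al.ZK.K1F
import Pool.Agent.Lib.MP_b6f35e_al.WH.K

/-!
# ZK: the theorem on `K_{-1}(ℤ[G])`, all modules plugged in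
-/

set_option autoImplicit false

noncomputable section

namespace Pool.Agent.Lib.MPb6f35e.ZK

universe u

theorem specGEN : SpecGEN.{u} :=
  specGEN_of specMIL (ORDMod.specORD_of specDED) specFIN (specK1F WH.specK) LNKMod.specLNK

/-- For every group `G` the kernel of the map from the colimit of the `K_{-1}(ℤ[H])`, `H` finite, to
`K_{-1}(ℤ[G])` is torsion. -/
theorem specFinal : SpecFinal.{u} :=
  specFinal_of (specART specFIN) specGEN specVB specRES specLIN

end Pool.Agent.Lib.MPb6f35e.ZK
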