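import Pool.Agent.Lib.MP_b6f35e_al.ZK.KA

/-!
# ZK, module DED, part A: classes of finitely generated projective modules in `K_0`
-/

set_option autoImplicit false

noncomputable section

namespace Pool.Agent.Lib.MPb6f35e.ZK

namespace DEDMod

universe u v w w' x

variable {A : Type u} [CommRing A]

/-- `x` is the class of the module `P`. -/
def IsC (P : Type v) [AddCommGroup P] [Module A P] (y : K0 A) : Prop :=
  ∃ (n : ℕ) (e : Matrix (Fin n) (Fin n) A) (he : e * e = e) (i : P →ₗ[A] (Fin n → A))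
    (r : (Fin n → A) →ₗ[A] P), r ∘ₗ i = LinearMap.id ∧ i ∘ₗ r = Matrix.mulVecLin e ∧
      y = K0.cls e he

variable {P : Type v} [AddCommGroup P] [Module A P] {Q : Type w} [AddCommGroup Q] [Module A Q]

theorem toMatrix'_inj {m n : Type*} [Fintype m] [Fintype n] [DecidableEq n] {e : Matrix m n A}
    {L : (n → A) →ₗ[A] (m → A)} (h : L = Matrix.mulVecLin e) : LinearMap.toMatrix' L = e := by
  rw [h]
  exact LinearMap.toMatrix'_toLin' e

/-- General index types. -/
theorem IsC.of_index {ι : Type x} [Fintype ι] [DecidableEq ι] (e : Matrix ι ι A) (he : e * e = e)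
    (i : P →ₗ[A] (ι → A)) (r : (ι → A) →ₗ[A] P) (h1 : r ∘ₗ i = LinearMap.id)
    (h2 : i ∘ₗ r = Matrix.mulVecLin e) : IsC P (K0.clsF e he) := by
  let σ := Fintype.equivFin ι
  refine ⟨Fintype.card ι, Matrix.reindex σ σ e, reindex_idem he σ,
    (LinearEquiv.funCongrLeft A A σ.symm).toLinearMap ∘ₗ i,
    r ∘ₗ (LinearEquiv.funCongrLeft A A σ).toLinearMap, ?_, ?_, rfl⟩
  · apply LinearMap.ext
    intro v
    have h3 : (LinearEquiv.funCongrLeft A A σ) ((LinearEquiv.funCongrLeft A A σ.symm) (i v)) =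
        i v := by
      funext k
      show i v (σ.symm (σ k)) = i v k
      rw [Equiv.symm_apply_apply]
    show r ((LinearEquiv.funCongrLeft A A σ) ((LinearEquiv.funCongrLeft A A σ.symm) (i v))) = v
    rw [h3]
    exact LinearMap.congr_fun h1 v
  · apply LinearMap.ext
    intro v
    funext k
    have h3 := congrFun (LinearMap.congr_fun h2 ((LinearEquiv.funCongrLeft A A σ) v)) (σ.symm k)
    show i (r ((LinearEquiv.funCongrLeft A A σ) v)) (σ.symm k) = _
    rw [show i (r ((LinearEquiv.funCongrLeft A A σ) v)) (σ.symm k) =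
      (i ∘ₗ r) ((LinearEquiv.funCongrLeft A A σ) v) (σ.symm k) from rfl, h3]
    simp only [Matrix.mulVecLin_apply, Matrix.mulVec, dotProduct, Matrix.reindex_apply,
      Matrix.submatrix_apply]
    refine Fintype.sum_equiv σ _ _ fun j => ?_
    rw [Equiv.symm_apply_apply]
    rfl

/-- Isomorphic modules have the same class. -/
theorem IsC.unique {y z : K0 A} (hy : IsC P y) (hz : IsC Q z) (φ : P ≃ₗ[A] Q) : y = z := by
  obtain ⟨m, e, he, i, r, h1, h2, rfl⟩ := hy
  obtain ⟨n, f, hf, j, s, h3, h4, rfl⟩ := hz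
  have e1 : (i ∘ₗ φ.symm.toLinearMap ∘ₗ s) ∘ₗ (j ∘ₗ φ.toLinearMap ∘ₗ r) = i ∘ₗ r := by
    apply LinearMap.ext
    intro v
    show i (φ.symm (s (j (φ (r v))))) = i (r v)
    rw [show s (j (φ (r v))) = φ (r v) from LinearMap.congr_fun h3 (φ (r v)),
      LinearEquiv.symm_apply_apply]
  have e2 : (j ∘ₗ φ.toLinearMap ∘ₗ r) ∘ₗ (i ∘ₗ φ.symm.toLinearMap ∘ₗ s) = j ∘ₗ s := by
    apply LinearMap.ext
    intro v
    show j (φ (r (i (φ.symm (s v))))) = j (s v)
    rw [show r (i (φ.symm (s v))) = φ.symm (s v) from LinearMap.congr_fun h1 (φ.symm (s v)),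
      LinearEquiv.apply_symm_apply]
  refine K0.cls_iso he hf (LinearMap.toMatrix' (i ∘ₗ φ.symm.toLinearMap ∘ₗ s))
    (LinearMap.toMatrix' (j ∘ₗ φ.toLinearMap ∘ₗ r)) ?_ ?_
  · rw [← LinearMap.toMatrix'_comp, e1]
    exact toMatrix'_inj h2
  · rw [← LinearMap.toMatrix'_comp, e2]
    exact toMatrix'_inj h4

theorem IsC.congr {y : K0 A} (hy : IsC P y) (φ : P ≃ₗ[A] Q) : IsC Q y := by
  obtain ⟨m, e, he, i, r, h1, h2, rfl⟩ := hy
  refine ⟨m, e, he, i ∘ₗ φ.symm.toLinearMap, φ.toLinearMap ∘ₗ r, ?_, ?_, rfl⟩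
  · apply LinearMap.ext
    intro v
    show φ (r (i (φ.symm v))) = v
    rw [show r (i (φ.symm v)) = φ.symm v from LinearMap.congr_fun h1 (φ.symm v),
      LinearEquiv.apply_symm_apply]
  · rw [← h2]
    apply LinearMap.ext
    intro v
    show i (φ.symm (φ (r v))) = i (r v)
    rw [LinearEquiv.symm_apply_apply]

theorem IsC.exists (P : Type v) [AddCommGroup P] [Module A P] [Module.Finite A P]
    [Module.Projective A P] : ∃ y : K0 A, IsC P y := by
  obtain ⟨n, f, hf⟩ := Module.Finite.exists_fin' A P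
  obtain ⟨s, hs⟩ := Module.projective_lifting_property f LinearMap.id hf
  have h1 : (s ∘ₗ f) ∘ₗ (s ∘ₗ f) = s ∘ₗ f := by
    apply LinearMap.ext
    intro v
    show s (f (s (f v))) = s (f v)
    rw [show f (s (f v)) = f v from LinearMap.congr_fun hs (f v)]
  have h2 : LinearMap.toMatrix' (s ∘ₗ f) * LinearMap.toMatrix' (s ∘ₗ f) =
      LinearMap.toMatrix' (s ∘ₗ f) := by
    rw [← LinearMap.toMatrix'_comp, h1]
  exact ⟨_, n, _, h2, s, f, hs, (Matrix.toLin'_toMatrix' (s ∘ₗ f)).symm, rfl⟩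

theorem IsC.projective {y : K0 A} (hy : IsC P y) : Module.Projective A P := by
  obtain ⟨m, e, he, i, r, h1, h2, rfl⟩ := hy
  exact Module.Projective.of_split i r h1

theorem IsC.finite {y : K0 A} (hy : IsC P y) : Module.Finite A P := by
  obtain ⟨m, e, he, i, r, h1, h2, rfl⟩ := hy
  refine Module.Finite.of_surjective r fun v => ⟨i v, LinearMap.congr_fun h1 v⟩

theorem IsC.prod {y z : K0 A} (hy : IsC P y) (hz : IsC Q z) : IsC (P × Q) (y + z) := by
  obtain ⟨m, e, he, i, r, h1, h2, rfl⟩ := hy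
  obtain ⟨n, f, hf, j, s, h3, h4, rfl⟩ := hz
  have h5 : K0.cls e he + K0.cls f hf = K0.clsF (Matrix.fromBlocks e 0 0 f) (blocks_idem he hf) := by
    rw [K0.clsF_sum he hf, K0.clsF_fin, K0.clsF_fin]
  rw [h5]
  refine IsC.of_index _ _
    ((LinearEquiv.sumArrowLequivProdArrow (Fin m) (Fin n) A A).symm.toLinearMap ∘ₗ i.prodMap j)
    (r.prodMap s ∘ₗ (LinearEquiv.sumArrowLequivProdArrow (Fin m) (Fin n) A A).toLinearMap) ?_ ?_
  · apply LinearMap.ext
    rintro ⟨v, w⟩
    show (r.prodMap s) ((LinearEquiv.sumArrowLequivProdArrow (Fin m) (Fin n) A A)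
      ((LinearEquiv.sumArrowLequivProdArrow (Fin m) (Fin n) A A).symm (i v, j w))) = (v, w)
    rw [LinearEquiv.apply_symm_apply]
    show (r (i v), s (j w)) = (v, w)
    rw [show r (i v) = v from LinearMap.congr_fun h1 v,
      show s (j w) = w from LinearMap.congr_fun h3 w]
  · apply LinearMap.ext
    intro v
    obtain ⟨⟨a, b⟩, rfl⟩ := (LinearEquiv.sumArrowLequivProdArrow (Fin m) (Fin n) A A).symm.surjective v
    show (LinearEquiv.sumArrowLequivProdArrow (Fin m) (Fin n) A A).symm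
      ((i.prodMap j) ((r.prodMap s) ((LinearEquiv.sumArrowLequivProdArrow (Fin m) (Fin n) A A)
        ((LinearEquiv.sumArrowLequivProdArrow (Fin m) (Fin n) A A).symm (a, b))))) = _
    rw [LinearEquiv.apply_symm_apply]
    show (LinearEquiv.sumArrowLequivProdArrow (Fin m) (Fin n) A A).symm (i (r a), j (s b)) = _
    rw [show i (r a) = e.mulVec a from LinearMap.congr_fun h2 a,
      show j (s b) = f.mulVec b from LinearMap.congr_fun h4 b]
    funext k
    rcases k with k | k
    · simp [Matrix.mulVec, dotProduct, Matrix.fromBlocks]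
    · simp [Matrix.mulVec, dotProduct, Matrix.fromBlocks]

/-- The zero module. -/
theorem IsC.zero [Subsingleton P] : IsC P (0 : K0 A) := by
  have h := IsC.of_index (A := A) (P := P) (ι := Empty) 0 (by ext i j; exact i.elim) 0 0
    (by apply LinearMap.ext; intro v; exact Subsingleton.elim _ _)
    (by apply LinearMap.ext; intro v; funext k; exact k.elim)
  rwa [K0.clsF_zero] at h

/-- Powers. -/
theorem IsC.pow {y : K0 A} (hy : IsC P y) : ∀ s : ℕ, IsC (Fin s → P) (s • y)
  | 0 => by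
    rw [zero_smul]
    exact IsC.zero
  | s + 1 => by
    have h := hy.prod (IsC.pow hy s)
    rw [succ_nsmul']
    exact h.congr (Fin.consLinearEquiv A (fun _ : Fin (s + 1) => P))

/-- The free module of rank one. -/
theorem IsC.one : IsC (A := A) A (K0.one A) :=
  ⟨1, 1, mul_one 1, LinearMap.pi fun _ => LinearMap.id, LinearMap.proj 0, rfl, by
    apply LinearMap.ext
    intro v
    funext k
    fin_cases k
    simp, rfl⟩

/-- The class of a matrix is the class of its image. -/
theorem IsC.range {n : ℕ} (e : Matrix (Fin n) (Fin n) A) (he : e * e = e) :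
    IsC (LinearMap.range (Matrix.mulVecLin e)) (K0.cls e he) := by
  refine ⟨n, e, he, (LinearMap.range (Matrix.mulVecLin e)).subtype,
    (Matrix.mulVecLin e).rangeRestrict, ?_, rfl, rfl⟩
  apply LinearMap.ext
  rintro ⟨v, w, rfl⟩
  apply Subtype.ext
  show e.mulVec (e.mulVec w) = e.mulVec w
  rw [Matrix.mulVec_mulVec, he]

end DEDMod

end Pool.Agent.Lib.MPb6f35e.ZK
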