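import Pool.Agent.Lib.MP_b6f35e_al.ZK.DEDA

/-!
# ZK, module DED, part B: Schanuel's lemma and one step of the filtration
-/

set_option autoImplicit false

noncomputable section

namespace Pool.Agent.Lib.MPb6f35e.ZK

namespace DEDMod

universe u v w w' x

variable {A : Type u} [CommRing A]

/-- A split surjection. -/
def splitEquiv {X : Type v} [AddCommGroup X] [Module A X] {P : Type w} [AddCommGroup P]
    [Module A P] (f : X →ₗ[A] P) (g : P →ₗ[A] X) (h : f ∘ₗ g = LinearMap.id) :
    X ≃ₗ[A] P × LinearMap.ker f where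
  toFun v := (f v, ⟨v - g (f v), by
    rw [LinearMap.mem_ker, map_sub, show f (g (f v)) = f v from LinearMap.congr_fun h (f v),
      sub_self]⟩)
  invFun v := g v.1 + v.2
  left_inv v := by
    show g (f v) + (v - g (f v)) = v
    abel
  right_inv v := by
    obtain ⟨a, b, hb⟩ := v
    have h1 : f (g a) = a := LinearMap.congr_fun h a
    have h2 : f b = 0 := hb
    have h3 : f (g a + b) = a := by rw [map_add, h1, h2, add_zero]
    apply Prod.ext
    · exact h3
    · apply Subtype.ext
      show g a + b - g (f (g a + b)) = b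
      rw [h3]
      abel
  map_add' v w := by
    apply Prod.ext
    · exact map_add f v w
    · apply Subtype.ext
      show v + w - g (f (v + w)) = (v - g (f v)) + (w - g (f w))
      rw [map_add, map_add]
      abel
  map_smul' a v := by
    apply Prod.ext
    · exact map_smul f a v
    · apply Subtype.ext
      show a • v - g (f (a • v)) = a • (v - g (f v))
      rw [map_smul, map_smul, smul_sub]

/-- Schanuel's lemma. -/
theorem schanuel {P : Type v} [AddCommGroup P] [Module A P] (s : ℕ) (I : Ideal A)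
    (θ : P →ₗ[A] (Fin s → A ⧸ I)) (hθ : Function.Surjective θ) {y z : K0 A} (hP : IsC P y)
    (hI : IsC I z) :
    ∃ y' : K0 A, IsC (LinearMap.ker θ) y' ∧ y + s • z = y' + s • K0.one A := by
  let ρ : (Fin s → A) →ₗ[A] (Fin s → A ⧸ I) := LinearMap.pi fun k =>
    (Submodule.mkQ I) ∘ₗ (LinearMap.proj k)
  have hρ : Function.Surjective ρ := by
    intro w
    choose g hg using fun k => Submodule.mkQ_surjective I (w k)
    exact ⟨g, funext hg⟩
  let D : (P × (Fin s → A)) →ₗ[A] (Fin s → A ⧸ I) :=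
    θ ∘ₗ LinearMap.fst A P (Fin s → A) - ρ ∘ₗ LinearMap.snd A P (Fin s → A)
  let X := LinearMap.ker D
  have hX : ∀ v : X, θ (v : P × (Fin s → A)).1 = ρ (v : P × (Fin s → A)).2 := fun v =>
    sub_eq_zero.1 v.2
  let f₁ : X →ₗ[A] P := (LinearMap.fst A P (Fin s → A)) ∘ₗ X.subtype
  let f₂ : X →ₗ[A] (Fin s → A) := (LinearMap.snd A P (Fin s → A)) ∘ₗ X.subtype
  have hf₁ : Function.Surjective f₁ := by
    intro v
    obtain ⟨w, hw⟩ := hρ (θ v)
    exact ⟨⟨(v, w), sub_eq_zero.2 hw.symm⟩, rfl⟩
  have hf₂ : Function.Surjective f₂ := by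
    intro w
    obtain ⟨v, hv⟩ := hθ (ρ w)
    exact ⟨⟨(v, w), sub_eq_zero.2 hv⟩, rfl⟩
  have := hP.projective
  obtain ⟨g₁, hg₁⟩ := Module.projective_lifting_property f₁ LinearMap.id hf₁
  obtain ⟨g₂, hg₂⟩ := Module.projective_lifting_property f₂ LinearMap.id hf₂
  -- kernel of f₁ is I^s
  let φ₁ : LinearMap.ker f₁ ≃ₗ[A] (Fin s → I) :=
    { toFun := fun v k => ⟨(v.1 : P × (Fin s → A)).2 k, by
        have h1 := hX v.1
        have h2 : (v.1 : P × (Fin s → A)).1 = 0 := v.2
        rw [h2, map_zero] at h1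
        have h3 := congrFun h1 k
        exact (Submodule.Quotient.mk_eq_zero I).1 h3.symm⟩
      invFun := fun w => ⟨⟨(0, fun k => (w k : A)), by
        show D (0, fun k => (w k : A)) = 0
        apply sub_eq_zero.2
        show θ 0 = ρ fun k => (w k : A)
        rw [map_zero]
        funext k
        exact ((Submodule.Quotient.mk_eq_zero I).2 (w k).2).symm⟩, rfl⟩
      left_inv := by
        rintro ⟨⟨⟨a, b⟩, hab⟩, h⟩
        have h2 : a = 0 := h
        subst h2
        rfl
      right_inv := fun w => rfl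
      map_add' := fun v w => rfl
      map_smul' := fun a v => rfl }
  let φ₂ : LinearMap.ker f₂ ≃ₗ[A] LinearMap.ker θ :=
    { toFun := fun v => ⟨(v.1 : P × (Fin s → A)).1, by
        have h1 := hX v.1
        have h2 : (v.1 : P × (Fin s → A)).2 = 0 := v.2
        rw [h2, map_zero] at h1
        exact h1⟩
      invFun := fun w => ⟨⟨((w : P), 0), by
        show D ((w : P), 0) = 0
        apply sub_eq_zero.2
        show θ w = ρ 0
        rw [map_zero]
        exact w.2⟩, rfl⟩
      left_inv := by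
        rintro ⟨⟨⟨a, b⟩, hab⟩, h⟩
        have h2 : b = 0 := h
        subst h2
        rfl
      right_inv := fun w => rfl
      map_add' := fun v w => rfl
      map_smul' := fun a v => rfl }
  have hXc : IsC X (y + s • z) :=
    (hP.prod (hI.pow s)).congr
      ((splitEquiv f₁ g₁ hg₁).trans ((LinearEquiv.refl A P).prodCongr φ₁)).symm
  let Ψ : X ≃ₗ[A] (Fin s → A) × LinearMap.ker θ :=
    (splitEquiv f₂ g₂ hg₂).trans ((LinearEquiv.refl A (Fin s → A)).prodCongr φ₂)
  have hXP := hXc.projective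
  have hXF := hXc.finite
  have hproj : Module.Projective A (LinearMap.ker θ) :=
    Module.Projective.of_split (Ψ.symm.toLinearMap ∘ₗ LinearMap.inr A (Fin s → A) (LinearMap.ker θ))
      (LinearMap.snd A (Fin s → A) (LinearMap.ker θ) ∘ₗ Ψ.toLinearMap) (by
        apply LinearMap.ext
        intro v
        show (Ψ (Ψ.symm (0, v))).2 = v
        rw [LinearEquiv.apply_symm_apply])
  have hfin : Module.Finite A (LinearMap.ker θ) :=
    Module.Finite.of_surjective (LinearMap.snd A (Fin s → A) (LinearMap.ker θ) ∘ₗ Ψ.toLinearMap)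
      (fun v => ⟨Ψ.symm (0, v), by
        show (Ψ (Ψ.symm (0, v))).2 = v
        rw [LinearEquiv.apply_symm_apply]⟩)
  obtain ⟨y', hy'⟩ := IsC.exists (A := A) (LinearMap.ker θ)
  refine ⟨y', hy', ?_⟩
  have h1 := hXc.unique ((IsC.one.pow s).prod hy') Ψ
  rw [h1, add_comm]

/-- One step of the filtration. -/
theorem step {V : Type v} [AddCommGroup V] [Module A V] (P P' : Submodule A V) (hle : P' ≤ P)
    (I : Ideal A) [hIp : I.IsPrime] [IsPrincipalIdealRing (A ⧸ I)]
    (hI : ∀ a ∈ I, ∀ v ∈ P, a • v ∈ P') (htf : ∀ c ∉ I, ∀ v ∈ P, c • v ∈ P' → v ∈ P')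
    {y z : K0 A} (hP : IsC P y) (hz : IsC I z) :
    ∃ (y' : K0 A) (s : ℕ), IsC P' y' ∧ y + s • z = y' + s • K0.one A := by
  let N := P ⧸ P'.submoduleOf P
  have hfin := hP.finite
  have hT : Module.IsTorsionBySet A N I := by
    rintro n ⟨a, ha⟩
    obtain ⟨v, rfl⟩ := Submodule.mkQ_surjective _ n
    show a • (P'.submoduleOf P).mkQ v = 0
    rw [← map_smul]
    exact (Submodule.Quotient.mk_eq_zero _).2 (hI a ha v v.2)
  letI : Module (A ⧸ I) N := hT.module
  haveI : IsScalarTower A (A ⧸ I) N := hT.isScalarTower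
  haveI : Module.Finite (A ⧸ I) N := Module.Finite.of_restrictScalars_finite A (A ⧸ I) N
  haveI : Module.IsTorsionFree (A ⧸ I) N := by
    apply Module.IsTorsionFree.of_smul_eq_zero
    intro c n h
    obtain ⟨c, rfl⟩ := Ideal.Quotient.mk_surjective c
    obtain ⟨v, rfl⟩ := Submodule.mkQ_surjective _ n
    by_cases hc : c ∈ I
    · left
      exact Ideal.Quotient.eq_zero_iff_mem.2 hc
    · right
      have h1 : (P'.submoduleOf P).mkQ (c • v) = 0 := by
        rw [map_smul]
        exact h
      have h2 : c • v ∈ P'.submoduleOf P :=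
        (Submodule.Quotient.mk_eq_zero (P'.submoduleOf P)).1 h1
      exact (Submodule.Quotient.mk_eq_zero (P'.submoduleOf P)).2 (htf c hc v v.2 h2)
  obtain ⟨s, b⟩ := Module.basisOfFiniteTypeTorsionFree' (R := A ⧸ I) (M := N)
  let θ : P →ₗ[A] (Fin s → A ⧸ I) :=
    (b.equivFun.restrictScalars A).toLinearMap ∘ₗ (P'.submoduleOf P).mkQ
  have hθ : Function.Surjective θ :=
    (b.equivFun.restrictScalars A).surjective.comp (Submodule.mkQ_surjective _)
  obtain ⟨y', hy', h⟩ := schanuel s I θ hθ hP hz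
  refine ⟨y', s, hy'.congr ?_, h⟩
  have hker : LinearMap.ker θ = P'.submoduleOf P := by
    ext v
    rw [LinearMap.mem_ker]
    show (b.equivFun.restrictScalars A) ((P'.submoduleOf P).mkQ v) = 0 ↔ _
    rw [LinearEquiv.map_eq_zero_iff]
    exact Submodule.Quotient.mk_eq_zero _
  exact (LinearEquiv.ofEq _ _ hker).trans (Submodule.submoduleOfEquivOfLe hle)

end DEDMod

end Pool.Agent.Lib.MPb6f35e.ZK
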