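import Pool.Agent.Lib.MP_b6f35e_al.ZK.DEDB

/-!
# ZK, module DED, part C: the filtration over a Dedekind domain
-/

set_option autoImplicit false

noncomputable section

namespace Pool.Agent.Lib.MPb6f35e.ZK

namespace DEDMod

universe u v w w' x

/-! ### a general cancellation lemma -/

section cancel

variable {O : Type u} [CommRing O] {A : Type v} [CommRing A] (ι : O →+* A)

/-- If `q w ⊆ (q A) P` and `q` is invertible then `w ∈ P`. -/
theorem cancel {V : Type w} [AddCommGroup V] [Module A V] (P : Submodule A V) (q q' : Ideal O)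
    (δ : O) (hq : q * q' = Ideal.span {δ}) (hδ : ∀ v : V, ι δ • v = 0 → v = 0) (w : V)
    (h : ∀ a ∈ q, ι a • w ∈ Ideal.map ι q • P) : w ∈ P := by
  have h1 : ∀ a ∈ q * q', ι a • w ∈ Ideal.map ι (q * q') • P := by
    intro a ha
    refine Submodule.mul_induction_on ha ?_ ?_
    · intro a ha b hb
      rw [mul_comm a b, map_mul, mul_smul, mul_comm q q', Ideal.map_mul, Submodule.mul_smul]
      exact Submodule.smul_mem_smul (Ideal.mem_map_of_mem ι hb) (h a ha)
    · intro a b ha hb
      rw [map_add, add_smul]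
      exact Submodule.add_mem _ ha hb
  have h2 := h1 δ (by rw [hq]; exact Ideal.mem_span_singleton_self δ)
  rw [hq, Ideal.map_span, Set.image_singleton, Submodule.ideal_span_singleton_smul,
    Submodule.mem_smul_pointwise_iff_exists] at h2
  obtain ⟨v, hv, hvw⟩ := h2
  have h3 : ι δ • (w - v) = 0 := by rw [smul_sub, hvw, sub_self]
  rw [sub_eq_zero.1 (hδ _ h3)]
  exact hv

/-- Projective modules: `q w ⊆ P`, `c w ∈ P`, `c ∉ q A` imply `w ∈ P`. -/
theorem torsion_free {V : Type w} [AddCommGroup V] [Module A V] (P : Submodule A V) {y : K0 A}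
    (hP : IsC P y) (q q' : Ideal O) (δ : O) (hq : q * q' = Ideal.span {δ})
    (hδ : ∀ v : V, ι δ • v = 0 → v = 0) (hprime : (Ideal.map ι q).IsPrime) (w : V)
    (h : ∀ a ∈ q, ι a • w ∈ P) (c : A) (hc : c ∉ Ideal.map ι q) (hcw : c • w ∈ P) : w ∈ P := by
  refine cancel ι P q q' δ hq hδ w fun a ha => ?_
  obtain ⟨n, e, he, i, r, h1, -, -⟩ := hP
  have h2 : ∀ k, i ⟨ι a • w, h a ha⟩ k ∈ Ideal.map ι q := by
    intro k
    have h3 : c • (⟨ι a • w, h a ha⟩ : P) = ι a • (⟨c • w, hcw⟩ : P) := by
      apply Subtype.ext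
      show c • (ι a • w) = ι a • (c • w)
      rw [smul_smul, smul_smul, mul_comm]
    have h4 := congrFun (congrArg i h3) k
    rw [map_smul, map_smul] at h4
    have h5 : c * i ⟨ι a • w, h a ha⟩ k ∈ Ideal.map ι q := by
      rw [show c * i ⟨ι a • w, h a ha⟩ k = ι a * i ⟨c • w, hcw⟩ k from h4]
      exact Ideal.mul_mem_right _ _ (Ideal.mem_map_of_mem ι ha)
    exact (hprime.mem_or_mem h5).resolve_left hc
  have h3 : (⟨ι a • w, h a ha⟩ : P) ∈ (Ideal.map ι q • (⊤ : Submodule A P)) := by
    have h4 : (⟨ι a • w, h a ha⟩ : P) = ∑ k, i ⟨ι a • w, h a ha⟩ k • r (Pi.single k 1) := by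
      have h5 : r (i ⟨ι a • w, h a ha⟩) = ⟨ι a • w, h a ha⟩ := LinearMap.congr_fun h1 _
      have h6 : ∀ g : Fin n → A, r g = ∑ k, g k • r (Pi.single k 1) := by
        intro g
        have h7 : g = ∑ k, g k • (Pi.single k (1 : A) : Fin n → A) := by
          funext l
          rw [Finset.sum_apply, Finset.sum_eq_single_of_mem l (Finset.mem_univ l)]
          · rw [Pi.smul_apply, Pi.single_eq_same, smul_eq_mul, mul_one]
          · intro k _ hk
            rw [Pi.smul_apply, Pi.single_eq_of_ne hk.symm, smul_zero]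
        conv_lhs => rw [h7]
        rw [map_sum]
        exact Finset.sum_congr rfl fun k _ => map_smul r _ _
      rw [← h6, h5]
    rw [h4]
    exact Submodule.sum_mem _ fun k _ => Submodule.smul_mem_smul (h2 k) trivial
  have h4 := Submodule.mem_map_of_mem (f := P.subtype) h3
  rw [Submodule.map_smul'', Submodule.map_top, Submodule.range_subtype] at h4
  exact h4

end cancel

/-! ### Laurent polynomials -/

/-- constants -/
def cst (O : Type u) [CommRing O] : O →+* Lau O := AddMonoidAlgebra.singleZeroRingHom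

theorem cst_apply {O : Type u} [CommRing O] (x : O) : cst O x = AddMonoidAlgebra.single 0 x := rfl

theorem lau_sum {O : Type u} [CommRing O] (a : Lau O) :
    a = ∑ k ∈ a.coeff.support, AddMonoidAlgebra.single k 1 * cst O (a.coeff k) := by
  have h : ∀ k, AddMonoidAlgebra.single k 1 * cst O (a.coeff k) =
      AddMonoidAlgebra.single k (a.coeff k) := by
    intro k
    rw [cst_apply, AddMonoidAlgebra.single_mul_single, add_zero, one_mul]
  simp only [h]
  ext k
  rw [AddMonoidAlgebra.coeff_sum, Finsupp.finsetSum_apply]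
  by_cases hk : k ∈ a.coeff.support
  · rw [Finset.sum_eq_single_of_mem k hk]
    · rw [AddMonoidAlgebra.coeff_single, Finsupp.single_eq_same]
    · intro b _ hb
      rw [AddMonoidAlgebra.coeff_single, Finsupp.single_apply, if_neg hb]
  · rw [Finset.sum_eq_zero]
    · rwa [Finsupp.notMem_support_iff] at hk
    · intro b hb
      rw [AddMonoidAlgebra.coeff_single, Finsupp.single_apply, if_neg]
      rintro rfl
      exact hk hb

theorem lauMap_coeff {O : Type u} [CommRing O] {O' : Type v} [CommRing O'] (f : O →+* O')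
    (a : Lau O) (k : ℤ) : (lauMap f a).coeff k = f (a.coeff k) := by
  induction a using AddMonoidAlgebra.induction_linear with
  | zero => simp
  | add x y hx hy =>
    rw [map_add, AddMonoidAlgebra.coeff_add, AddMonoidAlgebra.coeff_add, Finsupp.add_apply,
      Finsupp.add_apply, map_add, hx, hy]
  | single n c =>
    classical
    rw [lauMap, AddMonoidAlgebra.mapRingHom_single, AddMonoidAlgebra.coeff_single,
      AddMonoidAlgebra.coeff_single, Finsupp.single_apply, Finsupp.single_apply]
    split_ifs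
    · rfl
    · exact (map_zero f).symm

theorem lau_ker {O : Type u} [CommRing O] (q : Ideal O) :
    RingHom.ker (lauMap (Ideal.Quotient.mk q)) = Ideal.map (cst O) q := by
  apply le_antisymm
  · intro a ha
    rw [lau_sum a]
    refine Ideal.sum_mem _ fun k _ => Ideal.mul_mem_left _ _ (Ideal.mem_map_of_mem _ ?_)
    rw [← Ideal.Quotient.eq_zero_iff_mem, ← lauMap_coeff, (RingHom.mem_ker).1 ha]
    rfl
  · rw [Ideal.map_le_iff_le_comap]
    intro x hx
    rw [Ideal.mem_comap, RingHom.mem_ker, cst_apply, lauMap, AddMonoidAlgebra.mapRingHom_single,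
      Ideal.Quotient.eq_zero_iff_mem.2 hx, AddMonoidAlgebra.single_zero]

theorem lauMap_surj {O : Type u} [CommRing O] {O' : Type v} [CommRing O'] (f : O →+* O')
    (hf : Function.Surjective f) : Function.Surjective (lauMap f) := by
  intro b
  induction b using AddMonoidAlgebra.induction_linear with
  | zero => exact ⟨0, map_zero _⟩
  | add x y hx hy =>
    obtain ⟨a, rfl⟩ := hx
    obtain ⟨b, rfl⟩ := hy
    exact ⟨a + b, map_add _ _ _⟩
  | single n c =>
    obtain ⟨t, rfl⟩ := hf c
    exact ⟨AddMonoidAlgebra.single n t, by rw [lauMap, AddMonoidAlgebra.mapRingHom_single]⟩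

instance lauDomain (O : Type u) [CommRing O] [IsDomain O] : IsDomain (Lau O) := inferInstance

theorem map_prime {O : Type u} [CommRing O] (q : Ideal O) [q.IsPrime] :
    (Ideal.map (cst O) q).IsPrime := by
  rw [← lau_ker]
  exact RingHom.ker_isPrime _

theorem map_pid {O : Type u} [CommRing O] (q : Ideal O)
    (h : IsPrincipalIdealRing (Lau (O ⧸ q))) :
    IsPrincipalIdealRing (Lau O ⧸ Ideal.map (cst O) q) := by
  rw [← lau_ker]
  exact IsPrincipalIdealRing.of_surjective (RingHom.quotientKerEquivOfSurjective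
    (lauMap_surj (Ideal.Quotient.mk q) Ideal.Quotient.mk_surjective)).symm.toRingHom
    (RingHom.quotientKerEquivOfSurjective
    (lauMap_surj (Ideal.Quotient.mk q) Ideal.Quotient.mk_surjective)).symm.surjective

/-! ### the class of an ideal -/

theorem mem_mul_sum {O : Type u} [CommRing O] (q q' : Ideal O) (x : O) (hx : x ∈ q * q') :
    ∃ (κ : Type) (_ : Fintype κ) (_ : DecidableEq κ) (a b : κ → O), (∀ k, a k ∈ q) ∧
      (∀ k, b k ∈ q') ∧ ∑ k, a k * b k = x := by
  refine Submodule.mul_induction_on hx ?_ ?_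
  · intro m hm n hn
    exact ⟨Unit, inferInstance, inferInstance, fun _ => m, fun _ => n, fun _ => hm, fun _ => hn,
      by simp⟩
  · rintro x y ⟨κ, i1, i2, a, b, ha, hb, h⟩ ⟨κ', i1', i2', a', b', ha', hb', h'⟩
    refine ⟨κ ⊕ κ', inferInstance, inferInstance, Sum.elim a a', Sum.elim b b', ?_, ?_, ?_⟩
    · rintro (k | k)
      · exact ha k
      · exact ha' k
    · rintro (k | k)
      · exact hb k
      · exact hb' k
    · rw [Fintype.sum_sum_type]
      simp only [Sum.elim_inl, Sum.elim_inr]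
      rw [h, h']

theorem c1_cst {O : Type u} [CommRing O] (x : O) : c1 O (cst O x) = cst O x := by
  rw [c1, cst_apply, AddMonoidAlgebra.mapDomainRingHom_apply, AddMonoidAlgebra.mapDomain_single]
  rfl

theorem ideal_cls {O : Type u} [CommRing O] [IsDomain O] (q q' : Ideal O) (δ : O) (hδ : δ ≠ 0)
    (hq : q * q' = Ideal.span {δ}) :
    ∃ z : K0 (Lau O), IsC (Ideal.map (cst O) q) z ∧ K0.map (c1 O) z = z := by
  obtain ⟨κ, i1, i2, a, b, ha, hb, hab⟩ := mem_mul_sum q q' δ
    (by rw [hq]; exact Ideal.mem_span_singleton_self δ)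
  have h1 : ∀ k l, ∃ x, b k * a l = δ * x := by
    intro k l
    have h2 : a l * b k ∈ Ideal.span {δ} := by
      rw [← hq]
      exact Ideal.mul_mem_mul (ha l) (hb k)
    obtain ⟨x, hx⟩ := Ideal.mem_span_singleton'.1 h2
    exact ⟨x, by rw [mul_comm, ← hx, mul_comm]⟩
  choose e he using h1
  have hδ' : cst O δ ≠ 0 := by
    intro h
    rw [cst_apply, AddMonoidAlgebra.single_eq_zero] at h
    exact hδ h
  have he2 : (Matrix.of e) * (Matrix.of e) = Matrix.of e := by
    ext k l
    rw [Matrix.mul_apply]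
    apply mul_left_cancel₀ (mul_ne_zero hδ hδ)
    rw [Finset.mul_sum]
    have h2 : ∀ m, δ * δ * ((Matrix.of e) k m * (Matrix.of e) m l) =
        b k * a l * (a m * b m) := by
      intro m
      show δ * δ * (e k m * e m l) = _
      rw [show δ * δ * (e k m * e m l) = (δ * e k m) * (δ * e m l) by ring, ← he, ← he]
      ring
    rw [Finset.sum_congr rfl fun m _ => h2 m, ← Finset.mul_sum, hab]
    show b k * a l * δ = δ * δ * e k l
    rw [he]
    ring
  have hE : (Matrix.of e).map (cst O) * (Matrix.of e).map (cst O) = (Matrix.of e).map (cst O) := by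
    rw [← Matrix.map_mul, he2]
  have hdiv : ∀ (k : κ) (v : Ideal.map (cst O) q), ∃ x, cst O (b k) * (v : Lau O) =
      cst O δ * x := by
    intro k v
    have h2 : cst O (b k) * (v : Lau O) ∈ Ideal.map (cst O) (Ideal.span {δ}) := by
      rw [← hq, mul_comm q q', Ideal.map_mul]
      exact Ideal.mul_mem_mul (Ideal.mem_map_of_mem _ (hb k)) v.2
    rw [Ideal.map_span, Set.image_singleton] at h2
    obtain ⟨x, hx⟩ := Ideal.mem_span_singleton'.1 h2
    exact ⟨x, by rw [← hx, mul_comm]⟩
  choose u hu using hdiv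
  let i : Ideal.map (cst O) q →ₗ[Lau O] (κ → Lau O) :=
    { toFun := fun v k => u k v
      map_add' := fun v w => by
        funext k
        apply mul_left_cancel₀ hδ'
        show cst O δ * u k (v + w) = cst O δ * (u k v + u k w)
        rw [← hu, mul_add, ← hu, ← hu, ← mul_add]
        rfl
      map_smul' := fun c v => by
        funext k
        apply mul_left_cancel₀ hδ'
        show cst O δ * u k (c • v) = cst O δ * (c * u k v)
        rw [← hu, mul_left_comm, ← hu, mul_left_comm]
        rfl }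
  let r : (κ → Lau O) →ₗ[Lau O] Ideal.map (cst O) q :=
    { toFun := fun w => ⟨∑ k, cst O (a k) * w k, Ideal.sum_mem _ fun k _ =>
        Ideal.mul_mem_right _ _ (Ideal.mem_map_of_mem _ (ha k))⟩
      map_add' := fun v w => by
        apply Subtype.ext
        show ∑ k, cst O (a k) * (v k + w k) =
          ∑ k, cst O (a k) * v k + ∑ k, cst O (a k) * w k
        rw [← Finset.sum_add_distrib]
        exact Finset.sum_congr rfl fun k _ => mul_add _ _ _
      map_smul' := fun c v => by
        apply Subtype.ext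
        show ∑ k, cst O (a k) * (c * v k) = c * ∑ k, cst O (a k) * v k
        rw [Finset.mul_sum]
        exact Finset.sum_congr rfl fun k _ => mul_left_comm _ _ _ }
  refine ⟨K0.clsF ((Matrix.of e).map (cst O)) hE, IsC.of_index _ hE i r ?_ ?_, ?_⟩
  · apply LinearMap.ext
    intro v
    apply Subtype.ext
    apply mul_left_cancel₀ hδ'
    show cst O δ * ∑ k, cst O (a k) * u k v = cst O δ * v
    rw [Finset.mul_sum, ← hab, map_sum, Finset.sum_mul]
    refine Finset.sum_congr rfl fun k _ => ?_
    rw [mul_left_comm, ← map_sum, hab, ← hu, map_mul]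
    ring
  · apply LinearMap.ext
    intro w
    funext k
    apply mul_left_cancel₀ hδ'
    show cst O δ * u k ⟨∑ l, cst O (a l) * w l, _⟩ =
      cst O δ * ∑ l, cst O (e k l) * w l
    rw [← hu, Finset.mul_sum, Finset.mul_sum]
    refine Finset.sum_congr rfl fun l _ => ?_
    rw [← mul_assoc, ← mul_assoc, ← map_mul, ← map_mul, he]
  · rw [K0.map_clsF]
    apply K0.clsF_congr
    ext1 k l
    exact c1_cst _

/-! ### the filtration -/

theorem map_one_fix (O : Type u) [CommRing O] : K0.map (c1 O) (K0.one (Lau O)) = K0.one (Lau O) := by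
  rw [K0.one, K0.map_cls]
  congr 1
  exact Matrix.map_one _ (map_zero _) (map_one _)

theorem filt {O : Type u} [CommRing O] [IsDedekindDomain O]
    (hPID : ∀ (K : Type u) [Field K], IsPrincipalIdealRing (Lau K))
    {V : Type w} [AddCommGroup V] [Module (Lau O) V]
    (htf : ∀ (a : Lau O) (v : V), a • v = 0 → a = 0 ∨ v = 0) (𝔞 : Ideal O) : 𝔞 ≠ 0 →
    ∀ (P P₁ : Submodule (Lau O) V), P₁ ≤ P → (∀ a ∈ 𝔞, ∀ v ∈ P, cst O a • v ∈ P₁) →
      ∀ y y₁ : K0 (Lau O), IsC P y → IsC P₁ y₁ → K0.map (c1 O) (y - y₁) = y - y₁ := by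
  induction 𝔞 using UniqueFactorizationMonoid.induction_on_prime with
  | h₁ => intro h; exact absurd rfl h
  | h₂ x hx =>
    intro _ P P₁ hle h y y₁ hy hy₁
    have hx1 : x = ⊤ := Ideal.isUnit_iff.1 hx
    have h1 : P = P₁ := by
      apply le_antisymm _ hle
      intro v hv
      have h2 := h 1 (by rw [hx1]; trivial) v hv
      rwa [map_one, one_smul] at h2
    subst h1
    rw [hy.unique hy₁ (LinearEquiv.refl _ _), sub_self, map_zero]
  | h₃ 𝔟 q h𝔟 hq ih =>
    intro h0 P P₁ hle h y y₁ hy hy₁
    have hqp : q.IsPrime := (Ideal.prime_iff_isPrime hq.ne_zero).1 hq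
    have hqm : q.IsMaximal := hqp.isMaximal hq.ne_zero
    let _ : Field (O ⧸ q) := Ideal.Quotient.field q
    have hp1 := map_prime q
    have hp2 := map_pid q (hPID (O ⧸ q))
    obtain ⟨δ, hδq, hδ⟩ := Submodule.exists_mem_ne_zero_of_ne_bot hq.ne_zero
    obtain ⟨q', hq'⟩ := Ideal.dvd_iff_le.2 ((Ideal.span_singleton_le_iff_mem q).2 hδq)
    have hδV : ∀ v : V, cst O δ • v = 0 → v = 0 := by
      intro v hv
      rcases htf _ _ hv with h1 | h1
      · rw [cst_apply, AddMonoidAlgebra.single_eq_zero] at h1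
        exact absurd h1 hδ
      · exact h1
    obtain ⟨z, hz, hzf⟩ := ideal_cls q q' δ hδ hq'.symm
    let P' : Submodule (Lau O) V :=
      { carrier := {v | v ∈ P ∧ ∀ b ∈ 𝔟, cst O b • v ∈ P₁}
        zero_mem' := ⟨P.zero_mem, fun b _ => by rw [smul_zero]; exact P₁.zero_mem⟩
        add_mem' := fun {v w} hv hw => ⟨P.add_mem hv.1 hw.1, fun b hb => by
          rw [smul_add]; exact P₁.add_mem (hv.2 b hb) (hw.2 b hb)⟩
        smul_mem' := fun c v hv => ⟨P.smul_mem c hv.1, fun b hb => by
          rw [smul_smul, mul_comm, ← smul_smul]; exact P₁.smul_mem c (hv.2 b hb)⟩ }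
    have hP'P : P' ≤ P := fun v hv => hv.1
    have hP₁P' : P₁ ≤ P' := fun v hv => ⟨hle hv, fun b _ => P₁.smul_mem _ hv⟩
    have hqP : ∀ a ∈ Ideal.map (cst O) q, ∀ v ∈ P, a • v ∈ P' := by
      intro a ha v hv
      have h1 : ∀ x ∈ q, cst O x • v ∈ P' := by
        intro x hx
        refine ⟨P.smul_mem _ hv, fun b hb => ?_⟩
        rw [smul_smul, ← map_mul, mul_comm b x]
        exact h _ (Ideal.mul_mem_mul hx hb) v hv
      refine Submodule.span_induction (p := fun a _ => a • v ∈ P') ?_ ?_ ?_ ?_ ha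
      · rintro _ ⟨x, hx, rfl⟩
        exact h1 x hx
      · rw [zero_smul]; exact P'.zero_mem
      · intro x y _ _ hx hy
        rw [add_smul]; exact P'.add_mem hx hy
      · intro c x _ hx
        rw [smul_eq_mul, ← smul_smul]; exact P'.smul_mem c hx
    have htors : ∀ c ∉ Ideal.map (cst O) q, ∀ v ∈ P, c • v ∈ P' → v ∈ P' := by
      intro c hc v hv hcv
      refine ⟨hv, fun b hb => ?_⟩
      refine torsion_free (cst O) P₁ hy₁ q q' δ hq'.symm hδV hp1 (cst O b • v) ?_ c hc ?_
      · intro x hx
        rw [smul_smul, ← map_mul]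
        exact h _ (Ideal.mul_mem_mul hx hb) v hv
      · rw [smul_smul, mul_comm, ← smul_smul]
        exact hcv.2 b hb
    obtain ⟨y', s, hy', hs⟩ := step P P' hP'P (Ideal.map (cst O) q) hqP htors hy hz
    have h1 := ih h𝔟 P' P₁ hP₁P' (fun b hb v hv => hv.2 b hb) y' y₁ hy' hy₁
    have h2 : y - y₁ = (y' - y₁) + s • (K0.one (Lau O) - z) := by
      rw [smul_sub]
      have h3 : y = y' + s • K0.one (Lau O) - s • z := by rw [← hs, add_sub_cancel_right]
      rw [h3]
      abel
    rw [h2, map_add, h1, map_nsmul, map_sub, map_one_fix, hzf]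

end DEDMod

end Pool.Agent.Lib.MPb6f35e.ZK
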