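import Pool.Agent.Lib.MP_b6f35e_al.ZK.Spec

/-!
# ZK, module DL: the logarithmic derivative on `K_1(A[t, t⁻¹])`
-/

set_option autoImplicit false

noncomputable section

namespace Pool.Agent.Lib.MPb6f35e.ZK

open Pool.Agent.Lib.MPb6f35e.WH (FinSub conjHom K1)

universe u v w

namespace DLMod

section Basic

variable {A : Type u} [Ring A]

lemma del_single (j : ℤ) (a : A) :
    del A (AddMonoidAlgebra.single j a) = AddMonoidAlgebra.single j (j • a) := by
  show Finsupp.liftAddHom (fun j : ℤ =>
    (AddMonoidAlgebra.singleAddHom j).comp (zsmulAddGroupHom (α := A) j))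
    (Finsupp.single j a) = _
  rw [Finsupp.liftAddHom_apply_single]
  rfl

lemma t0_single {V : Type v} [AddCommGroup V] (τ : A →+ V) (j : ℤ) (a : A) :
    t0 τ (AddMonoidAlgebra.single j a) = if j = 0 then τ a else 0 := by
  show τ ((Finsupp.single j a : ℤ →₀ A) 0) = _
  rw [Finsupp.single_apply]
  split
  · rfl
  · exact map_zero τ

lemma del_mul (x y : Lau A) : del A (x * y) = del A x * y + x * del A y := by
  induction x using AddMonoidAlgebra.induction_linear with
  | zero => simp
  | add a b ha hb => simp only [add_mul, map_add, ha, hb]; abel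
  | single i a =>
    induction y using AddMonoidAlgebra.induction_linear with
    | zero => simp
    | add c d hc hd => simp only [mul_add, map_add, hc, hd]; abel
    | single j b =>
      rw [AddMonoidAlgebra.single_mul_single, del_single, del_single, del_single,
        AddMonoidAlgebra.single_mul_single, AddMonoidAlgebra.single_mul_single,
        ← AddMonoidAlgebra.single_add]
      congr 1
      rw [add_smul, smul_mul_assoc, mul_smul_comm]

lemma del_one : del A (1 : Lau A) = 0 := by
  rw [AddMonoidAlgebra.one_def, del_single]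
  simp

variable {V : Type v} [AddCommGroup V] (τ : A →+ V)

lemma t0_comm (hτ : ∀ a b, τ (a * b) = τ (b * a)) (x y : Lau A) :
    t0 τ (x * y) = t0 τ (y * x) := by
  induction x using AddMonoidAlgebra.induction_linear with
  | zero => simp
  | add a b ha hb => simp only [add_mul, mul_add, map_add, ha, hb]
  | single i a =>
    induction y using AddMonoidAlgebra.induction_linear with
    | zero => simp
    | add c d hc hd => simp only [add_mul, mul_add, map_add, hc, hd]
    | single j b =>
      rw [AddMonoidAlgebra.single_mul_single, AddMonoidAlgebra.single_mul_single, t0_single,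
        t0_single, add_comm i j, hτ]

lemma t0_del (x : Lau A) : t0 τ (del A x) = 0 := by
  induction x using AddMonoidAlgebra.induction_linear with
  | zero => simp
  | add a b ha hb => simp only [map_add, ha, hb, add_zero]
  | single i a =>
    rw [del_single, t0_single]
    split_ifs with h
    · rw [h, zero_smul, map_zero]
    · rfl

/-- The trace on matrices. -/
lemma t0_trace_comm (hτ : ∀ a b, τ (a * b) = τ (b * a)) {ι κ : Type*} [Fintype ι] [Fintype κ]
    (x : Matrix ι κ (Lau A)) (y : Matrix κ ι (Lau A)) :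
    t0 τ (x * y).trace = t0 τ (y * x).trace := by
  simp only [Matrix.trace, Matrix.diag_apply, Matrix.mul_apply, map_sum]
  rw [Finset.sum_comm]
  apply Finset.sum_congr rfl
  intro i _
  apply Finset.sum_congr rfl
  intro j _
  exact t0_comm τ hτ _ _

lemma map_del_mul {ι κ μ : Type*} [Fintype κ] (x : Matrix ι κ (Lau A))
    (y : Matrix κ μ (Lau A)) :
    (x * y).map (del A) = x.map (del A) * y + x * y.map (del A) := by
  ext1 i j
  simp only [Matrix.map_apply, Matrix.mul_apply, Matrix.add_apply, map_sum, del_mul,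
    Finset.sum_add_distrib]

lemma map_del_one {ι : Type*} [DecidableEq ι] :
    (1 : Matrix ι ι (Lau A)).map (del A) = 0 := by
  ext1 i j
  rw [Matrix.map_apply, Matrix.one_apply]
  split
  · rw [del_one]; rfl
  · rw [map_zero]; rfl

/-- The logarithmic derivative. -/
def dl {ι : Type w} [Fintype ι] [DecidableEq ι] (x : (Matrix ι ι (Lau A))ˣ) : V :=
  t0 τ ((x⁻¹).val * x.val.map (del A)).trace

lemma dl_mul (hτ : ∀ a b, τ (a * b) = τ (b * a)) {ι : Type w} [Fintype ι] [DecidableEq ι]
    (x y : (Matrix ι ι (Lau A))ˣ) : dl τ (x * y) = dl τ x + dl τ y := by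
  unfold dl
  rw [mul_inv_rev, Units.val_mul, Units.val_mul, map_del_mul, Matrix.mul_add, Matrix.trace_add,
    map_add]
  congr 1
  · rw [Matrix.mul_assoc, ← Matrix.mul_assoc (x⁻¹).val, t0_trace_comm τ hτ, Matrix.mul_assoc,
      ← Units.val_mul, mul_inv_cancel, Units.val_one, Matrix.mul_one]
  · rw [Matrix.mul_assoc, ← Matrix.mul_assoc (x⁻¹).val, ← Units.val_mul x⁻¹, inv_mul_cancel,
      Units.val_one, Matrix.one_mul]

lemma dl_reindex {ι : Type w} {κ : Type*} [Fintype ι] [DecidableEq ι] [Fintype κ]
    [DecidableEq κ] (e : ι ≃ κ) (x : (Matrix ι ι (Lau A))ˣ) :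
    dl τ (Units.map (Matrix.reindexRingEquiv (Lau A) e).toMonoidHom x) = dl τ x := by
  unfold dl
  rw [← map_inv]
  show t0 τ (Matrix.reindex e e (x⁻¹).val * (Matrix.reindex e e x.val).map (del A)).trace = _
  have h : Matrix.reindex e e (x⁻¹).val * (Matrix.reindex e e x.val).map (del A) =
      Matrix.reindex e e ((x⁻¹).val * x.val.map (del A)) := by
    rw [Matrix.reindex_apply, Matrix.reindex_apply, Matrix.reindex_apply,
      ← Matrix.submatrix_mul_equiv (x⁻¹).val (x.val.map (del A)) e.symm e.symm e.symm]
    rfl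
  rw [h]
  congr 1
  show ∑ i : κ, ((x⁻¹).val * x.val.map (del A)) (e.symm i) (e.symm i) =
    ∑ i : ι, ((x⁻¹).val * x.val.map (del A)) i i
  exact Equiv.sum_comp e.symm (fun i => ((x⁻¹).val * x.val.map (del A)) i i)

lemma dl_block {ι : Type w} {κ : Type*} [Fintype ι] [DecidableEq ι] [Fintype κ]
    [DecidableEq κ] (x : (Matrix ι ι (Lau A))ˣ) (y : (Matrix κ κ (Lau A))ˣ)
    (b : Matrix ι κ (Lau A)) (z : (Matrix (ι ⊕ κ) (ι ⊕ κ) (Lau A))ˣ)
    (h : z.val = Matrix.fromBlocks x.val b 0 y.val) : dl τ z = dl τ x + dl τ y := by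
  have hz : (z⁻¹).val = Matrix.fromBlocks (x⁻¹).val (-((x⁻¹).val * b * (y⁻¹).val)) 0
      (y⁻¹).val := by
    have h1 : Matrix.fromBlocks (x⁻¹).val (-((x⁻¹).val * b * (y⁻¹).val)) 0 (y⁻¹).val * z.val =
        1 := by
      rw [h, Matrix.fromBlocks_multiply]
      simp only [Matrix.zero_mul, Matrix.mul_zero, add_zero, zero_add, Units.inv_mul,
        Matrix.neg_mul, Matrix.mul_assoc, Matrix.mul_one, add_neg_cancel]
      exact Matrix.fromBlocks_one
    calc (z⁻¹).val = 1 * (z⁻¹).val := (one_mul _).symm
      _ = _ := by rw [← h1, Matrix.mul_assoc, Units.mul_inv, Matrix.mul_one]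
  unfold dl
  have h2 : z.val.map (del A) = Matrix.fromBlocks (x.val.map (del A)) (b.map (del A)) 0
      (y.val.map (del A)) := by
    rw [h, Matrix.fromBlocks_map]
    congr 1
  rw [hz, h2, Matrix.fromBlocks_multiply]
  simp only [Matrix.zero_mul, Matrix.mul_zero, add_zero, zero_add]
  rw [← map_add]
  congr 1
  simp only [Matrix.trace, Fintype.sum_sum_type, Matrix.diag_apply, Matrix.fromBlocks_apply₁₁,
    Matrix.fromBlocks_apply₂₂]

end Basic

end DLMod

open DLMod

theorem specDL : SpecDL.{u, v} where
  ex := by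
    intro A _ V _ τ hτ
    refine ⟨K1.lift (fun n x => dl τ x) ?_, ?_⟩
    · rintro x (⟨n, a, b⟩ | ⟨m, n, a, b, z, y, h⟩)
      · simp only [map_sub, FreeAbelianGroup.lift_apply_of]
        rw [dl_mul τ hτ]
        abel
      · simp only [map_sub, FreeAbelianGroup.lift_apply_of]
        rw [← dl_reindex τ finSumFinEquiv.symm z, dl_block τ a b y
          (Units.map (Matrix.reindexRingEquiv (Lau A) finSumFinEquiv.symm).toMonoidHom z) ?_]
        · abel
        · show Matrix.reindex finSumFinEquiv.symm finSumFinEquiv.symm z.val = _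
          rw [h]
          ext i j
          simp
    · intro n x
      rw [K1.lift_cls]
      rfl
  bt := by
    intro A _ V _ τ hτ s hs f hf
    rw [K1.unit, hs]
    rw [Matrix.trace_fin_one, Matrix.mul_apply, Fin.sum_univ_one]
    show t0 τ ((AddMonoidAlgebra.single (-1) f + AddMonoidAlgebra.single 0 (1 - f)) *
      del A (AddMonoidAlgebra.single 1 f + AddMonoidAlgebra.single 0 (1 - f))) = τ f
    rw [map_add, del_single, del_single, zero_smul, one_smul, AddMonoidAlgebra.single_zero,
      add_zero, add_mul, AddMonoidAlgebra.single_mul_single, AddMonoidAlgebra.single_mul_single,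
      map_add, t0_single, t0_single, hf, if_pos (by norm_num), if_neg (by norm_num), add_zero]

end Pool.Agent.Lib.MPb6f35e.ZK
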