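import Pool.Agent.Lib.MP_b6f35e_al.ZK.KA
import Pool.Agent.Lib.MP_b6f35e_al.ZK.DL

/-!
# ZK, module DET: detection of torsion in `K_{-1}(ℤ[G])` by logarithmic derivatives
-/

set_option autoImplicit false

noncomputable section

namespace Pool.Agent.Lib.MPb6f35e.ZK

open Pool.Agent.Lib.MPb6f35e.WH (FinSub conjHom K1)
open DLMod

universe u v w

namespace DETMod

/-! ### every element of `K_1` is a class -/

lemma K1_cls_one {A : Type u} [Ring A] (n : ℕ) :
    K1.cls (1 : (Matrix (Fin n) (Fin n) A)ˣ) = 0 := by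
  have h := WH.K1.cls_mul (1 : (Matrix (Fin n) (Fin n) A)ˣ) 1
  rw [mul_one] at h
  exact left_eq_add.1 h

lemma K1_exists {A : Type u} [Ring A] (y : K1 A) :
    ∃ (n : ℕ) (U : (Matrix (Fin n) (Fin n) A)ˣ), y = K1.cls U := by
  obtain ⟨y, rfl⟩ := QuotientAddGroup.mk_surjective y
  induction y using FreeAbelianGroup.induction_on with
  | zero => exact ⟨0, 1, (K1_cls_one 0).symm⟩
  | of x => exact ⟨x.1, x.2, rfl⟩
  | neg x =>
    refine ⟨x.1, x.2⁻¹, ?_⟩
    have h := WH.K1.cls_mul x.2 x.2⁻¹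
    rw [mul_inv_cancel, K1_cls_one] at h
    have h2 : (QuotientAddGroup.mk (-FreeAbelianGroup.of x) : K1 A) = -K1.cls x.2 := rfl
    exact h2.trans (neg_eq_of_add_eq_zero_right h.symm)
  | add x y hx hy =>
    obtain ⟨n, U, hU⟩ := hx
    obtain ⟨n', U', hU'⟩ := hy
    have h2 : (QuotientAddGroup.mk (x + y) : K1 A) =
      QuotientAddGroup.mk x + QuotientAddGroup.mk y := rfl
    let z : (Matrix (Fin n ⊕ Fin n') (Fin n ⊕ Fin n') A)ˣ :=
      ⟨Matrix.fromBlocks U.val 0 0 U'.val, Matrix.fromBlocks (U⁻¹).val 0 0 (U'⁻¹).val,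
        by rw [Matrix.fromBlocks_multiply, ← Matrix.fromBlocks_one]; simp,
        by rw [Matrix.fromBlocks_multiply, ← Matrix.fromBlocks_one]; simp⟩
    refine ⟨n + n', Units.map (Matrix.reindexRingEquiv A finSumFinEquiv).toMonoidHom z, ?_⟩
    refine h2.trans ((congrArg₂ (fun a b : K1 A => a + b) hU hU').trans ?_)
    rw [WH.K1.cls_block U U' _ 0 rfl]

/-! ### invariants of frames -/

section Frames

variable {A : Type u} [Ring A] {V : Type v} [AddCommGroup V] (τ : A →+ V)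

/-- `τ_0(tr(c' δ(c)))` -/
def D {ι κ : Type*} [Fintype ι] [Fintype κ] (c' : Matrix κ ι (Lau A)) (c : Matrix ι κ (Lau A)) :
    V := t0 τ (c' * c.map (del A)).trace

lemma D_mul (hτ : ∀ a b, τ (a * b) = τ (b * a)) {P I J : Type*} [Fintype P] [Fintype I]
    [Fintype J] (a : Matrix I P (Lau A)) (b : Matrix P I (Lau A)) (α : Matrix I J (Lau A))
    (β : Matrix J I (Lau A)) :
    D τ (β * a) (b * α) = t0 τ (α * β * (a * b.map (del A))).trace + D τ (β * (a * b)) α := by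
  unfold D
  rw [map_del_mul, Matrix.mul_add, Matrix.trace_add, map_add]
  congr 1
  · rw [← Matrix.mul_assoc, t0_trace_comm τ hτ]
    simp only [Matrix.mul_assoc]
  · simp only [Matrix.mul_assoc]

lemma D_block {P Q I J : Type*} [Fintype P] [Fintype Q] [Fintype I] [Fintype J]
    (a : Matrix P I (Lau A)) (b : Matrix I P (Lau A)) (x : Matrix Q J (Lau A))
    (y : Matrix J Q (Lau A)) :
    D τ (Matrix.fromBlocks b 0 0 y) (Matrix.fromBlocks a 0 0 x) = D τ b a + D τ y x := by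
  unfold D
  rw [Matrix.fromBlocks_map, Matrix.fromBlocks_multiply, ← map_add]
  congr 1
  simp only [Matrix.trace, Fintype.sum_sum_type, Matrix.diag_apply, Matrix.fromBlocks_apply₁₁,
    Matrix.fromBlocks_apply₂₂, Matrix.zero_mul, add_zero, zero_add]

lemma D_one {P : Type*} [Fintype P] [DecidableEq P] :
    D τ (1 : Matrix P P (Lau A)) (1 : Matrix P P (Lau A)) = 0 := by
  unfold D
  rw [map_del_one, Matrix.mul_zero, Matrix.trace_zero, map_zero]

lemma D_cocycle (hτ : ∀ a b, τ (a * b) = τ (b * a)) {P I : Type*} [Fintype P] [Fintype I]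
    [DecidableEq I] (a₁ : Matrix P I (Lau A)) (b₁ : Matrix I P (Lau A))
    (a₂ : Matrix P I (Lau A)) (b₂ : Matrix I P (Lau A)) (h : a₁ * b₁ = a₂ * b₂)
    (h₁ : b₁ * a₁ = 1) (h₂ : b₂ * a₂ = 1) :
    D τ (b₂ * a₁) (b₁ * a₂) = D τ b₂ a₂ - D τ b₁ a₁ := by
  rw [D_mul τ hτ]
  have e1 : a₂ * b₂ * (a₁ * b₁.map (del A)) = a₁ * b₁.map (del A) := by
    rw [← h, ← Matrix.mul_assoc, Matrix.mul_assoc a₁ b₁ a₁, h₁, Matrix.mul_one]
  have e2 : b₂ * (a₁ * b₁) = b₂ := by
    rw [h, ← Matrix.mul_assoc, h₂, Matrix.one_mul]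
  rw [e1, e2]
  have e3 : t0 τ (a₁ * b₁.map (del A)).trace = - D τ b₁ a₁ := by
    have h4 := map_del_mul b₁ a₁
    rw [h₁, map_del_one] at h4
    have h5 : t0 τ (b₁.map (del A) * a₁ + b₁ * a₁.map (del A)).trace = 0 := by
      rw [← h4, Matrix.trace_zero, map_zero]
    rw [Matrix.trace_add, map_add, t0_trace_comm τ hτ] at h5
    exact eq_neg_of_add_eq_zero_left h5
  rw [e3]
  abel

/-- `a ⊕ 1 ⊕ Q` -/
def bg (K : Type*) [DecidableEq K] {P I J : Type*} (a : Matrix P I (Lau A))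
    (Q : Matrix J J (Lau A)) : Matrix ((P ⊕ K) ⊕ J) ((I ⊕ K) ⊕ J) (Lau A) :=
  Matrix.fromBlocks (Matrix.fromBlocks a 0 0 1) 0 0 Q

lemma bg_mul (K : Type*) [Fintype K] [DecidableEq K] {P I P' J : Type*} [Fintype I] [Fintype J]
    (a : Matrix P I (Lau A)) (b : Matrix I P' (Lau A)) (Q Q' : Matrix J J (Lau A)) :
    bg K a Q * bg K b Q' = bg K (a * b) (Q * Q') := by
  unfold bg
  rw [Matrix.fromBlocks_multiply, Matrix.fromBlocks_multiply]
  simp

lemma D_bg (K : Type*) [Fintype K] [DecidableEq K] {P I J : Type*} [Fintype P] [Fintype I]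
    [Fintype J] (a : Matrix P I (Lau A)) (b : Matrix I P (Lau A)) (Q Q' : Matrix J J (Lau A)) :
    D τ (bg K b Q) (bg K a Q') = D τ b a + D τ Q Q' := by
  unfold bg
  rw [D_block, D_block, D_one, add_zero]

/-- The key identity. -/
lemma D_key (hτ : ∀ a b, τ (a * b) = τ (b * a)) (K : Type*) {P I J N : Type*} [Fintype P]
    [Fintype I] [DecidableEq I] [Fintype K] [DecidableEq K] [Fintype J] [Fintype N]
    (e : Matrix P P (Lau A))
    (a₁ : Matrix P I (Lau A)) (b₁ : Matrix I P (Lau A))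
    (a₂ : Matrix P I (Lau A)) (b₂ : Matrix I P (Lau A)) (h₁ : a₁ * b₁ = e) (h₂ : a₂ * b₂ = e)
    (g₁ : b₁ * a₁ = 1) (g₂ : b₂ * a₂ = 1) (Q : Matrix J J (Lau A)) (hQ : Q * Q = Q)
    (a : Matrix ((P ⊕ K) ⊕ J) N (Lau A)) (b : Matrix N ((P ⊕ K) ⊕ J) (Lau A))
    (hab : a * b = bg K e Q) :
    D τ (bg K b₂ Q * a) (b * bg K a₂ Q) - D τ (bg K b₁ Q * a) (b * bg K a₁ Q) =
    D τ (b₂ * a₁) (b₁ * a₂) := by
  rw [D_cocycle τ hτ a₁ b₁ a₂ b₂ (h₁.trans h₂.symm) g₁ g₂]
  have key : ∀ (a' : Matrix P I (Lau A)) (b' : Matrix I P (Lau A)) (_ : a' * b' = e)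
      (_ : b' * a' = 1),
      D τ (bg K b' Q * a) (b * bg K a' Q) =
      t0 τ (a * b * (a * b.map (del A))).trace + (D τ b' a' + D τ Q Q) := by
    intro a' b' h' g'
    rw [D_mul τ hτ]
    have e1 : bg K a' Q * bg K b' Q = a * b := by
      rw [hab, bg_mul, h', hQ]
    have e2 : bg K b' Q * (a * b) = bg K b' Q := by
      rw [hab, bg_mul, hQ, ← h', ← Matrix.mul_assoc, g', Matrix.one_mul]
    rw [e1, e2, D_bg]
  rw [key a₂ b₂ h₂ g₂, key a₁ b₁ h₁ g₁]
  abel

end Frames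

/-! ### TOE for any index types -/

lemma trace_submatrix_equiv {R : Type*} [AddCommMonoid R] {I J : Type*} [Fintype I] [Fintype J]
    (σ : J ≃ I) (M : Matrix I I R) : (M.submatrix σ σ).trace = M.trace :=
  Equiv.sum_comp σ (fun i => M i i)

lemma toe' (hT : SpecTOE.{u, v}) {A : Type u} [Ring A] {V : Type v} [AddCommGroup V] (τ : A →+ V)
    (hτ : ∀ a b, τ (a * b) = τ (b * a)) {P M : Type*} [Fintype P] [DecidableEq P] [Fintype M]
    [DecidableEq M] (r₁ r₂ : ℕ) (q₁ : Matrix (Fin r₁) (Fin r₁) (Pol A))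
    (q₂ : Matrix (Fin r₂) (Fin r₂) (Pol A)) (h₁ : q₁ * q₁ = q₁) (h₂ : q₂ * q₂ = q₂)
    (c : Matrix P (M ⊕ (Fin r₁ ⊕ Fin r₂)) (Lau A))
    (c' : Matrix (M ⊕ (Fin r₁ ⊕ Fin r₂)) P (Lau A)) (h : c * c' = 1)
    (h' : c' * c = Matrix.fromBlocks 1 0 0
      (Matrix.fromBlocks (q₁.map (posHom A)) 0 0 (q₂.map (negHom A)))) :
    ∃ (N s : ℕ) (E : Matrix (Fin N) (Fin N) A), E * E = E ∧
      τ E.trace = s • τ 1 - D τ c' c := by
  let eP := Fintype.equivFin P
  let eM := Fintype.equivFin M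
  let eI : M ⊕ (Fin r₁ ⊕ Fin r₂) ≃ Fin (Fintype.card M) ⊕ (Fin r₁ ⊕ Fin r₂) :=
    Equiv.sumCongr eM (Equiv.refl _)
  obtain ⟨N, s, E, hE, hs⟩ := hT A V τ hτ (Fintype.card P) (Fintype.card M) r₁ r₂ q₁ q₂ h₁ h₂
    (c.submatrix eP.symm eI.symm) (c'.submatrix eI.symm eP.symm)
    (by rw [Matrix.submatrix_mul_equiv, h, Matrix.submatrix_one_equiv])
    (by
      rw [Matrix.submatrix_mul_equiv, h']
      ext1 i j
      rcases i with i | i <;> rcases j with j | j
      · show (1 : Matrix M M (Lau A)) (eM.symm i) (eM.symm j) = (1 : Matrix _ _ (Lau A)) i j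
        rw [Matrix.one_apply, Matrix.one_apply]
        simp only [EmbeddingLike.apply_eq_iff_eq]
      · rfl
      · rfl
      · rfl)
  refine ⟨N, s, E, hE, ?_⟩
  rw [hs]
  congr 2
  have h3 : (c'.submatrix eI.symm eP.symm) * (c.submatrix eP.symm eI.symm).map (del A) =
      (c' * c.map (del A)).submatrix eI.symm eI.symm := by
    rw [← Matrix.submatrix_mul_equiv c' (c.map (del A)) eI.symm eP.symm eI.symm]
    rfl
  rw [h3, trace_submatrix_equiv]

/-! ### from `[e] - n ∈ extSub` to an explicit equivalence -/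

lemma frame_exists {A : Type u} [Ring A] (r n : ℕ) (e : Matrix (Fin r) (Fin r) (Lau A))
    (he : e * e = e) (h : K0.cls e he - n • K0.one (Lau A) ∈ extSub A) :
    ∃ (r₁ r₂ : ℕ) (q₁ : Matrix (Fin r₁) (Fin r₁) (Pol A))
      (q₂ : Matrix (Fin r₂) (Fin r₂) (Pol A)) (K N : Type) (_ : Fintype K) (_ : DecidableEq K)
      (_ : Fintype N) (_ : DecidableEq N)
      (a : Matrix ((Fin r ⊕ K) ⊕ (Fin r₁ ⊕ Fin r₂)) N (Lau A))
      (b : Matrix N ((Fin r ⊕ K) ⊕ (Fin r₁ ⊕ Fin r₂)) (Lau A)),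
      q₁ * q₁ = q₁ ∧ q₂ * q₂ = q₂ ∧ b * a = 1 ∧
      a * b = Matrix.fromBlocks (Matrix.fromBlocks e 0 0 1) 0 0
        (Matrix.fromBlocks (q₁.map (posHom A)) 0 0 (q₂.map (negHom A))) := by
  obtain ⟨y, ⟨u, rfl⟩, z, ⟨v, rfl⟩, hyz⟩ := AddSubgroup.mem_sup.1 h
  obtain ⟨r₁, e₁, he₁, k₁, rfl⟩ := K0.exists_rep u
  obtain ⟨r₂, e₂, he₂, k₂, rfl⟩ := K0.exists_rep v
  have hq₁ := compl_idem he₁
  have hq₂ := compl_idem he₂
  set q₁ := 1 - e₁ with hq1
  set q₂ := 1 - e₂ with hq2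
  have c₁ := congrArg (K0.map (posHom A)) (K0.clsF_compl he₁)
  have c₂ := congrArg (K0.map (negHom A)) (K0.clsF_compl he₂)
  rw [map_add, K0.clsF_one' (Pol A)] at c₁ c₂
  have one1 : K0.map (posHom A) (K0.one (Pol A)) = K0.one (Lau A) := by
    rw [K0.one, K0.map_cls]
    congr 1
    exact Matrix.map_one _ (map_zero _) (map_one _)
  have one2 : K0.map (negHom A) (K0.one (Pol A)) = K0.one (Lau A) := by
    rw [K0.one, K0.map_cls]
    congr 1
    exact Matrix.map_one _ (map_zero _) (map_one _)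
  rw [map_nsmul, one1] at c₁
  rw [map_nsmul, one2] at c₂
  have Q₁ := map_idem (posHom A) hq₁
  have Q₂ := map_idem (negHom A) hq₂
  have hone : ∀ (K : Type) [Fintype K] [DecidableEq K],
    (1 : Matrix K K (Lau A)) * 1 = 1 := fun K _ _ => Matrix.one_mul _
  have hE₀ := blocks_idem (blocks_idem he (hone (Fin k₁ ⊕ Fin k₂))) (blocks_idem Q₁ Q₂)
  have hcl : K0.clsF _ hE₀ =
      K0.clsF (1 : Matrix (Fin n ⊕ (Fin r₁ ⊕ Fin r₂)) (Fin n ⊕ (Fin r₁ ⊕ Fin r₂)) (Lau A))
        (hone _) := by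
    rw [K0.clsF_sum (blocks_idem he (hone _)) (blocks_idem Q₁ Q₂), K0.clsF_sum he (hone _),
      K0.clsF_sum Q₁ Q₂, K0.clsF_one', K0.clsF_one', K0.clsF_fin he, ← K0.map_clsF (posHom A) hq₁,
      ← K0.map_clsF (negHom A) hq₂]
    rw [map_sub, map_sub, ← K0.clsF_fin, ← K0.clsF_fin, ← K0.clsF_fin, ← K0.clsF_fin,
      K0.clsF_one', K0.clsF_one', map_nsmul, map_nsmul, one1, one2] at hyz
    have e3 := eq_sub_of_add_eq' c₁
    have e4 := eq_sub_of_add_eq' c₂
    rw [e3, e4]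
    have e5 := eq_add_of_sub_eq hyz.symm
    rw [e5]
    simp only [Fintype.card_sum, Fintype.card_fin, add_smul]
    abel
  obtain ⟨k₃, hk⟩ := K0.exactF hE₀ (hone _) hcl
  rw [Matrix.fromBlocks_one] at hk
  have hQ := blocks_idem Q₁ Q₂
  have hK := hone (Fin k₁ ⊕ Fin k₂)
  have h3 := hone (Fin k₃)
  have hX := blocks_idem he hK
  have s1 := Eqv.assoc hX hQ h3
  have s2 : Eqv _ _ := Eqv.sum (Eqv.refl hX) (Eqv.comm hQ h3)
  have s3 := (Eqv.assoc hX h3 hQ).symm
  have s4 : Eqv _ _ := Eqv.sum (Eqv.assoc he hK h3) (Eqv.refl hQ)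
  rw [Matrix.fromBlocks_one] at s4
  have hXQ3 := blocks_idem (blocks_idem hX hQ) h3
  have hX_3Q := blocks_idem hX (blocks_idem h3 hQ)
  have hX3_Q := blocks_idem (blocks_idem hX h3) hQ
  have t1 := Eqv.trans hXQ3 hX_3Q s1 s2
  have t2 := Eqv.trans hXQ3 hX3_Q t1 s3
  have hfin := blocks_idem (blocks_idem he (hone ((Fin k₁ ⊕ Fin k₂) ⊕ Fin k₃))) hQ
  have t3 := Eqv.trans hXQ3 hfin t2 s4
  obtain ⟨a, b, hab, hba⟩ := Eqv.trans hfin (hone _) t3.symm hk
  exact ⟨r₁, r₂, q₁, q₂, (Fin k₁ ⊕ Fin k₂) ⊕ Fin k₃, (Fin n ⊕ (Fin r₁ ⊕ Fin r₂)) ⊕ Fin k₃,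
    inferInstance, inferInstance, inferInstance, inferInstance, a, b, hq₁, hq₂, hba, hab⟩

/-! ### naturality in the coefficients -/

section Nat

variable {k k' : Type w} [CommRing k] [CommRing k'] (F : k →+* k') (G : Type u) [Group G]

open Classical in
lemma rk_single {G : Type u} [Group G] (x : G) (g : G) (r : k) :
    rk k x (MonoidAlgebra.single g r) = if IsConj x g then r else 0 := by
  show Finsupp.liftAddHom (fun g : G => if IsConj x g then AddMonoidHom.id k else 0)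
    (Finsupp.single g r) = _
  rw [Finsupp.liftAddHom_apply_single]
  split_ifs <;> rfl

lemma rk_map (x : G) (a : MonoidAlgebra k G) :
    rk k' x (MonoidAlgebra.mapRingHom G F a) = F (rk k x a) := by
  classical
  induction a using MonoidAlgebra.induction_linear with
  | zero => simp
  | add a b ha hb => simp only [map_add, ha, hb]
  | single g r =>
    rw [MonoidAlgebra.mapRingHom_single, rk_single, rk_single]
    split_ifs
    · rfl
    · exact (map_zero F).symm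

lemma t0_map (x : G) (z : Lau (MonoidAlgebra k G)) :
    t0 (rk k' x) (cMap G F z) = F (t0 (rk k x) z) := by
  induction z using AddMonoidAlgebra.induction_linear with
  | zero => simp
  | add a b ha hb => simp only [map_add, ha, hb]
  | single j a =>
    have h : cMap G F (AddMonoidAlgebra.single j a) =
        AddMonoidAlgebra.single j (MonoidAlgebra.mapRingHom G F a) :=
      AddMonoidAlgebra.mapRingHom_single _ _ _
    rw [h, t0_single, t0_single, rk_map]
    split_ifs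
    · rfl
    · exact (map_zero F).symm

lemma del_map (z : Lau (MonoidAlgebra k G)) :
    del (MonoidAlgebra k' G) (cMap G F z) = cMap G F (del (MonoidAlgebra k G) z) := by
  induction z using AddMonoidAlgebra.induction_linear with
  | zero => simp
  | add a b ha hb => simp only [map_add, ha, hb]
  | single j a =>
    have h : ∀ a, cMap G F (AddMonoidAlgebra.single j a) =
        AddMonoidAlgebra.single j (MonoidAlgebra.mapRingHom G F a) :=
      fun a => AddMonoidAlgebra.mapRingHom_single _ _ _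
    rw [h, del_single, del_single, h, map_zsmul]

lemma D_map (x : G) {ι κ : Type*} [Fintype ι] [Fintype κ]
    (c' : Matrix κ ι (Lau (MonoidAlgebra k G))) (c : Matrix ι κ (Lau (MonoidAlgebra k G))) :
    D (rk k' x) (c'.map (cMap G F)) (c.map (cMap G F)) = F (D (rk k x) c' c) := by
  unfold D
  have h1 : (c.map (cMap G F)).map (del (MonoidAlgebra k' G)) =
      (c.map (del (MonoidAlgebra k G))).map (cMap G F) := by
    ext1 i j
    exact del_map F G _
  rw [h1, ← Matrix.map_mul, ← t0_map]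
  congr 1
  simp only [Matrix.trace, Matrix.diag_apply, Matrix.map_apply, map_sum]

lemma map_bg {A : Type u} {B : Type v} [Ring A] [Ring B] (F : Lau A →+* Lau B) (K : Type*)
    [DecidableEq K] {P I J : Type*} (a : Matrix P I (Lau A)) (Q : Matrix J J (Lau A)) :
    (bg K a Q).map F = bg K (a.map F) (Q.map F) := by
  unfold bg
  rw [Matrix.fromBlocks_map, Matrix.fromBlocks_map, Matrix.map_one _ (map_zero F) (map_one F)]
  simp only [Matrix.map_zero _ (map_zero F)]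

end Nat

section CC

variable {A : Type u} [Ring A]

lemma cc_one (K : Type*) {P I J N : Type*} [Fintype P]
    [Fintype I] [DecidableEq I] [Fintype K] [DecidableEq K] [Fintype J] [Fintype N] [DecidableEq N]
    {e : Matrix P P (Lau A)} {a₁ : Matrix P I (Lau A)} {b₁ : Matrix I P (Lau A)}
    (h₁ : a₁ * b₁ = e) {Q : Matrix J J (Lau A)} (hQ : Q * Q = Q)
    {a : Matrix ((P ⊕ K) ⊕ J) N (Lau A)} {b : Matrix N ((P ⊕ K) ⊕ J) (Lau A)}
    (hab : a * b = bg K e Q) (hba : b * a = 1) :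
    (b * bg K a₁ Q) * (bg K b₁ Q * a) = 1 := by
  have h : (b * bg K a₁ Q) * (bg K b₁ Q * a) = b * (bg K a₁ Q * bg K b₁ Q) * a := by
    simp only [Matrix.mul_assoc]
  rw [h, bg_mul, h₁, hQ, ← hab, ← Matrix.mul_assoc, Matrix.mul_assoc (b * a), hba,
    Matrix.one_mul]

lemma cc_idem (K : Type*) {P I J N : Type*} [Fintype P]
    [Fintype I] [DecidableEq I] [Fintype K] [DecidableEq K] [Fintype J] [Fintype N] [DecidableEq N]
    {e : Matrix P P (Lau A)} {a₁ : Matrix P I (Lau A)} {b₁ : Matrix I P (Lau A)}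
    (h₁ : a₁ * b₁ = e) (g₁ : b₁ * a₁ = 1) {Q : Matrix J J (Lau A)} (hQ : Q * Q = Q)
    {a : Matrix ((P ⊕ K) ⊕ J) N (Lau A)} {b : Matrix N ((P ⊕ K) ⊕ J) (Lau A)}
    (hab : a * b = bg K e Q) :
    (bg K b₁ Q * a) * (b * bg K a₁ Q) = bg K 1 Q := by
  have h : (bg K b₁ Q * a) * (b * bg K a₁ Q) = bg K b₁ Q * (a * b) * bg K a₁ Q := by
    simp only [Matrix.mul_assoc]
  rw [h, hab, bg_mul, bg_mul, hQ, hQ, ← h₁, ← Matrix.mul_assoc, g₁, Matrix.one_mul, g₁]

end CC

end DETMod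

open DETMod

theorem specDET (hT : SpecTOE.{u, 0}) (hR : SpecRNK.{u, 0}) (hM : SpecMIL.{u})
    (hP : SpecPAD.{u}) : SpecDET.{u} := by
  intro S G _ d hd y hy x hx s hs
  by_cases hx1 : x = 1
  · subst hx1
    refine ⟨0, fun p hp => ?_⟩
    rw [orderOf_one] at hp
    exact absurd (Nat.dvd_one.1 hp) p.1.2.ne_one
  obtain ⟨m, hm, hm0⟩ := isOfFinAddOrder_iff_nsmul_eq_zero.1 hy
  have h1 : Km1.mk (MonoidAlgebra ℤ G) (d (m • y)) = 0 := by rw [map_nsmul, map_nsmul, hm0]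
  have h2 : d (m • y) ∈ extSub (MonoidAlgebra ℤ G) := (QuotientAddGroup.eq_zero_iff _).1 h1
  obtain ⟨n, U, hU⟩ := K1_exists (m • y)
  obtain ⟨r, e, he, hGl⟩ := hM.ex _ _ _ _ (padSq S G) (hP S G) n U
  rw [hU, hd r n e he U hGl] at h2
  obtain ⟨a₁, b₁, a₂, b₂, g1, g2, g3, g4, g5⟩ := hGl
  obtain ⟨r₁, r₂, q₁, q₂, K, N, _, _, _, _, a, b, hq₁, hq₂, hba, hab⟩ :=
    frame_exists r n e he h2
  have hQ := blocks_idem (map_idem (posHom _) hq₁) (map_idem (negHom _) hq₂)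
  set Q := Matrix.fromBlocks (q₁.map (posHom (MonoidAlgebra ℤ G))) 0 0
    (q₂.map (negHom (MonoidAlgebra ℤ G))) with hQdef
  change a * b = bg K e Q at hab
  have comm : ∀ {p q : Type} (M : Matrix p q (Lau (MonoidAlgebra ℤ G))),
      (M.map (padSq S G).i₁).map (padSq S G).j₁ = (M.map (padSq S G).i₂).map (padSq S G).j₂ := by
    intro p q M
    ext1 i j
    exact (hP S G).comm _
  have hone : ∀ {B : Type u} [Ring B] {p : Type} [DecidableEq p]
      (F : Lau (MonoidAlgebra ℤ G) →+* Lau B),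
      (1 : Matrix p p (Lau (MonoidAlgebra ℤ G))).map F = 1 := by
    intro B _ p _ F
    exact Matrix.map_one _ (map_zero F) (map_one F)
  have habF : ∀ {B : Type u} [Ring B] (F : Lau (MonoidAlgebra ℤ G) →+* Lau B),
      a.map F * b.map F = bg K (e.map F) (Q.map F) := by
    intro B _ F
    rw [← Matrix.map_mul, hab, map_bg]
  have hbaF : ∀ {B : Type u} [Ring B] (F : Lau (MonoidAlgebra ℤ G) →+* Lau B),
      b.map F * a.map F = 1 := by
    intro B _ F
    rw [← Matrix.map_mul, hba, hone]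
  have hQF : ∀ {B : Type u} [Ring B] (F : Lau (MonoidAlgebra ℤ G) →+* Lau B),
      Q.map F * Q.map F = Q.map F := fun F => map_idem F hQ
  -- the operator over the p-adic integers
  have hc1 := cc_one K (I := Fin n) g3 (hQF (padSq S G).i₂) (habF _) (hbaF _)
  have hc2 := cc_idem K g3 g4 (hQF (padSq S G).i₂) (habF _)
  have hq : ∀ {r : ℕ} {q : Matrix (Fin r) (Fin r) (Pol (MonoidAlgebra ℤ G))} (_ : q * q = q)
      (F : Pol (MonoidAlgebra ℤ G) →+* Pol (MonoidAlgebra (Zp S) G)),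
      q.map F * q.map F = q.map F := fun h F => map_idem F h
  have hQ2 : bg K (1 : Matrix (Fin n) (Fin n) (Lau (MonoidAlgebra (Zp S) G)))
      (Q.map (padSq S G).i₂) = Matrix.fromBlocks 1 0 0 (Matrix.fromBlocks
        ((q₁.map (polMap (MonoidAlgebra.mapRingHom G (Int.castRingHom (Zp S))))).map (posHom _)) 0 0
        ((q₂.map (polMap (MonoidAlgebra.mapRingHom G (Int.castRingHom (Zp S))))).map
          (negHom _))) := by
    have e1 : (q₁.map (posHom _)).map (padSq S G).i₂ =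
        (q₁.map (polMap (MonoidAlgebra.mapRingHom G (Int.castRingHom (Zp S))))).map (posHom _) := by
      ext1 i j
      exact RingHom.congr_fun (lauMap_pos (MonoidAlgebra.mapRingHom G (Int.castRingHom (Zp S)))) _
    have e2 : (q₂.map (negHom _)).map (padSq S G).i₂ =
        (q₂.map (polMap (MonoidAlgebra.mapRingHom G (Int.castRingHom (Zp S))))).map (negHom _) := by
      ext1 i j
      exact RingHom.congr_fun (lauMap_neg (MonoidAlgebra.mapRingHom G (Int.castRingHom (Zp S)))) _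
    rw [hQdef, bg, Matrix.fromBlocks_map, e1, e2, Matrix.fromBlocks_one]
    simp only [Matrix.map_zero _ (map_zero (padSq S G).i₂)]
  rw [hQ2] at hc2
  have hτ := fun (k : Type) [CommRing k] => hR.trace k G x
  obtain ⟨N₂, s₂, E, hE, hEt⟩ := toe' hT (rk (Zp S) x) (hτ (Zp S)) r₁ r₂ _ _
    (hq hq₁ _) (hq hq₂ _) _ _ hc1 hc2
  have hrk1 : rk (Zp S) x (1 : MonoidAlgebra (Zp S) G) = 0 := by
    classical
    rw [MonoidAlgebra.one_def, rk_single, if_neg]
    intro h
    exact hx1 (isConj_one_left.1 h)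
  rw [hrk1, smul_zero, zero_sub] at hEt
  have hD2 : ∀ p : S, ((p : Nat.Primes) : ℕ) ∣ orderOf x →
      D (rk (Zp S) x) (bg K b₂ (Q.map (padSq S G).i₂) * a.map (padSq S G).i₂)
        (b.map (padSq S G).i₂ * bg K a₂ (Q.map (padSq S G).i₂)) p = 0 := by
    intro p hp
    have h3 := hR.van ((p : Nat.Primes) : ℕ) G x hx hp N₂
      (E.map (MonoidAlgebra.mapRingHom G (Pi.evalRingHom _ p))) (by rw [← Matrix.map_mul, hE])
    have h4 : (E.map (MonoidAlgebra.mapRingHom G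
        (Pi.evalRingHom (fun p : S => ℤ_[((p : Nat.Primes) : ℕ)]) p))).trace =
        MonoidAlgebra.mapRingHom G (Pi.evalRingHom _ p) E.trace := by
      simp only [Matrix.trace, Matrix.diag_apply, Matrix.map_apply, map_sum]
    rw [h4, rk_map, hEt] at h3
    have h5 : -(D (rk (Zp S) x) (bg K b₂ (Q.map (padSq S G).i₂) * a.map (padSq S G).i₂)
        (b.map (padSq S G).i₂ * bg K a₂ (Q.map (padSq S G).i₂)) p) = 0 := h3
    exact neg_eq_zero.1 h5
  -- the comparison over the p-adic numbers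
  have hkey := D_key (rk (Qp S) x) (hτ (Qp S)) K ((e.map (padSq S G).i₁).map (padSq S G).j₁)
    (a₁.map (padSq S G).j₁) (b₁.map (padSq S G).j₁) (a₂.map (padSq S G).j₂)
    (b₂.map (padSq S G).j₂) (by rw [← Matrix.map_mul, g1])
    (by rw [← Matrix.map_mul, g3, comm])
    (by rw [← Matrix.map_mul, g2]; exact Matrix.map_one _ (map_zero _) (map_one _))
    (by rw [← Matrix.map_mul, g4]; exact Matrix.map_one _ (map_zero _) (map_one _))
    ((Q.map (padSq S G).i₁).map (padSq S G).j₁) (by rw [← Matrix.map_mul, hQF])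
    ((a.map (padSq S G).i₁).map (padSq S G).j₁) ((b.map (padSq S G).i₁).map (padSq S G).j₁)
    (by rw [← Matrix.map_mul, habF, map_bg])
  have hfirst : D (rk (Qp S) x)
      (bg K (b₂.map (padSq S G).j₂) ((Q.map (padSq S G).i₁).map (padSq S G).j₁) *
        (a.map (padSq S G).i₁).map (padSq S G).j₁)
      ((b.map (padSq S G).i₁).map (padSq S G).j₁ *
        bg K (a₂.map (padSq S G).j₂) ((Q.map (padSq S G).i₁).map (padSq S G).j₁)) =
      zpQp S (D (rk (Zp S) x) (bg K b₂ (Q.map (padSq S G).i₂) * a.map (padSq S G).i₂)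
        (b.map (padSq S G).i₂ * bg K a₂ (Q.map (padSq S G).i₂))) := by
    rw [← D_map]
    have e1 := comm a
    have e2 := comm b
    have e3 := comm Q
    rw [e1, e2, e3, ← map_bg, ← map_bg, ← Matrix.map_mul, ← Matrix.map_mul]
    rfl
  have hsecond : D (rk (Qp S) x)
      (bg K (b₁.map (padSq S G).j₁) ((Q.map (padSq S G).i₁).map (padSq S G).j₁) *
        (a.map (padSq S G).i₁).map (padSq S G).j₁)
      ((b.map (padSq S G).i₁).map (padSq S G).j₁ *
        bg K (a₁.map (padSq S G).j₁) ((Q.map (padSq S G).i₁).map (padSq S G).j₁)) =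
      zsQp S (D (rk (Zs S) x) (bg K b₁ (Q.map (padSq S G).i₁) * a.map (padSq S G).i₁)
        (b.map (padSq S G).i₁ * bg K a₁ (Q.map (padSq S G).i₁))) := by
    rw [← D_map, ← map_bg, ← map_bg, ← Matrix.map_mul, ← Matrix.map_mul]
    rfl
  have hinv : ((U⁻¹ : (Matrix (Fin n) (Fin n) (Lau (MonoidAlgebra (Qp S) G)))ˣ) :
      Matrix (Fin n) (Fin n) (Lau (MonoidAlgebra (Qp S) G))) =
      b₂.map (padSq S G).j₂ * a₁.map (padSq S G).j₁ := by
    apply Units.inv_eq_of_mul_eq_one_right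
    have hb : b₁.map (padSq S G).j₁ * a₁.map (padSq S G).j₁ = 1 := by
      rw [← Matrix.map_mul, g2]
      exact Matrix.map_one _ (map_zero _) (map_one _)
    rw [← g5, Matrix.mul_assoc, ← Matrix.mul_assoc (a₂.map (padSq S G).j₂), ← Matrix.map_mul, g3,
      ← comm, ← g1, Matrix.map_mul, Matrix.mul_assoc (a₁.map (padSq S G).j₁), hb,
      Matrix.mul_one, hb]
  have hsU : s (m • y) = zpQp S (D (rk (Zp S) x) (bg K b₂ (Q.map (padSq S G).i₂) *
      a.map (padSq S G).i₂) (b.map (padSq S G).i₂ * bg K a₂ (Q.map (padSq S G).i₂))) -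
      zsQp S (D (rk (Zs S) x) (bg K b₁ (Q.map (padSq S G).i₁) * a.map (padSq S G).i₁)
        (b.map (padSq S G).i₁ * bg K a₁ (Q.map (padSq S G).i₁))) := by
    rw [← hfirst, ← hsecond, hkey, hU, hs n U, hinv, ← g5]
    rfl
  set q₀ := D (rk (Zs S) x) (bg K b₁ (Q.map (padSq S G).i₁) * a.map (padSq S G).i₁)
        (b.map (padSq S G).i₁ * bg K a₁ (Q.map (padSq S G).i₁)) with hq₀
  refine ⟨-(q₀ : ℚ) / m, fun p hp => ?_⟩
  have h6 := congrFun hsU p
  rw [map_nsmul] at h6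
  have h7 : (m : ℚ_[((p : Nat.Primes) : ℕ)]) * s y p =
      algebraMap ℤ_[((p : Nat.Primes) : ℕ)] ℚ_[((p : Nat.Primes) : ℕ)]
        (D (rk (Zp S) x) (bg K b₂ (Q.map (padSq S G).i₂) * a.map (padSq S G).i₂)
          (b.map (padSq S G).i₂ * bg K a₂ (Q.map (padSq S G).i₂)) p) -
      ((q₀ : ℚ) : ℚ_[((p : Nat.Primes) : ℕ)]) := by
    rw [← nsmul_eq_mul]
    exact h6
  rw [hD2 p hp, map_zero, zero_sub] at h7
  have hm' : (m : ℚ_[((p : Nat.Primes) : ℕ)]) ≠ 0 := Nat.cast_ne_zero.2 hm.ne'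
  rw [eq_comm]
  push_cast
  rw [div_eq_iff hm', ← h7, mul_comm]

end Pool.Agent.Lib.MPb6f35e.ZK
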