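import Pool.Agent.Lib.MP_b6f35e_al.WH.Defs

/-!
# K_0, K_{-1}, the colimit over finite subgroups  (MP_b6f35e_al, ZK)

Definitions used by the hand-in on `K_{-1}(ℤ[G])`.
-/

set_option autoImplicit false

noncomputable section

namespace Pool.Agent.Lib.MPb6f35e.ZK

open Pool.Agent.Lib.MPb6f35e.WH (FinSub conjHom)

universe u v w

/-! ### `K_0` of a ring -/

/-- Generators of `K_0(A)`: an idempotent `n × n` matrix over `A`, `n ≥ 0`. -/
abbrev K0Gen (A : Type u) [Ring A] : Type u :=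
  Σ n : ℕ, {e : Matrix (Fin n) (Fin n) A // e * e = e}

/-- Relations of `K_0(A)`: `[ab] = [ba]` if `a b`, `b a` are idempotent, and
`[e ⊕ f] = [e] + [f]` for the block diagonal matrix. -/
inductive K0Rel (A : Type u) [Ring A] : FreeAbelianGroup (K0Gen A) → Prop
  | iso (m n : ℕ) (e : {e : Matrix (Fin m) (Fin m) A // e * e = e})
      (f : {e : Matrix (Fin n) (Fin n) A // e * e = e})
      (a : Matrix (Fin m) (Fin n) A) (b : Matrix (Fin n) (Fin m) A)
      (h1 : a * b = e.1) (h2 : b * a = f.1) :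
      K0Rel A (FreeAbelianGroup.of ⟨m, e⟩ - FreeAbelianGroup.of ⟨n, f⟩)
  | sum (m n : ℕ) (e : {e : Matrix (Fin m) (Fin m) A // e * e = e})
      (f : {e : Matrix (Fin n) (Fin n) A // e * e = e})
      (g : {e : Matrix (Fin (m + n)) (Fin (m + n)) A // e * e = e})
      (h : g.1 = Matrix.reindex finSumFinEquiv finSumFinEquiv
        (Matrix.fromBlocks e.1 0 0 f.1)) :
      K0Rel A (FreeAbelianGroup.of ⟨m + n, g⟩ - FreeAbelianGroup.of ⟨m, e⟩
        - FreeAbelianGroup.of ⟨n, f⟩)

/-- The group `K_0(A)`: Grothendieck group of the idempotent matrices (= of the finitely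
generated projective modules), by generators and relations. -/
def K0 (A : Type u) [Ring A] : Type u :=
  FreeAbelianGroup (K0Gen A) ⧸ AddSubgroup.closure {x | K0Rel A x}

instance (A : Type u) [Ring A] : AddCommGroup (K0 A) :=
  QuotientAddGroup.Quotient.addCommGroup (AddSubgroup.closure {x | K0Rel A x})

/-- The class in `K_0(A)` of an idempotent matrix. -/
def K0.cls {A : Type u} [Ring A] {n : ℕ} (e : Matrix (Fin n) (Fin n) A) (h : e * e = e) : K0 A :=
  QuotientAddGroup.mk (FreeAbelianGroup.of ⟨n, ⟨e, h⟩⟩)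

/-- Universal property. -/
def K0.lift {A : Type u} [Ring A] {H : Type v} [AddCommGroup H]
    (f : ∀ (n : ℕ) (e : Matrix (Fin n) (Fin n) A), e * e = e → H)
    (h : ∀ x, K0Rel A x →
      FreeAbelianGroup.lift (fun g : K0Gen A => f g.1 g.2.1 g.2.2) x = 0) :
    K0 A →+ H :=
  QuotientAddGroup.lift (AddSubgroup.closure {x | K0Rel A x})
    (FreeAbelianGroup.lift (fun g : K0Gen A => f g.1 g.2.1 g.2.2))
    (by
      intro x hx
      have : AddSubgroup.closure {x | K0Rel A x} ≤
          (FreeAbelianGroup.lift (fun g : K0Gen A => f g.1 g.2.1 g.2.2)).ker := by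
        rw [AddSubgroup.closure_le]
        intro y hy
        exact h y hy
      exact this hx)

@[simp] lemma K0.lift_cls {A : Type u} [Ring A] {H : Type v} [AddCommGroup H]
    (f : ∀ (n : ℕ) (e : Matrix (Fin n) (Fin n) A), e * e = e → H)
    (h : ∀ x, K0Rel A x →
      FreeAbelianGroup.lift (fun g : K0Gen A => f g.1 g.2.1 g.2.2) x = 0)
    {n : ℕ} (e : Matrix (Fin n) (Fin n) A) (he : e * e = e) :
    K0.lift f h (K0.cls e he) = f n e he := by
  show FreeAbelianGroup.lift _ (FreeAbelianGroup.of _) = _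
  simp

lemma K0.cls_iso {A : Type u} [Ring A] {m n : ℕ} {e : Matrix (Fin m) (Fin m) A}
    {f : Matrix (Fin n) (Fin n) A} (he : e * e = e) (hf : f * f = f)
    (a : Matrix (Fin m) (Fin n) A) (b : Matrix (Fin n) (Fin m) A)
    (h1 : a * b = e) (h2 : b * a = f) : K0.cls e he = K0.cls f hf := by
  have h : (QuotientAddGroup.mk (FreeAbelianGroup.of (⟨m, ⟨e, he⟩⟩ : K0Gen A)
      - FreeAbelianGroup.of ⟨n, ⟨f, hf⟩⟩) : K0 A) = 0 :=
    (QuotientAddGroup.eq_zero_iff _).2
      (AddSubgroup.subset_closure (K0Rel.iso m n ⟨e, he⟩ ⟨f, hf⟩ a b h1 h2))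
  have h2 : K0.cls e he - K0.cls f hf = 0 := h
  exact sub_eq_zero.1 h2

lemma K0.cls_sum {A : Type u} [Ring A] {m n : ℕ} {e : Matrix (Fin m) (Fin m) A}
    {f : Matrix (Fin n) (Fin n) A} {g : Matrix (Fin (m + n)) (Fin (m + n)) A}
    (he : e * e = e) (hf : f * f = f) (hg : g * g = g)
    (h : g = Matrix.reindex finSumFinEquiv finSumFinEquiv (Matrix.fromBlocks e 0 0 f)) :
    K0.cls g hg = K0.cls e he + K0.cls f hf := by
  have h : (QuotientAddGroup.mk (FreeAbelianGroup.of (⟨m + n, ⟨g, hg⟩⟩ : K0Gen A)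
      - FreeAbelianGroup.of ⟨m, ⟨e, he⟩⟩ - FreeAbelianGroup.of ⟨n, ⟨f, hf⟩⟩) : K0 A) = 0 :=
    (QuotientAddGroup.eq_zero_iff _).2
      (AddSubgroup.subset_closure (K0Rel.sum m n ⟨e, he⟩ ⟨f, hf⟩ ⟨g, hg⟩ h))
  have h2 : K0.cls g hg - K0.cls e he - K0.cls f hf = 0 := h
  rw [sub_sub, sub_eq_zero] at h2
  exact h2

/-- Two homomorphisms on `K_0(A)` are equal if they agree on classes. -/
lemma K0.ext {A : Type u} [Ring A] {H : Type v} [AddCommGroup H] {f g : K0 A →+ H}
    (h : ∀ (n : ℕ) (e : Matrix (Fin n) (Fin n) A) (he : e * e = e),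
      f (K0.cls e he) = g (K0.cls e he)) : f = g := by
  apply QuotientAddGroup.addMonoidHom_ext
  ext ⟨n, e, he⟩
  exact h n e he

lemma map_idem {A : Type u} {B : Type v} [Ring A] [Ring B] (f : A →+* B) {ι : Type w} [Fintype ι]
    {e : Matrix ι ι A} (h : e * e = e) : e.map f * e.map f = e.map f := by
  rw [← Matrix.map_mul, h]

/-- The image of an idempotent matrix. -/
def K0Gen.map {A : Type u} {B : Type v} [Ring A] [Ring B] (f : A →+* B) (g : K0Gen A) : K0Gen B :=
  ⟨g.1, g.2.1.map f, map_idem f g.2.2⟩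

lemma K0.map_aux {A : Type u} {B : Type v} [Ring A] [Ring B] (f : A →+* B) :
    AddSubgroup.closure {x | K0Rel A x} ≤
      (AddSubgroup.closure {x | K0Rel B x}).comap (FreeAbelianGroup.map (K0Gen.map f)) := by
  rw [AddSubgroup.closure_le]
  rintro x (⟨m, n, e, g, a, b, h1, h2⟩ | ⟨m, n, e, g, z, h⟩)
  · show FreeAbelianGroup.map (K0Gen.map f) _ ∈ AddSubgroup.closure {x | K0Rel B x}
    rw [map_sub, FreeAbelianGroup.map_of_apply, FreeAbelianGroup.map_of_apply]
    exact AddSubgroup.subset_closure (K0Rel.iso m n ⟨e.1.map f, map_idem f e.2⟩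
      ⟨g.1.map f, map_idem f g.2⟩ (a.map f) (b.map f) (by rw [← Matrix.map_mul, h1])
      (by rw [← Matrix.map_mul, h2]))
  · show FreeAbelianGroup.map (K0Gen.map f) _ ∈ AddSubgroup.closure {x | K0Rel B x}
    rw [map_sub, map_sub, FreeAbelianGroup.map_of_apply, FreeAbelianGroup.map_of_apply,
      FreeAbelianGroup.map_of_apply]
    refine AddSubgroup.subset_closure (K0Rel.sum m n ⟨e.1.map f, map_idem f e.2⟩
      ⟨g.1.map f, map_idem f g.2⟩ ⟨z.1.map f, map_idem f z.2⟩ ?_)
    show z.1.map f = Matrix.reindex finSumFinEquiv finSumFinEquiv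
      (Matrix.fromBlocks (e.1.map f) 0 0 (g.1.map f))
    rw [h]
    ext i j
    simp only [Matrix.map_apply, Matrix.reindex_apply, Matrix.submatrix_apply]
    rcases finSumFinEquiv.symm i with a | a <;> rcases finSumFinEquiv.symm j with b | b <;>
      simp [Matrix.fromBlocks]

/-- Functoriality of `K_0`. -/
def K0.map {A : Type u} {B : Type v} [Ring A] [Ring B] (f : A →+* B) : K0 A →+ K0 B :=
  QuotientAddGroup.map _ _ (FreeAbelianGroup.map (K0Gen.map f)) (K0.map_aux f)

@[simp] lemma K0.map_cls {A : Type u} {B : Type v} [Ring A] [Ring B] (f : A →+* B) {n : ℕ}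
    (e : Matrix (Fin n) (Fin n) A) (h : e * e = e) :
    K0.map f (K0.cls e h) = K0.cls (e.map f) (map_idem f h) := by
  show QuotientAddGroup.map _ _ (FreeAbelianGroup.map (K0Gen.map f)) (K0.map_aux f)
    (QuotientAddGroup.mk (FreeAbelianGroup.of ⟨n, ⟨e, h⟩⟩)) = _
  rw [QuotientAddGroup.map_mk, FreeAbelianGroup.map_of_apply]
  rfl

lemma K0.map_comp {A B C : Type u} [Ring A] [Ring B] [Ring C] (f : A →+* B) (g : B →+* C)
    (x : K0 A) : K0.map g (K0.map f x) = K0.map (g.comp f) x := by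
  have : (K0.map g).comp (K0.map f) = K0.map (g.comp f) := by
    apply K0.ext
    intro n e he
    rw [AddMonoidHom.comp_apply, K0.map_cls, K0.map_cls, K0.map_cls]
    congr 1
  exact congrArg (fun F => F x) this

/-! ### `K_{-1}` of a ring -/

/-- `A[t, t⁻¹]` (`t` central) -/
abbrev Lau (A : Type u) [Ring A] : Type u := AddMonoidAlgebra A ℤ

/-- `A[t]` -/
abbrev Pol (A : Type u) [Ring A] : Type u := AddMonoidAlgebra A ℕ

/-- `A[t] → A[t, t⁻¹]`, `t ↦ t` -/
def posHom (A : Type u) [Ring A] : Pol A →+* Lau A :=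
  AddMonoidAlgebra.mapDomainRingHom A (Nat.castAddMonoidHom ℤ)

/-- `A[t] → A[t, t⁻¹]`, `t ↦ t⁻¹` -/
def negHom (A : Type u) [Ring A] : Pol A →+* Lau A :=
  AddMonoidAlgebra.mapDomainRingHom A (-(Nat.castAddMonoidHom ℤ))

/-- `f : A → B` on Laurent polynomials -/
def lauMap {A : Type u} {B : Type v} [Ring A] [Ring B] (f : A →+* B) : Lau A →+* Lau B :=
  AddMonoidAlgebra.mapRingHom ℤ f

/-- `f : A → B` on polynomials -/
def polMap {A : Type u} {B : Type v} [Ring A] [Ring B] (f : A →+* B) : Pol A →+* Pol B :=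
  AddMonoidAlgebra.mapRingHom ℕ f

lemma lauMap_pos {A : Type u} {B : Type v} [Ring A] [Ring B] (f : A →+* B) :
    (lauMap f).comp (posHom A) = (posHom B).comp (polMap f) :=
  AddMonoidAlgebra.mapRingHom_comp_mapDomainRingHom f _

lemma lauMap_neg {A : Type u} {B : Type v} [Ring A] [Ring B] (f : A →+* B) :
    (lauMap f).comp (negHom A) = (negHom B).comp (polMap f) :=
  AddMonoidAlgebra.mapRingHom_comp_mapDomainRingHom f _

/-- The subgroup of `K_0(A[t, t⁻¹])` generated by the images of `K_0(A[t])` and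
`K_0(A[t⁻¹])`. -/
def extSub (A : Type u) [Ring A] : AddSubgroup (K0 (Lau A)) :=
  (K0.map (posHom A)).range ⊔ (K0.map (negHom A)).range

/-- `K_{-1}(A)` (Bass): the cokernel of `K_0(A[t]) ⊕ K_0(A[t⁻¹]) → K_0(A[t, t⁻¹])`. -/
def Km1 (A : Type u) [Ring A] : Type u := K0 (Lau A) ⧸ extSub A

instance (A : Type u) [Ring A] : AddCommGroup (Km1 A) :=
  QuotientAddGroup.Quotient.addCommGroup (extSub A)

/-- The quotient map. -/
def Km1.mk (A : Type u) [Ring A] : K0 (Lau A) →+ Km1 A := QuotientAddGroup.mk' (extSub A)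

lemma map_extSub {A : Type u} {B : Type u} [Ring A] [Ring B] (f : A →+* B) (x : K0 (Lau A))
    (hx : x ∈ extSub A) : K0.map (lauMap f) x ∈ extSub B := by
  obtain ⟨y, ⟨y', rfl⟩, z, ⟨z', rfl⟩, rfl⟩ := AddSubgroup.mem_sup.1 hx
  rw [map_add]
  refine AddSubgroup.add_mem _ ?_ ?_
  · refine AddSubgroup.mem_sup_left ⟨K0.map (polMap f) y', ?_⟩
    rw [K0.map_comp, K0.map_comp, lauMap_pos]
  · refine AddSubgroup.mem_sup_right ⟨K0.map (polMap f) z', ?_⟩
    rw [K0.map_comp, K0.map_comp, lauMap_neg]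

/-- Functoriality of `K_{-1}`. -/
def Km1.map {A : Type u} {B : Type u} [Ring A] [Ring B] (f : A →+* B) : Km1 A →+ Km1 B :=
  QuotientAddGroup.map (extSub A) (extSub B) (K0.map (lauMap f)) (map_extSub f)

@[simp] lemma Km1.map_mk {A : Type u} {B : Type u} [Ring A] [Ring B] (f : A →+* B)
    (x : K0 (Lau A)) : Km1.map f (Km1.mk A x) = Km1.mk B (K0.map (lauMap f) x) := rfl

lemma Km1.mk_surjective (A : Type u) [Ring A] : Function.Surjective (Km1.mk A) :=
  QuotientAddGroup.mk'_surjective _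

/-! ### the colimit over the finite subgroups -/

/-- `K_{-1}(ℤ[H])`, `H` a finite subgroup of `G`. -/
def KF (G : Type u) [Group G] (H : FinSub G) : Type u := Km1 (MonoidAlgebra ℤ H.1)

instance (G : Type u) [Group G] (H : FinSub G) : AddCommGroup (KF G H) :=
  instAddCommGroupKm1 (MonoidAlgebra ℤ H.1)

/-- The homomorphism `K_{-1}(ℤ[H]) → K_{-1}(ℤ[K])` of `H → K`, `h ↦ g h g⁻¹`. -/
def KF.conj {G : Type u} [Group G] (g : G) (H K : FinSub G) (h : ∀ x ∈ H.1, g * x * g⁻¹ ∈ K.1) :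
    KF G H →+ KF G K :=
  Km1.map (MonoidAlgebra.mapDomainRingHom ℤ (conjHom g H.1 K.1 h))

/-- The homomorphism `K_{-1}(ℤ[H]) → K_{-1}(ℤ[G])` of the inclusion `H → G`. -/
def KF.incl {G : Type u} [Group G] (H : FinSub G) : KF G H →+ Km1 (MonoidAlgebra ℤ G) :=
  Km1.map (MonoidAlgebra.mapDomainRingHom ℤ H.1.subtype)

open Classical in
/-- The relations of the colimit: `f_*(a) = a` for `a ∈ K_{-1}(ℤ[H])`, `f : H → K`,
`f(h) = g h g⁻¹`, `H`, `K` finite subgroups of `G`, `g ∈ G`. -/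
inductive ColimRel (G : Type u) [Group G] : DirectSum (FinSub G) (KF G) → Prop
  | mk (H K : FinSub G) (g : G) (h : ∀ x ∈ H.1, g * x * g⁻¹ ∈ K.1) (a : KF G H) :
      ColimRel G (DirectSum.of (KF G) K (KF.conj g H K h a) - DirectSum.of (KF G) H a)

/-- The subgroup generated by the relations of the colimit. -/
def colimSub (G : Type u) [Group G] : AddSubgroup (DirectSum (FinSub G) (KF G)) :=
  AddSubgroup.closure {y | ColimRel G y}

/-- The colimit of `K_{-1}(ℤ[H])` over the finite subgroups `H` of `G` (and the maps induced by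
inclusion and conjugation): direct sum modulo relations. -/
def ColimKm1 (G : Type u) [Group G] : Type u := DirectSum (FinSub G) (KF G) ⧸ colimSub G

instance (G : Type u) [Group G] : AddCommGroup (ColimKm1 G) :=
  QuotientAddGroup.Quotient.addCommGroup (colimSub G)

open Classical in
/-- The class in the colimit of an element of `K_{-1}(ℤ[H])`. -/
def ColimKm1.ofSub {G : Type u} [Group G] (H : FinSub G) :
    Km1 (MonoidAlgebra ℤ H.1) →+ ColimKm1 G :=
  (QuotientAddGroup.mk' (colimSub G)).comp (DirectSum.of (KF G) H)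

open Classical in
/-- The map on the direct sum: inclusions `H → G`. -/
def assemblyDS (G : Type u) [Group G] :
    DirectSum (FinSub G) (KF G) →+ Km1 (MonoidAlgebra ℤ G) :=
  DirectSum.toAddMonoid KF.incl

/-- Inner automorphisms act trivially on `K_0`. -/
lemma K0.map_conj {A B : Type u} [Ring A] [Ring B] (f g : A →+* B) (s : Bˣ)
    (h : ∀ a, g a = s * f a * (s⁻¹ : Bˣ)) (x : K0 A) : K0.map g x = K0.map f x := by
  have : K0.map g = K0.map f := by
    apply K0.ext
    intro n e he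
    rw [K0.map_cls, K0.map_cls]
    refine K0.cls_iso _ _ (Matrix.of fun i j => (s : B) * f (e i j))
      (Matrix.of fun i j => f (e i j) * ((s⁻¹ : Bˣ) : B)) ?_ ?_
    · ext i j
      rw [Matrix.mul_apply, Matrix.map_apply, h]
      simp only [Matrix.of_apply]
      have h1 : ∀ k, (s : B) * f (e i k) * (f (e k j) * ((s⁻¹ : Bˣ) : B)) =
          (s : B) * (f (e i k * e k j)) * ((s⁻¹ : Bˣ) : B) := by
        intro k
        rw [map_mul]
        simp only [mul_assoc]
      rw [Finset.sum_congr rfl (fun k _ => h1 k), ← Finset.sum_mul, ← Finset.mul_sum,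
        ← map_sum, ← Matrix.mul_apply, he]
    · ext i j
      rw [Matrix.mul_apply, Matrix.map_apply]
      simp only [Matrix.of_apply]
      have h1 : ∀ k, f (e i k) * ((s⁻¹ : Bˣ) : B) * ((s : B) * f (e k j)) =
          f (e i k * e k j) := by
        intro k
        rw [map_mul, mul_assoc, ← mul_assoc ((s⁻¹ : Bˣ) : B), Units.inv_mul, one_mul]
      rw [Finset.sum_congr rfl (fun k _ => h1 k), ← map_sum, ← Matrix.mul_apply, he]
  rw [this]

open Classical in
lemma assemblyDS_rel (G : Type u) [Group G] (H K : FinSub G) (g : G)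
    (h : ∀ x ∈ H.1, g * x * g⁻¹ ∈ K.1) (a : KF G H) :
    assemblyDS G (DirectSum.of (KF G) K (KF.conj g H K h a) - DirectSum.of (KF G) H a) = 0 := by
  rw [map_sub, assemblyDS, DirectSum.toAddMonoid_of, DirectSum.toAddMonoid_of, sub_eq_zero]
  obtain ⟨x, rfl⟩ := Km1.mk_surjective _ a
  show Km1.map _ (Km1.map _ (Km1.mk _ x)) = Km1.map _ (Km1.mk _ x)
  rw [Km1.map_mk, Km1.map_mk, Km1.map_mk, K0.map_comp]
  congr 1
  let s : (MonoidAlgebra ℤ G)ˣ := WH.gUnit ℤ g
  refine K0.map_conj _ _ (Units.map (AddMonoidAlgebra.singleZeroRingHom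
    (R := MonoidAlgebra ℤ G) (M := ℤ)).toMonoidHom s) ?_ x
  intro z
  have key : ∀ z : MonoidAlgebra ℤ H.1,
      MonoidAlgebra.mapDomainRingHom ℤ K.1.subtype
        (MonoidAlgebra.mapDomainRingHom ℤ (conjHom g H.1 K.1 h) z) =
      (s : MonoidAlgebra ℤ G) * MonoidAlgebra.mapDomainRingHom ℤ H.1.subtype z *
        ((s⁻¹ : (MonoidAlgebra ℤ G)ˣ) : MonoidAlgebra ℤ G) := by
    intro z
    have e1 : (s : MonoidAlgebra ℤ G) = MonoidAlgebra.single g 1 := rfl
    have e2 : ((s⁻¹ : (MonoidAlgebra ℤ G)ˣ) : MonoidAlgebra ℤ G) =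
      MonoidAlgebra.single g⁻¹ (1 : ℤ) := rfl
    induction z using MonoidAlgebra.induction_linear with
    | zero => simp
    | add x y hx hy => simp only [map_add, mul_add, add_mul, hx, hy]
    | single x r =>
      rw [e1, e2]
      simp [conjHom, MonoidAlgebra.mapDomain_single, MonoidAlgebra.single_mul_single]
  induction z using AddMonoidAlgebra.induction_linear with
  | zero => simp
  | add x y hx hy => simp only [map_add, mul_add, add_mul, hx, hy]
  | single n r =>
    show lauMap _ (lauMap _ (AddMonoidAlgebra.single n r)) =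
      AddMonoidAlgebra.single 0 (s : MonoidAlgebra ℤ G) * lauMap _ (AddMonoidAlgebra.single n r) *
        AddMonoidAlgebra.single 0 ((s⁻¹ : (MonoidAlgebra ℤ G)ˣ) : MonoidAlgebra ℤ G)
    simp only [lauMap, AddMonoidAlgebra.mapRingHom_single, AddMonoidAlgebra.single_mul_single,
      zero_add, add_zero]
    rw [key]

lemma colimSub_le (G : Type u) [Group G] : colimSub G ≤ (assemblyDS G).ker := by
  unfold colimSub
  rw [AddSubgroup.closure_le]
  rintro y ⟨H, K, g, h, a⟩
  exact assemblyDS_rel G H K g h a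

/-- The natural map from the colimit of the `K_{-1}(ℤ[H])`, `H` finite, to `K_{-1}(ℤ[G])`. -/
def assembly (G : Type u) [Group G] : ColimKm1 G →+ Km1 (MonoidAlgebra ℤ G) :=
  QuotientAddGroup.lift (colimSub G) (assemblyDS G) (colimSub_le G)

end Pool.Agent.Lib.MPb6f35e.ZK
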