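import Pool.Agent.Lib.MP_b6f35e_al.ZK.Spec

/-!
# Module LNK, part 1: identities in commutative rings and a limit in `ℤ_p[C]`  (MP_b6f35e_al, ZK)
-/

set_option autoImplicit false

noncomputable section

namespace Pool.Agent.Lib.MPb6f35e.ZK.LNKMod

universe u v

section core

variable {L : Type u} [CommRing L]

/-- The glued idempotent. -/
def eM (t t' δ η : L) : Matrix (Fin 2) (Fin 2) L :=
  !![1 - (δ * (t + t' - 2)) ^ 2, (1 + δ * (t + t' - 2)) * ((η * t' + δ - η) * (t + t' - 2));
     (η * t + δ - η) * (t + t' - 2), (δ * (t + t' - 2)) ^ 2]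

/-- a column -/
def col (a b : L) : Matrix (Fin 2) (Fin 1) L := !![a; b]

/-- a row -/
def row (a b : L) : Matrix (Fin 1) (Fin 2) L := !![a, b]

lemma col_mul_row (a b c d : L) : col a b * row c d = !![a * c, a * d; b * c, b * d] := by
  ext i j
  fin_cases i <;> fin_cases j <;> simp [col, row, Matrix.mul_apply]

lemma row_mul_col (a b c d : L) : row c d * col a b = Matrix.of fun _ _ => c * a + d * b := by
  ext i j
  fin_cases i; fin_cases j
  simp [col, row, Matrix.mul_apply]

lemma row_mul_col_one (a b c d : L) (h : c * a + d * b = 1) : row c d * col a b = 1 := by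
  rw [row_mul_col, h]
  ext i j
  fin_cases i; fin_cases j
  simp

lemma ab_eq (t t' x : L) (ht : t * t' = 1) :
    (x * t + 1 - x) * (x * t' + 1 - x) = 1 - (x * x - x) * (t + t' - 2) := by
  linear_combination (x * x) * ht

/-- frames over a ring which contains `x` -/
lemma frame (t t' x : L) (ht : t * t' = 1) :
    col ((1 + (x * x - x) * (t + t' - 2)) * (x * t' + 1 - x)) ((x * x - x) * (t + t' - 2)) *
      row (x * t + 1 - x) ((x * x - x) * (t + t' - 2)) =
    eM t t' (x * x - x) ((x * x - x) * x) := by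
  rw [col_mul_row, eM]
  have h := ab_eq t t' x ht
  congr 2
  · ext i
    fin_cases i
    · simp only [Fin.zero_eta, Matrix.cons_val_zero]
      linear_combination (1 + (x * x - x) * (t + t' - 2)) * h
    · simp only [Fin.mk_one, Matrix.cons_val_one, Matrix.cons_val_fin_one]
      ring
  · congr 1
    ext i
    fin_cases i
    · simp only [Fin.zero_eta, Matrix.cons_val_zero]
      ring
    · simp only [Fin.mk_one, Matrix.cons_val_one, Matrix.cons_val_fin_one]
      ring

lemma frame' (t t' x : L) (ht : t * t' = 1) :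
    row (x * t + 1 - x) ((x * x - x) * (t + t' - 2)) *
      col ((1 + (x * x - x) * (t + t' - 2)) * (x * t' + 1 - x)) ((x * x - x) * (t + t' - 2)) =
      1 := by
  apply row_mul_col_one
  have h := ab_eq t t' x ht
  linear_combination (1 + (x * x - x) * (t + t' - 2)) * h

lemma eM_idem (t t' δ η : L) (ht : t * t' = 1) (hη : η * η = δ * η + δ * δ * δ) :
    eM t t' δ η * eM t t' δ η = eM t t' δ η := by
  have key : ((η * t' + δ - η) * (t + t' - 2)) * ((η * t + δ - η) * (t + t' - 2)) =
      (δ * (t + t' - 2)) ^ 2 * (1 - δ * (t + t' - 2)) := by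
    linear_combination (t + t' - 2) ^ 2 * (η * η * ht + (2 - t - t') * hη)
  ext i j
  fin_cases i <;> fin_cases j <;>
    simp only [eM, Matrix.mul_apply, Fin.sum_univ_two, Fin.zero_eta, Fin.mk_one, Fin.isValue,
      Matrix.of_apply, Matrix.cons_val_zero, Matrix.cons_val_one, Matrix.cons_val_fin_one,
      Matrix.cons_val', Matrix.empty_val']
  · linear_combination (1 + δ * (t + t' - 2)) * key
  · ring
  · ring
  · linear_combination (1 + δ * (t + t' - 2)) * key

/-- integral frames -/
def α₁ (t t' δ ξ n r : L) : L :=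
  (1 + δ * (t + t' - 2)) * (1 - δ * (t + t' - 2) + (ξ * t' + n - ξ) * r * (t - 1))

/-- integral frames -/
def α₂ (t t' δ η n r : L) : L :=
  (η * t + δ - η) * (t + t' - 2) + δ * (t + t' - 2) * n * r * (t - 1)

/-- integral frames -/
def β₁ (t t' δ ξ n r : L) : L :=
  1 - δ * (t + t' - 2) + (ξ * t + n - ξ) * r * (t' - 1)

/-- integral frames -/
def β₂ (t t' δ η n r : L) : L :=
  (η * t' + δ - η) * (t + t' - 2) + δ * (t + t' - 2) * n * r * (t' - 1)

lemma α₁_eq (t t' x n r : L) (ht : t * t' = 1) :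
    α₁ t t' (x * x - x) (n * x) n r = (1 + (x * x - x) * (t + t' - 2)) * (x * t' + 1 - x) *
      ((x + n * r) * t + 1 - (x + n * r)) := by
  rw [α₁]
  linear_combination (-(1 + (x * x - x) * (t + t' - 2))) * ab_eq t t' x ht

lemma α₂_eq (t t' x n r : L) :
    α₂ t t' (x * x - x) ((x * x - x) * x) n r = (x * x - x) * (t + t' - 2) *
      ((x + n * r) * t + 1 - (x + n * r)) := by
  rw [α₂]
  ring

lemma β₁_eq (t t' x n r : L) (ht : t * t' = 1) :
    β₁ t t' (x * x - x) (n * x) n r = (x * t + 1 - x) *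
      ((x + n * r) * t' + 1 - (x + n * r)) := by
  rw [β₁]
  linear_combination (-1 : L) * ab_eq t t' x ht

lemma β₂_eq (t t' x n r : L) :
    β₂ t t' (x * x - x) ((x * x - x) * x) n r = (x * x - x) * (t + t' - 2) *
      ((x + n * r) * t' + 1 - (x + n * r)) := by
  rw [β₂]
  ring

lemma bb_eq (t t' F : L) (ht : t * t' = 1) (hF : F * F = F) :
    (F * t + 1 - F) * (F * t' + 1 - F) = 1 := by
  rw [ab_eq t t' F ht, hF]
  ring

variable {L' : Type v} [CommRing L']

lemma g2 (g : L →+* L') : g 2 = 2 := map_ofNat g 2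

lemma eM_map (g : L →+* L') (t t' δ η : L) :
    (eM t t' δ η).map g = eM (g t) (g t') (g δ) (g η) := by
  ext i j
  fin_cases i <;> fin_cases j <;> simp [eM, g2]

lemma col_map (g : L →+* L') (a b : L) : (col a b).map g = col (g a) (g b) := by
  ext i j
  fin_cases i <;> fin_cases j <;> simp [col]

lemma row_map (g : L →+* L') (a b : L) : (row a b).map g = row (g a) (g b) := by
  ext i j
  fin_cases i; fin_cases j <;> simp [row]

lemma α₁_map (g : L →+* L') (t t' δ ξ n r : L) :
    g (α₁ t t' δ ξ n r) = α₁ (g t) (g t') (g δ) (g ξ) (g n) (g r) := by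
  simp [α₁, g2]

lemma α₂_map (g : L →+* L') (t t' δ ξ n r : L) :
    g (α₂ t t' δ ξ n r) = α₂ (g t) (g t') (g δ) (g ξ) (g n) (g r) := by
  simp [α₂, g2]

lemma β₁_map (g : L →+* L') (t t' δ ξ n r : L) :
    g (β₁ t t' δ ξ n r) = β₁ (g t) (g t') (g δ) (g ξ) (g n) (g r) := by
  simp [β₁, g2]

lemma β₂_map (g : L →+* L') (t t' δ ξ n r : L) :
    g (β₂ t t' δ ξ n r) = β₂ (g t) (g t') (g δ) (g ξ) (g n) (g r) := by
  simp [β₂, g2]

end core

end Pool.Agent.Lib.MPb6f35e.ZK.LNKMod
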