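import Pool.Agent.Lib.MP_b6f35e_al.WH.K

/-!
# Lifting invertible matrices along a surjection (module MIL)

If `j : A₁ → A₀` is onto then the matrix `(b 0; 0 b⁻¹)` over `A₀` lifts to an invertible matrix
over `A₁`, and so do the permutation-like matrices which we need.
-/

set_option autoImplicit false

noncomputable section

namespace Pool.Agent.Lib.MPb6f35e.ZK

open Pool.Agent.Lib.MPb6f35e.WH Matrix

universe u v w

/-- The entrywise map on invertible matrices. -/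
def mapU {A : Type u} {B : Type v} [Ring A] [Ring B] (f : A →+* B) {ι : Type w} [Fintype ι]
    [DecidableEq ι] : (Matrix ι ι A)ˣ →* (Matrix ι ι B)ˣ :=
  Units.map (f.mapMatrix : Matrix ι ι A →+* Matrix ι ι B).toMonoidHom

section

variable {A : Type u} {B : Type v} [Ring A] [Ring B] (f : A →+* B)
variable {ι : Type w} [Fintype ι] [DecidableEq ι]

theorem mapU_val (x : (Matrix ι ι A)ˣ) : ((mapU f x : (Matrix ι ι B)ˣ) : Matrix ι ι B) =
    (x : Matrix ι ι A).map f := rfl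

end

section

variable {A : Type u} [Ring A] {ι : Type v} [Fintype ι] [DecidableEq ι] {κ : Type w} [Fintype κ]
  [DecidableEq κ]

/-- The block diagonal matrix. -/
def dU (x : (Matrix ι ι A)ˣ) (y : (Matrix κ κ A)ˣ) : (Matrix (ι ⊕ κ) (ι ⊕ κ) A)ˣ where
  val := fromBlocks (x : Matrix ι ι A) 0 0 (y : Matrix κ κ A)
  inv := fromBlocks ((x⁻¹ : (Matrix ι ι A)ˣ) : Matrix ι ι A) 0 0
    ((y⁻¹ : (Matrix κ κ A)ˣ) : Matrix κ κ A)
  val_inv := by
    rw [fromBlocks_multiply, ← fromBlocks_one]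
    congr 1 <;> simp
  inv_val := by
    rw [fromBlocks_multiply, ← fromBlocks_one]
    congr 1 <;> simp

theorem dU_val (x : (Matrix ι ι A)ˣ) (y : (Matrix κ κ A)ˣ) :
    (dU x y : Matrix (ι ⊕ κ) (ι ⊕ κ) A) =
      fromBlocks (x : Matrix ι ι A) 0 0 (y : Matrix κ κ A) := rfl

theorem dU_mul (x x' : (Matrix ι ι A)ˣ) (y y' : (Matrix κ κ A)ˣ) :
    dU (x * x') (y * y') = dU x y * dU x' y' := by
  apply Units.ext
  rw [Units.val_mul, dU_val, dU_val, dU_val, fromBlocks_multiply]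
  simp

theorem dU_one : dU (1 : (Matrix ι ι A)ˣ) (1 : (Matrix κ κ A)ˣ) = 1 := by
  apply Units.ext
  rw [dU_val]
  simp

theorem dU_inv (x : (Matrix ι ι A)ˣ) (y : (Matrix κ κ A)ˣ) : (dU x y)⁻¹ = dU x⁻¹ y⁻¹ := by
  rw [inv_eq_iff_mul_eq_one, ← dU_mul, mul_inv_cancel, mul_inv_cancel, dU_one]

/-- `(1 x; 0 1)`. -/
def eU (x : Matrix ι κ A) : (Matrix (ι ⊕ κ) (ι ⊕ κ) A)ˣ where
  val := fromBlocks 1 x 0 1
  inv := fromBlocks 1 (-x) 0 1
  val_inv := by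
    rw [fromBlocks_multiply, ← fromBlocks_one]
    congr 1 <;> simp
  inv_val := by
    rw [fromBlocks_multiply, ← fromBlocks_one]
    congr 1 <;> simp

/-- `(1 0; x 1)`. -/
def eL (x : Matrix κ ι A) : (Matrix (ι ⊕ κ) (ι ⊕ κ) A)ˣ where
  val := fromBlocks 1 0 x 1
  inv := fromBlocks 1 0 (-x) 1
  val_inv := by
    rw [fromBlocks_multiply, ← fromBlocks_one]
    congr 1 <;> simp
  inv_val := by
    rw [fromBlocks_multiply, ← fromBlocks_one]
    congr 1 <;> simp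

/-- `(0 -1; 1 0)`. -/
def wU : (Matrix (ι ⊕ ι) (ι ⊕ ι) A)ˣ where
  val := fromBlocks 0 (-1) 1 0
  inv := fromBlocks 0 1 (-1) 0
  val_inv := by
    rw [fromBlocks_multiply, ← fromBlocks_one]
    congr 1 <;> simp
  inv_val := by
    rw [fromBlocks_multiply, ← fromBlocks_one]
    congr 1 <;> simp

/-- Whitehead's lemma: `(b 0; 0 b⁻¹)` is a product of elementary matrices. -/
theorem whitehead (b : (Matrix ι ι A)ˣ) : dU b b⁻¹ =
    eU (b : Matrix ι ι A) * eL (-((b⁻¹ : (Matrix ι ι A)ˣ) : Matrix ι ι A)) *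
      eU (b : Matrix ι ι A) * wU := by
  apply Units.ext
  show fromBlocks (b : Matrix ι ι A) 0 0 ((b⁻¹ : (Matrix ι ι A)ˣ) : Matrix ι ι A) =
    fromBlocks 1 (b : Matrix ι ι A) 0 1 *
      fromBlocks 1 0 (-((b⁻¹ : (Matrix ι ι A)ˣ) : Matrix ι ι A)) 1 *
      fromBlocks 1 (b : Matrix ι ι A) 0 1 * fromBlocks 0 (-1) 1 0
  rw [fromBlocks_multiply, fromBlocks_multiply, fromBlocks_multiply]
  congr 1 <;> simp

end

/-! ### Lifts -/

section

variable {A₁ : Type u} {A₀ : Type v} [Ring A₁] [Ring A₀] (j : A₁ →+* A₀)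

/-- The invertible matrix lifts to an invertible matrix. -/
def Lft {ι : Type w} [Fintype ι] [DecidableEq ι] (g : (Matrix ι ι A₀)ˣ) : Prop :=
  ∃ L : (Matrix ι ι A₁)ˣ, mapU j L = g

variable {j} {ι : Type w} [Fintype ι] [DecidableEq ι] {κ : Type w} [Fintype κ] [DecidableEq κ]

theorem Lft.one : Lft j (1 : (Matrix ι ι A₀)ˣ) := ⟨1, map_one _⟩

theorem Lft.mul {g h : (Matrix ι ι A₀)ˣ} (hg : Lft j g) (hh : Lft j h) : Lft j (g * h) := by
  obtain ⟨L, rfl⟩ := hg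
  obtain ⟨L', rfl⟩ := hh
  exact ⟨L * L', map_mul _ _ _⟩

theorem Lft.inv {g : (Matrix ι ι A₀)ˣ} (hg : Lft j g) : Lft j g⁻¹ := by
  obtain ⟨L, rfl⟩ := hg
  exact ⟨L⁻¹, map_inv _ _⟩

theorem mapU_dU (x : (Matrix ι ι A₁)ˣ) (y : (Matrix κ κ A₁)ˣ) :
    mapU j (dU x y) = dU (mapU j x) (mapU j y) := by
  apply Units.ext
  rw [mapU_val, dU_val, dU_val, fromBlocks_map, mapU_val, mapU_val]
  simp [Matrix.map_zero]

theorem Lft.dU {g : (Matrix ι ι A₀)ˣ} {h : (Matrix κ κ A₀)ˣ} (hg : Lft j g) (hh : Lft j h) :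
    Lft j (ZK.dU g h) := by
  obtain ⟨L, rfl⟩ := hg
  obtain ⟨L', rfl⟩ := hh
  exact ⟨ZK.dU L L', mapU_dU _ _⟩

theorem exists_lift_matrix (hj : Function.Surjective j) (x : Matrix ι κ A₀) :
    ∃ y : Matrix ι κ A₁, y.map j = x := by
  choose s hs using hj
  refine ⟨Matrix.of fun a b => s (x a b), ?_⟩
  ext a b
  simp [hs]

theorem Lft.eU (hj : Function.Surjective j) (x : Matrix ι κ A₀) : Lft j (ZK.eU x) := by
  obtain ⟨y, rfl⟩ := exists_lift_matrix hj x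
  refine ⟨ZK.eU y, ?_⟩
  apply Units.ext
  show (fromBlocks 1 y 0 1).map j = fromBlocks 1 (y.map j) 0 1
  rw [fromBlocks_map]
  simp [Matrix.map_zero, Matrix.map_one]

theorem Lft.eL (hj : Function.Surjective j) (x : Matrix κ ι A₀) : Lft j (ZK.eL x) := by
  obtain ⟨y, rfl⟩ := exists_lift_matrix hj x
  refine ⟨ZK.eL y, ?_⟩
  apply Units.ext
  show (fromBlocks 1 0 y 1).map j = fromBlocks 1 0 (y.map j) 1
  rw [fromBlocks_map]
  simp [Matrix.map_zero, Matrix.map_one]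

theorem Lft.wU : Lft j (ZK.wU : (Matrix (ι ⊕ ι) (ι ⊕ ι) A₀)ˣ) := by
  refine ⟨ZK.wU, ?_⟩
  apply Units.ext
  show (fromBlocks 0 (-1) 1 0 : Matrix (ι ⊕ ι) (ι ⊕ ι) A₁).map j = fromBlocks 0 (-1) 1 0
  rw [fromBlocks_map]
  congr 1
  · simp
  · ext a b
    simp only [map_apply, Matrix.neg_apply, map_neg, Matrix.one_apply]
    split_ifs <;> simp
  · simp [Matrix.map_one]
  · simp

/-- `(b 0; 0 b⁻¹)` lifts. -/
theorem Lft.diag (hj : Function.Surjective j) (b : (Matrix ι ι A₀)ˣ) : Lft j (ZK.dU b b⁻¹) := by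
  rw [whitehead]
  exact (((Lft.eU hj _).mul (Lft.eL hj _)).mul (Lft.eU hj _)).mul Lft.wU

/-- `(b c b⁻¹ 0; 0 c⁻¹)` lifts. -/
theorem Lft.diag2 (hj : Function.Surjective j) (b c : (Matrix ι ι A₀)ˣ) :
    Lft j (ZK.dU (b * c * b⁻¹) c⁻¹) := by
  have h : ZK.dU (b * c * b⁻¹) c⁻¹ = ZK.dU (b * c) (b * c)⁻¹ * ZK.dU b⁻¹ (b⁻¹)⁻¹ := by
    rw [← dU_mul]
    congr 1
    group
  rw [h]
  exact (Lft.diag hj _).mul (Lft.diag hj _)

end

end Pool.Agent.Lib.MPb6f35e.ZK
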