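import Pool.Agent.Lib.MP_b6f35e_al.WH.N
import Pool.Agent.Lib.MP_b6f35e_al.WH.T

/-!
# Necklace congruence for traces of powers of matrices over group rings

If `c ^ p = c` modulo `p` for all `c` in `k`, then for every square matrix `x` over `k[G]` and
`N = p ^ (e + 1)`, `M = p ^ e` the Hattori-Stallings trace satisfies
`T (x ^ N) = Φ (T (x ^ M))` modulo `N`, `Φ` induced by `g ↦ g ^ p`.
-/

set_option autoImplicit false

noncomputable section

namespace Pool.Agent.Lib.MPb6f35e.WH

namespace Neck

open Function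

universe u v

variable {k : Type u} [CommRing k] {G : Type v} [Group G] {ι : Type}

/-! ### ordered products -/

/-- the ordered product `b 0 * b 1 * ... * b (N - 1)` -/
def oprod {A : Type*} [Monoid A] {N : ℕ} (b : ZMod N → A) : A :=
  ((List.range N).map fun j : ℕ => b (j : ZMod N)).prod

theorem oprod_fin {A : Type*} [Monoid A] (n : ℕ) (b : ZMod (n + 1) → A) :
    oprod b = (List.ofFn (n := n + 1) fun i => b i).prod := by
  rw [oprod]
  congr 1
  apply List.ext_getElem
  · simp
  · intro i h1 h2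
    simp only [List.getElem_map, List.getElem_range, List.getElem_ofFn]
    congr 1
    have hi : i < n + 1 := by simpa using h1
    apply Fin.ext
    show i % (n + 1) = i
    exact Nat.mod_eq_of_lt hi

/-! ### expansion of a product in `k[G]` -/

/-- to the conjugacy classes -/
def clK : MonoidAlgebra k G →+ (ConjClasses G →₀ k) :=
  (Finsupp.liftAddHom (fun g : G => Finsupp.singleAddHom (ConjClasses.mk g))).comp
    MonoidAlgebra.coeffAddEquiv.toAddMonoidHom

theorem clK_single (g : G) (c : k) :
    clK (MonoidAlgebra.single g c) = Finsupp.single (ConjClasses.mk g) c := by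
  show (Finsupp.liftAddHom (fun g : G => Finsupp.singleAddHom (ConjClasses.mk g)))
    (Finsupp.single g c) = _
  simp

/-- `Σ c_γ γ ↦ Σ c_γ [γ_0 ... γ_{N-1}]` -/
def cycK (N : ℕ) : MonoidAlgebra k (ZMod N → G) →+ (ConjClasses G →₀ k) :=
  (Finsupp.liftAddHom (fun γ : ZMod N → G => Finsupp.singleAddHom (cyc γ))).comp
    MonoidAlgebra.coeffAddEquiv.toAddMonoidHom

theorem cycK_single {N : ℕ} (γ : ZMod N → G) (c : k) :
    cycK N (MonoidAlgebra.single γ c) = Finsupp.single (cyc γ) c := by
  show (Finsupp.liftAddHom (fun γ : ZMod N → G => Finsupp.singleAddHom (cyc γ)))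
    (Finsupp.single γ c) = _
  simp

theorem ofFn_single : ∀ (n : ℕ) (γ : Fin n → G) (c : Fin n → k),
    (List.ofFn fun i => (MonoidAlgebra.single (γ i) (c i) : MonoidAlgebra k G)).prod =
      MonoidAlgebra.single (List.ofFn γ).prod (∏ i, c i) := by
  intro n
  induction n with
  | zero => intro γ c; simp [MonoidAlgebra.one_def]
  | succ n ih =>
    intro γ c
    rw [List.ofFn_succ, List.prod_cons, ih, List.ofFn_succ, List.prod_cons, Fin.prod_univ_succ,
      MonoidAlgebra.single_mul_single]

open Classical in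
theorem self_sum (a : MonoidAlgebra k G) :
    a = ∑ g ∈ a.coeff.support, MonoidAlgebra.single g (a.coeff g) := by
  ext δ
  rw [MonoidAlgebra.coeff_sum, Finsupp.finsetSum_apply]
  by_cases h : δ ∈ a.coeff.support
  · rw [Finset.sum_eq_single_of_mem δ h]
    · simp
    · intro γ _ hne
      simp [hne]
  · rw [Finset.sum_eq_zero]
    · rwa [Finsupp.notMem_support_iff] at h
    · intro γ hγ
      have : γ ≠ δ := by rintro rfl; exact h hγ
      simp [this]

open Classical in
theorem ofFn_expand (n : ℕ) (b : Fin n → MonoidAlgebra k G) :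
    (List.ofFn b).prod = ∑ γ ∈ Fintype.piFinset fun j => (b j).coeff.support,
      MonoidAlgebra.single (List.ofFn γ).prod (∏ j, (b j).coeff (γ j)) := by
  have h := MultilinearMap.map_sum_finset (MultilinearMap.mkPiAlgebraFin k n (MonoidAlgebra k G))
    (fun i g => MonoidAlgebra.single g ((b i).coeff g)) (fun i => (b i).coeff.support)
  rw [MultilinearMap.mkPiAlgebraFin_apply] at h
  have h2 : (fun i => ∑ g ∈ (b i).coeff.support,
      (MonoidAlgebra.single g ((b i).coeff g) : MonoidAlgebra k G)) = b :=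
    funext fun i => (self_sum (b i)).symm
  rw [h2] at h
  rw [h]
  refine Finset.sum_congr rfl fun γ _ => ?_
  rw [MultilinearMap.mkPiAlgebraFin_apply, ofFn_single]

/-- exterior product of `N` elements -/
def ten {N : ℕ} [NeZero N] (a : ZMod N → MonoidAlgebra k G) : MonoidAlgebra k (ZMod N → G) :=
  tens k G (ZMod N) N (Matrix.of fun i _ => a i) id id

theorem ten_coeff {N : ℕ} [NeZero N] (a : ZMod N → MonoidAlgebra k G) (γ : ZMod N → G) :
    (ten a).coeff γ = ∏ j, (a j).coeff (γ j) := rfl

theorem tens_eq_ten {N : ℕ} [NeZero N] (x : Matrix ι ι (MonoidAlgebra k G))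
    (I J : ZMod N → ι) : tens k G ι N x I J = ten fun j => x (I j) (J j) := by
  ext γ
  rfl

open Classical in
theorem ten_expand {N : ℕ} [NeZero N] (a : ZMod N → MonoidAlgebra k G) :
    ten a = ∑ γ ∈ Fintype.piFinset fun j => (a j).coeff.support,
      MonoidAlgebra.single γ (∏ j, (a j).coeff (γ j)) := by
  ext δ
  rw [ten_coeff, MonoidAlgebra.coeff_sum, Finsupp.finsetSum_apply]
  by_cases h : δ ∈ Fintype.piFinset fun j => (a j).coeff.support
  · rw [Finset.sum_eq_single_of_mem δ h]
    · simp
    · intro γ _ hne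
      simp [hne]
  · rw [Finset.sum_eq_zero]
    · rw [Fintype.mem_piFinset] at h
      push Not at h
      obtain ⟨j, hj⟩ := h
      rw [Finsupp.notMem_support_iff] at hj
      exact Finset.prod_eq_zero (Finset.mem_univ j) hj
    · intro γ hγ
      have : γ ≠ δ := by rintro rfl; exact h hγ
      simp [this]

theorem cycK_ten {N : ℕ} [hN : NeZero N] (a : ZMod N → MonoidAlgebra k G) :
    cycK N (ten a) = clK (oprod a) := by
  classical
  obtain ⟨n, rfl⟩ : ∃ n, N = n + 1 := ⟨N - 1, (Nat.succ_pred (NeZero.ne N)).symm⟩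
  rw [oprod_fin, ofFn_expand, ten_expand, map_sum, map_sum]
  refine Finset.sum_congr rfl fun γ _ => ?_
  rw [cycK_single, clK_single]
  congr 1
  rw [cyc]
  congr 1
  exact oprod_fin n γ

/-! ### walks -/

variable [Fintype ι] [DecidableEq ι]

/-- the product along a walk `i, I 0, ..., I (n - 1), j` -/
def wp {A : Type*} [Semiring A] (x : Matrix ι ι A) : (n : ℕ) → ι → (Fin n → ι) → ι → A
  | 0, i, _, j => x i j
  | n + 1, i, I, j => x i (I 0) * wp x n (I 0) (Fin.tail I) j

theorem pow_eq_sum_wp {A : Type*} [Semiring A] (x : Matrix ι ι A) (n : ℕ) :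
    ∀ i j, (x ^ (n + 1)) i j = ∑ I : Fin n → ι, wp x n i I j := by
  induction n with
  | zero =>
    intro i j
    simp [wp]
  | succ n ih =>
    intro i j
    rw [pow_succ', Matrix.mul_apply, ← (Fin.consEquiv fun _ : Fin (n + 1) => ι).sum_comp,
      Fintype.sum_prod_type]
    refine Finset.sum_congr rfl fun l _ => ?_
    rw [ih l j, Finset.mul_sum]
    refine Finset.sum_congr rfl fun I _ => ?_
    rfl

theorem wp_eq_list {A : Type*} [Semiring A] (x : Matrix ι ι A) (n : ℕ) : ∀ v : ℕ → ι,
    wp x n (v 0) (fun t : Fin n => v (t + 1)) (v (n + 1)) =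
      ((List.range (n + 1)).map fun t => x (v t) (v (t + 1))).prod := by
  induction n with
  | zero => intro v; simp [wp]
  | succ n ih =>
    intro v
    rw [List.range_succ_eq_map, List.map_cons, List.prod_cons, List.map_map]
    have h := ih fun t => v (t + 1)
    have h2 : ((fun t => x (v t) (v (t + 1))) ∘ Nat.succ) =
        fun t => x (v (t + 1)) (v (t + 1 + 1)) := rfl
    rw [h2, ← h]
    rfl

/-- the trace of a power as a sum over closed walks -/
theorem trace_pow {A : Type*} [Semiring A] (x : Matrix ι ι A) (N : ℕ) [hN : NeZero N] :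
    (x ^ N).trace = ∑ I : ZMod N → ι, oprod fun j => x (I j) (sh I j) := by
  obtain ⟨n, rfl⟩ : ∃ n, N = n + 1 := ⟨N - 1, (Nat.succ_pred (NeZero.ne N)).symm⟩
  have h : ∀ I : ZMod (n + 1) → ι, (oprod fun j => x (I j) (sh I j)) =
      wp x n (I 0) (fun t : Fin n => I ((t : ℕ) + 1 : ℕ)) (I 0) := by
    intro I
    have h1 := wp_eq_list x n fun t => I (t : ZMod (n + 1))
    have h2 : ((n + 1 : ℕ) : ZMod (n + 1)) = 0 := ZMod.natCast_self _
    simp only [Nat.cast_zero, h2] at h1
    rw [h1, oprod]
    congr 1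
    apply List.map_congr_left
    intro j _
    show x (I j) (I (j + 1)) = x (I j) (I ((j + 1 : ℕ) : ZMod (n + 1)))
    rw [Nat.cast_add, Nat.cast_one]
  rw [Matrix.trace, Finset.sum_congr rfl fun I _ => h I]
  have h3 : (∑ I : Fin (n + 1) → ι, wp x n (I 0) (Fin.tail I) (I 0)) =
      ∑ i, ∑ I : Fin n → ι, wp x n i I i := by
    rw [← (Fin.consEquiv fun _ : Fin (n + 1) => ι).sum_comp, Fintype.sum_prod_type]
    rfl
  have h4 : ∀ I : ZMod (n + 1) → ι,
      (fun t : Fin n => I (((t : ℕ) + 1 : ℕ) : ZMod (n + 1))) =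
        Fin.tail (n := n) (α := fun _ => ι) I := by
    intro I
    funext t
    show I (((t : ℕ) + 1 : ℕ) : ZMod (n + 1)) = I (t.succ : Fin (n + 1))
    congr 1
    apply Fin.ext
    show ((t : ℕ) + 1) % (n + 1) = (t : ℕ) + 1
    exact Nat.mod_eq_of_lt (by omega)
  have h5 : (∑ I : ZMod (n + 1) → ι, wp x n (I 0) (fun t : Fin n => I ((t : ℕ) + 1 : ℕ)) (I 0)) =
      ∑ I : Fin (n + 1) → ι, wp x n (I 0) (Fin.tail I) (I 0) :=
    Finset.sum_congr rfl fun I _ => by rw [← h4 I]; rfl
  rw [h5, h3]
  refine Finset.sum_congr rfl fun i _ => ?_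
  exact pow_eq_sum_wp x n i i

/-- the twisted trace with values in `k` -/
def tauK {N : ℕ} [NeZero N] : TR k G ι N →+ (ConjClasses G →₀ k) where
  toFun a := ∑ I : ZMod N → ι, cycK N (a I (sh I))
  map_zero' := by simp
  map_add' a b := by simp [Finset.sum_add_distrib]

theorem tauK_apply {N : ℕ} [NeZero N] (a : TR k G ι N) :
    tauK a = ∑ I : ZMod N → ι, cycK N (a I (sh I)) := rfl

theorem tauK_tens {N : ℕ} [NeZero N] (x : Matrix ι ι (MonoidAlgebra k G)) :
    tauK (tens k G ι N x) = clK (x ^ N).trace := by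
  rw [trace_pow, map_sum, tauK_apply]
  refine Finset.sum_congr rfl fun I _ => ?_
  rw [tens_eq_ten, cycK_ten]

theorem cyc_rotG {N : ℕ} [NeZero N] (γ : ZMod N → G) : cyc (rotG N G γ) = cyc γ := by
  have h := TT.cyc_rot (1 : ZMod N → G) γ
  rwa [mul_one, one_mul] at h

theorem cycK_rot {N : ℕ} [NeZero N] (y : MonoidAlgebra k (ZMod N → G)) :
    cycK N (MonoidAlgebra.mapDomainRingHom k (rotG N G) y) = cycK N y := by
  induction y using MonoidAlgebra.induction_linear with
  | zero => simp
  | add x y hx hy => simp only [map_add, hx, hy]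
  | single γ c =>
    rw [show MonoidAlgebra.mapDomainRingHom k (rotG N G) (MonoidAlgebra.single γ c) =
      MonoidAlgebra.single (rotG N G γ) c from MonoidAlgebra.mapDomain_single, cycK_single,
      cycK_single, cyc_rotG]

theorem sh_bij {N : ℕ} {X : Type*} : Bijective (sh (N := N) (X := X)) := by
  constructor
  · intro I J h
    funext j
    have := congrFun h (j - 1)
    show I j = J j
    have h2 : I (j - 1 + 1) = J (j - 1 + 1) := this
    rwa [sub_add_cancel] at h2
  · intro I
    refine ⟨fun j => I (j - 1), ?_⟩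
    funext j
    show I (j + 1 - 1) = I j
    rw [add_sub_cancel_right]

theorem tauK_rot {N : ℕ} [NeZero N] (b : TR k G ι N) : tauK (rot k G ι N b) = tauK b := by
  rw [tauK_apply, tauK_apply]
  have h : ∀ I : ZMod N → ι, cycK N ((rot k G ι N b) I (sh I)) =
      cycK N (b (sh I) (sh (sh I))) := by
    intro I
    exact cycK_rot (b (sh I) (sh (sh I)))
  rw [Finset.sum_congr rfl fun I _ => h I]
  exact Fintype.sum_bijective sh sh_bij _ _ fun I => rfl

theorem tauK_iter {N : ℕ} [NeZero N] (j : ℕ) (b : TR k G ι N) :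
    tauK ((rot k G ι N)^[j] b) = tauK b := by
  induction j with
  | zero => rfl
  | succ j ih => rw [iterate_succ_apply', tauK_rot, ih]

theorem tauK_nm {N : ℕ} [NeZero N] (n : ℕ) (b : TR k G ι N) :
    tauK (nm (rot k G ι N) n b) = n • tauK b := by
  rw [nm, map_sum, Finset.sum_congr rfl fun j _ => tauK_iter j b, Finset.sum_const,
    Finset.card_range]

/-! ### repetition -/

/-- `g ↦ g ^ p` on conjugacy classes -/
def powCl (p : ℕ) : ConjClasses G → ConjClasses G :=
  Quotient.map (fun g => g ^ p) (fun _ _ h => h.pow p)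

theorem powCl_mk (p : ℕ) (g : G) : powCl p (ConjClasses.mk g) = ConjClasses.mk (g ^ p) := rfl

/-- `Φ` -/
def Phi (p : ℕ) {R : Type*} [AddCommMonoid R] : (ConjClasses G →₀ R) →+ (ConjClasses G →₀ R) :=
  Finsupp.mapDomain.addMonoidHom (powCl p)

theorem Phi_single (p : ℕ) {R : Type*} [AddCommMonoid R] (c : ConjClasses G) (r : R) :
    Phi p (Finsupp.single c r) = Finsupp.single (powCl p c) r := by
  simp [Phi]

theorem list_pow {A : Type*} [Monoid A] (f : ℕ → A) (t : ℕ) (hf : ∀ j, f (t + j) = f j) (n : ℕ) :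
    ((List.range (n * t)).map f).prod = (((List.range t).map f).prod) ^ n := by
  induction n with
  | zero => simp
  | succ n ih =>
    rw [show (n + 1) * t = t + n * t by ring, List.range_add, List.map_append, List.prod_append,
      List.map_map, pow_succ', ← ih]
    congr 2
    apply List.map_congr_left
    intro j _
    exact hf j

variable (p e : ℕ) [NeZero (p ^ e)] [NeZero (p ^ (e + 1))]

omit [NeZero (p ^ e)] [NeZero (p ^ (e + 1))] in
theorem cyc_repG (γ : ZMod (p ^ e) → G) : cyc (repG p e G γ) = powCl p (cyc γ) := by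
  rw [cyc, cyc, powCl_mk]
  congr 1
  calc ((List.range (p ^ (e + 1))).map fun j : ℕ => repG p e G γ (j : ZMod (p ^ (e + 1)))).prod
      = ((List.range (p ^ (e + 1))).map fun j : ℕ => γ (j : ZMod (p ^ e))).prod := by
        congr 1
        apply List.map_congr_left
        intro j _
        show γ (prj p e _) = _
        rw [NN.prj_natCast]
    _ = ((List.range (p * p ^ e)).map fun j : ℕ => γ (j : ZMod (p ^ e))).prod := by
        rw [show p ^ (e + 1) = p * p ^ e by ring]
    _ = _ := list_pow (fun j : ℕ => γ (j : ZMod (p ^ e))) (p ^ e) (fun j => by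
        rw [Nat.cast_add, ZMod.natCast_self, zero_add]) p

theorem cycK_rep (y : MonoidAlgebra k (ZMod (p ^ e) → G)) :
    cycK (p ^ (e + 1)) (MonoidAlgebra.mapDomainRingHom k (repG p e G) y) =
      Phi p (cycK (p ^ e) y) := by
  induction y using MonoidAlgebra.induction_linear with
  | zero => simp
  | add x y hx hy => simp only [map_add, hx, hy]
  | single γ c =>
    rw [show MonoidAlgebra.mapDomainRingHom k (repG p e G) (MonoidAlgebra.single γ c) =
      MonoidAlgebra.single (repG p e G γ) c from MonoidAlgebra.mapDomain_single, cycK_single,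
      cycK_single, cyc_repG, Phi_single]

theorem tauK_dlt (b : TR k G ι (p ^ e)) :
    tauK (dlt k G ι p e b) = Phi p (tauK b) := by
  classical
  rw [tauK_apply, tauK_apply, map_sum]
  have hinj : Injective fun (I : ZMod (p ^ e) → ι) (j : ZMod (p ^ (e + 1))) => I (prj p e j) :=
    fun _ _ h => NN.rep_inj p e h
  rw [← Finset.sum_subset (Finset.subset_univ (Finset.univ.image
    fun (I : ZMod (p ^ e) → ι) (j : ZMod (p ^ (e + 1))) => I (prj p e j))),
    Finset.sum_image fun _ _ _ _ h => hinj h]
  · refine Finset.sum_congr rfl fun I _ => ?_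
    have h : (sh fun j => I (prj p e j)) = fun j => (sh I) (prj p e j) := by
      funext j
      show I (prj p e (j + 1)) = I (prj p e j + 1)
      rw [NN.prj_add_one]
    rw [h, NN.dlt_rep, cycK_rep]
  · intro I _ hI
    rw [NN.dlt_left p e b I _ fun I' hI' => hI (Finset.mem_image.2 ⟨I', Finset.mem_univ _,
      hI'.symm⟩), map_zero]

theorem clK_one : clK (k := k) (G := G) (1 : Matrix ι ι (MonoidAlgebra k G)).trace =
    Fintype.card ι • Finsupp.single (ConjClasses.mk 1) 1 := by
  rw [Matrix.trace_one, ← nsmul_one, map_nsmul, MonoidAlgebra.one_def, clK_single]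

theorem tauK_one {N : ℕ} [NeZero N] : tauK (1 : TR k G ι N) =
    Fintype.card ι • Finsupp.single (ConjClasses.mk 1) 1 := by
  rw [← TT.tensOne, tauK_tens, one_pow, clK_one]

/-- The necklace congruence. -/
theorem neck [Fact p.Prime] (hk : ∀ c : k, (p : k) ∣ c ^ p - c)
    (x : Matrix ι ι (MonoidAlgebra k G)) :
    ∃ t : ConjClasses G →₀ k,
      clK (x ^ p ^ (e + 1)).trace = Phi p (clK (x ^ p ^ e).trace) + p ^ (e + 1) • t := by
  obtain ⟨z, hz⟩ := NN.norm p e hk x
  refine ⟨tauK z, ?_⟩
  have h := congrArg tauK hz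
  rw [tauK_nm, map_sub, dhat, map_add, map_sub, tauK_dlt, tauK_dlt, tauK_tens, tauK_tens,
    tauK_one, tauK_one] at h
  have h2 : Phi p (Fintype.card ι • (Finsupp.single (ConjClasses.mk (1 : G)) (1 : k))) =
      Fintype.card ι • Finsupp.single (ConjClasses.mk 1) 1 := by
    rw [map_nsmul, Phi_single, powCl_mk, one_pow]
  rw [h2, sub_self, add_zero] at h
  rw [h]
  abel

/-- The necklace congruence, coefficientwise. -/
theorem neck_dvd [Fact p.Prime] (hk : ∀ c : k, (p : k) ∣ c ^ p - c)
    (x : Matrix ι ι (MonoidAlgebra k G)) (c : ConjClasses G) :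
    ((p ^ (e + 1) : ℕ) : k) ∣
      clK (x ^ p ^ (e + 1)).trace c - Phi p (clK (x ^ p ^ e).trace) c := by
  obtain ⟨t, ht⟩ := neck p e hk x
  refine ⟨t c, ?_⟩
  rw [ht, Finsupp.add_apply, Finsupp.smul_apply, nsmul_eq_mul]
  ring

end Neck

end Pool.Agent.Lib.MPb6f35e.WH
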