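import Pool.Agent.Lib.MP_b6f35e_al.ZK.Spec
import Mathlib.LinearAlgebra.Lagrange

/-!
# ZK, module VB: rational combinations of idempotents of a commutative `ℚ`-algebra
-/

set_option autoImplicit false

noncomputable section

namespace Pool.Agent.Lib.MPb6f35e.ZK

universe u

namespace VBMod

variable {B : Type u} [CommRing B] [Algebra ℚ B]

lemma smul_eq_zero' {c : ℚ} {b : B} (hc : c ≠ 0) (h : algebraMap ℚ B c * b = 0) : b = 0 := by
  have h2 : algebraMap ℚ B c⁻¹ * (algebraMap ℚ B c * b) = 0 := by rw [h, mul_zero]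
  rwa [← mul_assoc, ← map_mul, inv_mul_cancel₀ hc, map_one, one_mul] at h2

/-- The spectral idempotents of an element killed by `∏ (X - q)`. -/
lemma spectral (b : B) (s : Finset ℚ) (h : ∏ q ∈ s, (b - algebraMap ℚ B q) = 0) :
    ∃ E : ℚ → B, (∀ q ∈ s, (b - algebraMap ℚ B q) * E q = 0) ∧ (∑ q ∈ s, E q = 1) ∧
      (∀ q ∈ s, ∀ r ∈ s, q ≠ r → E q * E r = 0) ∧ (∀ q ∈ s, E q * E q = E q) := by
  classical
  rcases s.eq_empty_or_nonempty with rfl | hs
  · refine ⟨fun _ => 0, ?_, ?_, ?_, ?_⟩
    · simp
    · simpa using h.symm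
    · simp
    · simp
  · have h1 : ∀ q ∈ s, (b - algebraMap ℚ B q) *
        Polynomial.aeval b (Lagrange.basis s id q) = 0 := by
      intro q hq
      have h2 : Polynomial.aeval b (Lagrange.basis s id q) =
          (∏ j ∈ s.erase q, algebraMap ℚ B (q - j)⁻¹) *
            ∏ j ∈ s.erase q, (b - algebraMap ℚ B j) := by
        rw [Lagrange.basis, map_prod, ← Finset.prod_mul_distrib]
        refine Finset.prod_congr rfl fun j _ => ?_
        simp [Lagrange.basisDivisor]
      rw [h2, mul_left_comm, Finset.mul_prod_erase s (fun j => b - algebraMap ℚ B j) hq, h,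
        mul_zero]
    have h3 : ∀ q ∈ s, ∀ r ∈ s, q ≠ r → Polynomial.aeval b (Lagrange.basis s id q) *
        Polynomial.aeval b (Lagrange.basis s id r) = 0 := by
      intro q hq r hr hqr
      refine smul_eq_zero' (sub_ne_zero.mpr hqr) ?_
      have e1 := h1 q hq
      have e2 := h1 r hr
      rw [map_sub]
      linear_combination (Polynomial.aeval b (Lagrange.basis s id q)) * e2 -
        (Polynomial.aeval b (Lagrange.basis s id r)) * e1
    have h4 : ∑ q ∈ s, Polynomial.aeval b (Lagrange.basis s id q) = 1 := by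
      rw [← map_sum, Lagrange.sum_basis (Set.injOn_id _) hs, map_one]
    refine ⟨fun q => Polynomial.aeval b (Lagrange.basis s id q), h1, h4, h3, fun q hq => ?_⟩
    have h5 : Polynomial.aeval b (Lagrange.basis s id q) *
        ∑ r ∈ s, Polynomial.aeval b (Lagrange.basis s id r) =
        Polynomial.aeval b (Lagrange.basis s id q) *
          Polynomial.aeval b (Lagrange.basis s id q) := by
      rw [Finset.mul_sum, Finset.sum_eq_single q]
      · intro r hr hrq
        exact h3 q hq r hr (Ne.symm hrq)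
      · intro hq'
        exact absurd hq hq'
    rw [h4, mul_one] at h5
    exact h5.symm

lemma mem_of_prod (b : B) (s : Finset ℚ) (h : ∏ q ∈ s, (b - algebraMap ℚ B q) = 0) :
    b ∈ RV B := by
  obtain ⟨E, h1, h2, -, h4⟩ := spectral b s h
  have h5 : b = ∑ q ∈ s, q • E q := by
    calc b = b * ∑ q ∈ s, E q := by rw [h2, mul_one]
      _ = ∑ q ∈ s, q • E q := by
        rw [Finset.mul_sum]
        refine Finset.sum_congr rfl fun q hq => ?_
        rw [Algebra.smul_def]
        linear_combination h1 q hq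
  rw [h5]
  exact Submodule.sum_mem _ fun q hq => Submodule.smul_mem _ _ (Submodule.subset_span (h4 q hq))

lemma prod_add (b c : B) (hb : ∃ s : Finset ℚ, ∏ q ∈ s, (b - algebraMap ℚ B q) = 0)
    (hc : ∃ s : Finset ℚ, ∏ q ∈ s, (c - algebraMap ℚ B q) = 0) :
    ∃ s : Finset ℚ, ∏ q ∈ s, (b + c - algebraMap ℚ B q) = 0 := by
  classical
  obtain ⟨s, hs⟩ := hb
  obtain ⟨t, ht⟩ := hc
  obtain ⟨E, h1, h2, -, -⟩ := spectral b s hs
  obtain ⟨F, k1, k2, -, -⟩ := spectral c t ht
  refine ⟨(s ×ˢ t).image fun p => p.1 + p.2, ?_⟩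
  have h3 : ∀ q ∈ s, ∀ r ∈ t, E q * F r *
      ∏ x ∈ (s ×ˢ t).image fun p => p.1 + p.2, (b + c - algebraMap ℚ B x) = 0 := by
    intro q hq r hr
    have hm : q + r ∈ (s ×ˢ t).image fun p => p.1 + p.2 :=
      Finset.mem_image.mpr ⟨(q, r), Finset.mem_product.mpr ⟨hq, hr⟩, rfl⟩
    rw [← Finset.mul_prod_erase _ _ hm, ← mul_assoc]
    have h4 : E q * F r * (b + c - algebraMap ℚ B (q + r)) = 0 := by
      rw [map_add]
      linear_combination F r * h1 q hq + E q * k1 r hr
    rw [h4, zero_mul]
  calc _ = (∑ q ∈ s, E q) * (∑ r ∈ t, F r) *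
        ∏ x ∈ (s ×ˢ t).image fun p => p.1 + p.2, (b + c - algebraMap ℚ B x) := by
        rw [h2, k2, one_mul, one_mul]
    _ = 0 := by
      rw [Finset.sum_mul_sum, Finset.sum_mul]
      refine Finset.sum_eq_zero fun q hq => ?_
      rw [Finset.sum_mul]
      exact Finset.sum_eq_zero fun r hr => h3 q hq r hr

lemma prod_smul (b : B) (c : ℚ) (hb : ∃ s : Finset ℚ, ∏ q ∈ s, (b - algebraMap ℚ B q) = 0) :
    ∃ s : Finset ℚ, ∏ q ∈ s, (c • b - algebraMap ℚ B q) = 0 := by
  classical
  obtain ⟨s, hs⟩ := hb
  obtain ⟨E, h1, h2, -, -⟩ := spectral b s hs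
  refine ⟨s.image fun p => c * p, ?_⟩
  have h3 : ∀ q ∈ s, E q * ∏ x ∈ s.image fun p => c * p, (c • b - algebraMap ℚ B x) = 0 := by
    intro q hq
    have hm : c * q ∈ s.image fun p => c * p := Finset.mem_image.mpr ⟨q, hq, rfl⟩
    rw [← Finset.mul_prod_erase _ _ hm, ← mul_assoc]
    have h4 : E q * (c • b - algebraMap ℚ B (c * q)) = 0 := by
      rw [map_mul, Algebra.smul_def]
      linear_combination algebraMap ℚ B c * h1 q hq
    rw [h4, zero_mul]
  calc _ = (∑ q ∈ s, E q) * ∏ x ∈ s.image fun p => c * p, (c • b - algebraMap ℚ B x) := by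
        rw [h2, one_mul]
    _ = 0 := by
      rw [Finset.sum_mul]
      exact Finset.sum_eq_zero fun q hq => h3 q hq

lemma prod_of_mem (b : B) (hb : b ∈ RV B) :
    ∃ s : Finset ℚ, ∏ q ∈ s, (b - algebraMap ℚ B q) = 0 := by
  classical
  refine Submodule.span_induction (p := fun b _ =>
    ∃ s : Finset ℚ, ∏ q ∈ s, (b - algebraMap ℚ B q) = 0) ?_ ?_ ?_ ?_ hb
  · intro e he
    refine ⟨{0, 1}, ?_⟩
    rw [Finset.prod_insert (by simp), Finset.prod_singleton, map_zero, map_one, sub_zero,
      mul_sub, mul_one]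
    have he' : e * e = e := he
    rw [he', sub_self]
  · refine ⟨{0}, ?_⟩
    rw [Finset.prod_singleton, map_zero, sub_zero]
  · intro x y _ _ hx hy
    exact prod_add x y hx hy
  · intro c x _ hx
    exact prod_smul x c hx

/-- The key step of the extension: a relation between idempotents on the support of an
idempotent `g`. -/
lemma relation (θ : B → ℚ)
    (hθ : ∀ e f : B, e * e = e → f * f = f → e * f = 0 → θ (e + f) = θ e + θ f)
    {ι : Type u} (E : ι → B) (hE : ∀ i, E i * E i = E i) (c : ι → ℚ) (F : Finset ι) :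
    ∀ (g : B) (_ : g * g = g) (l : ℚ),
      g * ∑ i ∈ F, algebraMap ℚ B (c i) * E i = algebraMap ℚ B l * g →
      ∑ i ∈ F, c i * θ (g * E i) = l * θ g := by
  classical
  have h0 : θ 0 = 0 := by
    have h := hθ 0 0 (mul_zero 0) (mul_zero 0) (mul_zero 0)
    rw [add_zero] at h
    linarith
  induction F using Finset.induction_on with
  | empty =>
    intro g hg l h
    rw [Finset.sum_empty, mul_zero] at h
    rw [Finset.sum_empty]
    rcases eq_or_ne l 0 with rfl | hl
    · rw [zero_mul]
    · rw [smul_eq_zero' hl h.symm, h0, mul_zero]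
  | insert a F ha ih =>
    intro g hg l h
    rw [Finset.sum_insert ha] at h
    have ha2 := hE a
    have h1 := ih (g * E a) (by linear_combination (E a * E a) * hg + g * ha2) (l - c a) (by
      rw [map_sub]
      linear_combination E a * h - (algebraMap ℚ B (c a)) * g * ha2)
    have h2 := ih (g * (1 - E a)) (by
      linear_combination (1 - E a) * (1 - E a) * hg + g * ha2) l (by
      linear_combination (1 - E a) * h + (algebraMap ℚ B (c a)) * g * ha2)
    have h3 : θ g = θ (g * E a) + θ (g * (1 - E a)) := by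
      rw [← hθ (g * E a) (g * (1 - E a))
        (by linear_combination (E a * E a) * hg + g * ha2)
        (by linear_combination (1 - E a) * (1 - E a) * hg + g * ha2)
        (by linear_combination -(g * g) * ha2)]
      congr 1
      ring
    have h4 : ∀ i, θ (g * E i) = θ (g * E a * E i) + θ (g * (1 - E a) * E i) := by
      intro i
      have hi := hE i
      rw [← hθ (g * E a * E i) (g * (1 - E a) * E i)
        (by linear_combination (E a * E a * E i * E i) * hg + g * E i * E i * ha2 +
          g * E a * hi)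
        (by linear_combination (1 - E a) * (1 - E a) * E i * E i * hg +
          g * E i * E i * ha2 + g * (1 - E a) * hi)
        (by linear_combination -(g * g) * E i * E i * ha2)]
      congr 1
      ring
    rw [Finset.sum_insert ha]
    have h5 : ∑ i ∈ F, c i * θ (g * E i) = ∑ i ∈ F, c i * θ (g * E a * E i) +
        ∑ i ∈ F, c i * θ (g * (1 - E a) * E i) := by
      rw [← Finset.sum_add_distrib]
      refine Finset.sum_congr rfl fun i _ => ?_
      rw [h4 i, mul_add]
    rw [h5, h1, h2, h3]
    ring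

end VBMod

open VBMod in
theorem specVB : SpecVB.{u} where
  char := fun B _ _ b => ⟨fun h => prod_of_mem b h, fun ⟨s, hs⟩ => mem_of_prod b s hs⟩
  ext := by
    intro B _ _ θ hθ
    classical
    let ι : Type u := {e : B // e * e = e}
    let f : (ι →₀ ℚ) →ₗ[ℚ] RV B :=
      Finsupp.linearCombination ℚ fun e : ι => (⟨e.1, Submodule.subset_span e.2⟩ : RV B)
    let t : (ι →₀ ℚ) →ₗ[ℚ] ℚ := Finsupp.linearCombination ℚ fun e : ι => θ e.1
    have hf : LinearMap.range f = ⊤ := by
      rw [eq_top_iff]
      rintro ⟨b, hb⟩ -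
      refine Submodule.span_induction (p := fun b hb => (⟨b, hb⟩ : RV B) ∈ LinearMap.range f)
        ?_ ?_ ?_ ?_ hb
      · intro e he
        refine ⟨Finsupp.single ⟨e, he⟩ 1, ?_⟩
        rw [Finsupp.linearCombination_single, one_smul]
      · exact ⟨0, map_zero f⟩
      · intro x y hx hy h1 h2
        exact Submodule.add_mem _ h1 h2
      · intro c x hx h1
        exact Submodule.smul_mem _ c h1
    have hk : ∀ c : ι →₀ ℚ, f c = 0 → t c = 0 := by
      intro c hc
      have h1 : ∑ i ∈ c.support, algebraMap ℚ B (c i) * i.1 = 0 := by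
        have h2 := congrArg (Submodule.subtype (RV B)) hc
        rw [map_zero, Finsupp.linearCombination_apply, Finsupp.sum, map_sum] at h2
        rw [← h2]
        refine Finset.sum_congr rfl fun i _ => ?_
        rw [map_smul, Submodule.subtype_apply, Algebra.smul_def]
      have h3 := relation θ hθ (fun i : ι => i.1) (fun i => i.2) (fun i => c i) c.support 1
        (mul_one 1) 0 (by rw [h1, mul_zero, map_zero, zero_mul])
      rw [zero_mul] at h3
      rw [Finsupp.linearCombination_apply, Finsupp.sum]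
      rw [← h3]
      refine Finset.sum_congr rfl fun i _ => ?_
      rw [one_mul, smul_eq_mul]
    obtain ⟨g, hg⟩ := LinearMap.exists_rightInverse_of_surjective f hf
    refine ⟨t.comp g, fun e he => ?_⟩
    have h1 : f (g ⟨e, Submodule.subset_span he⟩ - Finsupp.single ⟨e, he⟩ 1) = 0 := by
      rw [map_sub, Finsupp.linearCombination_single, one_smul]
      have h2 := LinearMap.congr_fun hg ⟨e, Submodule.subset_span he⟩
      rw [LinearMap.comp_apply, LinearMap.id_apply] at h2
      rw [h2, sub_self]
    have h3 := hk _ h1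
    rw [map_sub, sub_eq_zero, Finsupp.linearCombination_single, one_smul] at h3
    rw [LinearMap.comp_apply, h3]

end Pool.Agent.Lib.MPb6f35e.ZK
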